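import Pool.Agent.Lib.MP_9f3af0_lcB.Mono

/-!
# MP_9f3af0_lc: arcs in the frame of the overall longest gap (helper47, helper54; Lean by helper59)

`Fat k r T x`: the rows of `[x - k, x)` hide the columns of `(x, T)`.  `Lst r T a m`: `m` is the last
sight of the row `a` before `T`.
-/

namespace VisMap

namespace Tp

/-- The rows of `[x - k, x)` hide the columns of `(x, T)`. -/
def Fat (k : ℤ) (r : ℤ → ℤ → Prop) (T x : ℤ) : Prop :=
  ∀ a y, x - k ≤ a → a < x → x < y → y < T → ¬ r a y

/-- `m` is the last sight of the row `a` before `T`. -/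
structure Lst (r : ℤ → ℤ → Prop) (T a m : ℤ) : Prop where
  am : a < m
  mT : m < T
  see : r a m
  hid : ∀ y, m < y → y < T → ¬ r a y

variable {n : ℕ} {k B : ℤ} {r : ℤ → ℤ → Prop} {t v T : ℤ}

theorem TZ.exists_lst (h : TZ n k B r) {a : ℤ} (ha : a + 1 < T) : ∃ m, Lst r T a m := by
  obtain ⟨m, m1, m2, m3, m4⟩ := h.last (v := a) (a := T - 1) (by omega)
  exact ⟨m, m1, by omega, m3, fun y y1 y2 => m4 y y1 (by omega)⟩

theorem Lst.le {a m y : ℤ} (L : Lst r T a m) (hy : y < T) (hr : r a y) : y ≤ m := by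
  by_contra hc
  exact L.hid y (by omega) hy hr

/-- (1) The arcs are laminar. -/
theorem Lst.lam (h : TZ n k B r) {a a' m y : ℤ} (L : Lst r T a m) (h1 : a < a') (h2 : a' < m)
    (hy : y < T) (hr : r a' y) : y ≤ m := by
  by_contra hc
  exact L.hid y (by omega) hy (h.X a a' m y h1 h2 (by omega) L.see hr)

/-- (2) An arc is short or long. -/
theorem Lst.short (h : TZ n k B r) {a m : ℤ} (L : Lst r T a m) (hf : ¬ Fat k r T m) :
    m < a + k := by
  by_contra hc
  refine hf fun a' y h1 h2 h3 h4 h5 => ?_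
  rcases lt_trichotomy a' a with h6 | h6 | h6
  · omega
  · rw [h6] at h5; exact L.hid y h3 h4 h5
  · have := L.lam h h6 h2 h4 h5
    omega

/-- (3) Every window contains the start of a long arc. -/
theorem TZ.exists_long (h : TZ n k B r) {x : ℤ} (hx : x < T - k)
    (hN : ∀ y, x ≤ y → y < T - k → ¬ Fat k r T y) :
    ∃ a m, x - k ≤ a ∧ a < x ∧ Lst r T a m ∧ T - k ≤ m := by
  have hk := h.hk
  have h0 := hN x le_rfl hx
  have h1 : ∃ a y, x - k ≤ a ∧ a < x ∧ x < y ∧ y < T ∧ r a y := by
    by_contra hc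
    exact h0 fun a y a1 a2 a3 a4 a5 => hc ⟨a, y, a1, a2, a3, a4, a5⟩
  obtain ⟨a0, y0, b1, b2, b3, b4, b5⟩ := h1
  obtain ⟨m0, L0⟩ := h.exists_lst (T := T) (a := a0) (by omega)
  have hm0 := L0.le b4 b5
  obtain ⟨m, ⟨a, a1, a2, a3, L⟩, hmax⟩ := Int.exists_greatest_of_bdd
    (P := fun m => ∃ a, x - k ≤ a ∧ a < x ∧ x < m ∧ Lst r T a m)
    ⟨T, fun m ⟨a, _, _, _, L⟩ => L.mT.le⟩ ⟨m0, a0, b1, b2, by omega, L0⟩
  refine ⟨a, m, a1, a2, L, ?_⟩
  by_contra hc
  refine hN m a3.le (by omega) fun a' y c1 c2 c3 c4 c5 => ?_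
  rcases lt_or_ge a' x with h6 | h6
  · obtain ⟨m', L'⟩ := h.exists_lst (T := T) (a := a') (by omega)
    have h7 := L'.le c4 c5
    have := hmax m' ⟨a', by omega, h6, by omega, L'⟩
    omega
  · have := L.lam h (by omega) c2 c4 c5
    omega

/-- (4) The mate `v - k` of the viewer sees the last column before the far corner. -/
theorem OG.see_last (h : TZ n k B r) (G : OG r t v)
    (hN : ∀ y, v + 1 ≤ y → y < v + 1 + t - k → ¬ Fat k r (v + 1 + t) y) (hkt : k < t) :
    r (v - k) (v + t) := by
  have hk := h.hk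
  obtain ⟨m, L⟩ := h.exists_lst (T := v + 1 + t) (a := v - k) (by omega)
  have hT := G.see h (u := v - k) (y := v + 1 + t) (by omega) le_rfl
  have hg : Gp r (v - k) m (v + 1 + t) := ⟨L.am, L.mT, L.see, hT, L.hid⟩
  have hl := G.gf _ _ _ hg
  have h1 : v + 1 < m := by
    rcases (show v + 1 ≤ m by omega).lt_or_eq with h2 | h2
    · exact h2
    · exfalso
      refine hN (v + 1) le_rfl (by omega) fun a y a1 a2 a3 a4 a5 => ?_
      have := L.lam h (a' := a) (y := y) (by omega) (by omega) a4 a5
      omega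
  have h2 : v + 1 + t - k ≤ m := by
    by_contra hc
    have := L.short h (hN m (by omega) (by omega))
    omega
  by_contra hno
  have hm : m < v + t := by
    rcases lt_trichotomy m (v + t) with h3 | h3 | h3
    · exact h3
    · rw [h3] at L; exact absurd L.see hno
    · have := L.mT; omega
  -- the natural before the one of the far corner
  have hw : k ∣ v - k - v := ⟨-1, by ring⟩
  have e1 := lcT_split (k := k) (T := Tf r (v - k)) (a := v - k) (b := m) (c := v + 1 + t)
    (by omega) (by omega)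
  have e2 := lcT_gap hk (T := Tf r (v - k)) (a := m) (b := v + 1 + t) (by omega)
    ⟨by omega, L.see⟩ ⟨by omega, hT⟩ fun y y1 y2 y3 => L.hid y y1 y2 y3.2
  rw [Int.ediv_eq_zero_of_lt (by omega) (by omega)] at e2
  have e3 : lcT k (Tf r (v - k)) (v - k) (v + 1 + t) = lcT k (Tf r (v - k)) (v - k) m := by
    omega
  have h3 := G.word h hw (z := m) (by omega) L.see
  obtain ⟨z, z1, z2, z3⟩ := G.word' h hw
    (m := m - (v - k) - k * (lcT k (Tf r (v - k)) (v - k) m : ℤ) + 1) (by omega)
  have hmz : m < z := by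
    by_contra hc
    rcases (show z ≤ m by omega).lt_or_eq with h4 | h4
    · have := h.nat_lt z1 h4 z2 L.see
      omega
    · rw [h4] at z3; omega
  have hzT : z < v + 1 + t := by
    by_contra hc
    rcases (show v + 1 + t ≤ z by omega).lt_or_eq with h4 | h4
    · have := h.nat_lt (by omega : v - k < v + 1 + t) h4 hT z2
      rw [e3] at this
      omega
    · rw [← h4, e3] at z3
      omega
  exact L.hid z hmz hzT z2

/-- (4') Every row `≤ v - k` sees the last column before the far corner. -/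
theorem OG.see_last' (h : TZ n k B r) (G : OG r t v)
    (hN : ∀ y, v + 1 ≤ y → y < v + 1 + t - k → ¬ Fat k r (v + 1 + t) y) (hkt : k < t) {a : ℤ}
    (ha : a ≤ v - k) : r a (v + t) := by
  have hk := h.hk
  have h0 := G.see_last h hN hkt
  rcases ha.lt_or_eq with h1 | h1
  · by_contra hno
    obtain ⟨p, p1, p2, p3, p4⟩ := h.last (v := a) (a := v + t) (by omega)
    obtain ⟨z, z1, z2, z3, -⟩ := h.next (v := a) (a := v + t) (by omega)
    have hp : p < v + t := by
      rcases p2.lt_or_eq with h2 | h2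
      · exact h2
      · rw [h2] at p3; exact absurd p3 hno
    have := G.gf a p z ⟨p1, by omega, p3, z2, fun m m1 m2 => by
      rcases lt_or_ge (v + t) m with hm | hm
      · exact z3 m hm m2
      · exact p4 m m1 hm⟩
    exact hno (h.X a (v - k) p (v + t) h1 (by omega) hp p3 h0)
  · rw [h1]; exact h0

/-- (S2B) The minimal fat point has at most as many backward laps as its lower mate. -/
theorem OG.fat_lb (h : TZ n k B r) (G : OG r t v) {x : ℤ} (hF : Fat k r (v + 1 + t) x)
    (hN : ∀ y, v + 1 ≤ y → y < x → ¬ Fat k r (v + 1 + t) y) (hx : x < v + 1 + t) :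
    lb k B r x ≤ lb k B r (x - k) := by
  have hk := h.hk
  have claim : ∀ d, x - k ≤ d → d < x → r x d → (∀ u, d - k ≤ u → u < d → ¬ r x u) → False := by
    intro d d1 d2 d3 d4
    have hi : ∀ u y, d - k ≤ u → u < d → x < y → y < v + 1 + t → ¬ r u y := by
      by_contra hcon
      push Not at hcon
      obtain ⟨u0, y0, u1, u2, u3, u4, u5⟩ := hcon
      obtain ⟨u, ⟨y, c1, c2, c3, c4, c5⟩, hmax⟩ := Int.exists_greatest_of_bdd
        (P := fun u => ∃ y, d - k ≤ u ∧ u < d ∧ x < y ∧ y < v + 1 + t ∧ r u y)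
        ⟨d, fun u ⟨y, _, hu, _⟩ => hu.le⟩ ⟨u0, y0, u1, u2, u3, u4, u5⟩
      have hux : u < x - k := by
        by_contra hc
        exact hF u y (by omega) (by omega) c3 c4 c5
      have hnx : ¬ r u x := fun hh => d4 u c1 c2 (h.symm _ _ hh)
      obtain ⟨p, p1, p2, p3, p4⟩ := h.last (v := u) (a := x) (by omega)
      have hpx : p < x := by
        rcases p2.lt_or_eq with h2 | h2
        · exact h2
        · rw [h2] at p3; exact absurd p3 hnx
      obtain ⟨q, q1, q2, q3, q4⟩ := exists_first (p := fun z => r u z) (a := x + 1) (b := y)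
        (by omega) c5
      have hpq : r p q := h.cn u p q p1 (by omega) p3 q3 fun m m1 m2 => by
        rcases lt_or_ge x m with hm | hm
        · exact q4 m (by omega) m2
        · exact p4 m m1 hm
      have hpd : p ≤ d := by
        by_contra hc
        exact hnx (h.X u d p x c2 (by omega) hpx p3 (h.symm _ _ d3))
      have hpx' : p < x - k := by
        by_contra hc
        exact hF p q (by omega) hpx (by omega) (by omega) hpq
      have := hmax p ⟨q, by omega, by omega, by omega, by omega, hpq⟩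
      omega
    have hFd : Fat k r (v + 1 + t) d := by
      intro u y u1 u2 u3 u4 u5
      rcases lt_trichotomy y x with h2 | h2 | h2
      · exact d4 u u1 u2 (h.symm _ _ (h.X u d y x u2 u3 h2 u5 (h.symm _ _ d3)))
      · rw [h2] at u5; exact d4 u u1 u2 (h.symm _ _ u5)
      · exact hi u y u1 u2 h2 u4 u5
    rcases lt_or_ge d (v + 1) with h2 | h2
    · obtain ⟨z, z1, z2, z3, -⟩ := h.next (v := d - 1) (a := d) (by omega)
      have hz : v + 1 + t ≤ z := by
        by_contra hc
        exact hFd (d - 1) z (by omega) (by omega) z1 (by omega) z2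
      have hs := h.succ (d - 1)
      rw [sub_add_cancel] at hs
      have := G.gf (d - 1) d z ⟨by omega, by omega, hs, z2, z3⟩
      omega
    · exact hN d h2 d2 hFd
  obtain ⟨b, b1, b2, b3, -⟩ := h.next' (v := x) (a := x - k) (by omega)
  obtain ⟨d, d1, d2, d3, d4⟩ := h.last' (v := x) (a := x - k) (by omega)
  have hdb : d - b ≤ k := by
    by_contra hc
    refine claim d d1 d2 d3 fun u u1 u2 => ?_
    rcases lt_or_ge u (x - k) with h2 | h2
    · exact b3 u (by omega) h2
    · exact d4 u h2 u2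
  refine h.mono' (x := b) (y := x - k) (x' := x) b1 (by omega) (h.symm _ _ b2) ?_
  have e1 := lcT_split (k := k) (T := Tf (VisMap.mirror r) (-x)) (a := -x) (b := -d) (c := -b)
    (by omega) (by omega)
  have e2 : lcT k (Tf (VisMap.mirror r) (-x)) (-x) (-d) = 0 := lcT_eq_zero fun z z1 z2 z3 => by
    obtain ⟨-, s, s1, s2, -, s4⟩ := z3
    have := Int.le_of_dvd (by omega) s4
    have := s2.1
    omega
  have e3 := lcT_gap hk (T := Tf (VisMap.mirror r) (-x)) (a := -d) (b := -b) (by omega)
    ⟨by omega, (mir_iff x d).2 d3⟩ ⟨by omega, (mir_iff x b).2 b2⟩ fun m m1 m2 m3 => by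
      have hm := m3.2
      have e : m = -(-m) := (neg_neg m).symm
      rw [e, mir_iff] at hm
      rcases lt_or_ge (-m) (x - k) with h2 | h2
      · exact b3 (-m) (by omega) h2 hm
      · exact d4 (-m) h2 (by omega) hm
  rw [Int.ediv_eq_zero_of_lt (by omega) (by omega)] at e3
  omega

end Tp

end VisMap
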