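import Pool.Agent.Lib.MP_9f3af0_lcB.LemB
import Pool.Agent.Lib.MP_9f3af0_lc.K2b

/-!
# MP_9f3af0_lc: LEMMA B\*, the pointwise form (helpers 12, 96, 33, 74, 55; Lean by helper81)

`bstar`: let `v < p < z < v + n`, `v` sees `p`, and `[v, p) × (p, z]` be hidden.  Every vertex which is
seen by `v` and not by `p` is the far end of a hidden rectangle whose opposite side contains
`[p, z]`: `[p, c) × (c, y']` with `z < c`, or `[y', c) × (c, z]` with `c < p`.
`NE n r D p z`: no element of `D` is such a far end.  Then all elements of `D` seen by `v` are seen by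
`p` (`bstar_nb`), `Hc` does not increase (`bstar_Hc`), and in the case of equality `v` and `p` see the
same elements of the class (`bstar_twins`).
-/

namespace VisMap

namespace LemB

open Cut

variable {n : ℕ} {k : ℤ} {r : ℤ → ℤ → Prop}

theorem perR (h : ZRel n r) (a b : ℤ) : r a (b + n) ↔ r a b :=
  (ZR.of_zRel h).perR a b

theorem per' (h : ZRel n r) (a b : ℤ) : r (a + n) (b + n) ↔ r a b :=
  (h.per _ _).trans (perR h _ _)

/-- Translation by `n`. -/
theorem Hd.sub_n (h : ZRel n r) {a c b : ℤ} (hr : Hd r a c b) : Hd r (a - n) (c - n) (b - n) := by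
  intro x y x1 x2 y1 y2 hxy
  exact hr (x + n) (y + n) (by omega) (by omega) (by omega) (by omega) ((per' h _ _).2 hxy)

theorem Hd.add_n (h : ZRel n r) {a c b : ℤ} (hr : Hd r a c b) : Hd r (a + n) (c + n) (b + n) := by
  intro x y x1 x2 y1 y2 hxy
  refine hr (x - n) (y - n) (by omega) (by omega) (by omega) (by omega) ?_
  have e1 : x - n + (n : ℤ) = x := by ring
  have e2 : y - n + (n : ℤ) = y := by ring
  rw [← e1, ← e2] at hxy
  exact (per' h _ _).1 hxy

theorem Hd.of_mir (h : ZRel n r) {a c b : ℤ} (hr : Hd (VisMap.mirror r) a c b) :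
    Hd r (-b) (-c) (-a) := by
  intro x y x1 x2 y1 y2 hxy
  refine hr (-y) (-x) (by omega) (by omega) (by omega) (by omega) ?_
  show r (- -y) (- -x)
  rw [neg_neg, neg_neg]
  exact h.symm _ _ hxy

theorem Hd.to_mir (h : ZRel n r) {a c b : ℤ} (hr : Hd r a c b) :
    Hd (VisMap.mirror r) (-b) (-c) (-a) := by
  intro x y x1 x2 y1 y2 hxy
  exact hr (-y) (-x) (by omega) (by omega) (by omega) (by omega) (h.symm _ _ hxy)

/-- The previous visible vertex. -/
theorem exists_prev' {i a b : ℤ} (hab : a < b) (ha : r i a) :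
    ∃ t, a ≤ t ∧ t < b ∧ r i t ∧ ∀ m, t < m → m < b → ¬ r i m := by
  obtain ⟨t, h1, h2, h3, h4⟩ := exists_next (r := fun x y => r x (-y)) (i := i) (a := -b) (b := -a)
    (by omega) (by show r i (- -a); rwa [neg_neg])
  refine ⟨-t, by omega, by omega, h3, fun m m1 m2 m3 => h4 (-m) (by omega) (by omega) ?_⟩
  show r i (- -m)
  rwa [neg_neg]

/-- A hidden pair `a < b < a + n`: the gap `(s, t)` of `a` around `b`, and `b` is hidden by the corner
`s` or by the corner `t`. -/
theorem hcorner (h : ZRel n r) {a b : ℤ} (hab : a < b) (hbn : b < a + n) (hn : ¬ r a b) :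
    ∃ s t, a < s ∧ s < b ∧ b < t ∧ t < a + n ∧ r a s ∧ r a t ∧ r s t ∧
      (∀ m, s < m → m < t → ¬ r a m) ∧ (Hd r a s b ∨ Hd r b t (a + n)) := by
  have hb1 : a + 1 < b := by
    rcases lt_or_eq_of_le (show a + 1 ≤ b by omega) with hl | hl
    · exact hl
    · exact absurd (hl ▸ h.succ a) hn
  have hb2 : b < a + n - 1 := by
    rcases lt_or_eq_of_le (show b ≤ a + n - 1 by omega) with hl | hl
    · exact hl
    · exact absurd (hl ▸ last h a) hn
  obtain ⟨s, s1, s2, s3, s4⟩ := exists_prev' hb1 (h.succ a)
  obtain ⟨t, t1, t2, t3, t4⟩ := exists_next hb2 (last h a)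
  have hg : ∀ m, s < m → m < t → ¬ r a m := by
    intro m m1 m2
    rcases lt_trichotomy m b with hl | hl | hl
    · exact s4 m m1 hl
    · rw [hl]; exact hn
    · exact t4 m hl m2
  have hst := h.cn a s t (by omega) (by omega) (by omega) s3 t3 hg
  obtain ⟨c, c1, c2, c3, c4⟩ := h.nc a s t (by omega) (by omega) (by omega) s3 t3 hg
  refine ⟨s, t, by omega, s2, t1, by omega, s3, t3, hst, hg, ?_⟩
  rcases le_or_gt b c with hc | hc
  · left
    intro x y x1 x2 y1 y2
    exact c3 x y x1 x2 y1 (by omega)
  · right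
    intro x y x1 x2 y1 y2 hxy
    exact c4 y x y1 y2 (by omega) x2 (h.symm _ _ hxy)

/-- **Lemma B\*.**  Every vertex seen by `v` and not by `p` is the far end of a hidden rectangle whose
opposite side contains `[p, z]`. -/
theorem bstar (h : ZRel n r) {v p z y : ℤ} (hvp : v < p) (hpz : p < z) (hzn : z < v + n)
    (hv : r v p) (hr : Hd r v p z) (h1 : v < y) (h2 : y < v + n) (hy : r v y) (hyp : y ≠ p)
    (hny : ¬ r p y) :
    (∃ c y', z < c ∧ c < y' ∧ y' < p + n ∧ (y' = y ∨ y' = y + n) ∧ Hd r p c y') ∨
      (∃ c y', y' < c ∧ c < p ∧ z < y' + n ∧ (y' = y ∨ y' = y - n) ∧ Hd r y' c z) := by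
  -- the next sight `q` of `v` behind `p`
  have hz1 : z < v + n - 1 := by
    rcases lt_or_eq_of_le (show z ≤ v + n - 1 by omega) with hl | hl
    · exact hl
    · exact absurd (hl ▸ last h v) (hr v z le_rfl hvp hpz le_rfl)
  obtain ⟨q, q1, q2, q3, q4⟩ := exists_next (show p < v + n - 1 by omega) (last h v)
  have hzq : z < q := by
    by_contra hc
    exact hr v q le_rfl hvp q1 (by omega) q3
  have hpq : r p q := h.cn v p q hvp q1 (by omega) hv q3 q4
  rcases lt_or_gt_of_ne hyp with hl | hl
  · -- `y` between `v` and `p`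
    have hny' : ¬ r y p := fun hc => hny (h.symm _ _ hc)
    obtain ⟨s, t, s1, s2, t1, t2, s3, t3, -, hg, hc⟩ := hcorner h hl (by omega) hny'
    have hzt : z < t := by
      by_contra hlt
      exact hr y t h1.le hl t1 (by omega) t3
    rcases hc with hc | hc
    · right
      refine ⟨s, y, s1, s2, by omega, Or.inl rfl, ?_⟩
      intro a b a1 a2 b1 b2
      rcases le_or_gt b p with hb | hb
      · exact hc a b a1 a2 b1 hb
      · exact hr a b (by omega) (by omega) hb b2
    · left
      have htv : v + n ≤ t := by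
        by_contra hlt
        exact hc p (v + n) le_rfl t1 (by omega) (by omega) ((perR h _ _).2 (h.symm _ _ hv))
      exact ⟨t, y + n, by omega, t2, by omega, Or.inr rfl, hc⟩
  · -- `y` behind `p`
    have hqy : q < y := by
      rcases lt_trichotomy y q with hq | hq | hq
      · exact absurd hy (q4 y hl hq)
      · rw [hq] at hny; exact absurd hpq hny
      · exact hq
    obtain ⟨s, t, s1, s2, t1, t2, s3, t3, -, hg, hc⟩ := hcorner h hl (by omega) hny
    rcases hc with hc | hc
    · left
      have hqs : q ≤ s := by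
        by_contra hlt
        exact hg q (by omega) (by omega) hpq
      exact ⟨s, y, by omega, s2, by omega, Or.inl rfl, hc⟩
    · right
      have htv : v + n ≤ t := by
        by_contra hlt
        exact hc y (v + n) le_rfl t1 (by omega) (by omega) ((perR h _ _).2 (h.symm _ _ hy))
      have hc' : Hd r (y - n) (t - n) p := by
        have h5 := Hd.sub_n h hc
        have e : p + n - (n : ℤ) = p := by ring
        rwa [e] at h5
      refine ⟨t - n, y - n, by omega, by omega, by omega, Or.inr rfl, ?_⟩
      -- no row of `[y - n, v)` sees into `(p, z]`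
      have key : ∀ m : ℕ, ∀ x, y - n ≤ x → x < v → v - x ≤ m → ∀ b, p < b → b ≤ z → ¬ r x b := by
        intro m
        induction m with
        | zero => intro x x1 x2 x3; omega
        | succ m ih =>
          intro x x1 x2 x3 b b1 b2 hxb
          -- the first sight of `x` behind `p`
          obtain ⟨z1, z2, z3, z4, z5⟩ := exists_next b1 hxb
          -- the last sight of `x` up to `p`
          obtain ⟨r1, r2, r3, r4, r5⟩ := exists_prev' (show x + 1 < p + 1 by omega) (h.succ x)
          have hr1 : r1 ≤ t - n := by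
            by_contra hlt
            exact hc' x r1 x1 (by omega) (by omega) (by omega) r4
          have hcn : r r1 z1 := h.cn x r1 z1 (by omega) (by omega) (by omega) r4 z4 fun c c1 c2 => by
            rcases le_or_gt c p with hcp | hcp
            · exact r5 c c1 (by omega)
            · exact z5 c hcp c2
          rcases lt_or_ge r1 v with hrv | hrv
          · exact ih r1 (by omega) hrv (by omega) z1 z2 (by omega) hcn
          · exact hr r1 z1 hrv (by omega) z2 (by omega) hcn
      intro a b a1 a2 b1 b2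
      rcases le_or_gt b p with hb | hb
      · exact hc' a b a1 a2 b1 hb
      · rcases lt_or_ge a v with ha | ha
        · exact key (v - a).toNat a a1 ha (by omega) b hb b2
        · exact hr a b ha (by omega) hb b2

/-- **Lemma B\*, mirror image.** -/
theorem bstar' (h : ZRel n r) {v p z y : ℤ} (hvp : p < v) (hpz : z < p) (hzn : v - n < z)
    (hv : r v p) (hr : Hd r z p v) (h1 : v - n < y) (h2 : y < v) (hy : r v y) (hyp : y ≠ p)
    (hny : ¬ r p y) :
    (∃ c y', c < z ∧ y' < c ∧ p - n < y' ∧ (y' = y ∨ y' = y - n) ∧ Hd r y' c p) ∨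
      (∃ c y', c < y' ∧ p < c ∧ y' - n < z ∧ (y' = y ∨ y' = y + n) ∧ Hd r z c y') := by
  have hm := ZRel.mirror h
  rcases bstar (r := VisMap.mirror r) hm (v := -v) (p := -p) (z := -z) (y := -y) (by omega)
    (by omega) (by omega) (by show r (- -v) (- -p); rwa [neg_neg, neg_neg])
    (Hd.to_mir h hr) (by omega) (by omega) (by show r (- -v) (- -y); rwa [neg_neg, neg_neg])
    (by omega) (by intro hc; apply hny; have : r (- -p) (- -y) := hc; rwa [neg_neg, neg_neg] at this)
    with ⟨c, y', c1, c2, c3, c4, c5⟩ | ⟨c, y', c1, c2, c3, c4, c5⟩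
  · left
    refine ⟨-c, -y', by omega, by omega, by omega, ?_, ?_⟩
    · rcases c4 with c4 | c4
      · left; omega
      · right; omega
    · have := Hd.of_mir h c5
      rwa [neg_neg] at this
  · right
    refine ⟨-c, -y', by omega, by omega, by omega, ?_, ?_⟩
    · rcases c4 with c4 | c4
      · left; omega
      · right; omega
    · have := Hd.of_mir h c5
      rwa [neg_neg] at this

/-- No element of `D` is the far end of a hidden rectangle whose opposite side contains `[p, z]`. -/
structure NE (n : ℕ) (r : ℤ → ℤ → Prop) (D : ℤ → Prop) (p z : ℤ) : Prop where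
  per : ∀ y, D (y + n) ↔ D y
  fw : ∀ c y, z < c → c < y → y < p + n → D y → ¬ Hd r p c y
  bw : ∀ c y, y < c → c < p → z < y + n → D y → ¬ Hd r y c z

theorem NE.of_PB {D : ℤ → Prop} {P p z : ℤ} (hD : PB n r D P) (hpz : p < z) (hP : P ≤ z - p) :
    NE n r D p z where
  per := hD.per
  fw c y h1 h2 h3 hy hH := by
    have := hD.fw p c y hy (by omega) h2 (by omega) hH
    omega
  bw c y h1 h2 h3 hy hH := by
    have := hD.bw y c z hy h1 (by omega) h3 hH
    omega

theorem NE.mirror {D : ℤ → Prop} {p z : ℤ} (hs : ∀ a b, r a b → r b a)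
    (hper : ∀ y, D (y + n) ↔ D y)
    (hfw : ∀ c y, c < z → y < c → p - n < y → D y → ¬ Hd r y c p)
    (hbw : ∀ c y, c < y → p < c → y - n < z → D y → ¬ Hd r z c y) :
    NE n (VisMap.mirror r) (fun y => D (-y)) (-p) (-z) where
  per y := by
    have e : -(y + (n : ℤ)) = -y - n := by ring
    rw [e, ← hper (-y - n), sub_add_cancel]
  fw c y h1 h2 h3 hy hH := by
    refine hfw (-c) (-y) (by omega) (by omega) (by omega) hy ?_
    intro a b a1 a2 b1 b2 hab
    refine hH (-b) (-a) (by omega) (by omega) (by omega) (by omega) ?_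
    show r (- -b) (- -a)
    rw [neg_neg, neg_neg]
    exact hs _ _ hab
  bw c y h1 h2 h3 hy hH := by
    refine hbw (-c) (-y) (by omega) (by omega) (by omega) hy ?_
    intro a b a1 a2 b1 b2 hab
    refine hH (-b) (-a) (by omega) (by omega) (by omega) (by omega) ?_
    show r (- -b) (- -a)
    rw [neg_neg, neg_neg]
    exact hs _ _ hab

/-- Lemma B\* for a set `D`, normalised. -/
theorem bstar_D (h : ZRel n r) {D : ℤ → Prop} {v p z y : ℤ} (hD : NE n r D p z) (hvp : v < p)
    (hpz : p < z) (hzn : z < v + n) (hr : r v p) (hH : Hd r v p z) (hy : D y) (hyp : y ≠ p)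
    (h1 : v < y) (h2 : y < v + n) (hvy : r v y) : r p y := by
  by_contra hno
  rcases bstar h hvp hpz hzn hr hH h1 h2 hvy hyp hno with
    ⟨c, y', c1, c2, c3, c4, c5⟩ | ⟨c, y', c1, c2, c3, c4, c5⟩
  · refine hD.fw c y' c1 c2 c3 ?_ c5
    rcases c4 with rfl | rfl
    · exact hy
    · exact (hD.per y).2 hy
  · refine hD.bw c y' c1 c2 c3 ?_ c5
    rcases c4 with rfl | rfl
    · exact hy
    · rw [← hD.per, sub_add_cancel]; exact hy

/-- Lemma B\* for a set `D`, all vertices of the circle. -/
theorem bstar_nb (h : ZRel n r) {D : ℤ → Prop} {v p z y : ℤ} (hD : NE n r D p z) (hvp : v < p)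
    (hpz : p < z) (hzn : z < v + n) (hr : r v p) (hH : Hd r v p z) (hy : D y)
    (hvy : Cut.Nb n r v y) : Cut.Nb n r p y := by
  have hz := ZR.of_zRel h
  rcases hvy with hvy | hvy
  · right
    obtain ⟨j, hj⟩ := hvy
    have e : y = v + j * n := by linarith [mul_comm (n : ℤ) j]
    rw [e]
    exact (per_mul (p := fun z => r p z) (fun z => hz.perR p z) v j).2 (h.symm _ _ hr)
  · by_cases hyp : (n : ℤ) ∣ y - p
    · exact Or.inl hyp
    · right
      have hn0 : (0 : ℤ) < n := by omega
      have e1 := Int.emod_add_mul_ediv (y - v) n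
      have h0 := Int.emod_nonneg (y - v) hn0.ne'
      have h1 := Int.emod_lt_of_pos (y - v) hn0
      set y' := v + (y - v) % n with hy'
      set j := (y - v) / n with hj
      have e2 : y = y' + j * n := by rw [hy']; linarith [mul_comm (n : ℤ) j]
      have hr' : r v y' := by
        have := (per_mul (p := fun z => r v z) (fun z => hz.perR v z) y' j)
        rw [e2] at hvy
        exact this.1 hvy
      have hD' : D y' := by
        have := (per_mul (p := fun z => D z) (fun z => hD.per z) y' j)
        rw [e2] at hy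
        exact this.1 hy
      have hne : y' ≠ v := by
        intro he
        rw [he] at hr'
        exact h.irrefl v hr'
      have hnp : y' ≠ p := by
        intro he
        apply hyp
        exact ⟨j, by rw [e2, he]; ring⟩
      have h2 := bstar_D h hD hvp hpz hzn hr hH hD' hnp (by omega) (by omega) hr'
      rw [e2]
      exact (per_mul (p := fun z => r p z) (fun z => hz.perR p z) y' j).2 h2

/-- Lemma B\*, the numbers of the hidden vertices of a class. -/
theorem bstar_Hc (h : ZRel n r) {k e v p z : ℤ} (hD : NE n r (Cl k e) p z) (hvp : v < p)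
    (hpz : p < z) (hzn : z < v + n) (hr : r v p) (hH : Hd r v p z) :
    Cut.Hc n k r p e ≤ Cut.Hc n k r v e :=
  Cut.Hc_le (V := Cl k e) (fun _ hy hvy => bstar_nb h hD hvp hpz hzn hr hH hy hvy) fun _ hz => hz

/-- Lemma B\*, the case of equality. -/
theorem bstar_twins (h : ZRel n r) (hn : 0 < n) {k e v p z : ℤ} (hk : k ∣ n)
    (hD : NE n r (Cl k e) p z) (hvp : v < p) (hpz : p < z) (hzn : z < v + n) (hr : r v p)
    (hH : Hd r v p z) (heq : Cut.Hc n k r v e ≤ Cut.Hc n k r p e) {y : ℤ} (hy : k ∣ y - e) :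
    Cut.Nb n r v y ↔ Cut.Nb n r p y :=
  Cut.twins_of h hn hk (V := Cl k e)
    (fun _ hy hvy => bstar_nb h hD hvp hpz hzn hr hH hy hvy) (fun _ hz => hz) heq hy

end LemB

end VisMap
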