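import Pool.Agent.Lib.MP_9f3af0_lcB.TZCount

/-!
# MP_9f3af0_lc: monotone views (helper4's contiguity lemma, helper96)

`M0 k r`: for every vertex `v` the `j`-th sight of `v + k` is not behind the `j`-th sight of `v`, in
both directions.  Then in a `T'`-structure the class of an ear consists of ears (`TZ.ear_step`).
-/

namespace VisMap

namespace Tp

variable {n : ℕ} {k B : ℤ} {r : ℤ → ℤ → Prop}

/-- The forward half of `M0`. -/
def M0F (k : ℤ) (r : ℤ → ℤ → Prop) : Prop :=
  ∀ v, ∃ φ : ℤ → ℤ, (∀ o, NF r v o → NF r (v + k) (φ o)) ∧ (∀ o, NF r v o → k ∣ φ o - o) ∧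
    (∀ a b, NF r v a → NF r v b → a < b → φ a < φ b) ∧
    (∀ o', NF r (v + k) o' → ∃ o, NF r v o ∧ φ o = o') ∧ ∀ o, NF r v o → o ≤ φ o + k

/-- The sights do not move back when the viewer moves ahead by `k`. -/
def M0 (k : ℤ) (r : ℤ → ℤ → Prop) : Prop := M0F k r ∧ M0F k (VisMap.mirror r)

theorem M0.mirror (h : M0 k r) : M0 k (VisMap.mirror r) := by
  refine ⟨h.2, ?_⟩
  have e : VisMap.mirror (VisMap.mirror r) = r := by
    funext a b
    show r (- -a) (- -b) = r a b
    rw [neg_neg, neg_neg]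
  rw [e]
  exact h.1

/-- A monotone matching fixes the first sight. -/
theorem match_one {P Q : ℤ → Prop} {φ : ℤ → ℤ} (hP : ∀ o, P o → 0 < o) (hQ : ∀ o, Q o → 0 < o)
    (p1 : P 1) (q1 : Q 1) (f1 : ∀ o, P o → Q (φ o))
    (f3 : ∀ a b, P a → P b → a < b → φ a < φ b) (f4 : ∀ o', Q o' → ∃ o, P o ∧ φ o = o') :
    φ 1 = 1 := by
  obtain ⟨o, o1, o2⟩ := f4 1 q1
  rcases lt_trichotomy 1 o with hl | hl | hl
  · have h5 := f3 1 o p1 o1 hl
    have h6 := hQ _ (f1 1 p1)
    omega
  · rw [← hl] at o2; exact o2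
  · have := hP _ o1; omega

/-- Contiguity: if `v` sees `v + 1 + i k` with `i ≥ 1`, so does `v - k`. -/
theorem TZ.c1 (h : TZ n k B r) (hm : M0F k r) {v i : ℤ} (hi : 1 ≤ i) (hv : r v (v + 1 + i * k)) :
    r (v - k) (v + 1 + i * k) := by
  have hk := h.hk
  obtain ⟨φ, f1, f2, f3, f4, f5⟩ := hm (v - k)
  rw [sub_add_cancel] at f1 f4
  have hik : k ≤ i * k := by nlinarith
  have hone : φ 1 = 1 := match_one (P := NF r (v - k)) (Q := NF r v) (fun o ho => ho.1)
    (fun o ho => ho.1) ⟨one_pos, h.succ _⟩ ⟨one_pos, h.succ _⟩ f1 f3 f4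
  obtain ⟨o, o1, o2⟩ := f4 (1 + i * k) ⟨by omega, by rw [← add_assoc]; exact hv⟩
  have hlt : 1 < o := by
    rcases lt_trichotomy 1 o with hl | hl | hl
    · exact hl
    · rw [← hl, hone] at o2; omega
    · have := o1.1; omega
  have hle := f5 o o1
  rw [o2] at hle
  obtain ⟨c, hc⟩ := f2 o o1
  rw [o2] at hc
  -- `o = 1 + (i - c) k`
  have ho : o = 1 + (i - c) * k := by linarith [mul_comm k c, sub_mul i c k]
  have hj : 1 ≤ i - c := by
    by_contra hc'
    have : (i - c) * k ≤ 0 := mul_nonpos_of_nonpos_of_nonneg (by omega) hk.le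
    omega
  have hj2 : i - c ≤ i + 1 := by
    by_contra hc'
    have h1 : (i + 2) * k ≤ (i - c) * k := mul_le_mul_of_nonneg_right (by omega) hk.le
    have h2 : (i + 2) * k = i * k + 2 * k := by ring
    omega
  rcases hj2.lt_or_eq with hl | he
  · have h1 : (i - c) * k ≤ i * k := mul_le_mul_of_nonneg_right (by omega) hk.le
    have h2 : 1 * k ≤ (i - c) * k := mul_le_mul_of_nonneg_right hj hk.le
    refine h.X (v - k) v (v - k + o) (v + 1 + i * k) (by omega) (by omega) (by omega) o1.2 hv
  · have h3 := o1.2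
    have e : v - k + o = v + 1 + i * k := by rw [ho, he]; ring
    rwa [e] at h3

/-- Contiguity, mirror image. -/
theorem TZ.c1' (h : TZ n k B r) (hm : M0F k (VisMap.mirror r)) {v i : ℤ} (hi : 1 ≤ i)
    (hv : r v (v - 1 - i * k)) : r (v + k) (v - 1 - i * k) := by
  have h1 : VisMap.mirror r (-v) (-v + 1 + i * k) := by
    show r (- -v) (-(-v + 1 + i * k))
    have e : -(-v + 1 + i * k) = v - 1 - i * k := by ring
    rw [neg_neg, e]
    exact hv
  have h2 : r (-(-v - k)) (-(-v + 1 + i * k)) := h.mirror.c1 hm hi h1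
  have e : -(-v + 1 + i * k) = v - 1 - i * k := by ring
  have e' : -(-v - k) = v + k := by ring
  rwa [e, e'] at h2

/-- Forward contiguity. -/
theorem TZ.cf (h : TZ n k B r) (hm : M0F k (VisMap.mirror r)) {v i : ℤ} (hi : 1 ≤ i)
    (hv : r v (v + 1 + i * k)) : r v (v + 1 + (i + 1) * k) := by
  have h1 := h.c1' hm (v := v + 1 + i * k) hi (by
    have e : v + 1 + i * k - 1 - i * k = v := by ring
    rw [e]; exact h.symm _ _ hv)
  have e : v + 1 + i * k - 1 - i * k = v := by ring
  have e' : v + 1 + i * k + k = v + 1 + (i + 1) * k := by ring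
  rw [e, e'] at h1
  exact h.symm _ _ h1

/-- Backward contiguity. -/
theorem TZ.cb (h : TZ n k B r) (hm : M0F k r) {v i : ℤ} (hi : 1 ≤ i)
    (hv : r v (v - 1 - i * k)) : r v (v - 1 - (i + 1) * k) := by
  have h1 := h.c1 hm (v := v - 1 - i * k) hi (by
    have e : v - 1 - i * k + 1 + i * k = v := by ring
    rw [e]; exact h.symm _ _ hv)
  have e : v - 1 - i * k + 1 + i * k = v := by ring
  have e' : v - 1 - i * k - k = v - 1 - (i + 1) * k := by ring
  rw [e, e'] at h1
  exact h.symm _ _ h1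

theorem TZ.cf_le (h : TZ n k B r) (hm : M0F k (VisMap.mirror r)) {v i : ℤ} (hi : 1 ≤ i)
    (hv : r v (v + 1 + i * k)) (j : ℕ) : r v (v + 1 + (i + j) * k) := by
  induction j with
  | zero => simpa using hv
  | succ j ih =>
    have := h.cf hm (i := i + j) (by omega) ih
    have e : i + (j : ℤ) + 1 = i + ((j + 1 : ℕ) : ℤ) := by push_cast; ring
    rwa [e] at this

theorem TZ.cb_le (h : TZ n k B r) (hm : M0F k r) {v i : ℤ} (hi : 1 ≤ i)
    (hv : r v (v - 1 - i * k)) (j : ℕ) : r v (v - 1 - (i + j) * k) := by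
  induction j with
  | zero => simpa using hv
  | succ j ih =>
    have := h.cb hm (i := i + j) (by omega) ih
    have e : i + (j : ℤ) + 1 = i + ((j + 1 : ℕ) : ℤ) := by push_cast; ring
    rwa [e] at this

open Classical in
/-- If `u` sees `u + 1 + m k`, at most `m - 1` vertices of the class of `u + 1` are hidden ahead. -/
theorem TZ.hf_le_of (h : TZ n k B r) (hm : M0F k (VisMap.mirror r)) {u m : ℤ} (h1 : 1 ≤ m)
    (hu : r u (u + 1 + m * k)) : (hf k B r u (u + 1) : ℤ) ≤ m - 1 := by
  have hk := h.hk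
  have hsub : ((Finset.Ioc u (u + B)).filter fun z => k ∣ z - (u + 1) ∧ ¬ r u z) ⊆
      (Finset.Icc (1 : ℤ) (m - 1)).image fun i => u + 1 + i * k := by
    intro z hz
    rw [Finset.mem_filter, Finset.mem_Ioc] at hz
    obtain ⟨⟨a1, a2⟩, ⟨i, hi⟩, a3⟩ := hz
    have hz' : z = u + 1 + i * k := by linarith [mul_comm k i]
    rw [Finset.mem_image]
    refine ⟨i, ?_, hz'.symm⟩
    rw [Finset.mem_Icc]
    have hi0 : 0 ≤ i := by
      by_contra hc
      have : (i + 1) * k ≤ 0 := mul_nonpos_of_nonpos_of_nonneg (by omega) hk.le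
      have e : (i + 1) * k = i * k + k := by ring
      omega
    have hi1 : i ≠ 0 := by
      rintro rfl
      rw [hz'] at a3
      simp only [zero_mul, add_zero] at a3
      exact a3 (h.succ u)
    refine ⟨by omega, ?_⟩
    by_contra hc
    have h2 := h.cf_le hm h1 hu (i - m).toNat
    have e : m + (((i - m).toNat : ℕ) : ℤ) = i := by omega
    rw [e, ← hz'] at h2
    exact a3 h2
  have h3 := Finset.card_le_card hsub
  have h4 := (Finset.card_image_le (s := Finset.Icc (1 : ℤ) (m - 1))
    (f := fun i => u + 1 + i * k))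
  rw [Int.card_Icc] at h4
  unfold hf
  omega

open Classical in
/-- If `y` hides `y - 1 - m k`, at least `m` vertices of the class of `y - 1` are hidden behind. -/
theorem TZ.le_hb_of (h : TZ n k B r) (hm : M0F k r) {y m : ℤ} (h1 : 1 ≤ m)
    (hy : ¬ r y (y - 1 - m * k)) : m ≤ hb k B r y (y - 1) := by
  have hk := h.hk
  have hsub : (Finset.Icc (1 : ℤ) m).image (fun i => y - 1 - i * k) ⊆
      (Finset.Ico (y - B) y).filter fun z => k ∣ z - (y - 1) ∧ ¬ r y z := by
    intro z hz
    rw [Finset.mem_image] at hz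
    obtain ⟨i, hi, rfl⟩ := hz
    rw [Finset.mem_Icc] at hi
    have hik : 1 * k ≤ i * k := mul_le_mul_of_nonneg_right hi.1 hk.le
    have hno : ¬ r y (y - 1 - i * k) := by
      intro hc
      have h2 := h.cb_le hm hi.1 hc (m - i).toNat
      have e : i + (((m - i).toNat : ℕ) : ℤ) = m := by omega
      rw [e] at h2
      exact hy h2
    rw [Finset.mem_filter, Finset.mem_Ico]
    refine ⟨⟨by have := (h.near hno).2; omega, by omega⟩, ⟨-i, by ring⟩, hno⟩
  have h3 := Finset.card_le_card hsub
  rw [Finset.card_image_of_injective _ (fun a b hab => by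
    have h5 : a * k = b * k := by
      have : y - 1 - a * k = y - 1 - b * k := hab
      omega
    exact mul_right_cancel₀ hk.ne' h5), Int.card_Icc] at h3
  unfold hb
  omega

theorem hf_class {v e e' : ℤ} (he : k ∣ e' - e) : hf k B r v e' = hf k B r v e := by
  classical
  unfold hf
  congr 1
  ext z
  simp only [Finset.mem_filter]
  have h1 : k ∣ z - e' ↔ k ∣ z - e := by
    have e1 : z - e = (z - e') + (e' - e) := by ring
    rw [e1, dvd_add_left he]
  rw [h1]

theorem hb_class {v e e' : ℤ} (he : k ∣ e' - e) : hb k B r v e' = hb k B r v e := by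
  classical
  unfold hb
  congr 1
  ext z
  simp only [Finset.mem_filter]
  have h1 : k ∣ z - e' ↔ k ∣ z - e := by
    have e1 : z - e = (z - e') + (e' - e) := by ring
    rw [e1, dvd_add_left he]
  rw [h1]

/-- The next mate of an ear is an ear. -/
theorem TZ.ear_step (h : TZ n k B r) (hm : M0 k r) {a : ℤ} (ha : r (a - 1) (a + 1)) :
    r (a + k - 1) (a + k + 1) := by
  have hk := h.hk
  by_contra hno
  -- the second sight ahead of `u - 1`
  obtain ⟨φ, f1, f2, f3, f4, -⟩ := hm.1 (a - 1)
  have hk1 : a - 1 + k = a + k - 1 := by ring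
  rw [hk1] at f1 f4
  have hone : φ 1 = 1 := match_one (P := NF r (a - 1)) (Q := NF r (a + k - 1)) (fun o ho => ho.1)
    (fun o ho => ho.1) ⟨one_pos, h.succ _⟩ ⟨one_pos, h.succ _⟩ f1 f3 f4
  have p1 : NF r (a - 1) 1 := ⟨one_pos, h.succ _⟩
  have p2 : NF r (a - 1) 2 := ⟨two_pos, by
    have e : a - 1 + 2 = a + 1 := by ring
    rw [e]; exact ha⟩
  have q2 := f1 2 p2
  have l2 := f3 1 2 p1 p2 (by norm_num)
  rw [hone] at l2
  obtain ⟨m, hmm⟩ := f2 2 p2
  have hne : φ 2 ≠ 2 := by
    intro hc
    rw [hc] at q2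
    have e : a + k - 1 + 2 = a + k + 1 := by ring
    rw [← e] at hno
    exact hno q2.2
  have hZ : φ 2 = 2 + m * k := by linarith [mul_comm k m]
  have hm1 : 1 ≤ m := by
    by_contra hc
    rcases (show m = 0 ∨ m ≤ -1 by omega) with h1 | h1
    · rw [h1] at hZ; omega
    · have : m * k ≤ 0 := mul_nonpos_of_nonpos_of_nonneg (by omega) hk.le
      have h3 : φ 2 ≤ 2 := by omega
      omega
  have hbt : ∀ o, 1 < o → o < φ 2 → ¬ r (a + k - 1) (a + k - 1 + o) := by
    intro o o1 o2 o3
    obtain ⟨b, b1, b2⟩ := f4 o ⟨by omega, o3⟩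
    rcases lt_trichotomy b 1 with hb | hb | hb
    · have := b1.1; omega
    · rw [hb, hone] at b2; omega
    · rcases lt_trichotomy b 2 with hb' | hb' | hb'
      · omega
      · rw [hb'] at b2; omega
      · have := f3 2 b p2 b1 hb'; omega
  have hmk : k ≤ m * k := by nlinarith
  -- `u` sees the second sight of `u - 1`
  have huZ : r (a + k) (a + k + 1 + m * k) := by
    have h1 := h.cn (a + k - 1) (a + k) (a + k - 1 + φ 2) (by omega) (by omega)
      (by have := h.succ (a + k - 1); rwa [sub_add_cancel] at this) q2.2 (fun x x1 x2 hx => by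
        refine hbt (x - (a + k - 1)) (by omega) (by omega) ?_
        rw [add_sub_cancel]; exact hx)
    have e : a + k - 1 + φ 2 = a + k + 1 + m * k := by rw [hZ]; ring
    rwa [e] at h1
  -- `u` sees `u - 1 - k`
  have hub : r (a + k) (a + k - 1 - 1 * k) := by
    obtain ⟨ψ, g1, g2, g3, g4, g5⟩ := hm.2 (-(a + 1) - k)
    have e1 : -(a + 1) - k + k = -(a + 1) := by ring
    rw [e1] at g1 g4
    have d1 : NF (VisMap.mirror r) (-(a + 1) - k) 1 := ⟨one_pos, by
      show r (-(-(a + 1) - k)) (-(-(a + 1) - k + 1))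
      have e : -(-(a + 1) - k) = a + k + 1 := by ring
      have e' : -(-(a + 1) - k + 1) = a + k + 1 - 1 := by ring
      rw [e, e']
      exact h.pred _⟩
    have d1' : NF (VisMap.mirror r) (-(a + 1)) 1 := ⟨one_pos, by
      show r (-(-(a + 1))) (-(-(a + 1) + 1))
      have e : -(-(a + 1)) = a + 1 := by ring
      have e' : -(-(a + 1) + 1) = a + 1 - 1 := by ring
      rw [e, e']
      exact h.pred _⟩
    have d2' : NF (VisMap.mirror r) (-(a + 1)) 2 := ⟨two_pos, by
      show r (-(-(a + 1))) (-(-(a + 1) + 2))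
      have e : -(-(a + 1)) = a + 1 := by ring
      have e' : -(-(a + 1) + 2) = a - 1 := by ring
      rw [e, e']
      exact h.symm _ _ ha⟩
    have hone' : ψ 1 = 1 := match_one (P := NF (VisMap.mirror r) (-(a + 1) - k))
      (Q := NF (VisMap.mirror r) (-(a + 1))) (fun o ho => ho.1)
      (fun o ho => ho.1) d1 d1' g1 g3 g4
    obtain ⟨o, o1, o2⟩ := g4 2 d2'
    have ho1 : 1 < o := by
      rcases lt_trichotomy 1 o with hl | hl | hl
      · exact hl
      · rw [← hl, hone'] at o2; omega
      · have := o1.1; omega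
    have ho2 := g5 o o1
    rw [o2] at ho2
    obtain ⟨c, hc⟩ := g2 o o1
    rw [o2] at hc
    have hgap : ∀ x, 1 < x → x < o → ¬ NF (VisMap.mirror r) (-(a + 1) - k) x := by
      intro x x1 x2 x3
      have h1 := g3 x o x3 o1 x2
      have h2 := g3 1 x d1 x3 x1
      rw [o2] at h1
      rw [hone'] at h2
      omega
    have hne2 : o ≠ 2 := by
      rintro rfl
      have h1 := o1.2
      have h2 : r (-(-(a + 1) - k)) (-(-(a + 1) - k + 2)) := h1
      have e : -(-(a + 1) - k) = a + k + 1 := by ring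
      have e' : -(-(a + 1) - k + 2) = a + k - 1 := by ring
      rw [e, e'] at h2
      exact hno (h.symm _ _ h2)
    have hoe : o = 2 + k := by
      have hc1 : c < 0 := by
        by_contra hc'
        have : 0 ≤ k * c := mul_nonneg hk.le (by omega)
        omega
      have hc2 : -1 ≤ c := by
        by_contra hc'
        have : k * c ≤ k * (-2) := mul_le_mul_of_nonneg_left (by omega) hk.le
        omega
      have hc3 : c = -1 := by omega
      rw [hc3] at hc
      omega
    have h1 : r (-(-(a + 1) - k)) (-(-(a + 1) - k + o)) := o1.2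
    have e : -(-(a + 1) - k) = a + k + 1 := by ring
    have e' : -(-(a + 1) - k + o) = a + k - 1 - 1 * k := by rw [hoe]; ring
    rw [e, e'] at h1
    refine h.cn' (a + k + 1) (a + k) (a + k - 1 - 1 * k) (by omega) (by omega)
      (by have := h.pred (a + k + 1); rwa [add_sub_cancel_right] at this) h1 fun x x1 x2 hx => ?_
    refine hgap (a + k + 1 - x) (by omega) (by omega) ⟨by omega, ?_⟩
    show r (-(-(a + 1) - k)) (-(-(a + 1) - k + (a + k + 1 - x)))
    have e2 : -(-(a + 1) - k + (a + k + 1 - x)) = x := by ring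
    rw [e, e2]
    exact hx
  -- nothing of the class of `u - 1` is hidden behind `u`
  have hb0 : hb k B r (a + k) (a + k - 1) = 0 := by
    classical
    unfold hb
    rw [Finset.card_eq_zero, Finset.filter_eq_empty_iff]
    rintro z hz ⟨⟨i, hi⟩, hz2⟩
    rw [Finset.mem_Ico] at hz
    have hz' : z = a + k - 1 - (-i) * k := by linarith [mul_comm k i, neg_mul i k]
    have hi0 : 0 ≤ -i := by
      by_contra hc
      have : (-i + 1) * k ≤ 0 := mul_nonpos_of_nonpos_of_nonneg (by omega) hk.le
      have e : (-i + 1) * k = (-i) * k + k := by ring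
      omega
    rcases (show -i = 0 ∨ 1 ≤ -i by omega) with h0 | h0
    · rw [h0] at hz'
      apply hz2
      rw [hz']
      simp only [zero_mul, sub_zero]
      exact h.pred _
    · have h2 := h.cb_le hm.1 le_rfl hub (-i - 1).toNat
      have e : (1 : ℤ) + (((-i - 1).toNat : ℕ) : ℤ) = -i := by omega
      rw [e, ← hz'] at h2
      exact hz2 h2
  have hfu := h.hf_le_of hm.2 hm1 huZ
  -- the mate `y` of `u` at the end of the gap of `u - 1`
  set y := a + k + m * k with hy
  have hyh : ¬ r y (y - 1 - m * k) := by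
    have e : y - 1 - m * k = a + k - 1 := by rw [hy]; ring
    rw [e]
    intro hc
    refine hbt (m * k + 1) (by omega) (by omega) ?_
    have e2 : a + k - 1 + (m * k + 1) = y := by rw [hy]; ring
    rw [e2]
    exact h.symm _ _ hc
  have hby := h.le_hb_of hm.1 hm1 hyh
  obtain ⟨E, hE⟩ := h.shift_total (v := a + k) (v' := y) ⟨m, by rw [hy]; ring⟩
  have h1 := (hE (a + k + 1)).1
  have h2 := (hE (a + k - 1)).2
  have h3 : hb k B r y (y - 1) = hb k B r y (a + k - 1) :=
    hb_class ⟨m, by rw [hy]; ring⟩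
  rw [h3] at hby
  rw [hb0] at h2
  push_cast at h2
  have h4 : (0 : ℤ) ≤ hf k B r y (a + k + 1) := by positivity
  omega

theorem TZ.ear_all (h : TZ n k B r) (hm : M0 k r) {a : ℤ} (ha : r (a - 1) (a + 1)) (j : ℕ) :
    r (a + j * k - 1) (a + j * k + 1) := by
  induction j with
  | zero => simpa using ha
  | succ j ih =>
    have := h.ear_step hm ih
    have e : a + (j : ℤ) * k + k = a + ((j + 1 : ℕ) : ℤ) * k := by push_cast; ring
    rwa [e] at this

/-- All mates of an ear are ears. -/
theorem TZ.ears (h : TZ n k B r) (hm : M0 k r) {a b : ℤ} (hab : k ∣ b - a)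
    (ha : r (a - 1) (a + 1)) : r (b - 1) (b + 1) := by
  have hk := h.hk
  have hn := h.npos
  obtain ⟨c, hc⟩ := hab
  obtain ⟨d, hd⟩ := h.kn
  have hd0 : 0 < d := by
    by_contra hc'
    have : k * d ≤ 0 := mul_nonpos_of_nonneg_of_nonpos hk.le (by omega)
    omega
  -- move `b` ahead by periods
  set t : ℤ := |c| with ht
  have hcd : 0 ≤ c + t * d := by
    have h1 : -c ≤ t := neg_le_abs c
    have h0 : 0 ≤ t := abs_nonneg c
    nlinarith
  have h2 := h.ear_all hm ha (c + t * d).toNat
  have e : (((c + t * d).toNat : ℕ) : ℤ) = c + t * d := by omega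
  rw [e] at h2
  have e2 : a + (c + t * d) * k - 1 = (b - 1) + t * n := by
    rw [hd]; linarith [mul_comm k c, show (c + t * d) * k = c * k + t * (k * d) by ring]
  have e3 : a + (c + t * d) * k + 1 = (b + 1) + t * n := by
    rw [hd]; linarith [mul_comm k c, show (c + t * d) * k = c * k + t * (k * d) by ring]
  rw [e2, e3, h.shiftj] at h2
  exact h2

end Tp

end VisMap
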