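import Pool.Agent.Lib.MP_9f3af0_lcB.Step2

/-!
# MP_9f3af0_lc: walls in `T'`-structures without class-wide chords (helper37)

In a `T'`-structure without chords `(u, u + d)`, `2 ≤ d ≤ k`, at all vertices `u` of one class, every
class contains a vertex whose first forward gap has a lap and a vertex whose first backward gap has a
lap.
-/

namespace VisMap

namespace Tp

variable {n : ℕ} {k B : ℤ} {r : ℤ → ℤ → Prop}

/-- There are no chords `(u, u + d)`, `2 ≤ d ≤ k`, at all vertices `u` of one class. -/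
def NoWide (k : ℤ) (r : ℤ → ℤ → Prop) : Prop :=
  ∀ c d, 2 ≤ d → d ≤ k → ¬ ∀ u, k ∣ u - c → r u (u + d)

theorem NoWide.mirror (hs : ∀ a b, r a b → r b a) (hc : NoWide k r) :
    NoWide k (VisMap.mirror r) := by
  intro c d d1 d2 hv
  refine hc (-c - d) d d1 d2 fun u hu => ?_
  have h1 : r (- (-u - d)) (-(-u - d + d)) := hv (-u - d) (by
    have e : -u - d - c = -(u - (-c - d)) := by ring
    rw [e]; exact (dvd_neg).2 hu)
  have e1 : -(-u - d) = u + d := by ring
  have e2 : -(-u - d + d) = u := by ring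
  rw [e1, e2] at h1
  exact hs _ _ h1

/-- The second sight of a vertex. -/
theorem TZ.second (h : TZ n k B r) (v : ℤ) :
    ∃ d, 1 < d ∧ r v (v + d) ∧ ∀ m, 1 < m → m < d → ¬ r v (v + m) := by
  have hB := h.hB
  obtain ⟨d, ⟨d1, d2⟩, d3⟩ := Int.exists_least_of_bdd (P := fun d => 1 < d ∧ r v (v + d))
    ⟨1, fun z hz => hz.1.le⟩ ⟨B + 2, by omega, h.far _ _ (by omega)⟩
  exact ⟨d, d1, d2, fun z z1 z2 z3 => by have := d3 z ⟨z1, z3⟩; omega⟩

/-- The second sights of mates are congruent. -/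
theorem TZ.second_dvd (h : TZ n k B r) {v v' d d' : ℤ} (hv : k ∣ v' - v) (hd : 1 < d)
    (hr : r v (v + d)) (hh : ∀ m, 1 < m → m < d → ¬ r v (v + m)) (hd' : 1 < d')
    (hr' : r v' (v' + d')) (hh' : ∀ m, 1 < m → m < d' → ¬ r v' (v' + m)) : k ∣ d' - d := by
  obtain ⟨φ, f1, f2, f3, f4⟩ := h.fw v v' hv
  have h1 := (match_second (P := NF r v) (Q := NF r v') (φ := φ) (fun o ho => ho.1)
    (fun o ho => ho.1) ⟨one_pos, h.succ v⟩ ⟨one_pos, h.succ v'⟩ hd ⟨by omega, hr⟩
    (fun m m1 m2 m3 => hh m m1 m2 m3.2) hd' ⟨by omega, hr'⟩ (fun m m1 m2 m3 => hh' m m1 m2 m3.2)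
    f1 f3 f4).2
  have h2 := f2 d ⟨by omega, hr⟩
  rwa [h1] at h2

/-- Without class-wide chords every class contains a vertex whose first forward gap has a lap. -/
theorem TZ.wall (h : TZ n k B r) (hk : 2 ≤ k) (hc : NoWide k r) (c : ℤ) :
    ∃ v, k ∣ v - c ∧ ∀ m, v + 1 < m → m ≤ v + k + 1 → ¬ r v m := by
  by_contra hcon
  have hex : ∀ v, k ∣ v - c → ∃ d, 1 < d ∧ d ≤ k + 1 ∧ r v (v + d) ∧
      ∀ m, 1 < m → m < d → ¬ r v (v + m) := by
    intro v hv
    obtain ⟨d, d1, d2, d3⟩ := h.second v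
    refine ⟨d, d1, ?_, d2, d3⟩
    by_contra hlt
    refine hcon ⟨v, hv, fun m m1 m2 m3 => d3 (m - v) (by omega) (by omega) ?_⟩
    rw [add_sub_cancel]; exact m3
  obtain ⟨d, d1, d2, d3, d4⟩ := hex c (by simp)
  have hall : ∀ u, k ∣ u - c → r u (u + d) ∧ ∀ m, 1 < m → m < d → ¬ r u (u + m) := by
    intro u hu
    obtain ⟨d', e1, e2, e3, e4⟩ := hex u hu
    have := h.second_dvd hu d1 d3 d4 e1 e3 e4
    have h0 : d' - d = 0 := Int.eq_zero_of_abs_lt_dvd this (by
      rw [abs_lt]; constructor <;> omega)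
    have e : d = d' := by omega
    rw [e]; exact ⟨e3, e4⟩
  rcases eq_or_lt_of_le d2 with hd | hd
  · refine hc (c + 1) k hk le_rfl fun u hu => ?_
    obtain ⟨h5, h6⟩ := hall (u - 1) (by
      have e : u - 1 - c = u - (c + 1) := by ring
      rw [e]; exact hu)
    have h7 := h.succ (u - 1)
    rw [sub_add_cancel] at h7
    rw [hd] at h5
    have e : u - 1 + (k + 1) = u + k := by ring
    rw [e] at h5
    exact h.cn (u - 1) u (u + k) (by omega) (by omega) h7 h5 fun m m1 m2 m3 =>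
      h6 (m - (u - 1)) (by omega) (by omega) (by
        have e : u - 1 + (m - (u - 1)) = m := by ring
        rw [e]; exact m3)
  · exact hc c d (by omega) (by omega) fun u hu => (hall u hu).1

/-- The mirror image of `TZ.wall`. -/
theorem TZ.wall' (h : TZ n k B r) (hk : 2 ≤ k) (hc : NoWide k r) (c : ℤ) :
    ∃ v, k ∣ v - c ∧ ∀ m, v - k - 1 ≤ m → m < v - 1 → ¬ r v m := by
  obtain ⟨v, hv, hv2⟩ := h.mirror.wall hk (hc.mirror h.symm) (-c)
  refine ⟨-v, by
    have e : -v - c = -(v - -c) := by ring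
    rw [e]; exact (dvd_neg).2 hv, fun m m1 m2 m3 => hv2 (-m) (by omega) (by omega) ?_⟩
  show r (-v) (- -m)
  rwa [neg_neg]

end Tp

end VisMap
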