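import Pool.Agent.Lib.MP_9f3af0_lcB.FH

/-!
# MP_9f3af0_lc: ranks of the sights in the `n`-gon (helper47)

`rk r v y` is the number of the sights of `v` in `(v, y]`, `rkE k r v y e` the number of those in the
class of `e`.  For vertices `v`, `v'` of one class the sights of the same rank are congruent
(`rk_congr`), the numbers of sights agree (`rk_total`), each sight has a partner (`exists_partner`)
and the numbers of sights of each class up to a given rank agree (`rkE_congr`).  The mirror forms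
count from the back (`rkb`).
-/

namespace VisMap

namespace LemB

open Classical in
/-- The number of the sights of `v` in `(v, y]`. -/
noncomputable def rk (r : ℤ → ℤ → Prop) (v y : ℤ) : ℕ :=
  ((Finset.Ioc v y).filter fun z => r v z).card

open Classical in
/-- The number of the sights of `v` in `[y, v)`. -/
noncomputable def rkb (r : ℤ → ℤ → Prop) (v y : ℤ) : ℕ :=
  ((Finset.Ico y v).filter fun z => r v z).card

open Classical in
/-- The number of the sights of `v` in `(v, y]` in the class of `e`. -/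
noncomputable def rkE (k : ℤ) (r : ℤ → ℤ → Prop) (v y e : ℤ) : ℕ :=
  ((Finset.Ioc v y).filter fun z => k ∣ z - e ∧ r v z).card

variable {n : ℕ} {k : ℤ} {r : ℤ → ℤ → Prop} {v v' y y' : ℤ}

/-! ### One viewer -/

theorem rk_self : rk r v v = 0 := by
  unfold rk
  simp

theorem rk_mono (h : y ≤ y') : rk r v y ≤ rk r v y' := by
  classical
  unfold rk
  refine Finset.card_le_card fun z hz => ?_
  rw [Finset.mem_filter, Finset.mem_Ioc] at hz ⊢
  exact ⟨⟨hz.1.1, by omega⟩, hz.2⟩

theorem rk_hid (h : ¬ r v y) : rk r v y = rk r v (y - 1) := by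
  classical
  unfold rk
  congr 1
  ext z
  simp only [Finset.mem_filter, Finset.mem_Ioc]
  constructor
  · rintro ⟨⟨a1, a2⟩, a3⟩
    refine ⟨⟨a1, ?_⟩, a3⟩
    rcases a2.lt_or_eq with a2 | a2
    · omega
    · rw [a2] at a3; exact (h a3).elim
  · rintro ⟨⟨a1, a2⟩, a3⟩
    exact ⟨⟨a1, by omega⟩, a3⟩

theorem rk_vis (hv : v < y) (h : r v y) : rk r v y = rk r v (y - 1) + 1 := by
  classical
  unfold rk
  have hy : y ∉ (Finset.Ioc v (y - 1)).filter fun z => r v z := by
    rw [Finset.mem_filter, Finset.mem_Ioc]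
    rintro ⟨⟨-, a⟩, -⟩
    omega
  rw [← Finset.card_insert_of_notMem hy]
  congr 1
  ext z
  simp only [Finset.mem_filter, Finset.mem_Ioc, Finset.mem_insert]
  constructor
  · rintro ⟨⟨a1, a2⟩, a3⟩
    rcases a2.lt_or_eq with a2 | a2
    · exact Or.inr ⟨⟨a1, by omega⟩, a3⟩
    · exact Or.inl a2
  · rintro (a | ⟨⟨a1, a2⟩, a3⟩)
    · rw [a]; exact ⟨⟨hv, le_rfl⟩, h⟩
    · exact ⟨⟨a1, by omega⟩, a3⟩

theorem rk_none (hy : y ≤ y') (h : ∀ m, y < m → m ≤ y' → ¬ r v m) : rk r v y' = rk r v y := by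
  classical
  unfold rk
  congr 1
  ext z
  simp only [Finset.mem_filter, Finset.mem_Ioc]
  constructor
  · rintro ⟨⟨a1, a2⟩, a3⟩
    refine ⟨⟨a1, ?_⟩, a3⟩
    by_contra hc
    exact h z (by omega) a2 a3
  · rintro ⟨⟨a1, a2⟩, a3⟩
    exact ⟨⟨a1, by omega⟩, a3⟩

theorem rk_lt (hvy : v < y') (hy : y < y') (h : r v y') : rk r v y < rk r v y' := by
  rw [rk_vis hvy h]
  have := rk_mono (r := r) (v := v) (show y ≤ y' - 1 by omega)
  omega

theorem rk_inj (h1 : v < y) (h2 : v < y') (h3 : r v y) (h4 : r v y') (h : rk r v y = rk r v y') :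
    y = y' := by
  rcases lt_trichotomy y y' with hl | he | hl
  · have := rk_lt (y := y) h2 hl h4
    omega
  · exact he
  · have := rk_lt (y := y') h1 hl h3
    omega

theorem rk_lt_iff (h2 : v < y') (h4 : r v y') :
    rk r v y < rk r v y' ↔ y < y' := by
  constructor
  · intro h
    by_contra hc
    have := rk_mono (r := r) (v := v) (show y' ≤ y by omega)
    omega
  · exact fun h => rk_lt h2 h h4

/-- The next sight has the next rank. -/
theorem rk_next (h1 : v < y') (hy : y < y') (h : r v y') (hm : ∀ m, y < m → m < y' → ¬ r v m) :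
    rk r v y' = rk r v y + 1 := by
  rw [rk_vis h1 h, rk_none (y := y) (by omega) fun m m1 m2 => hm m m1 (by omega)]

theorem rk_none_of_eq (hvy : v ≤ y) (h : rk r v y = rk r v y') : ∀ m, y < m → m ≤ y' → ¬ r v m := by
  intro m m1 m2 m3
  have h1 := rk_lt (r := r) (v := v) (y := y) (y' := m) (by omega) m1 m3
  have h2 := rk_mono (r := r) (v := v) m2
  omega

/-- Every positive rank up to the rank of `Y` occurs. -/
theorem exists_rk {Y : ℤ} {j : ℕ} (h1 : 1 ≤ j) (h2 : j ≤ rk r v Y) :
    ∃ y, v < y ∧ y ≤ Y ∧ r v y ∧ rk r v y = j := by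
  have key : ∀ N : ℕ, ∀ Y : ℤ, Y ≤ v + N → j ≤ rk r v Y →
      ∃ y, v < y ∧ y ≤ Y ∧ r v y ∧ rk r v y = j := by
    intro N
    induction N with
    | zero =>
      intro Y hY hj
      have := rk_mono (r := r) (v := v) (show Y ≤ v by simpa using hY)
      rw [rk_self] at this
      omega
    | succ N ih =>
      intro Y hY hj
      push_cast at hY
      by_cases hr : r v Y
      · rcases le_or_gt Y v with hl | hl
        · have := rk_mono (r := r) (v := v) hl
          rw [rk_self] at this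
          omega
        · have h3 := rk_vis hl hr
          rcases (show j ≤ rk r v (Y - 1) ∨ j = rk r v Y by omega) with h4 | h4
          · obtain ⟨y, a1, a2, a3, a4⟩ := ih (Y - 1) (by omega) h4
            exact ⟨y, a1, by omega, a3, a4⟩
          · exact ⟨Y, hl, le_rfl, hr, h4.symm⟩
      · rw [rk_hid hr] at hj
        obtain ⟨y, a1, a2, a3, a4⟩ := ih (Y - 1) (by omega) hj
        exact ⟨y, a1, by omega, a3, a4⟩
  exact key (Y - v).toNat Y (by omega) h2

theorem rk_pos (h1 : v < y) (h : r v y) : 1 ≤ rk r v y := by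
  rw [rk_vis h1 h]; omega

/-! ### Two viewers of one class -/

section

variable {φ : ℤ → ℤ}

theorem rk_match (f1 : ∀ o, Fw n r v o → Fw n r v' (φ o))
    (f3 : ∀ a b, Fw n r v a → Fw n r v b → a < b → φ a < φ b)
    (f4 : ∀ o', Fw n r v' o' → ∃ o, Fw n r v o ∧ φ o = o') {o : ℤ} (ho : Fw n r v o) :
    rk r v' (v' + φ o) = rk r v (v + o) := by
  classical
  unfold rk
  symm
  have hmono : ∀ a, Fw n r v a → (a ≤ o ↔ φ a ≤ φ o) := by
    intro a ha
    constructor
    · intro h1
      rcases h1.lt_or_eq with h2 | h2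
      · exact (f3 _ _ ha ho h2).le
      · rw [h2]
    · intro h1
      by_contra h2
      have := f3 _ _ ho ha (by omega)
      omega
  have hon := ho.2.1
  have hφn := (f1 _ ho).2.1
  refine Finset.card_bij (fun z _ => v' + φ (z - v)) ?_ ?_ ?_
  · intro z hz
    rw [Finset.mem_filter, Finset.mem_Ioc] at hz ⊢
    have hN : Fw n r v (z - v) := ⟨by omega, by omega, by rw [add_sub_cancel]; exact hz.2⟩
    have h1 := f1 _ hN
    exact ⟨⟨by have := h1.1; omega, by have := (hmono _ hN).1 (by omega); omega⟩, h1.2.2⟩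
  · intro a ha b hb hab
    rw [Finset.mem_filter, Finset.mem_Ioc] at ha hb
    have hNa : Fw n r v (a - v) := ⟨by omega, by omega, by rw [add_sub_cancel]; exact ha.2⟩
    have hNb : Fw n r v (b - v) := ⟨by omega, by omega, by rw [add_sub_cancel]; exact hb.2⟩
    have hab' : φ (a - v) = φ (b - v) := by
      have : v' + φ (a - v) = v' + φ (b - v) := hab
      omega
    rcases lt_trichotomy (a - v) (b - v) with h1 | h1 | h1
    · have := f3 _ _ hNa hNb h1; omega
    · omega
    · have := f3 _ _ hNb hNa h1; omega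
  · intro z hz
    rw [Finset.mem_filter, Finset.mem_Ioc] at hz
    obtain ⟨a, ha, ha'⟩ := f4 (z - v') ⟨by omega, by omega, by rw [add_sub_cancel]; exact hz.2⟩
    have h1 : a ≤ o := (hmono a ha).2 (by omega)
    refine ⟨v + a, ?_, ?_⟩
    · rw [Finset.mem_filter, Finset.mem_Ioc]
      exact ⟨⟨by have := ha.1; omega, by omega⟩, ha.2.2⟩
    · have e1 : v + a - v = a := by ring
      show v' + φ (v + a - v) = z
      rw [e1, ha']
      ring

theorem rkE_match (f1 : ∀ o, Fw n r v o → Fw n r v' (φ o)) (f2 : ∀ o, Fw n r v o → k ∣ φ o - o)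
    (f3 : ∀ a b, Fw n r v a → Fw n r v b → a < b → φ a < φ b)
    (f4 : ∀ o', Fw n r v' o' → ∃ o, Fw n r v o ∧ φ o = o') {o : ℤ} (ho : Fw n r v o)
    (hv : k ∣ v' - v) (e : ℤ) : rkE k r v' (v' + φ o) e = rkE k r v (v + o) e := by
  classical
  unfold rkE
  symm
  have hmono : ∀ a, Fw n r v a → (a ≤ o ↔ φ a ≤ φ o) := by
    intro a ha
    constructor
    · intro h1
      rcases h1.lt_or_eq with h2 | h2
      · exact (f3 _ _ ha ho h2).le
      · rw [h2]
    · intro h1
      by_contra h2
      have := f3 _ _ ho ha (by omega)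
      omega
  have hon := ho.2.1
  have hφn := (f1 _ ho).2.1
  refine Finset.card_bij (fun z _ => v' + φ (z - v)) ?_ ?_ ?_
  · intro z hz
    rw [Finset.mem_filter, Finset.mem_Ioc] at hz ⊢
    have hN : Fw n r v (z - v) := ⟨by omega, by omega, by rw [add_sub_cancel]; exact hz.2.2⟩
    have h1 := f1 _ hN
    refine ⟨⟨by have := h1.1; omega, by have := (hmono _ hN).1 (by omega); omega⟩, ?_, h1.2.2⟩
    have e1 : v' + φ (z - v) - e = (z - e) + (v' - v) + (φ (z - v) - (z - v)) := by ring
    rw [e1]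
    exact dvd_add (dvd_add hz.2.1 hv) (f2 _ hN)
  · intro a ha b hb hab
    rw [Finset.mem_filter, Finset.mem_Ioc] at ha hb
    have hNa : Fw n r v (a - v) := ⟨by omega, by omega, by rw [add_sub_cancel]; exact ha.2.2⟩
    have hNb : Fw n r v (b - v) := ⟨by omega, by omega, by rw [add_sub_cancel]; exact hb.2.2⟩
    have hab' : φ (a - v) = φ (b - v) := by
      have : v' + φ (a - v) = v' + φ (b - v) := hab
      omega
    rcases lt_trichotomy (a - v) (b - v) with h1 | h1 | h1
    · have := f3 _ _ hNa hNb h1; omega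
    · omega
    · have := f3 _ _ hNb hNa h1; omega
  · intro z hz
    rw [Finset.mem_filter, Finset.mem_Ioc] at hz
    obtain ⟨a, ha, ha'⟩ := f4 (z - v') ⟨by omega, by omega, by rw [add_sub_cancel]; exact hz.2.2⟩
    have h1 : a ≤ o := (hmono a ha).2 (by omega)
    refine ⟨v + a, ?_, ?_⟩
    · rw [Finset.mem_filter, Finset.mem_Ioc]
      refine ⟨⟨by have := ha.1; omega, by omega⟩, ?_, ha.2.2⟩
      have e1 : v + a - e = (z - e) - (v' - v) - (φ a - a) := by rw [ha']; ring
      rw [e1]
      exact dvd_sub (dvd_sub hz.2.1 hv) (f2 _ ha)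
    · have e1 : v + a - v = a := by ring
      show v' + φ (v + a - v) = z
      rw [e1, ha']
      ring

end

/-- Each sight of `v` has a partner of the same rank among the sights of `v'`. -/
theorem exists_partner (hw : Cut.Wd n k r) (hv : k ∣ v' - v) (h1 : v < y) (h2 : y < v + n)
    (h3 : r v y) : ∃ y', v' < y' ∧ y' < v' + n ∧ r v' y' ∧ rk r v' y' = rk r v y ∧ k ∣ y' - y ∧
      ∀ e, rkE k r v' y' e = rkE k r v y e := by
  obtain ⟨φ, f1, f2, f3, f4⟩ := hw v v' hv
  have ho : Fw n r v (y - v) := ⟨by omega, by omega, by rw [add_sub_cancel]; exact h3⟩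
  have h4 := f1 _ ho
  have h5 := rk_match f1 f3 f4 ho
  rw [add_sub_cancel] at h5
  refine ⟨v' + φ (y - v), by have := h4.1; omega, by have := h4.2.1; omega, h4.2.2, h5, ?_, ?_⟩
  · have e1 : v' + φ (y - v) - y = (φ (y - v) - (y - v)) + (v' - v) := by ring
    rw [e1]
    exact dvd_add (f2 _ ho) hv
  · intro e
    have h6 := rkE_match f1 f2 f3 f4 ho hv e
    rw [add_sub_cancel] at h6
    exact h6

/-- Sights of the same rank are congruent. -/
theorem rk_congr (hw : Cut.Wd n k r) (hv : k ∣ v' - v) (h1 : v < y) (h2 : y < v + n)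
    (h3 : r v y) (h1' : v' < y') (h3' : r v' y') (h : rk r v' y' = rk r v y) :
    k ∣ y' - y := by
  obtain ⟨z, a1, a2, a3, a4, a5, -⟩ := exists_partner hw hv h1 h2 h3
  have := rk_inj h1' a1 h3' a3 (by rw [h, a4])
  rw [this]; exact a5

/-- The numbers of the sights of a class up to sights of the same rank agree. -/
theorem rkE_congr (hw : Cut.Wd n k r) (hv : k ∣ v' - v) (h1 : v < y) (h2 : y < v + n)
    (h3 : r v y) (h1' : v' < y') (h3' : r v' y') (h : rk r v' y' = rk r v y) (e : ℤ) :
    rkE k r v' y' e = rkE k r v y e := by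
  obtain ⟨z, a1, a2, a3, a4, -, a6⟩ := exists_partner hw hv h1 h2 h3
  have := rk_inj h1' a1 h3' a3 (by rw [h, a4])
  rw [this]; exact a6 e

/-- The numbers of sights agree. -/
theorem rk_total_le (hz : ZRel n r) (hn : 2 ≤ n) (hw : Cut.Wd n k r) (hv : k ∣ v' - v) :
    rk r v (v + n - 1) ≤ rk r v' (v' + n - 1) := by
  obtain ⟨z, a1, a2, a3, a4, -, -⟩ := exists_partner hw hv (y := v + n - 1) (by omega) (by omega)
    (Cut.last hz v)
  rw [← a4]
  exact rk_mono (by omega)

theorem rk_total (hz : ZRel n r) (hn : 2 ≤ n) (hw : Cut.Wd n k r) (hv : k ∣ v' - v) :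
    rk r v' (v' + n - 1) = rk r v (v + n - 1) := by
  refine le_antisymm (rk_total_le hz hn hw ?_) (rk_total_le hz hn hw hv)
  have e : v - v' = -(v' - v) := by ring
  rw [e]; exact (dvd_neg).2 hv

/-- The last sight of `v` before `v + n - 1` etc.: sights with the same rank from the end. -/
theorem rk_congr_end (hz : ZRel n r) (hn : 2 ≤ n) (hw : Cut.Wd n k r) (hv : k ∣ v' - v)
    (h1 : v < y) (h2 : y < v + n) (h3 : r v y) (h1' : v' < y') (h3' : r v' y')
    (h : rk r v' (v' + n - 1) - rk r v' y' = rk r v (v + n - 1) - rk r v y)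
    (h2' : y' < v' + n) : k ∣ y' - y := by
  refine rk_congr hw hv h1 h2 h3 h1' h3' ?_
  have h4 := rk_total hz hn hw hv
  have h5 := rk_mono (r := r) (v := v) (show y ≤ v + n - 1 by omega)
  have h6 := rk_mono (r := r) (v := v') (show y' ≤ v' + n - 1 by omega)
  omega

/-! ### Backward ranks -/

theorem rkb_eq (hz : ZRel n r) (h1 : v - n < y) (h2 : y ≤ v) :
    rkb r v y + rk r v (y + n - 1) = rk r v (v + n - 1) := by
  classical
  have hz' := ZR.of_zRel hz
  have hsplit : (Finset.Ioc v (v + n - 1)).filter (fun z => r v z) =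
      (Finset.Ioc v (y + n - 1)).filter (fun z => r v z) ∪
        (Finset.Ioc (y + n - 1) (v + n - 1)).filter (fun z => r v z) := by
    ext z
    simp only [Finset.mem_filter, Finset.mem_Ioc, Finset.mem_union]
    constructor
    · rintro ⟨⟨a1, a2⟩, a3⟩
      rcases le_or_gt z (y + n - 1) with hl | hl
      · exact Or.inl ⟨⟨a1, hl⟩, a3⟩
      · exact Or.inr ⟨⟨hl, a2⟩, a3⟩
    · rintro (⟨⟨a1, a2⟩, a3⟩ | ⟨⟨a1, a2⟩, a3⟩)
      · exact ⟨⟨a1, by omega⟩, a3⟩
      · exact ⟨⟨by omega, a2⟩, a3⟩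
  have hcard : ((Finset.Ioc (y + n - 1) (v + n - 1)).filter (fun z => r v z)).card =
      rkb r v y := by
    unfold rkb
    refine Finset.card_bij' (fun z _ => z - n) (fun z _ => z + n) ?_ ?_ ?_ ?_
    · intro z hz1
      rw [Finset.mem_filter, Finset.mem_Ioc] at hz1
      rw [Finset.mem_filter, Finset.mem_Ico]
      refine ⟨⟨by omega, by omega⟩, ?_⟩
      rw [← hz'.perR, sub_add_cancel]
      exact hz1.2
    · intro z hz1
      rw [Finset.mem_filter, Finset.mem_Ico] at hz1
      rw [Finset.mem_filter, Finset.mem_Ioc]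
      refine ⟨⟨by omega, by omega⟩, ?_⟩
      rw [hz'.perR]
      exact hz1.2
    · intro z _
      simp
    · intro z _
      simp
  have hdisj : Disjoint ((Finset.Ioc v (y + n - 1)).filter (fun z => r v z))
      ((Finset.Ioc (y + n - 1) (v + n - 1)).filter (fun z => r v z)) := by
    rw [Finset.disjoint_left]
    intro z a b
    rw [Finset.mem_filter, Finset.mem_Ioc] at a b
    omega
  unfold rk
  rw [hsplit, Finset.card_union_of_disjoint hdisj, hcard]
  ring

/-- Sights with the same backward rank are congruent. -/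
theorem rkb_congr (hz : ZRel n r) (hn : 2 ≤ n) (hw : Cut.Wd n k r) (hv : k ∣ v' - v)
    (h1 : v - n < y) (h2 : y < v) (h3 : r v y) (h1' : v' - n < y') (h2' : y' < v') (h3' : r v' y')
    (h : rkb r v' y' = rkb r v y) : k ∣ y' - y := by
  have hz' := ZR.of_zRel hz
  have e1 := rkb_eq hz h1 h2.le
  have e2 := rkb_eq hz h1' h2'.le
  have e3 := rk_total hz hn hw hv
  have g1 : r v (y + n) := (hz'.perR v y).2 h3
  have g2 : r v' (y' + n) := (hz'.perR v' y').2 h3'
  have e4 := rk_vis (show v < y + n by omega) g1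
  have e5 := rk_vis (show v' < y' + n by omega) g2
  have h4 := rk_congr hw hv (y := y + n) (y' := y' + n) (by omega) (by omega) g1 (by omega) g2
    (by omega)
  have e6 : y' + (n : ℤ) - (y + n) = y' - y := by ring
  rwa [e6] at h4

theorem rkb_mirror : rk (VisMap.mirror r) (-v) (-y) = rkb r v y := by
  classical
  unfold rk rkb
  refine Finset.card_bij' (fun z _ => -z) (fun z _ => -z) ?_ ?_ ?_ ?_
  · intro z hz
    rw [Finset.mem_filter, Finset.mem_Ioc] at hz
    rw [Finset.mem_filter, Finset.mem_Ico]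
    refine ⟨⟨by omega, by omega⟩, ?_⟩
    have : r (- -v) (-z) := hz.2
    rwa [neg_neg] at this
  · intro z hz
    rw [Finset.mem_filter, Finset.mem_Ico] at hz
    rw [Finset.mem_filter, Finset.mem_Ioc]
    refine ⟨⟨by omega, by omega⟩, ?_⟩
    show r (- -v) (- -z)
    rw [neg_neg, neg_neg]
    exact hz.2
  · intro z _
    simp
  · intro z _
    simp

/-! ### Forward hidden and backward hidden vertices -/

open Classical in
/-- The number of the vertices of the class of `e` that are forward hidden from `v`. -/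
noncomputable def fhc (n : ℕ) (k : ℤ) (r : ℤ → ℤ → Prop) (v e : ℤ) : ℕ :=
  ((Finset.Ioo v (v + n)).filter fun z => k ∣ z - e ∧ FH r v z).card

open Classical in
/-- The number of the vertices `z` of the class of `e` such that `v` is forward hidden from `z`. -/
noncomputable def bhc (n : ℕ) (k : ℤ) (r : ℤ → ℤ → Prop) (v e : ℤ) : ℕ :=
  ((Finset.Ioo (v - n) v).filter fun z => k ∣ z - e ∧ FH r z v).card

open Classical in
theorem Hc_eq_Ioo (hz : ZRel n r) (hn : 0 < n) (hkn : k ∣ n) (v e : ℤ) :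
    (Cut.Hc n k r v e) = ((Finset.Ioo v (v + n)).filter fun z => k ∣ z - e ∧ ¬ r v z).card := by
  classical
  unfold Cut.Hc
  rw [← Cut.card_shift (P := fun z => k ∣ z - e ∧ ¬ Cut.Nb n r v z) hn (fun z => by
    rw [Cut.dvd_per hkn, Cut.Nb.perR hz]) v]
  refine Finset.card_bij' (fun o _ => v + o) (fun z _ => z - v) ?_ ?_ ?_ ?_
  · intro o ho
    rw [Finset.mem_filter, Finset.mem_Ico] at ho
    rw [Finset.mem_filter, Finset.mem_Ioo]
    have h1 : ¬ (n : ℤ) ∣ v + o - v := fun hc => ho.2.2 (Or.inl hc)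
    have h2 : o ≠ 0 := by
      rintro rfl
      exact h1 (by simp)
    exact ⟨⟨by omega, by omega⟩, ho.2.1, fun hc => ho.2.2 (Or.inr hc)⟩
  · intro z hz1
    rw [Finset.mem_filter, Finset.mem_Ioo] at hz1
    rw [Finset.mem_filter, Finset.mem_Ico]
    have e1 : v + (z - v) = z := by ring
    rw [e1]
    refine ⟨⟨by omega, by omega⟩, hz1.2.1, ?_⟩
    rintro (hc | hc)
    · have := Int.le_of_dvd (by omega) hc
      omega
    · exact hz1.2.2 hc
  · intro o _
    simp
  · intro z _
    simp

/-- If no vertex is hidden from both sides, the numbers add up to the number of hidden vertices. -/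
theorem fhc_add_bhc (hz : ZRel n r) (hn : 0 < n) (hkn : k ∣ n) (v e : ℤ)
    (hd : ∀ z, v < z → z < v + n → k ∣ z - e → FH r v z → ¬ FH r z (v + n)) :
    fhc n k r v e + bhc n k r v e = Cut.Hc n k r v e := by
  classical
  rw [Hc_eq_Ioo hz hn hkn]
  have hb : bhc n k r v e =
      ((Finset.Ioo v (v + n)).filter fun z => k ∣ z - e ∧ FH r z (v + n)).card := by
    unfold bhc
    refine Finset.card_bij' (fun z _ => z + n) (fun z _ => z - n) ?_ ?_ ?_ ?_
    · intro z hz1
      rw [Finset.mem_filter, Finset.mem_Ioo] at hz1 ⊢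
      exact ⟨⟨by omega, by omega⟩, (Cut.dvd_per hkn z e).2 hz1.2.1, (FH.shift hz).2 hz1.2.2⟩
    · intro z hz1
      rw [Finset.mem_filter, Finset.mem_Ioo] at hz1 ⊢
      refine ⟨⟨by omega, by omega⟩, ?_, ?_⟩
      · rw [← Cut.dvd_per hkn, sub_add_cancel]; exact hz1.2.1
      · rw [← FH.shift hz, sub_add_cancel]; exact hz1.2.2
    · intro z _
      simp
    · intro z _
      simp
  rw [hb]
  unfold fhc
  rw [← Finset.card_union_of_disjoint]
  · refine congrArg Finset.card ?_
    ext z
    simp only [Finset.mem_union, Finset.mem_filter, Finset.mem_Ioo]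
    constructor
    · rintro (⟨a1, a2, a3⟩ | ⟨a1, a2, a3⟩)
      · exact ⟨a1, a2, (FH.iff_hidden hz a1.1 a1.2).2 (Or.inl a3)⟩
      · exact ⟨a1, a2, (FH.iff_hidden hz a1.1 a1.2).2 (Or.inr a3)⟩
    · rintro ⟨a1, a2, a3⟩
      rcases (FH.iff_hidden hz a1.1 a1.2).1 a3 with a4 | a4
      · exact Or.inl ⟨a1, a2, a4⟩
      · exact Or.inr ⟨a1, a2, a4⟩
  · rw [Finset.disjoint_left]
    intro z a b
    rw [Finset.mem_filter, Finset.mem_Ioo] at a b
    exact hd z a.1.1 a.1.2 a.2.1 a.2.2 b.2.2

/-- Under a bound for the sides of the hidden rectangles no vertex is hidden from both sides if the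
polygon is large. -/
theorem FH.not_both {h v z : ℤ} (hs : ∀ x c y : ℤ, x < c → c < y → y < x + n → Hd r x c y →
      c - x ≤ h ∧ y - c ≤ h) (hbig : 4 * h < n) (h1 : v < z) (h2 : z < v + n) (hf : FH r v z) :
    ¬ FH r z (v + n) := by
  rintro ⟨d, d1, d2, d3⟩
  obtain ⟨c, c1, c2, c3⟩ := hf
  have a := hs v c z c1 c2 h2 c3
  have b := hs z d (v + n) d1 d2 (by omega) d3
  omega

end LemB

end VisMap
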