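import Pool.Agent.Lib.MP_9f3af0_lcB.TZBase
import Pool.Agent.Lib.MP_9f3af0_lcB.RankN

/-!
# MP_9f3af0_lc: polygons in which far vertices see each other are `T'`-structures (helper37)

If in an `n`-gon all pairs of vertices at a boundary distance of more than `B` see each other and
`3 B ≤ n`, the relation `rF B r` (two vertices see each other or have a distance of more than `B`) is
a `T'`-structure on the integers.
-/

namespace VisMap

namespace Tp

open LemB

/-- The unrolled relation, in which all pairs at a distance of more than `B` see each other. -/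
def rF (B : ℤ) (r : ℤ → ℤ → Prop) (a b : ℤ) : Prop := a ≠ b ∧ (b - a ≤ B → a - b ≤ B → r a b)

variable {n : ℕ} {k B : ℤ} {r : ℤ → ℤ → Prop}

theorem rF_near {a b : ℤ} (h1 : b - a ≤ B) (h2 : a - b ≤ B) (h : rF B r a b) : r a b := h.2 h1 h2

theorem rF_of {a b : ℤ} (hab : a ≠ b) (h : r a b) : rF B r a b := ⟨hab, fun _ _ => h⟩

theorem rF_of_r (hz : ZRel n r) {a b : ℤ} (h : r a b) : rF B r a b :=
  ⟨fun e => hz.irrefl a (by rw [← e] at h; exact h), fun _ _ => h⟩

theorem rF_far {a b : ℤ} (h : a + B < b) (hB : 0 ≤ B) : rF B r a b :=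
  ⟨by omega, fun h1 => by omega⟩

theorem rF_symm (hz : ZRel n r) {a b : ℤ} (h : rF B r a b) : rF B r b a :=
  ⟨fun e => h.1 e.symm, fun h1 h2 => hz.symm _ _ (h.2 h2 h1)⟩

theorem rF_mirror : rF B (VisMap.mirror r) = VisMap.mirror (rF B r) := by
  funext a b
  show (a ≠ b ∧ (b - a ≤ B → a - b ≤ B → r (-a) (-b))) = (-a ≠ -b ∧ (-b - -a ≤ B → -a - -b ≤ B → r (-a) (-b)))
  refine propext ⟨fun h => ⟨fun e => h.1 (by omega), fun h1 h2 => h.2 (by omega) (by omega)⟩,
    fun h => ⟨fun e => h.1 (by omega), fun h1 h2 => h.2 (by omega) (by omega)⟩⟩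

/-- Ranks beyond `B`. -/
theorem rk_mid (hfar : ∀ a b, a + B < b → b + B < a + n → r a b) (hB : 0 ≤ B) {v : ℤ} :
    ∀ j : ℕ, B + j < n - B → (rk r v (v + B + j) : ℤ) = rk r v (v + B) + j := by
  intro j
  induction j with
  | zero => intro _; simp
  | succ j ih =>
    intro hj
    push_cast at hj ⊢
    have h1 : r v (v + B + (j + 1)) := hfar _ _ (by omega) (by omega)
    rw [rk_vis (by omega) h1]
    have e : v + B + ((j : ℤ) + 1) - 1 = v + B + j := by ring
    rw [e]
    push_cast
    rw [ih (by omega)]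
    ring

theorem rk_le (v : ℤ) (j : ℕ) : rk r v (v + j) ≤ j := by
  induction j with
  | zero => simp [rk_self]
  | succ j ih =>
    push_cast
    by_cases h1 : r v (v + (j + 1))
    · rw [rk_vis (by omega) h1]
      have e : v + ((j : ℤ) + 1) - 1 = v + j := by ring
      rw [e]
      omega
    · rw [rk_hid h1]
      have e : v + ((j : ℤ) + 1) - 1 = v + j := by ring
      rw [e]
      omega

/-- The forward views match if the first one has no more sights within distance `B`. -/
theorem match_far (hz : ZRel n r) (hw : Cut.Wd n k r) (hB : 1 ≤ B) (h3 : 3 * B ≤ n)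
    (h2 : 2 * B + 2 < n) (hfar : ∀ a b, a + B < b → b + B < a + n → r a b) {v v' : ℤ}
    (hv : k ∣ v' - v) (hR : rk r v (v + B) ≤ rk r v' (v' + B)) :
    Match k (NF (rF B r) v) (NF (rF B r) v') := by
  obtain ⟨φ, f1, f2, f3, f4⟩ := hw v v' hv
  -- the last sight of the middle
  have hrm : r v (v + (n - B - 1)) := hfar _ _ (by omega) (by omega)
  have hM : Fw n r v (n - B - 1) := ⟨by omega, by omega, hrm⟩
  have hT := f1 _ hM
  set T := φ (n - B - 1) with hTd
  have hrank := rk_match f1 f3 f4 hM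
  rw [← hTd] at hrank
  obtain ⟨j, hj⟩ : ∃ j : ℕ, (j : ℤ) = n - 2 * B - 1 := ⟨(n - 2 * B - 1 : ℤ).toNat, by omega⟩
  have hrv : (rk r v (v + (n - B - 1)) : ℤ) = rk r v (v + B) + j := by
    have := rk_mid (r := r) (v := v) hfar (by omega) j (by omega)
    have e : v + B + (j : ℤ) = v + (n - B - 1) := by rw [hj]; ring
    rwa [e] at this
  have hrv' : (rk r v' (v' + (n - B - 1)) : ℤ) = rk r v' (v' + B) + j := by
    have := rk_mid (r := r) (v := v') hfar (by omega) j (by omega)
    have e : v' + B + (j : ℤ) = v' + (n - B - 1) := by rw [hj]; ring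
    rwa [e] at this
  have hR1 : 1 ≤ rk r v (v + B) := by
    have h5 := rk_pos (r := r) (v := v) (y := v + 1) (by omega) (hz.succ v)
    have h6 := rk_mono (r := r) (v := v) (show v + 1 ≤ v + B by omega)
    omega
  -- `T ≤ n - B - 1`
  have hTle : T ≤ n - B - 1 := by
    by_contra hc
    have h5 : rk r v' (v' + (n - B - 1)) < rk r v' (v' + T) :=
      rk_lt (by omega) (by omega) hT.2.2
    omega
  -- `B ≤ T`
  have hTge : B ≤ T := by
    obtain ⟨t, ht⟩ : ∃ t : ℕ, (t : ℤ) = T := ⟨T.toNat, by have := hT.1; omega⟩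
    have h5 := rk_le (r := r) v' t
    rw [ht] at h5
    omega
  have hφT : ∀ o, Fw n r v o → o ≤ n - B - 1 → φ o ≤ T := by
    intro o ho hle
    rcases hle.lt_or_eq with hl | he
    · exact (f3 _ _ ho hM hl).le
    · rw [he]
  have hFw : ∀ o, NF (rF B r) v o → o ≤ n - B - 1 → Fw n r v o := by
    rintro o ⟨o1, o2⟩ ho
    refine ⟨o1, by omega, ?_⟩
    rcases le_or_gt o B with hl | hl
    · exact o2.2 (by omega) (by omega)
    · exact hfar _ _ (by omega) (by omega)
  have hFw' : ∀ o, NF (rF B r) v' o → o ≤ n - B - 1 → Fw n r v' o := by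
    rintro o ⟨o1, o2⟩ ho
    refine ⟨o1, by omega, ?_⟩
    rcases le_or_gt o B with hl | hl
    · exact o2.2 (by omega) (by omega)
    · exact hfar _ _ (by omega) (by omega)
  refine ⟨fun o => if o ≤ n - B - 1 then φ o else T + (o - (n - B - 1)), ?_, ?_, ?_, ?_⟩
  · intro o ho
    dsimp only
    split_ifs with hle
    · have h5 := f1 o (hFw o ho hle)
      exact ⟨h5.1, rF_of (by have := h5.1; omega) h5.2.2⟩
    · exact ⟨by omega, rF_far (by omega) (by omega)⟩
  · intro o ho
    dsimp only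
    split_ifs with hle
    · exact f2 o (hFw o ho hle)
    · have := f2 _ hM
      rw [← hTd] at this
      have e : T + (o - (n - B - 1)) - o = T - (n - B - 1) := by ring
      rw [e]; exact this
  · intro a b ha hb hab
    dsimp only
    split_ifs with h5 h6 h6
    · exact f3 _ _ (hFw a ha h5) (hFw b hb h6) hab
    · have := hφT a (hFw a ha h5) h5
      omega
    · omega
    · omega
  · intro o ho
    rcases le_or_gt o T with hle | hgt
    · have h5 := hFw' o ho (by omega)
      obtain ⟨a, a1, a2⟩ := f4 o h5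
      have ha : a ≤ n - B - 1 := by
        by_contra hc
        have := f3 _ _ hM a1 (by omega)
        omega
      refine ⟨a, ⟨a1.1, rF_of (by have := a1.1; omega) a1.2.2⟩, ?_⟩
      dsimp only
      rw [if_pos ha, a2]
    · refine ⟨o - T + (n - B - 1), ⟨by omega, rF_far (by omega) (by omega)⟩, ?_⟩
      dsimp only
      rw [if_neg (show ¬ o - T + ((n : ℤ) - B - 1) ≤ n - B - 1 by omega)]
      ring

theorem match_far' (hz : ZRel n r) (hw : Cut.Wd n k r) (hB : 1 ≤ B) (h3 : 3 * B ≤ n)
    (h2 : 2 * B + 2 < n) (hfar : ∀ a b, a + B < b → b + B < a + n → r a b) {v v' : ℤ}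
    (hv : k ∣ v' - v) : Match k (NF (rF B r) v) (NF (rF B r) v') := by
  rcases le_total (rk r v (v + B)) (rk r v' (v' + B)) with hR | hR
  · exact match_far hz hw hB h3 h2 hfar hv hR
  · refine (match_far hz hw hB h3 h2 hfar (v := v') (v' := v) ?_ hR).symm
    have := (dvd_neg).2 hv
    rwa [neg_sub] at this

/-- Forward hidden pairs have a distance of at most `B`. -/
theorem fh_near (hfar : ∀ a b, a + B < b → b + B < a + n → r a b) (hB : 1 ≤ B)
    (h2 : 2 * B + 2 < n) {v y : ℤ} (hf : FH r v y) : y ≤ v + B := by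
  by_contra hc
  obtain ⟨c, c1, c2, c3⟩ := hf
  rcases le_or_gt (c - B) v with hl | hl
  · exact c3 v (v + B + 1) le_rfl c1 (by omega) (by omega) (hfar _ _ (by omega) (by omega))
  · exact c3 (c - B) (c + 1) (by omega) (by omega) (by omega) (by omega)
      (hfar _ _ (by omega) (by omega))

theorem vis_near (hz : ZRel n r) (hfar : ∀ a b, a + B < b → b + B < a + n → r a b) (hB : 1 ≤ B)
    (h2 : 2 * B + 2 < n) {a b : ℤ} (hab : a < b) (hb : b ≤ a + B) (h : ¬ FH r a b) : r a b := by
  by_contra hno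
  rcases FH.of_hidden hz hab (by omega) hno with hf | hf
  · exact h hf
  · have := fh_near hfar hB h2 hf
    omega

open Classical in
theorem hf_rF (v e : ℤ) : hf k B (rF B r) v e =
    ((Finset.Ioc v (v + B)).filter fun z => k ∣ z - e ∧ ¬ r v z).card := by
  classical
  unfold hf
  congr 1
  ext z
  simp only [Finset.mem_filter, Finset.mem_Ioc]
  constructor
  · rintro ⟨⟨a1, a2⟩, a3, a4⟩
    exact ⟨⟨a1, a2⟩, a3, fun hr => a4 (rF_of (by omega) hr)⟩
  · rintro ⟨⟨a1, a2⟩, a3, a4⟩
    exact ⟨⟨a1, a2⟩, a3, fun hr => a4 (hr.2 (by omega) (by omega))⟩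

open Classical in
theorem hb_rF (v e : ℤ) : hb k B (rF B r) v e =
    ((Finset.Ico (v - B) v).filter fun z => k ∣ z - e ∧ ¬ r v z).card := by
  classical
  unfold hb
  congr 1
  ext z
  simp only [Finset.mem_filter, Finset.mem_Ico]
  constructor
  · rintro ⟨⟨a1, a2⟩, a3, a4⟩
    exact ⟨⟨a1, a2⟩, a3, fun hr => a4 (rF_of (by omega) hr)⟩
  · rintro ⟨⟨a1, a2⟩, a3, a4⟩
    exact ⟨⟨a1, a2⟩, a3, fun hr => a4 (hr.2 (by omega) (by omega))⟩

theorem hf_add_hb (hz : ZRel n r) (hn : 0 < n) (hkn : k ∣ n) (hB : 1 ≤ B) (h2 : 2 * B + 2 < n)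
    (hfar : ∀ a b, a + B < b → b + B < a + n → r a b) (v e : ℤ) :
    hf k B (rF B r) v e + hb k B (rF B r) v e = Cut.Hc n k r v e := by
  classical
  rw [Hc_eq_Ioo hz hn hkn, hf_rF, hb_rF]
  have hperR : ∀ x y : ℤ, r x (y + n) ↔ r x y := (ZR.of_zRel hz).perR
  have hb' : ((Finset.Ico (v - B) v).filter fun z => k ∣ z - e ∧ ¬ r v z).card =
      ((Finset.Ico (v + n - B) (v + n)).filter fun z => k ∣ z - e ∧ ¬ r v z).card := by
    refine Finset.card_bij' (fun z _ => z + n) (fun z _ => z - n) ?_ ?_ ?_ ?_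
    · intro z hz1
      rw [Finset.mem_filter, Finset.mem_Ico] at hz1 ⊢
      exact ⟨⟨by omega, by omega⟩, (Cut.dvd_per hkn z e).2 hz1.2.1, fun h => hz1.2.2 ((hperR _ _).1 h)⟩
    · intro z hz1
      rw [Finset.mem_filter, Finset.mem_Ico] at hz1 ⊢
      refine ⟨⟨by omega, by omega⟩, ?_, fun h => hz1.2.2 ?_⟩
      · rw [← Cut.dvd_per hkn, sub_add_cancel]; exact hz1.2.1
      · rw [← hperR, sub_add_cancel] at h; exact h
    · intro z _
      simp
    · intro z _
      simp
  rw [hb', ← Finset.card_union_of_disjoint]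
  · refine congrArg Finset.card ?_
    ext z
    simp only [Finset.mem_union, Finset.mem_filter, Finset.mem_Ioo, Finset.mem_Ioc, Finset.mem_Ico]
    constructor
    · rintro (⟨a1, a2, a3⟩ | ⟨a1, a2, a3⟩)
      · exact ⟨⟨by omega, by omega⟩, a2, a3⟩
      · exact ⟨⟨by omega, by omega⟩, a2, a3⟩
    · rintro ⟨a1, a2, a3⟩
      rcases le_or_gt z (v + B) with h5 | h5
      · exact Or.inl ⟨⟨a1.1, h5⟩, a2, a3⟩
      · refine Or.inr ⟨⟨?_, a1.2⟩, a2, a3⟩
        by_contra hc
        exact a3 (hfar _ _ (by omega) (by omega))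
  · rw [Finset.disjoint_left]
    intro z a b
    rw [Finset.mem_filter, Finset.mem_Ioc] at a
    rw [Finset.mem_filter, Finset.mem_Ico] at b
    omega

/-- **Polygons in which far vertices see each other are `T'`-structures.** -/
theorem TZ.of_far (hz : ZRel n r) (hk : 0 < k) (hkn : k ∣ n) (hw : Cut.Wd n k r) (hB : 1 ≤ B)
    (h3 : 3 * B ≤ n) (h2 : 2 * B + 2 < n) (hfar : ∀ a b, a + B < b → b + B < a + n → r a b) :
    TZ n k B (rF B r) := by
  have hn : 0 < n := by omega
  have hperR : ∀ x y : ℤ, r x (y + n) ↔ r x y := (ZR.of_zRel hz).perR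
  have hcn : ∀ (r : ℤ → ℤ → Prop), ZRel n r → (∀ a b, a + B < b → b + B < a + n → r a b) →
      ∀ i s t : ℤ, i < s → s < t → rF B r i s → rF B r i t →
      (∀ m, s < m → m < t → ¬ rF B r i m) → rF B r s t := by
    intro r hz hfar i s t h4 h5 hs ht hm
    rcases eq_or_lt_of_le (show s + 1 ≤ t by omega) with he | hl
    · rw [← he]
      exact rF_of (by omega) (hz.succ s)
    · -- `t ≤ i + B + 1`
      have htB : t ≤ i + B + 1 := by
        by_contra hc
        exact hm (t - 1) (by omega) (by omega) (rF_far (by omega) (by omega))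
      refine rF_of (by omega) ?_
      refine hz.cn i s t h4 h5 (by omega) (hs.2 (by omega) (by omega)) ?_ fun m m1 m2 m3 =>
        hm m m1 m2 (rF_of (by omega) m3)
      rcases eq_or_lt_of_le htB with h6 | h6
      · exact hfar _ _ (by omega) (by omega)
      · exact ht.2 (by omega) (by omega)
  have hzm : ZRel n (VisMap.mirror r) := Cut.zrel_mir hz
  have hfm : ∀ a b, a + B < b → b + B < a + n → VisMap.mirror r a b := fun a b h5 h6 =>
    hz.symm _ _ (hfar _ _ (by omega) (by omega))
  refine ⟨hk, hkn, by omega, by omega, fun a b => rF_symm hz, fun a h => h.1 rfl, ?_, ?_, ?_, ?_, ?_,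
    ?_, ?_, ?_, ?_⟩
  · intro a b
    constructor
    · rintro ⟨h4, h5⟩
      refine ⟨fun e => h4 (by rw [e]), fun h6 h7 => ?_⟩
      have := h5 (by omega) (by omega)
      rwa [hz.per, hperR] at this
    · rintro ⟨h4, h5⟩
      refine ⟨fun e => h4 (by omega), fun h6 h7 => ?_⟩
      rw [hz.per, hperR]
      exact h5 (by omega) (by omega)
  · exact fun a => rF_of (by omega) (hz.succ a)
  · exact fun a b h => rF_far h (by omega)
  · exact hcn r hz hfar
  · intro i s t h4 h5 hs ht hm
    have := hcn _ hzm hfm (-i) (-s) (-t) (by omega) (by omega) (by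
      rw [rF_mirror]; show rF B r (- -i) (- -s); rw [neg_neg, neg_neg]; exact hs) (by
      rw [rF_mirror]; show rF B r (- -i) (- -t); rw [neg_neg, neg_neg]; exact ht) (by
      intro m m1 m2 m3
      rw [rF_mirror] at m3
      refine hm (-m) (by omega) (by omega) ?_
      have m4 : rF B r (- -i) (-m) := m3
      rwa [neg_neg] at m4)
    rw [rF_mirror] at this
    have h6 : rF B r (- -s) (- -t) := this
    rwa [neg_neg, neg_neg] at h6
  · intro a b c d h4 h5 h6 h7 h8
    rcases le_or_gt d (a + B) with hl | hl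
    · refine rF_of (by omega) (vis_near hz hfar hB h2 (by omega) hl fun hf => ?_)
      rcases FH.cross h4 h5 h6 hf with h9 | h9
      · exact h9.not_r (h7.2 (by omega) (by omega))
      · exact h9.not_r (h8.2 (by omega) (by omega))
    · exact rF_far (by omega) (by omega)
  · exact fun v v' hv => match_far' hz hw hB h3 h2 hfar hv
  · intro v v' hv
    have h5 : Match k (NF (rF B (VisMap.mirror r)) (-v)) (NF (rF B (VisMap.mirror r)) (-v')) :=
      match_far' hzm (Cut.wd_mir hz hw) hB h3 h2 hfm (v := -v) (v' := -v') (by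
        have := (dvd_neg).2 hv
        have e : -v' - -v = -(v' - v) := by ring
        rwa [e])
    rw [rF_mirror, NF_mirror, NF_mirror, neg_neg, neg_neg] at h5
    exact h5
  · intro v v' e hv
    rw [hf_add_hb hz hn hkn hB h2 hfar, hf_add_hb hz hn hkn hB h2 hfar,
      Cut.Hc_class hz hn hkn hw hv]

end Tp

end VisMap
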