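import Pool.Agent.Lib.MP_9f3af0_lcB.TWalls
import Pool.Agent.Lib.MP_9f3af0_lcB.FarMaps

/-!
# MP_9f3af0_lc: cutting a `T'`-structure along class-wide chords (helper37)

If there is no `T'`-structure without chords `(u, u + d)`, `2 ≤ d ≤ k`, at all vertices `u` of one
class, then every `T'`-structure has a linked class.
-/

namespace VisMap

namespace Tp

variable {n : ℕ} {k B : ℤ} {r : ℤ → ℤ → Prop} {S : ℤ → Prop}

/-- The maximal intervals outside `S` are spanned by visible chords. -/
def Gapped (S : ℤ → Prop) (r : ℤ → ℤ → Prop) : Prop :=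
  ∀ z, ¬ S z → ∃ u w, u < z ∧ z < w ∧ S u ∧ S w ∧ (∀ m, u < m → m < w → ¬ S m) ∧ r u w

/-- The condition CN for the vertices of `S`. -/
theorem cn_sub (h : TZ n k B r) (hG : Gapped S r) {i s t : ℤ} (his : i < s) (hst : s < t)
    (hS : S s) (hT : S t) (hrs : r i s) (hrt : r i t)
    (hh : ∀ m, S m → s < m → m < t → ¬ r i m) : r s t := by
  have main : ∀ N : ℕ, ∀ y, (y - s).toNat ≤ N → s < y → y ≤ t → r i y →
      (S y → r s y) ∧ ∀ u w, u < y → y < w → S u → S w → (∀ m, u < m → m < w → ¬ S m) → r u w →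
        r s w := by
    intro N
    induction N with
    | zero => intro y h1 h2; omega
    | succ N ih =>
      intro y hN hsy hyt hry
      obtain ⟨y', y1, y2, y3, y4⟩ := exists_last (p := fun z => r i z) (a := s) (b := y - 1)
        (by omega) hrs
      have hc := h.cn i y' y (by omega) (by omega) y3 hry fun m m1 m2 => y4 m m1 (by omega)
      -- once `s` sees `y`
      have fin : r s y → (S y → r s y) ∧ ∀ u w, u < y → y < w → S u → S w →
          (∀ m, u < m → m < w → ¬ S m) → r u w → r s w := by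
        intro hr
        refine ⟨fun _ => hr, fun u w u1 u2 u3 u4 u5 u6 => ?_⟩
        have h1 : s ≤ u := by
          by_contra hlt
          exact u5 s (by omega) (by omega) hS
        rcases h1.lt_or_eq with hl | he
        · exact h.X s u y w hl u1 u2 hr u6
        · rw [he]; exact u6
      rcases y1.lt_or_eq with hl | he
      · have hSy' : ¬ S y' := fun hs => hh y' hs hl (by omega) y3
        obtain ⟨u', w', a1, a2, a3, a4, a5, a6⟩ := hG y' hSy'
        have hw := (ih y' (by omega) hl (by omega) y3).2 u' w' a1 a2 a3 a4 a5 a6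
        rcases lt_trichotomy y w' with hyw | hyw | hyw
        · refine ⟨fun hs => (a5 y (by omega) hyw hs).elim, fun u w u1 u2 u3 u4 u5 u6 => ?_⟩
          have e : w = w' := by
            rcases lt_trichotomy w w' with hl' | he' | hg'
            · exact (a5 w (by omega) hl' u4).elim
            · exact he'
            · exact (u5 w' (by omega) hg' a4).elim
          rw [e]; exact hw
        · rw [hyw]; rw [hyw] at fin; exact fin hw
        · exact fin (h.X s y' w' y hl a2 hyw hw hc)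
      · rw [← he] at hc
        exact fin hc
  exact (main _ t le_rfl hst le_rfl hrt).1 hT

theorem gapped_mirror (hs : ∀ a b, r a b → r b a) (hG : Gapped S r) :
    Gapped (fun z => S (-z)) (VisMap.mirror r) := by
  intro z hz
  obtain ⟨u, w, h1, h2, h3, h4, h5, h6⟩ := hG (-z) hz
  refine ⟨-w, -u, by omega, by omega, ?_, ?_, fun m m1 m2 m3 => h5 (-m) (by omega) (by omega) m3,
    ?_⟩
  · show S (- -w)
    rw [neg_neg]; exact h4
  · show S (- -u)
    rw [neg_neg]; exact h3
  · show r (- -w) (- -u)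
    rw [neg_neg, neg_neg]; exact hs _ _ h6

theorem cn_sub' (h : TZ n k B r) (hG : Gapped S r) {i s t : ℤ} (his : s < i) (hst : t < s)
    (hS : S s) (hT : S t) (hrs : r i s) (hrt : r i t)
    (hh : ∀ m, S m → t < m → m < s → ¬ r i m) : r s t := by
  have h1 := cn_sub (S := fun z => S (-z)) h.mirror (gapped_mirror h.symm hG) (i := -i) (s := -s)
    (t := -t) (by omega) (by omega) (by show S (- -s); rw [neg_neg]; exact hS)
    (by show S (- -t); rw [neg_neg]; exact hT)
    (by show r (- -i) (- -s); rw [neg_neg, neg_neg]; exact hrs)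
    (by show r (- -i) (- -t); rw [neg_neg, neg_neg]; exact hrt)
    (fun m m1 m2 m3 m4 => hh (-m) m1 (by omega) (by omega) (by
      have h5 : r (- -i) (-m) := m4
      rwa [neg_neg] at h5))
  have h2 : r (- -s) (- -t) := h1
  rwa [neg_neg, neg_neg] at h2

/-- The forward words of the reduced structure. -/
theorem match_sub {n n' : ℕ} {φ : ℤ → ℤ} {k' : ℤ} (hE : Cut.Enum n n' S φ)
    (hS : ∀ z z', k ∣ z' - z → (S z' ↔ S z)) (hres : ∀ a b, k' ∣ b - a ↔ k ∣ φ b - φ a)
    {a a' : ℤ} (haa : k' ∣ a' - a) (hm : Match k (NF r (φ a)) (NF r (φ a'))) :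
    Match k' (NF (fun a b => r (φ a) (φ b)) a) (NF (fun a b => r (φ a) (φ b)) a') := by
  obtain ⟨m, m1, m2, m3, m4⟩ := hm
  have inj : ∀ {x y : ℤ}, φ x = φ y → x = y := fun h => hE.mono.injective h
  have key : ∀ o, NF (fun a b => r (φ a) (φ b)) a o → NF r (φ a) (φ (a + o) - φ a) := by
    rintro o ⟨o1, o3⟩
    have e1 : φ a < φ (a + o) := hE.mono (by omega)
    refine ⟨by omega, ?_⟩
    have e : φ a + (φ (a + o) - φ a) = φ (a + o) := by ring
    rw [e]; exact o3
  have hex : ∀ o, NF (fun a b => r (φ a) (φ b)) a o →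
      ∃ b, φ b = φ a' + m (φ (a + o) - φ a) := by
    intro o ho
    refine hE.surj _ ((hS (φ (a + o)) _ ?_).2 (hE.mem _))
    have d1 := m2 _ (key o ho)
    have d2 := (hres _ _).1 haa
    have e : φ a' + m (φ (a + o) - φ a) - φ (a + o) =
        (m (φ (a + o) - φ a) - (φ (a + o) - φ a)) + (φ a' - φ a) := by ring
    rw [e]; exact dvd_add d1 d2
  choose! β hβ using hex
  refine ⟨fun o => β o - a', fun o ho => ?_, fun o ho => ?_, fun o o' ho ho' hlt => ?_,
    fun o' ho' => ?_⟩
  · obtain ⟨p1, p3⟩ := m1 _ (key o ho)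
    have hb := hβ o ho
    have q1 : a' < β o := by
      rw [← hE.mono.lt_iff_lt]; omega
    refine ⟨by show 0 < β o - a'; omega, ?_⟩
    show r (φ a') (φ (a' + (β o - a')))
    have e : a' + (β o - a') = β o := by ring
    rw [e, hb]; exact p3
  · show k' ∣ β o - a' - o
    have d1 : k' ∣ β o - (a + o) := by
      rw [hres, hβ o ho]
      have d1 := m2 _ (key o ho)
      have d2 := (hres _ _).1 haa
      have e : φ a' + m (φ (a + o) - φ a) - φ (a + o) =
          (m (φ (a + o) - φ a) - (φ (a + o) - φ a)) + (φ a' - φ a) := by ring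
      rw [e]; exact dvd_add d1 d2
    have e : β o - a' - o = (β o - (a + o)) - (a' - a) := by ring
    rw [e]; exact dvd_sub d1 haa
  · show β o - a' < β o' - a'
    have h1 := m3 _ _ (key o ho) (key o' ho') (by
      have := hE.mono (show a + o < a + o' by omega)
      omega)
    have h2 : β o < β o' := by
      rw [← hE.mono.lt_iff_lt, hβ o ho, hβ o' ho']; omega
    omega
  · obtain ⟨o1, o3⟩ := ho'
    have e1 : φ a' < φ (a' + o') := hE.mono (by omega)
    obtain ⟨p, p1, p2⟩ := m4 (φ (a' + o') - φ a') ⟨by omega, by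
      have e : φ a' + (φ (a' + o') - φ a') = φ (a' + o') := by ring
      rw [e]; exact o3⟩
    have d1 := m2 _ p1
    have d2 := (hres _ _).1 haa
    obtain ⟨b, hb⟩ := hE.surj (φ a + p) ((hS (φ (a' + o')) _ (by
      have e : φ a + p - φ (a' + o') = -((m p - p) + (φ a' - φ a)) := by rw [p2]; ring
      rw [e]; exact (dvd_neg).2 (dvd_add d1 d2))).2 (hE.mem _))
    obtain ⟨q1, q3⟩ := p1
    have r1 : a < b := by rw [← hE.mono.lt_iff_lt]; omega
    have hF : NF (fun a b => r (φ a) (φ b)) a (b - a) := by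
      refine ⟨by omega, ?_⟩
      show r (φ a) (φ (a + (b - a)))
      have e : a + (b - a) = b := by ring
      rw [e, hb]; exact q3
    refine ⟨b - a, hF, ?_⟩
    show β (b - a) - a' = o'
    have h1 := hβ _ hF
    have e : a + (b - a) = b := by ring
    rw [e, hb] at h1
    have e3 : φ a + p - φ a = p := by ring
    rw [e3, p2] at h1
    have h2 : β (b - a) = a' + o' := inj (by rw [h1]; ring)
    omega

/-- The mirror image of an enumeration. -/
theorem enum_mirror {n n' : ℕ} {φ : ℤ → ℤ} (hE : Cut.Enum n n' S φ) :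
    Cut.Enum n n' (fun z => S (-z)) (fun a => -φ (-a)) where
  mono a b hab := by
    show -φ (-a) < -φ (-b)
    have := hE.mono (show -b < -a by omega)
    omega
  mem a := by
    show S (- -φ (-a))
    rw [neg_neg]; exact hE.mem _
  surj z hz := by
    obtain ⟨a, ha⟩ := hE.surj (-z) hz
    refine ⟨-a, ?_⟩
    show -φ (- -a) = z
    rw [neg_neg, ha, neg_neg]
  per a := by
    show -φ (-(a + n')) = -φ (-a) + n
    have e : φ (-a) = φ (-(a + n')) + n := by
      rw [← hE.per]
      congr 1; ring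
    rw [e]; ring

/-- The backward words of the reduced structure. -/
theorem match_sub' {n n' : ℕ} {φ : ℤ → ℤ} {k' : ℤ} (hE : Cut.Enum n n' S φ)
    (hS : ∀ z z', k ∣ z' - z → (S z' ↔ S z)) (hres : ∀ a b, k' ∣ b - a ↔ k ∣ φ b - φ a)
    {a a' : ℤ} (haa : k' ∣ a' - a) (hm : Match k (NB r (φ a)) (NB r (φ a'))) :
    Match k' (NB (fun a b => r (φ a) (φ b)) a) (NB (fun a b => r (φ a) (φ b)) a') := by
  have h1 := match_sub (r := VisMap.mirror r) (k := k) (k' := k') (enum_mirror hE)
    (fun z z' hz => hS (-z) (-z') (by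
      have e : -z' - -z = -(z' - z) := by ring
      rw [e]; exact (dvd_neg).2 hz))
    (fun a b => by
      have h2 := hres (-a) (-b)
      have e1 : -b - -a = -(b - a) := by ring
      have e2 : -φ (-b) - -φ (-a) = -(φ (-b) - φ (-a)) := by ring
      rw [e1, dvd_neg] at h2
      rw [e2, dvd_neg]
      exact h2) (a := -a) (a' := -a') (by
      have e : -a' - -a = -(a' - a) := by ring
      rw [e]; exact (dvd_neg).2 haa) (by
      rw [NF_mirror, NF_mirror]
      simp only [neg_neg]
      exact hm)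
  have e : (fun a b => VisMap.mirror r (-φ (-a)) (-φ (-b))) =
      VisMap.mirror (fun a b => r (φ a) (φ b)) := by
    funext a b
    show r (- -φ (-a)) (- -φ (-b)) = r (φ (-a)) (φ (-b))
    rw [neg_neg, neg_neg]
  rw [e, NF_mirror, NF_mirror, neg_neg, neg_neg] at h1
  exact h1

theorem hf_sub (h : TZ n k B r) {n0 n' : ℕ} {φ : ℤ → ℤ} {k' : ℤ} (hE : Cut.Enum n0 n' S φ)
    (hS : ∀ z z', k ∣ z' - z → (S z' ↔ S z)) (hres : ∀ a b, k' ∣ b - a ↔ k ∣ φ b - φ a)
    (a e : ℤ) : hf k' B (fun a b => r (φ a) (φ b)) a e = hf k B r (φ a) (φ e) := by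
  classical
  have hd : ∀ x y : ℤ, x ≤ y → y - x ≤ φ y - φ x := by
    intro x y hxy
    obtain ⟨j, rfl⟩ : ∃ j : ℕ, y = x + j := ⟨(y - x).toNat, by omega⟩
    clear hxy
    induction j with
    | zero => simp
    | succ j ih =>
      have := hE.mono (show x + (j : ℤ) < x + ((j + 1 : ℕ) : ℤ) by push_cast; omega)
      push_cast at this ih ⊢
      omega
  unfold hf
  refine Finset.card_bij (fun z _ => φ z) ?_ ?_ ?_
  · intro z hz
    rw [Finset.mem_filter, Finset.mem_Ioc] at hz ⊢
    have h1 := hE.mono hz.1.1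
    exact ⟨⟨h1, (h.near hz.2.2).1⟩, (hres _ _).1 hz.2.1, hz.2.2⟩
  · intro z _ z' _ he
    exact hE.mono.injective he
  · intro w hw
    rw [Finset.mem_filter, Finset.mem_Ioc] at hw
    obtain ⟨z, hz⟩ := hE.surj w ((hS _ _ hw.2.1).2 (hE.mem e))
    have h1 : a < z := by
      rw [← hE.mono.lt_iff_lt, hz]; exact hw.1.1
    have h2 := hd a z h1.le
    rw [hz] at h2
    refine ⟨z, ?_, hz⟩
    rw [Finset.mem_filter, Finset.mem_Ioc]
    refine ⟨⟨h1, by omega⟩, (hres _ _).2 (by rw [hz]; exact hw.2.1), ?_⟩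
    show ¬ r (φ a) (φ z)
    rw [hz]; exact hw.2.2

theorem hb_sub (h : TZ n k B r) {n0 n' : ℕ} {φ : ℤ → ℤ} {k' : ℤ} (hE : Cut.Enum n0 n' S φ)
    (hS : ∀ z z', k ∣ z' - z → (S z' ↔ S z)) (hres : ∀ a b, k' ∣ b - a ↔ k ∣ φ b - φ a)
    (a e : ℤ) : hb k' B (fun a b => r (φ a) (φ b)) a e = hb k B r (φ a) (φ e) := by
  have h1 := hf_sub h.mirror (k' := k') (enum_mirror hE)
    (fun z z' hz => hS (-z) (-z') (by
      have e : -z' - -z = -(z' - z) := by ring
      rw [e]; exact (dvd_neg).2 hz))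
    (fun a b => by
      have h2 := hres (-a) (-b)
      have e1 : -b - -a = -(b - a) := by ring
      have e2 : -φ (-b) - -φ (-a) = -(φ (-b) - φ (-a)) := by ring
      rw [e1, dvd_neg] at h2
      rw [e2, dvd_neg]
      exact h2) (-a) (-e)
  have e1 : (fun a b => VisMap.mirror r (-φ (-a)) (-φ (-b))) =
      VisMap.mirror (fun a b => r (φ a) (φ b)) := by
    funext a b
    show r (- -φ (-a)) (- -φ (-b)) = r (φ (-a)) (φ (-b))
    rw [neg_neg, neg_neg]
  rw [e1, hf_mirror, hf_mirror] at h1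
  simp only [neg_neg] at h1
  exact h1

/-- The reduced structure. -/
theorem TZ.sub (h : TZ n k B r) {n' : ℕ} {φ : ℤ → ℤ} {k' : ℤ} (hE : Cut.Enum n n' S φ)
    (hS : ∀ z z', k ∣ z' - z → (S z' ↔ S z)) (hres : ∀ a b, k' ∣ b - a ↔ k ∣ φ b - φ a)
    (hG : Gapped S r) (hk' : 0 < k') (kn' : k' ∣ (n' : ℤ)) (big' : 2 * B + 2 < n')
    (hsucc : ∀ a, r (φ a) (φ (a + 1))) : TZ n' k' B (fun a b => r (φ a) (φ b)) where
  hk := hk'
  kn := kn'
  hB := h.hB
  big := big'
  symm a b hab := h.symm _ _ hab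
  irrefl a := h.irrefl _
  shift a b := by
    show r (φ (a + n')) (φ (b + n')) ↔ r (φ a) (φ b)
    rw [hE.per, hE.per]; exact h.shift _ _
  succ a := hsucc a
  far a b hab := by
    refine h.far _ _ ?_
    obtain ⟨j, rfl⟩ : ∃ j : ℕ, b = a + j := ⟨(b - a).toNat, by have := h.hB; omega⟩
    have hd : ∀ j : ℕ, (j : ℤ) ≤ φ (a + j) - φ a := by
      intro j
      induction j with
      | zero => simp
      | succ j ih =>
        have := hE.mono (show a + (j : ℤ) < a + ((j + 1 : ℕ) : ℤ) by push_cast; omega)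
        push_cast at this ih ⊢
        omega
    have := hd j
    omega
  cn i s t h1 h2 h3 h4 h5 := cn_sub h hG (hE.mono h1) (hE.mono h2) (hE.mem _) (hE.mem _) h3 h4
    fun m m1 m2 m3 m4 => by
      obtain ⟨z, rfl⟩ := hE.surj m m1
      rw [hE.mono.lt_iff_lt] at m2 m3
      exact h5 z m2 m3 m4
  cn' i s t h1 h2 h3 h4 h5 := cn_sub' h hG (hE.mono h2) (hE.mono h1) (hE.mem _) (hE.mem _) h3 h4
    fun m m1 m2 m3 m4 => by
      obtain ⟨z, rfl⟩ := hE.surj m m1
      rw [hE.mono.lt_iff_lt] at m2 m3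
      exact h5 z m2 m3 m4
  X a b c d h1 h2 h3 h4 h5 := h.X _ _ _ _ (hE.mono h1) (hE.mono h2) (hE.mono h3) h4 h5
  fw v v' hv := match_sub hE hS hres hv (h.fw _ _ ((hres _ _).1 hv))
  bw v v' hv := match_sub' hE hS hres hv (h.bw _ _ ((hres _ _).1 hv))
  tot v v' e hv := by
    rw [hf_sub h hE hS hres, hf_sub h hE hS hres, hb_sub h hE hS hres, hb_sub h hE hS hres]
    exact h.tot _ _ _ ((hres _ _).1 hv)

/-- A multiple of the period. -/
theorem TZ.mul (h : TZ n k B r) {j : ℕ} (hj : 0 < j) : TZ (n * j) k B r where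
  hk := h.hk
  kn := by push_cast; exact h.kn.mul_right _
  hB := h.hB
  big := by
    have h1 := h.big
    have h2 : (n : ℤ) * 1 ≤ n * j := mul_le_mul_of_nonneg_left (by omega) (by omega)
    push_cast
    omega
  symm := h.symm
  irrefl := h.irrefl
  shift a b := by
    have h1 := h.shiftj a b j
    have e : (j : ℤ) * n = ((n * j : ℕ) : ℤ) := by push_cast; ring
    rwa [e] at h1
  succ := h.succ
  far := h.far
  cn := h.cn
  cn' := h.cn'
  X := h.X
  fw := h.fw
  bw := h.bw
  tot := h.tot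

/-- **The cut** in `T'`-structures. -/
theorem TZ.cut (h : TZ n k B r) {c d : ℤ} (h2 : 2 ≤ d) (hdk : d < k)
    (hv : ∀ u, k ∣ u - c → r u (u + d)) :
    ∃ (n' : ℕ) (r' : ℤ → ℤ → Prop), TZ n' (k - d + 1) B r' ∧
      ((∃ c', ∀ u, (k - d + 1) ∣ u - c' → r' u (u + (k - d + 1))) →
        ∃ c', ∀ u, k ∣ u - c' → r u (u + k)) := by
  obtain ⟨q, hq⟩ := h.kn
  have hB := h.hB
  have hn := h.npos
  have hq0 : 0 < q := by
    by_contra hlt
    have : k * q ≤ 0 := mul_nonpos_of_nonneg_of_nonpos (by omega) (by omega)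
    omega
  obtain ⟨j, hj⟩ : ∃ j : ℕ, (j : ℤ) = 2 * B + 3 := ⟨(2 * B + 3).toNat, by omega⟩
  have hN := h.mul (j := j) (by omega)
  have hqj : (j : ℤ) ≤ q * j := by
    have : 1 * (j : ℤ) ≤ q * j := mul_le_mul_of_nonneg_right (by omega) (by omega)
    omega
  have hk'q : 1 * (q * j) ≤ (k - d + 1) * (q * j) :=
    mul_le_mul_of_nonneg_right (by omega) (by omega)
  obtain ⟨n', hn'⟩ : ∃ n' : ℕ, (n' : ℤ) = (k - d + 1) * (q * j) :=
    ⟨((k - d + 1) * (q * j)).toNat, by omega⟩
  obtain ⟨Q, hQ⟩ : ∃ Q : ℕ, (Q : ℤ) = q * j := ⟨(q * j).toNat, by omega⟩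
  have hE : Cut.Enum (n * j) n' (Cut.Kp k d c) (Cut.ph (k - d + 1) k d c) :=
    Cut.enum_ph (q := Q) (by push_cast; rw [hQ, hq]; ring) h2 hdk (by rw [hn', hQ])
  have hres := Cut.ph_res (c := c) h2 hdk
  have hG : Gapped (Cut.Kp k d c) r := by
    intro z hz
    have k1 := Int.emod_nonneg (z - c) (show k ≠ 0 by omega)
    have k2 := Int.emod_lt_of_pos (z - c) (show 0 < k by omega)
    have k3 := Int.mul_ediv_add_emod (z - c) k
    unfold Cut.Kp at hz
    have e0 : ∀ x p : ℤ, 0 ≤ x → x < k → (c + k * p + x - c) % k = x := by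
      intro x p x0 x1
      have e : c + k * p + x - c = x + k * p := by ring
      rw [e, Int.add_mul_emod_self_left, Int.emod_eq_of_lt x0 x1]
    refine ⟨c + k * ((z - c) / k), c + k * ((z - c) / k) + d, by omega, by omega, ?_, ?_, ?_, ?_⟩
    · left
      have := e0 0 ((z - c) / k) le_rfl (by omega)
      rwa [add_zero] at this
    · right
      rw [e0 d _ (by omega) hdk]
    · intro m m1 m2 m3
      have e : m = c + k * ((z - c) / k) + (m - (c + k * ((z - c) / k))) := by ring
      unfold Cut.Kp at m3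
      rw [e, e0 _ _ (by omega) (by omega)] at m3
      omega
    · exact hv _ ⟨(z - c) / k, by ring⟩
  have hsucc : ∀ a, r (Cut.ph (k - d + 1) k d c a) (Cut.ph (k - d + 1) k d c (a + 1)) := by
    intro a
    obtain ⟨p, x, h0, h1, rfl⟩ : ∃ p x : ℤ, 0 ≤ x ∧ x < k - d + 1 ∧ a = x + (k - d + 1) * p :=
      ⟨a / (k - d + 1), a % (k - d + 1), Int.emod_nonneg _ (by omega),
        Int.emod_lt_of_pos _ (by omega), by
          have := Int.mul_ediv_add_emod a (k - d + 1); omega⟩
    rw [Cut.ph_eq (by omega) h0 h1]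
    by_cases hx : x + 1 < k - d + 1
    · have e : x + (k - d + 1) * p + 1 = (x + 1) + (k - d + 1) * p := by ring
      rw [e, Cut.ph_eq (by omega) (by omega) hx]
      by_cases hx0 : x = 0
      · have e1 : Cut.gg d x = 0 := by unfold Cut.gg; rw [if_pos hx0]
        have e2 : Cut.gg d (x + 1) = d := by unfold Cut.gg; rw [if_neg (by omega)]; omega
        rw [e1, e2, add_zero]
        exact hv _ ⟨p, by ring⟩
      · have e2 : Cut.gg d (x + 1) = Cut.gg d x + 1 := by
          unfold Cut.gg; rw [if_neg (by omega), if_neg hx0]; ring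
        rw [e2, ← add_assoc]
        exact h.succ _
    · have e : x + (k - d + 1) * p + 1 = 0 + (k - d + 1) * (p + 1) := by
        have : x = k - d := by omega
        rw [this]; ring
      rw [e, Cut.ph_eq (by omega) le_rfl (by omega)]
      have e1 : c + k * (p + 1) + Cut.gg d 0 = c + k * p + Cut.gg d x + 1 := by
        unfold Cut.gg
        rw [if_pos rfl, if_neg (by omega)]
        have : x = k - d := by omega
        rw [this]; ring
      rw [e1]
      exact h.succ _
  have hTZ := hN.sub hE (fun z z' hz => Cut.kp_of_dvd hz) hres hG (by omega) ⟨q * j, hn'⟩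
    (by omega) hsucc
  refine ⟨n', _, hTZ, ?_⟩
  rintro ⟨a, ha⟩
  refine ⟨Cut.ph (k - d + 1) k d c a, fun u hu => ?_⟩
  obtain ⟨b, rfl⟩ := hE.surj u ((Cut.kp_of_dvd hu).2 (hE.mem a))
  have h1 := ha b ((hres a b).2 hu)
  have e : Cut.ph (k - d + 1) k d c (b + (k - d + 1)) = Cut.ph (k - d + 1) k d c b + k := by
    have := Cut.ph_add (k' := k - d + 1) (k := k) (d := d) (c := c) (by omega) b 1
    rwa [mul_one, mul_one] at this
  rw [← e]; exact h1

/-- If there is no `T'`-structure without class-wide chords of length at most `k`, then every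
`T'`-structure has a linked class. -/
theorem linkTZ_of
    (H : ∀ (n : ℕ) (k B : ℤ) (r : ℤ → ℤ → Prop), TZ n k B r → 2 ≤ k → NoWide k r → False) :
    LinkTZ := by
  have main : ∀ N : ℕ, ∀ (n : ℕ) (k B : ℤ) (r : ℤ → ℤ → Prop), k.toNat ≤ N → TZ n k B r →
      ∃ c, ∀ u, k ∣ u - c → r u (u + k) := by
    intro N
    induction N with
    | zero => intro n k B r h1 h; have := h.hk; omega
    | succ N ih =>
      intro n k B r hN h
      have hk := h.hk
      by_cases hk1 : k = 1
      · subst hk1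
        exact ⟨0, fun u _ => h.succ u⟩
      by_contra hno
      refine H n k B r h (by omega) fun c d d1 d2 hv => ?_
      rcases eq_or_lt_of_le d2 with hd | hd
      · subst hd
        exact hno ⟨c, hv⟩
      · obtain ⟨n', r', p1, p2⟩ := h.cut d1 hd hv
        exact hno (p2 (ih n' (k - d + 1) B r' (by omega) p1))
  exact fun n k B r h => main _ n k B r le_rfl h

end Tp

end VisMap
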