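import Pool.Agent.Lib.MP_9f3af0_lcB.LemB

/-!
# MP_9f3af0_lc: forward hidden pairs (helper37, after helper72)

`FH r v y` (`v < y`): `y` is hidden from `v` by a hidden rectangle `[v, c) × (c, y]`.  In the `n`-gon
two vertices `v < y < v + n` see each other if and only if neither `FH r v y` nor `FH r y (v + n)`.
The relation `¬ FH` satisfies the rules of a `T'`-structure (crossing rule and consecutive sights).
-/

namespace VisMap

namespace LemB

/-- `y` is hidden from `v < y` by a hidden rectangle between them. -/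
def FH (r : ℤ → ℤ → Prop) (v y : ℤ) : Prop := ∃ c, v < c ∧ c < y ∧ Hd r v c y

variable {n : ℕ} {r : ℤ → ℤ → Prop} {h : ℤ}

theorem FH.not_r {v y : ℤ} (hf : FH r v y) : ¬ r v y := by
  obtain ⟨c, c1, c2, c3⟩ := hf
  exact c3 v y le_rfl c1 c2 le_rfl

theorem FH.lt {v y : ℤ} (hf : FH r v y) : v + 1 < y := by
  obtain ⟨c, c1, c2, c3⟩ := hf
  omega

/-- The rectangle can be shortened on both sides. -/
theorem FH.not_succ {v : ℤ} : ¬ FH r v (v + 1) := fun hf => by
  have := hf.lt
  omega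

theorem FH.shift (hz : ZRel n r) {v y : ℤ} : FH r (v + n) (y + n) ↔ FH r v y := by
  have hz' := ZR.of_zRel hz
  constructor
  · rintro ⟨c, c1, c2, c3⟩
    refine ⟨c - n, by omega, by omega, fun a b a1 a2 b1 b2 hab => ?_⟩
    refine c3 (a + n) (b + n) (by omega) (by omega) (by omega) (by omega) ?_
    rw [hz.per, hz'.perR]
    exact hab
  · rintro ⟨c, c1, c2, c3⟩
    refine ⟨c + n, by omega, by omega, fun a b a1 a2 b1 b2 hab => ?_⟩
    refine c3 (a - n) (b - n) (by omega) (by omega) (by omega) (by omega) ?_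
    rw [← hz.per, ← hz'.perR, sub_add_cancel, sub_add_cancel]
    exact hab

/-- Hidden pairs of the `n`-gon. -/
theorem FH.of_hidden (hz : ZRel n r) {v y : ℤ} (h1 : v < y) (h2 : y < v + n) (hno : ¬ r v y) :
    FH r v y ∨ FH r y (v + n) := by
  have hy1 : v + 1 ≠ y := by
    rintro e
    exact hno (e ▸ hz.succ v)
  have hy2 : y ≠ v + n - 1 := by
    rintro e
    exact hno (e ▸ Cut.last hz v)
  obtain ⟨s, s1, s2, s3, s4⟩ := exists_last (p := fun z => r v z) (a := v + 1) (b := y - 1)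
    (by omega) (hz.succ v)
  obtain ⟨t, t1, t2, t3, t4⟩ := exists_first (p := fun z => r v z) (a := y + 1)
    (b := v + n - 1) (by omega) (Cut.last hz v)
  have hgap : ∀ m, s < m → m < t → ¬ r v m := by
    intro m m1 m2
    rcases lt_trichotomy m y with hm | hm | hm
    · exact s4 m m1 (by omega)
    · rw [hm]; exact hno
    · exact t4 m (by omega) m2
  obtain ⟨c, c1, c2, c3, c4⟩ := hz.nc v s t (by omega) (by omega) (by omega) s3 t3 hgap
  rcases le_or_gt y c with hc | hc
  · exact Or.inl ⟨s, by omega, by omega, fun a b a1 a2 b1 b2 => c3 a b a1 a2 b1 (by omega)⟩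
  · exact Or.inr ⟨t, by omega, by omega, fun a b a1 a2 b1 b2 hab =>
      c4 b a b1 b2 (by omega) a2 (hz.symm _ _ hab)⟩

theorem FH.iff_hidden (hz : ZRel n r) {v y : ℤ} (h1 : v < y) (h2 : y < v + n) :
    ¬ r v y ↔ FH r v y ∨ FH r y (v + n) := by
  refine ⟨FH.of_hidden hz h1 h2, ?_⟩
  rintro (hf | hf)
  · exact hf.not_r
  · intro hr
    refine hf.not_r ?_
    rw [(ZR.of_zRel hz).perR]
    exact hz.symm _ _ hr

/-- The crossing rule. -/
theorem FH.cross {a b c d : ℤ} (h1 : a < b) (h2 : b < c) (h3 : c < d) (hf : FH r a d) :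
    FH r a c ∨ FH r b d := by
  obtain ⟨e, e1, e2, e3⟩ := hf
  rcases le_or_gt e b with he | he
  · exact Or.inl ⟨e, e1, by omega, e3.mono le_rfl h3.le⟩
  · exact Or.inr ⟨e, he, e2, e3.mono h1.le le_rfl⟩

/-- Rectangles grow: if `[v, p)` hides `(p, c]` and `[p, c)` hides `(c, t]` then `[v, c)` hides
`(c, t]` and `[v, p)` hides `(p, t]`. -/
theorem Hd.grow (hz : ZRel n r) {v p c t : ℤ} (h1 : v < p) (h2 : p < c) (h3 : c ≤ t)
    (hn : t < v + n) (hA : Hd r v p c) (hB : Hd r p c t) : Hd r v p t := by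
  by_contra hne
  have hex : ∃ x w, v ≤ x ∧ x < p ∧ p < w ∧ w ≤ t ∧ r x w := by
    unfold Hd at hne
    push Not at hne
    exact hne
  obtain ⟨x0, w0, a1, a2, a3, a4, a5⟩ := hex
  obtain ⟨x, ⟨b1, w, b2, b3, b4⟩, b5⟩ := Dism.exists_last
    (P := fun x => x < p ∧ ∃ w, p < w ∧ w ≤ t ∧ r x w) (b := p) (fun z hz => hz.1.le) (a := x0)
    ⟨a2, w0, a3, a4, a5⟩
  have b6 := b5 x0 ⟨a2, w0, a3, a4, a5⟩
  obtain ⟨w', w1, w2, w3, w4⟩ := exists_first (p := fun z => r x z) (a := p + 1) (b := w)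
    (by omega) b4
  have hcw : c < w' := by
    by_contra hc
    exact hA x w' (by omega) b1 (by omega) (by omega) w3
  obtain ⟨u, u1, u2, u3, u4⟩ := exists_last (p := fun z => r x z) (a := x + 1) (b := p)
    (by omega) (hz.succ x)
  have huw : r u w' := by
    refine hz.cn x u w' (by omega) (by omega) (by omega) u3 w3 fun m m1 m2 => ?_
    rcases le_or_gt m p with hm | hm
    · exact u4 m m1 hm
    · exact w4 m (by omega) m2
  rcases u2.lt_or_eq with hu | hu
  · have := b5 u ⟨hu, w', by omega, by omega, huw⟩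
    omega
  · rw [hu] at huw
    exact hB p w' le_rfl h2 hcw (by omega) huw

/-- Consecutive sights for the relation `¬ FH`. -/
theorem FH.cn (hz : ZRel n r) {i s t : ℤ} (h1 : i < s) (h2 : s < t) (hn : t < i + n)
    (hs : ¬ FH r i s) (ht : ¬ FH r i t) (hm : ∀ m, s < m → m < t → FH r i m) : ¬ FH r s t := by
  rintro ⟨c, c1, c2, c3⟩
  -- the smallest corner for the pair `(i, c)`
  obtain ⟨e0, f1, f2, f3⟩ := hm c c1 c2
  obtain ⟨e, ⟨g1, g2, g3⟩, g4⟩ := Dism.exists_first (P := fun e => i < e ∧ e < c ∧ Hd r i e c)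
    (b := i) (fun z hz => hz.1.le) (a := e0) ⟨f1, f2, f3⟩
  have hes : e = s := by
    rcases lt_trichotomy e s with hl | he | hl
    · exact (hs ⟨e, g1, hl, g3.mono le_rfl c1.le⟩).elim
    · exact he
    · obtain ⟨e', a1, a2, a3⟩ := hm e hl (by omega)
      have h4 := g4 e' ⟨a1, by omega, fun x y x1 x2 y1 y2 => by
        rcases le_or_gt y e with hy | hy
        · exact a3 x y x1 x2 y1 hy
        · exact g3 x y x1 (by omega) hy y2⟩
      omega
  subst hes
  exact ht ⟨e, h1, h2, Hd.grow hz h1 c1 c2.le hn g3 c3⟩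

/-- The mirror form of `Hd.grow`. -/
theorem Hd.grow' (hz : ZRel n r) {v c p t : ℤ} (h1 : v ≤ c) (h2 : c < p) (h3 : p < t)
    (hn : t < v + n) (hA : Hd r c p t) (hB : Hd r v c p) : Hd r v p t := by
  by_contra hne
  have hex : ∃ x w, v ≤ x ∧ x < p ∧ p < w ∧ w ≤ t ∧ r x w := by
    unfold Hd at hne
    push Not at hne
    exact hne
  obtain ⟨x0, w0, a1, a2, a3, a4, a5⟩ := hex
  obtain ⟨w, ⟨b1, x, b2, b3, b4⟩, b5⟩ := Dism.exists_first
    (P := fun w => p < w ∧ ∃ x, v ≤ x ∧ x < p ∧ r x w) (b := p) (fun z hz => hz.1.le) (a := w0)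
    ⟨a3, x0, a1, a2, a5⟩
  have b6 := b5 w0 ⟨a3, x0, a1, a2, a5⟩
  have hxc : x < c := by
    by_contra hc
    exact hA x w (by omega) b3 b1 (by omega) b4
  -- the last sight of `w` below `p`, the first sight at or above `p`
  obtain ⟨x', x1, x2, x3, x4⟩ := exists_last (p := fun z => r w z) (a := x) (b := p - 1)
    (by omega) (hz.symm _ _ b4)
  have hxc' : x' < c := by
    by_contra hc
    exact hA x' w (by omega) (by omega) b1 (by omega) (hz.symm _ _ x3)
  have hwp : r w (w - 1) := by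
    have := hz.succ (w - 1)
    rw [sub_add_cancel] at this
    exact hz.symm _ _ this
  obtain ⟨u, u1, u2, u3, u4⟩ := exists_first (p := fun z => r w z) (a := p) (b := w - 1)
    (by omega) hwp
  have hper : ∀ z, r (w - n) z ↔ r w z := by
    intro z
    have := hz.per (w - n) z
    rw [sub_add_cancel] at this
    exact this.symm
  have huw : r x' u := by
    refine hz.cn (w - n) x' u (by omega) (by omega) (by omega) ((hper _).2 x3) ((hper _).2 u3)
      fun m m1 m2 m3 => ?_
    rw [hper] at m3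
    rcases lt_or_ge m p with hm | hm
    · exact x4 m m1 (by omega) m3
    · exact u4 m hm m2 m3
  rcases u1.lt_or_eq with hu | hu
  · have := b5 u ⟨hu, x', by omega, by omega, huw⟩
    omega
  · rw [← hu] at huw
    exact hB x' p (by omega) hxc' h2 le_rfl huw

/-- Consecutive backward sights for the relation `¬ FH`. -/
theorem FH.cn' (hz : ZRel n r) {i s t : ℤ} (h1 : s < i) (h2 : t < s) (hn : i < t + n)
    (hs : ¬ FH r s i) (ht : ¬ FH r t i) (hm : ∀ m, t < m → m < s → FH r m i) : ¬ FH r t s := by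
  rintro ⟨c, c1, c2, c3⟩
  obtain ⟨e0, f1, f2, f3⟩ := hm c c1 c2
  obtain ⟨e, ⟨g1, g2, g3⟩, g4⟩ := Dism.exists_last (P := fun e => c < e ∧ e < i ∧ Hd r c e i)
    (b := i) (fun z hz => hz.2.1.le) (a := e0) ⟨f1, f2, f3⟩
  have hes : e = s := by
    rcases lt_trichotomy e s with hl | he | hl
    · obtain ⟨e', a1, a2, a3⟩ := hm e (by omega) hl
      have h4 := g4 e' ⟨by omega, a2, fun x y x1 x2 y1 y2 => by
        rcases lt_or_ge x e with hy | hy
        · exact g3 x y x1 hy (by omega) y2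
        · exact a3 x y hy x2 y1 y2⟩
      omega
    · exact he
    · exact (hs ⟨e, hl, g2, g3.mono c2.le le_rfl⟩).elim
  subst hes
  exact ht ⟨e, by omega, h1, Hd.grow' hz c1.le c2 h1 hn g3 c3⟩

/-- All sides of hidden rectangles are at most `h` if all first gaps are at most `h`. -/
theorem side_le (hz : ZRel n r) (hJ : Cut.JB n 1 (h + 2) r) {a c b : ℤ} (h1 : a < c) (h2 : c < b)
    (hn : b < a + n) (hR : Hd r a c b) : c - a ≤ h ∧ b - c ≤ h := by
  constructor
  · obtain ⟨m, m1, m2, m3, m4⟩ := hJ.2 (c + 1)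
    by_contra hc
    exact hR m (c + 1) (by omega) (by omega) (by omega) (by omega) (hz.symm _ _ m4)
  · obtain ⟨m, m1, m2, m3, m4⟩ := hJ.1 (c - 1)
    by_contra hc
    exact hR (c - 1) m (by omega) (by omega) (by omega) (by omega) m4

/-- Forward hidden vertices are near. -/
theorem FH.near (hz : ZRel n r) (hJ : Cut.JB n 1 (h + 2) r) {v y : ℤ} (hn : y < v + n)
    (hf : FH r v y) : y ≤ v + 2 * h := by
  obtain ⟨c, c1, c2, c3⟩ := hf
  obtain ⟨h3, h4⟩ := side_le hz hJ c1 c2 hn c3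
  omega

end LemB

end VisMap
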