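import Pool.Agent.Lib.MP_9f3af0_lcB.ThmA
import Pool.Agent.Lib.MP_9f3af0_lcB.TWalls

/-!
# MP_9f3af0_lc: `T'`-structures without fat rectangles (helper34, after helper91)

`NoFat k r`: no rectangle `[s - k, s) × (s, s + k]` is hidden.  Without fat rectangles a vertex has at
most one forward gap with laps, and if `(u; x, y)` is such a gap, then `x` has at most as many laps as
`u`, with equality only if `x` has a shorter forward gap with laps (`TZ.nf_key`; only `X` and `CN`).
Hence some vertex has no laps (`TZ.exists_no_laps`), and by the words its class has no laps.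
-/

namespace VisMap

namespace Tp

variable {n : ℕ} {k B : ℤ} {r : ℤ → ℤ → Prop}

/-- No rectangle `[s - k, s) × (s, s + k]` is hidden. -/
def NoFat (k : ℤ) (r : ℤ → ℤ → Prop) : Prop :=
  ∀ s, ∃ x y, s - k ≤ x ∧ x < s ∧ s < y ∧ y ≤ s + k ∧ r x y

theorem NoFat.mirror (hs : ∀ a b, r a b → r b a) (hF : NoFat k r) :
    NoFat k (VisMap.mirror r) := by
  intro s
  obtain ⟨x, y, h1, h2, h3, h4, h5⟩ := hF (-s)
  refine ⟨-y, -x, by omega, by omega, by omega, by omega, ?_⟩
  show r (- -y) (- -x)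
  rw [neg_neg, neg_neg]
  exact hs _ _ h5

theorem mirror_mirror (r : ℤ → ℤ → Prop) : VisMap.mirror (VisMap.mirror r) = r := by
  funext a b
  show r (- -a) (- -b) = r a b
  rw [neg_neg, neg_neg]

theorem laps_mirror (v : ℤ) : laps k B (VisMap.mirror r) (-v) = laps k B r v := by
  unfold laps lb
  rw [mirror_mirror, neg_neg, add_comm]

/-- A larger set has fewer laps; the smaller set is counted from an earlier point. -/
theorem lcT_mono' (hk : 0 < k) {S T : ℤ → Prop} {p a b : ℤ} (hpa : p ≤ a) (hab : a ≤ b) (hp : S p)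
    (ha : T a) (hb : S b) (hST : ∀ z, a ≤ z → z ≤ b → S z → T z) :
    lcT k T a b ≤ lcT k S p b := by
  obtain ⟨z, z1, z2, z3, z4⟩ := exists_first (p := S) hab hb
  obtain ⟨q, q1, q2, q3, q4⟩ : ∃ q, p ≤ q ∧ q ≤ a ∧ S q ∧ ∀ m, q < m → m ≤ a → ¬ S m :=
    exists_last (p := S) hpa hp
  have h1 := lcT_mono hk z2 z3 hb fun w w1 w2 w3 => hST w (by omega) w2 w3
  have h2 := lcT_split (k := k) (T := T) (a := a) (b := z) (c := b) z1 z2
  have h3 := lcT_split (k := k) (T := S) (a := p) (b := z) (c := b) (by omega) z2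
  have h4 := lcT_split (k := k) (T := S) (a := p) (b := q) (c := z) q1 (by omega)
  rcases z1.lt_or_eq with hz | hz
  · have h5 := lcT_lt hk hz ha (hST z z1 z2 z3)
    have h6 := lcT_gap hk (T := S) (a := q) (b := z) (by omega) q3 z3 fun m m1 m2 m3 => by
      rcases le_or_gt m a with hm | hm
      · exact q4 m m1 hm m3
      · exact z4 m hm.le m2 m3
    have h7 : (lcT k T a z : ℤ) ≤ (z - 1 - q) / k := by
      rw [Int.le_ediv_iff_mul_le hk, mul_comm]
      omega
    omega
  · have h5 : lcT k T a z = 0 := by rw [← hz]; exact lcT_self _ _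
    omega

section

variable {u x y : ℤ}

/-- The rows `[u, x)` hide `(x, y)`. -/
theorem TZ.nf_hide (h : TZ n k B r) (hg : Gp r u x y) {z w : ℤ} (h1 : u ≤ z) (h2 : z < x)
    (h3 : x < w) (h4 : w < y) : ¬ r z w := by
  obtain ⟨g1, g2, g3, g4, g5⟩ := hg
  intro hzw
  rcases h1.lt_or_eq with h | h
  · exact g5 w h3 h4 (TZ.X ‹_› u z x w h h2 h3 g3 hzw)
  · rw [← h] at hzw; exact g5 w h3 h4 hzw

/-- Without fat rectangles a forward gap with laps begins at a distance less than `k`. -/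
theorem TZ.nf_start (h : TZ n k B r) (hF : NoFat k r) (hg : Gp r u x y) (hl : x + k < y) :
    x < u + k := by
  by_contra hc
  obtain ⟨z, w, h1, h2, h3, h4, h5⟩ := hF x
  exact h.nf_hide hg (by omega) h2 h3 (by omega) h5

/-- A lap lies in a gap with laps. -/
theorem TZ.gap_of_lap (h : TZ n k B r) {v z : ℤ} (hz : LapP k (Tf r v) z) :
    ∃ a b, Gp r v a b ∧ a < z ∧ z < b ∧ a + k ≤ z := by
  obtain ⟨h1, s, s1, ⟨s2, s3⟩, s4, s5⟩ := hz
  have hvz : v < z := by omega
  have hnz : ¬ r v z := fun h2 => h1 ⟨hvz, h2⟩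
  obtain ⟨b, b1, b2, b3, -⟩ := h.next (v := v) (a := z) hvz.le
  refine ⟨s, b, ⟨s2, by omega, s3, b2, fun m m1 m2 => ?_⟩, s1, b1, ?_⟩
  · rcases lt_trichotomy m z with hm | hm | hm
    · exact fun h2 => s4 m m1 hm ⟨by omega, h2⟩
    · rw [hm]; exact hnz
    · exact b3 m hm m2
  · have := Int.le_of_dvd (by omega) s5
    omega

/-- Without fat rectangles no lap lies beyond a gap with laps. -/
theorem TZ.nf_nolap (h : TZ n k B r) (hF : NoFat k r) {v a z : ℤ} (hva : v + k ≤ a)
    (ha : r v a) (hz : a < z) : ¬ LapP k (Tf r v) z := by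
  intro hl
  have hk := h.hk
  obtain ⟨c, d, c1, c2, c3, c4⟩ := h.gap_of_lap hl
  have h1 := h.nf_start hF c1 (by omega)
  exact c1.2.2.2.2 a (by omega) (by omega) ha

/-- The forward laps of `u`. -/
theorem TZ.nf_lf_u (h : TZ n k B r) (hg : Gp r u x y) :
    (y - 1 - x) / k ≤ (lf k B r u : ℤ) := by
  have hg0 := hg
  obtain ⟨g1, g2, g3, g4, g5⟩ := hg
  rw [h.lf_eq (v := u) (M := max (u + B) y) (le_max_left _ _),
    lcT_split (a := u) (b := x) (c := max (u + B) y) g1.le
      (by have := le_max_right (u + B) y; omega),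
    lcT_split (a := x) (b := y) (c := max (u + B) y) g2.le (le_max_right _ _)]
  push_cast
  rw [h.gapA_lc_v hg0]
  omega

/-- The forward laps of `x`. -/
theorem TZ.nf_lf_x (h : TZ n k B r) (hF : NoFat k r) (hg : Gp r u x y) (hl : x + k < y) :
    (lf k B r x : ℤ) ≤ (y - 1 - x) / k := by
  have hk := h.hk
  have hxy := h.gapA_st hg
  rw [h.lf_eq (v := x) (M := max (x + B) y) (le_max_left _ _),
    lcT_split (a := x) (b := y) (c := max (x + B) y) hg.2.1.le (le_max_right _ _),
    lcT_eq_zero (a := y) (fun z z1 _ => h.nf_nolap hF (by omega) hxy z1), add_zero,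
    Int.le_ediv_iff_mul_le hk, mul_comm]
  have h2 := lcT_lt hk (T := Tf r x) (a := x + 1) (b := y) (by omega) ⟨by omega, h.succ x⟩
    ⟨by omega, hxy⟩
  have h3 := lcT_split (k := k) (T := Tf r x) (a := x) (b := x + 1) (c := y) (by omega) (by omega)
  have h4 : lcT k (Tf r x) x (x + 1) = 0 := lcT_eq_zero fun z z1 z2 z3 => by
    have e : z = x + 1 := by omega
    rw [e] at z3
    exact z3.1 ⟨by omega, h.succ x⟩
  rw [h3, h4, zero_add]
  omega

/-- The last vertex behind `x` that sees into `(x, y)` sees `x`. -/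
theorem TZ.nf_T (h : TZ n k B r) (hF : NoFat k r) (hg : Gp r u x y) (hl : x + k < y) :
    ∃ T, x - k ≤ T ∧ T < u ∧ r T x := by
  obtain ⟨x', w', h1, h2, h3, h4, h5⟩ := hF x
  obtain ⟨T, T1, T2, ⟨w0, w01, w02, w03⟩, T4⟩ := exists_last
    (p := fun z => ∃ w, x < w ∧ w < y ∧ r z w) (a := x') (b := x - 1) (by omega)
    ⟨w', h3, by omega, h5⟩
  have hTu : T < u := by
    by_contra hc
    exact h.nf_hide hg (by omega) (by omega) w01 w02 w03
  refine ⟨T, by omega, hTu, ?_⟩
  obtain ⟨w, w1, w2, w3, w4⟩ := exists_first (p := fun z => r T z) (a := x + 1) (b := w0)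
    (by omega) w03
  obtain ⟨p, p1, p2, p3, p4⟩ := h.last' (v := w) (a := T + 1) (by omega)
  have hxp : x ≤ p := by
    by_contra hc
    exact T4 p (by omega) (by omega) ⟨w, by omega, by omega, h.symm _ _ p3⟩
  have hTp : r p T := h.cn' w p T (by omega) p2 p3 (h.symm _ _ w3) fun m m1 m2 => p4 m (by omega) m2
  rcases hxp.lt_or_eq with h6 | h6
  · exact absurd (h.symm _ _ hTp) (w4 p (by omega) p2)
  · rw [h6]; exact h.symm _ _ hTp

/-- The backward laps of `x` are at most those of `u`. -/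
theorem TZ.nf_lb (h : TZ n k B r) (hF : NoFat k r) (hg : Gp r u x y) (hl : x + k < y) :
    lb k B r x ≤ lb k B r u := by
  have hk := h.hk
  have hB := h.hB
  obtain ⟨T, T1, T2, T3⟩ := h.nf_T hF hg hl
  have hux := hg.1
  obtain ⟨M, hM1, hM2, hM3⟩ : ∃ M : ℤ, -x + B + 1 ≤ M ∧ -u + B + 1 ≤ M ∧ -T ≤ M :=
    ⟨max (-T) (-u + B + 1), by have := le_max_right (-T) (-u + B + 1); omega, le_max_right _ _,
      le_max_left _ _⟩
  have e1 : r x T := h.symm _ _ T3
  rw [h.lb_eq (v := x) (M := M) (by omega), h.lb_eq (v := u) (M := M) (by omega),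
    lcT_split (a := -x) (b := -T) (c := M) (by omega) hM3,
    lcT_split (a := -u) (b := -u + 1) (c := M) (by omega) (by omega)]
  have h1 : lcT k (Tf (VisMap.mirror r) (-x)) (-x) (-T) = 0 := by
    refine lcT_eq_zero fun z z1 z2 z3 => ?_
    obtain ⟨z4, s, s1, ⟨s2, s3⟩, s4, s5⟩ := z3
    have := Int.le_of_dvd (by omega) s5
    omega
  have h2 : lcT k (Tf (VisMap.mirror r) (-x)) (-T) M ≤
      lcT k (Tf (VisMap.mirror r) (-u)) (-u + 1) M := by
    refine lcT_mono' hk (by omega) hM3 ⟨by omega, h.mirror.succ (-u)⟩ ⟨by omega, ?_⟩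
      ⟨by omega, h.mirror.far _ _ (by omega)⟩ fun z z1 z2 z3 => ⟨by omega, ?_⟩
    · show r (- -x) (- -T)
      rw [neg_neg, neg_neg]
      exact e1
    · have z4 : r (- -u) (-z) := z3.2
      show r (- -x) (-z)
      rw [neg_neg] at z4 ⊢
      rcases z1.lt_or_eq with h3 | h3
      · exact h.symm _ _ (h.X (-z) T u x (by omega) T2 hux (h.symm _ _ z4) T3)
      · rw [← h3, neg_neg]; exact e1
  rw [h1, zero_add]
  exact h2.trans (Nat.le_add_left _ _)

end

/-- A vertex with the smallest number of laps has no forward gap with laps. -/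
theorem TZ.nf_key (h : TZ n k B r) (hF : NoFat k r) {c : ℕ} (hc : ∀ w, c ≤ laps k B r w) (N : ℕ) :
    ∀ u x y, laps k B r u = c → Gp r u x y → x + k < y → y - x ≤ N → False := by
  induction N with
  | zero =>
    intro u x y _ hg _ hN
    have := hg.2.1
    push_cast at hN
    omega
  | succ N ih =>
    intro u x y hu hg hl hN
    have hk := h.hk
    have h1 := h.nf_lf_u hg
    have h2 := h.nf_lf_x hF hg hl
    have h3 := h.nf_lb hF hg hl
    have h4 := hc x
    have h5 : 1 ≤ (y - 1 - x) / k := by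
      rw [Int.le_ediv_iff_mul_le hk]
      omega
    have h6 : laps k B r x = c ∧ 1 ≤ lf k B r x := by
      unfold laps at hu h4 ⊢
      omega
    obtain ⟨h7, h8⟩ := h6
    rw [lf_eq_lcT] at h8
    have h9 : ∃ z, LapP k (Tf r x) z := by
      by_contra hcon
      rw [lcT_eq_zero fun z _ _ hz => hcon ⟨z, hz⟩] at h8
      omega
    obtain ⟨z, hz⟩ := h9
    obtain ⟨a, b, g, a1, a2, a3⟩ := h.gap_of_lap hz
    have h10 := h.nf_start hF g (by omega)
    have h11 : b ≤ y := by
      by_contra hcon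
      exact g.2.2.2.2 y (by omega) (by omega) (h.gapA_st hg)
    have h12 := g.1
    exact ih x a b h7 g (by omega) (by push_cast at hN; omega)

theorem TZ.nf_lf_zero (h : TZ n k B r) (hF : NoFat k r) {c : ℕ} (hc : ∀ w, c ≤ laps k B r w)
    {v : ℤ} (hv : laps k B r v = c) : lf k B r v = 0 := by
  rw [lf_eq_lcT]
  refine lcT_eq_zero fun z _ _ hz => ?_
  obtain ⟨a, b, g, a1, a2, a3⟩ := h.gap_of_lap hz
  have := g.2.1
  exact h.nf_key hF hc (b - a).toNat v a b hv g (by omega) (by omega)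

/-- Without fat rectangles some vertex has no laps. -/
theorem TZ.exists_no_laps (h : TZ n k B r) (hF : NoFat k r) : ∃ v, laps k B r v = 0 := by
  classical
  have hex : ∃ c : ℕ, ∃ v, laps k B r v = c := ⟨_, 0, rfl⟩
  obtain ⟨v, hv⟩ := Nat.find_spec hex
  have hc : ∀ w, Nat.find hex ≤ laps k B r w := fun w => Nat.find_min' hex ⟨w, rfl⟩
  refine ⟨v, ?_⟩
  have h1 := h.nf_lf_zero hF hc hv
  have h2 := h.mirror.nf_lf_zero (hF.mirror h.symm) (c := Nat.find hex) (fun w => by
    have := hc (-w)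
    rw [← laps_mirror, neg_neg] at this
    exact this) (v := -v) (by rw [laps_mirror]; exact hv)
  unfold laps lb
  rw [h1, h2]

/-- **A `T'`-structure without class-wide chords has a fat rectangle.** -/
theorem TZ.false_of_noFat (h : TZ n k B r) (hk : 2 ≤ k) (hc : NoWide k r) (hF : NoFat k r) :
    False := by
  obtain ⟨v, hv⟩ := h.exists_no_laps hF
  obtain ⟨u, hu, hu2⟩ := h.wall hk hc v
  have h1 := h.laps_class hu
  rw [hv] at h1
  unfold laps at h1
  have h2 : lf k B r u = 0 := by omega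
  rw [h.lf_eq (v := u) (M := max (u + B) (u + 1 + k)) (le_max_left _ _)] at h2
  refine lcT_zero h2 (y := u + 1 + k) (by omega) (le_max_right _ _)
    ⟨fun h3 => hu2 (u + 1 + k) (by omega) (by omega) h3.2, u + 1, by omega,
      ⟨by omega, h.succ u⟩, fun m m1 m2 m3 => hu2 m m1 (by omega) m3.2, by simp⟩

end Tp

end VisMap
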