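import Pool.Agent.Lib.MP_9f3af0_lcB.Pic3
import Pool.Agent.Lib.MP_9f3af0_lcB.FatE
import Pool.Agent.Lib.MP_9f3af0_lcB.NoFat

/-!
# MP_9f3af0_lc: the longest terminal gap for `k = 3` (helper96, helper80; Lean by helper31)

The frame of the longest terminal gap is the facing picture (`TermF.pic3`).
-/

namespace VisMap

namespace Tp

section

variable {n : ℕ} {k B : ℤ} {r : ℤ → ℤ → Prop} {c : ℕ} {l : ℤ}

/-- A column `z` outside `M` with a long gap: its near corner `p` has no more forward laps. -/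
theorem Cl.star (h : TZ n k B r) (C : Cl k B r c l) {p z q : ℤ} (hqp : q + l < p)
    (hpz : p < z) (hzk : z ≤ p + k) (hr : r z p) (hm : ∀ m, q < m → m < p → ¬ r z m)
    (hz : c < laps k B r z) : lf k B r p ≤ lf k B r z := by
  have hk := h.hk
  have hB := h.hB
  have hkl := C.kl
  obtain ⟨t, t1, t2, ⟨w, w1, w2, w3⟩, t4⟩ := h.exists_t (T := q) (s := p) (by omega)
  have hzt : z < t := by
    by_contra hc
    rcases (show t ≤ z by omega).lt_or_eq with h1 | h1
    · exact hm w w1 w2 (h.symm _ _ (h.X w p t z w2 t1 h1 w3 (h.symm _ _ hr)))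
    · rw [h1] at w3
      exact hm w w1 w2 (h.symm _ _ w3)
  obtain ⟨y1, a1, a2, a3, -⟩ := h.next (v := p) (a := z) hpz.le
  have hy1t : y1 ≤ t := by
    by_contra hc
    exact a3 t hzt (by omega) t2
  have hy1 : y1 ≤ z + k := by
    by_contra hc
    have hrc : Rc r q z y1 := by
      intro x y x1 x2 x3 x4
      rcases lt_or_ge x p with h1 | h1
      · exact t4 x y x1 h1 (by omega) (by omega)
      · exact h.hide h1 x2 x3 (h.symm _ _ hr) (a3 y x3 x4)
    have h2 := C.mir.corner h.mirror (hrc.mir h) (by omega) (by omega)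
    rw [laps_mirror'] at h2
    omega
  set M := max (max (p + B + 1) (z + B + 1)) y1 with hM
  have hM1 : p + B + 1 ≤ M := le_trans (le_max_left _ _) (le_max_left _ _)
  have hM2 : z + B + 1 ≤ M := le_trans (le_max_right _ _) (le_max_left _ _)
  have hM3 : y1 ≤ M := le_max_right _ _
  have e1 : lf k B r p = lcT k (Tf r p) p z + lcT k (Tf r p) z y1 + lcT k (Tf r p) y1 M := by
    rw [h.lf_eq (v := p) (M := M) (by omega),
      lcT_split (a := p) (b := z) (c := M) hpz.le (by omega),
      lcT_split (a := z) (b := y1) (c := M) a1.le hM3]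
    ring
  have e2 : (lcT k (Tf r p) p z : ℤ) ≤ (z - 1 - p) / k := h.lcT_le hpz (h.symm _ _ hr)
  have e3 : (z - 1 - p) / k = 0 := Int.ediv_eq_zero_of_lt (by omega) (by omega)
  have e4 : (lcT k (Tf r p) z y1 : ℤ) = (y1 - 1 - z) / k :=
    lcT_gap hk a1 ⟨hpz, h.symm _ _ hr⟩ ⟨by omega, a2⟩ fun m m1 m2 m3 => a3 m m1 m2 m3.2
  have e5 : (y1 - 1 - z) / k = 0 := Int.ediv_eq_zero_of_lt (by omega) (by omega)
  have e6 : lcT k (Tf r p) y1 M ≤ lcT k (Tf r z) (z + 1) M := by
    refine lcT_mono' hk (by omega) hM3 ⟨by omega, h.succ z⟩ ⟨by omega, a2⟩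
      ⟨by omega, h.far _ _ (by omega)⟩ fun m m1 m2 m3 => ⟨by omega, ?_⟩
    rcases m1.lt_or_eq with h1 | h1
    · exact h.X p z y1 m hpz a1 h1 a2 m3.2
    · rw [← h1]; exact a2
  have e7 : lf k B r z = lcT k (Tf r z) z (z + 1) + lcT k (Tf r z) (z + 1) M := by
    rw [h.lf_eq (v := z) (M := M) (by omega),
      lcT_split (a := z) (b := z + 1) (c := M) (by omega) (by omega)]
  omega

/-- A column of `M` has no laps beyond a far sight. -/
theorem Cl.lb_near (h : TZ n k B r) (C : Cl k B r c l) {p q : ℤ} (hp : laps k B r p = c)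
    (hqp : q + l ≤ p) (hr : r p q) :
    lb k B r p = lcT k (Tf (VisMap.mirror r) (-p)) (-p) (-q) := by
  have hk := h.hk
  have hkl := C.kl
  have hss : VisMap.mirror r (-p) (-q) := (mir_iff p q).2 hr
  rw [h.lb_eq (v := p) (M := max (-p + B) (-q)) (le_max_left _ _),
    lcT_split (a := -p) (b := -q) (c := max (-p + B) (-q)) (by omega) (le_max_right _ _),
    lcT_eq_zero (a := -q) (fun y y1 _ => h.mirror.nolap_b (closC l) C.mir
      (by rw [laps_mirror', hp]) (by omega) hss (by omega) (by omega) y1), add_zero]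

/-- The backward laps of a column `g` that sees `v` and then `T`. -/
theorem TZ.lb_bound (h : TZ n k B r) {T v g : ℤ} (hTv : T < v) (hvg : v < g) (hgk : g ≤ v + k)
    (gv : r g v) (gT : r g T) (vT : r v T) (hm : ∀ m, T < m → m < v → ¬ r g m) :
    (lb k B r g : ℤ) ≤ (v - 1 - T) / k + lb k B r v := by
  have hk := h.hk
  have e' : ∀ u m : ℤ, VisMap.mirror r (-u) m ↔ r u (-m) := fun u m => by
    show r (- -u) (-m) ↔ _
    rw [neg_neg]
  set M := max (max (-v + B + 1) (-g + B + 1)) (-T) with hMdef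
  have hM1 : -v + B + 1 ≤ M := le_trans (le_max_left _ _) (le_max_left _ _)
  have hM2 : -g + B + 1 ≤ M := le_trans (le_max_right _ _) (le_max_left _ _)
  have hM3 : -T ≤ M := le_max_right _ _
  have h1 : lb k B r g = lcT k (Tf (VisMap.mirror r) (-g)) (-g) (-v) +
      lcT k (Tf (VisMap.mirror r) (-g)) (-v) (-T) +
      lcT k (Tf (VisMap.mirror r) (-g)) (-T) M := by
    rw [h.lb_eq (v := g) (M := M) (by omega),
      lcT_split (a := -g) (b := -v) (c := M) (by omega) (by omega),
      lcT_split (a := -v) (b := -T) (c := M) (by omega) (by omega)]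
    ring
  have h2 : (lcT k (Tf (VisMap.mirror r) (-g)) (-v) (-T) : ℤ) = (v - 1 - T) / k := by
    rw [lcT_gap hk (T := Tf (VisMap.mirror r) (-g)) (a := -v) (b := -T) (by omega)
      ⟨by omega, (mir_iff g v).2 gv⟩ ⟨by omega, (mir_iff g T).2 gT⟩ fun m m1 m2 m3 =>
        hm (-m) (by omega) (by omega) ((e' g m).1 m3.2)]
    congr 1
    ring
  have h0 : (lcT k (Tf (VisMap.mirror r) (-g)) (-g) (-v) : ℤ) ≤ (-v - 1 - -g) / k :=
    h.mirror.lcT_le (by omega) ((mir_iff g v).2 gv)
  have h0' : (-v - 1 - -g) / k = 0 := Int.ediv_eq_zero_of_lt (by omega) (by omega)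
  have h3 : lb k B r v = lcT k (Tf (VisMap.mirror r) (-v)) (-v) (-T) +
      lcT k (Tf (VisMap.mirror r) (-v)) (-T) M := by
    rw [h.lb_eq (v := v) (M := M) (by omega),
      lcT_split (a := -v) (b := -T) (c := M) (by omega) (by omega)]
  have h4 : lcT k (Tf (VisMap.mirror r) (-g)) (-T) M ≤
      lcT k (Tf (VisMap.mirror r) (-v)) (-T) M := by
    refine lcT_mono hk hM3 ⟨by omega, (mir_iff v T).2 vT⟩
      ⟨by omega, (e' v M).2 (h.far' (by omega))⟩ ?_
    rintro z z1 z2 ⟨z3, z4⟩
    have z5 := (e' v z).1 z4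
    refine ⟨by omega, (e' g z).2 ?_⟩
    rcases (show -z ≤ T by omega).lt_or_eq with h5 | h5
    · exact h.symm _ _ (h.X (-z) T v g h5 (by omega) hvg (h.symm _ _ z5) (h.symm _ _ gT))
    · rw [h5]; exact gT
  omega

end

variable {n : ℕ} {B : ℤ} {r : ℤ → ℤ → Prop} {c : ℕ} {l : ℤ}

/-- The holes of the word of the centre. -/
theorem SF.hole3 (h : TZ n 3 B r) (C : Cl 3 B r c l) {T s t : ℤ} (S : SF 3 B r c l T s t)
    {lam i j : ℤ} (hlam : (lf 3 B r s : ℤ) = lam) (hi : 0 ≤ i) (hiT : T < s - 3 * (i + 1))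
    (hj : 1 ≤ j) (hj2 : s + 3 * lam + j < t) (ht : t ≤ s + 3 * lam + 3) :
    ¬ r (s - 3 * i) (s + 3 * lam + 3 + j) := by
  intro hr
  have hst := S.ht
  have hkl := C.kl
  have hlf := S.lf_s (closC l) h C (by omega)
  have hM : ∀ i', laps 3 B r (s - 3 * i') = c := fun i' => by
    rw [← S.hs]
    exact h.laps_class (v := s) (v' := s - 3 * i') ⟨-i', by ring⟩
  have hlc : (lcT 3 (Tf r (s - 3 * i)) (s - 3 * i) (s + 3 * lam + 3 + j) : ℤ) = lam := by
    have h1 := h.lcT_le_lf (v := s - 3 * i) (z := s + 3 * lam + 3 + j) (by omega)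
    rcases hi.lt_or_eq with h2 | h2
    · rw [(S.row (closC l) h C (by omega) (u := s - 3 * i) (by omega) (by omega) (hM i)).1] at h1
      obtain ⟨x1, x2, a1, a2, a3, a4, a5, a6, a7⟩ :=
        S.rc.gap h (x := s - 3 * i) (by omega) (by omega) (by omega)
      have hx2 : x2 ≤ s + 3 * lam + 3 + j := by
        by_contra hc
        exact a7 _ (by omega) (by omega) hr
      have h3 := lcT_gap (k := 3) (by norm_num) (T := Tf r (s - 3 * i)) (a := x1) (b := x2) a4
        ⟨a3, a5⟩ ⟨by omega, a6⟩ fun m m1 m2 m3 => a7 m m1 m2 m3.2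
      have h4 := lcT_split (k := 3) (T := Tf r (s - 3 * i)) (a := s - 3 * i) (b := x1)
        (c := s + 3 * lam + 3 + j) a3.le (by omega)
      have h5 := lcT_split (k := 3) (T := Tf r (s - 3 * i)) (a := x1) (b := x2)
        (c := s + 3 * lam + 3 + j) a4.le hx2
      omega
    · have e : s - 3 * i = s := by omega
      rw [e] at h1 ⊢
      have h3 := lcT_split (k := 3) (T := Tf r s) (a := s) (b := t)
        (c := s + 3 * lam + 3 + j) (by omega) (by omega)
      omega
  obtain ⟨z', z1, z2, z3⟩ := h.transport (v := s - 3 * i) (v' := s - 3 * (i + 1))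
    (z := s + 3 * lam + 3 + j) ⟨-1, by ring⟩ (by omega) hr
  rw [hlc] at z3
  have h3 := h.lcT_le_lf (v := s - 3 * (i + 1)) (z := z') z1.le
  rw [(S.row (closC l) h C (by omega) (u := s - 3 * (i + 1)) hiT (by omega) (hM (i + 1))).1] at h3
  generalize lcT 3 (Tf r (s - 3 * (i + 1))) (s - 3 * (i + 1)) z' = Q at z3 h3
  exact S.rc (s - 3 * (i + 1)) z' hiT (by omega) (by omega) (by omega) z2

/-- The row `g` has a lap gap beyond `t`. -/
theorem TermF.lap3 (h : TZ n 3 B r) {v g t : ℤ} (F : TermF 3 B r c l v g t)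
    (hng : ∀ H H', t ≤ H → Gp r g H H' → H' ≤ H + 3) : False := by
  have C := F.cl
  have hkl := F.kl
  have hlen := F.len
  have hvg := F.vg
  have hv := F.hv
  have hg := F.hg
  have hlv := F.lf_v h
  obtain ⟨g1, g2, g3, g4, g5⟩ := F.gap
  have hgt : r g t := h.cn v g t g1 g2 g3 g4 g5
  have hz : lcT 3 (Tf r g) t (max (g + B) t) = 0 := lcT_eq_zero fun y y1 _ hy => by
    obtain ⟨a, b, ⟨b1, b2, b3, b4, b5⟩, ha, hb, hab⟩ := h.gap_of_lap hy
    have hta : t ≤ a := by
      by_contra hc
      exact b5 t (by omega) (by omega) hgt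
    have := hng a b hta ⟨b1, b2, b3, b4, b5⟩
    omega
  have hlg : lf 3 B r g = lcT 3 (Tf r g) g t := by
    rw [h.lf_eq (v := g) (M := max (g + B) t) (le_max_left _ _),
      lcT_split (a := g) (b := t) (c := max (g + B) t) g2.le (le_max_right _ _), hz, add_zero]
  obtain ⟨T, T1, T2, ⟨w0, w1, w2, w3⟩, T4⟩ := h.exists_T (x := v) (y := t) (by omega)
  have hTg : r T g := by
    obtain ⟨c0, c1, c2, c3, c4⟩ := exists_first (p := fun y => r T y) (a := v + 1) (b := w0)
      (by omega) w3
    have hc : r v c0 := h.cn T v c0 T1 (by omega) (h.symm _ _ T2) c3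
      fun m m1 m2 => c4 m (by omega) m2
    have hcg : c0 ≤ g := by
      by_contra hcon
      exact g5 c0 (by omega) (by omega) hc
    rcases hcg.lt_or_eq with h1 | h1
    · exact h.X T v c0 g T1 (by omega) h1 c3 g3
    · rw [← h1]; exact c3
  have hTm : ∀ m, T < m → m < v → ¬ r g m := fun m m1 m2 m3 =>
    T4 m g m1 m2 g1 g2 (h.symm _ _ m3)
  have hlbg := h.lb_bound (T := T) (v := v) (g := g) T1 g1 (by omega) (h.symm _ _ g3)
    (h.symm _ _ hTg) T2 hTm
  have hA : (lcT 3 (Tf r g) g t : ℤ) ≤ (t - 2 - g) / 3 := h.lcT_le2 (by omega) hgt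
  have elg : laps 3 B r g = lf 3 B r g + lb 3 B r g := rfl
  have elv : laps 3 B r v = lf 3 B r v + lb 3 B r v := rfl
  rcases le_or_gt (v - 3) T with hT | hT
  · omega
  -- the frame
  obtain ⟨t', t1, t2, ⟨z, z1, z2, z3⟩, t4⟩ := h.exists_t (T := T) (s := v) (by omega)
  have htt : t ≤ t' := by
    by_contra hc
    exact T4 z t' z1 z2 t1 (by omega) z3
  have S : SF 3 B r c l T v t' := ⟨hv, by omega, by omega, t4, T2, t2, ⟨w0, w1, by omega, w3⟩,
    ⟨z, z1, z2, z3⟩⟩
  have hlf := S.lf_s (closC l) h C (by omega)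
  obtain ⟨lam, hlam⟩ : ∃ lam : ℤ, (lf 3 B r v : ℤ) = lam := ⟨_, rfl⟩
  have hlam1 : 1 ≤ lam := by omega
  have ht'o : t' ≤ v + 3 * lam + 3 := by omega
  have hto : g + 1 + 3 * lam ≤ t := by omega
  obtain ⟨R, hR⟩ : ∃ R : ℤ, R = (v - 1 - T) / 3 := ⟨_, rfl⟩
  have hR1 : 1 ≤ R := by omega
  have hhole : ∀ i j' : ℤ, 0 ≤ i → i ≤ R - 1 → 1 ≤ j' → j' ≤ g - v →
      ¬ r (v - 3 * i) (v + 3 * lam + 3 + j') := fun i j' i1 i2 j1 j2 =>
    S.hole3 h C hlam i1 (by omega) j1 (by omega) ht'o
  have e2 : v + 3 * lam + 3 + (g - v) = g + 3 * lam + 3 := by ring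
  have hvw : ¬ r v (g + 3 * lam + 3) := by
    have h1 := hhole 0 (g - v) le_rfl (by omega) (by omega) le_rfl
    have e1 : v - 3 * 0 = v := by ring
    rw [e1, e2] at h1
    exact h1
  have hMo : laps 3 B r (v + 3 * lam + 3) = c := by
    rw [← hv]
    exact h.laps_class (v := v) (v' := v + 3 * lam + 3) (by omega)
  have hcw : laps 3 B r (g + 3 * lam + 3) = laps 3 B r g :=
    h.laps_class (v := g) (v' := g + 3 * lam + 3) (by omega)
  have hAB : (∀ x, v ≤ x → x < v + 3 * lam + 3 → ¬ r x (g + 3 * lam + 3)) ∧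
      (lb 3 B r (v + 3 * lam + 3) : ℤ) ≤ lam := by
    by_cases hvo : r v (v + 3 * lam + 3)
    · refine ⟨fun x x1 x2 => h.hide x1 x2 (by omega) hvo hvw, ?_⟩
      have h1 := C.lb_near h hMo (q := v) (by omega) (h.symm _ _ hvo)
      have h2 := h.mirror.lcT_le (k := 3) (x := -(v + 3 * lam + 3)) (y := -v) (by omega)
        ((mir_iff _ _).2 (h.symm _ _ hvo))
      rw [← h1] at h2
      omega
    · have hto' : t' ≠ v + 3 * lam + 3 := by
        intro h1
        rw [← h1] at hvo
        exact hvo t2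
      have ht1 : t = v + 3 * lam + 2 := by omega
      have hg1 : g = v + 1 := by omega
      have hto2 : ∀ m, v ≤ m → m < t → ¬ r (v + 3 * lam + 3) m := fun m m1 m2 m3 =>
        h.hide m1 m2 (by omega) g4 hvo (h.symm _ _ m3)
      obtain ⟨q, q1, q2, q3, -⟩ := h.next' (v := v + 3 * lam + 3) (a := v) (by omega)
      have hot : r (v + 3 * lam + 3) t := by
        have h1 := h.pred (v + 3 * lam + 3)
        have e : v + 3 * lam + 3 - 1 = t := by omega
        rw [e] at h1
        exact h1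
      obtain ⟨b1, b2, b3, b4⟩ := h.f5' (closC l) C hMo (q := q) (p := t) (by omega) (by omega)
        hot q2 (fun m m1 m2 => by
          rcases lt_or_ge m v with h3 | h3
          · exact q3 m m1 h3
          · exact hto2 m h3 m2) (by omega) (by omega)
      have hlt := C.lb_near h b1 (q := v) (by omega) (h.symm _ _ g4)
      have hlt2 := h.mirror.lcT_le (k := 3) (x := -t) (y := -v) (by omega)
        ((mir_iff _ _).2 (h.symm _ _ g4))
      rw [← hlt] at hlt2
      have htw : ¬ r t (g + 3 * lam + 3) := by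
        intro h1
        have hd : (3 : ℤ) ∣ v - 1 - t := by omega
        obtain ⟨z', z'1, z'2, z'3⟩ := h.transport (v := t) (v' := v - 1)
          (z := g + 3 * lam + 3) hd (by omega) h1
        have h2 := h.lcT_le (k := 3) (x := t) (y := g + 3 * lam + 3) (by omega) h1
        have h3 := h.lcT_le_lf (v := v - 1) (z := z') z'1.le
        have hM1 : laps 3 B r (v - 1) = c := by
          rw [← b1]
          exact h.laps_class (v := t) (v' := v - 1) hd
        rw [(S.row (closC l) h C (by omega) (u := v - 1) (by omega) (by omega) hM1).1] at h3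
        generalize lcT 3 (Tf r (v - 1)) (v - 1) z' = Q at z'3 h3
        exact S.rc (v - 1) z' (by omega) (by omega) (by omega) (by omega) z'2
      refine ⟨fun x x1 x2 => ?_, by omega⟩
      rcases lt_or_ge x t with h3 | h3
      · exact h.hide x1 h3 (by omega) g4 hvw
      · have e : x = t := by omega
        rw [e]
        exact htw
  obtain ⟨hup, hlbo⟩ := hAB
  have hbelow : ∀ x, v - 3 * (R - 1) ≤ x → x < v + 3 * lam + 3 → ¬ r x (g + 3 * lam + 3) := by
    intro x x1 x2
    rcases lt_or_ge x v with h1 | h1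
    · have hMu : laps 3 B r (v - 3 * (R - 1)) = c := by
        rw [← hv]
        exact h.laps_class (v := v) (v' := v - 3 * (R - 1)) (by omega)
      obtain ⟨x3, x4, a1, a2, a3⟩ := S.rc.gap h (x := v - 3 * (R - 1)) (by omega) (by omega)
        (by omega)
      have h2 := h.lf_ge a3
      rw [(S.row (closC l) h C (by omega) (u := v - 3 * (R - 1)) (by omega) (by omega) hMu).1]
        at h2
      obtain ⟨a4, a5, a6, a7, a8⟩ := a3
      have h3 := hhole (R - 1) (g - v) (by omega) le_rfl (by omega) le_rfl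
      rw [e2] at h3
      exact h.hide x1 (by omega) (by omega) a7 h3
    · exact hup x h1 x2
  -- the gap of the column `w = g + 3 lam + 3`
  obtain ⟨p, p1, p2, p3, p4⟩ := h.last' (v := g + 3 * lam + 3) (a := v) (by omega)
  obtain ⟨q, q1, q2, q3, -⟩ := h.next' (v := g + 3 * lam + 3) (a := v) (by omega)
  have hpo : v + 3 * lam + 3 ≤ p := by
    by_contra hc
    exact hbelow p (by omega) (by omega) (h.symm _ _ p3)
  have hq : q < v - 3 * (R - 1) := by
    by_contra hc
    exact hbelow q (by omega) (by omega) (h.symm _ _ q2)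
  have hqm : ∀ m, q < m → m < p → ¬ r (g + 3 * lam + 3) m := by
    intro m m1 m2
    rcases lt_or_ge m v with h3 | h3
    · exact q3 m m1 h3
    · exact p4 m h3 m2
  have hlbw := h.lb_ge (show q < p by omega) p2 p3 q2 hqm
  have hstar : lf 3 B r (v + 3 * lam + 3) ≤ lf 3 B r (g + 3 * lam + 3) := by
    have h1 := C.star h (p := p) (z := g + 3 * lam + 3) (q := q) (by omega) p2 (by omega) p3 hqm
      (by rw [hcw]; exact hg)
    rcases hpo.lt_or_eq with h2 | h2
    · have hp' : p = v + 3 * lam + 3 + 1 := by omega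
      have hg2 : g = v + 2 := by omega
      have hto3 : t' = v + 3 * lam + 3 := by omega
      have hvo : r v (v + 3 * lam + 3) := by rw [← hto3]; exact t2
      have hvp : ¬ r v (v + 3 * lam + 3 + 1) := by
        have h3 := hhole 0 1 le_rfl (by omega) le_rfl (by omega)
        have e1 : v - 3 * 0 = v := by ring
        rw [e1] at h3
        exact h3
      obtain ⟨q', q'1, q'2, q'3, -⟩ := h.next' (v := v + 3 * lam + 3 + 1) (a := v) (by omega)
      have h3 := C.star h (p := v + 3 * lam + 3) (z := v + 3 * lam + 3 + 1) (q := q') (by omega)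
        (by omega) (by omega) (h.symm _ _ (h.succ _)) (fun m m1 m2 => by
          rcases lt_or_ge m v with h4 | h4
          · exact q'3 m m1 h4
          · exact fun h5 => h.hide h4 m2 (by omega) hvo hvp (h.symm _ _ h5)) (by
          rw [h.laps_class (v := v + 1) (v' := v + 3 * lam + 3 + 1) (by omega)]
          exact F.nomid (v + 1) (by omega) (by omega))
      rw [hp'] at h1
      exact h3.trans h1
    · rw [← h2] at h1
      exact h1
  have elo : laps 3 B r (v + 3 * lam + 3) =
      lf 3 B r (v + 3 * lam + 3) + lb 3 B r (v + 3 * lam + 3) := rfl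
  have elw : laps 3 B r (g + 3 * lam + 3) =
      lf 3 B r (g + 3 * lam + 3) + lb 3 B r (g + 3 * lam + 3) := rfl
  have hAge : lam ≤ (lcT 3 (Tf r g) g t : ℤ) := by omega
  have hgv : g = v + 1 := by omega
  have hteq : t = v + 3 * lam + 3 := by omega
  have hlbo2 : (lb 3 B r (v + 3 * lam + 3) : ℤ) = lam := by omega
  obtain ⟨e, e1, e3, e4, e5⟩ := h.last (v := g) (a := t - 1) (by omega)
  have hgap := lcT_gap (k := 3) (by norm_num) (T := Tf r g) (a := e) (b := t) (by omega)
    ⟨e1, e4⟩ ⟨by omega, hgt⟩ fun m m1 m2 m3 => e5 m m1 (by omega) m3.2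
  have hsp := lcT_split (k := 3) (T := Tf r g) (a := g) (b := e) (c := t) e1.le (by omega)
  rcases (show g + 1 ≤ e by omega).lt_or_eq with he | he
  · have h1 := h.lcT_le2 (k := 3) (x := g) (y := e) he e4
    omega
  · have het : r e t := h.cn g e t e1 (by omega) e4 hgt fun m m1 m2 => e5 m m1 (by omega)
    have hvo : r v (v + 3 * lam + 3) := by rw [← hteq]; exact g4
    have hoe : r (v + 3 * lam + 3) e := by rw [← hteq]; exact h.symm _ _ het
    have h1 := C.lb_near h hMo (q := v) (by omega) (h.symm _ _ hvo)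
    have h2 := lcT_split (k := 3) (T := Tf (VisMap.mirror r) (-(v + 3 * lam + 3)))
      (a := -(v + 3 * lam + 3)) (b := -e) (c := -v) (by omega) (by omega)
    have h3 := h.mirror.lcT_le2 (k := 3) (x := -(v + 3 * lam + 3)) (y := -e) (by omega)
      ((mir_iff _ _).2 hoe)
    have h4 := lcT_lt (k := 3) (by norm_num) (T := Tf (VisMap.mirror r) (-(v + 3 * lam + 3)))
      (a := -e) (b := -v) (by omega) ⟨by omega, (mir_iff _ _).2 hoe⟩
      ⟨by omega, (mir_iff _ _).2 (h.symm _ _ hvo)⟩
    omega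

/-- The frame of the longest terminal gap for `k = 3` is the facing picture. -/
theorem TermF.pic3 (h : TZ n 3 B r) {v g t : ℤ} (F : TermF 3 B r c l v g t) :
    ∃ lam T', Pic3 B r c l v lam T' := by
  have C := F.cl
  have hkl := F.kl
  have hlen := F.len
  have hvg := F.vg
  have hv := F.hv
  have hg := F.hg
  obtain ⟨g1, g2, g3, g4, g5⟩ := F.gap
  have hex : ∃ H H', t ≤ H ∧ Gp r g H H' ∧ H + 3 < H' := by
    by_contra hc
    refine F.lap3 h fun H H' h1 h2 => ?_
    by_contra h3
    exact hc ⟨H, H', h1, h2, by omega⟩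
  obtain ⟨H, H', hH, ⟨G1, G2, G3, G4, G5⟩, hH'⟩ := hex
  have hrc : Rc r (g - 1) H H' := fun x y x1 x2 x3 x4 =>
    h.hide (v := g) (x := x) (p := H) (y := y) (by omega) x2 x3 G3 (G5 y x3 x4)
  obtain ⟨T1, x1, hT1, hx1, S⟩ := C.mir.mk' h.mirror (hrc.mir h) (by omega) (by omega)
  have hMH : laps 3 B r H = c := by
    have := S.hs
    rw [laps_mirror'] at this
    exact this
  have hHx : r H (-x1) := by
    have := S.st
    have e : x1 = -(-x1) := (neg_neg x1).symm
    rw [e, mir_iff] at this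
    exact this
  have hHg : r H g := h.symm _ _ G3
  have h1 := (S.lf_s (closC l) h.mirror C.mir (by omega)).1
  rw [lf_mirror'] at h1
  have h2 := C.lb_near h hMH (q := g) (by omega) hHg
  have h3 := h.mirror.lcT_le2 (k := 3) (x := -H) (y := -g) (by omega) ((mir_iff _ _).2 hHg)
  have hx : x1 = 1 - g := by omega
  have hmod : (H - g) % 3 = 2 := by omega
  have hgv : g = v + 1 := by
    by_contra hc
    have h4 : laps 3 B r (v + 1) = c := by
      rw [← hMH]
      exact h.laps_class (v := H) (v' := v + 1) (by omega)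
    have h5 := F.nomid (v + 1) (by omega) (by omega)
    omega
  obtain ⟨lam, hlam⟩ : ∃ lam, H = v + 3 * lam + 3 := ⟨(H - v) / 3 - 1, by omega⟩
  have hHhid : ∀ y, v + 1 < y → y < v + 3 * lam + 2 → ¬ r H y := by
    intro y y1 y2 y3
    have a1 := lcT_split (k := 3) (T := Tf (VisMap.mirror r) (-H)) (a := -H) (b := -y) (c := -g)
      (by omega) (by omega)
    have a2 := h.mirror.lcT_le2 (k := 3) (x := -H) (y := -y) (by omega) ((mir_iff _ _).2 y3)
    have a3 := lcT_lt (k := 3) (by norm_num) (T := Tf (VisMap.mirror r) (-H))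
      (a := -y) (b := -g) (by omega) ⟨by omega, (mir_iff _ _).2 y3⟩
      ⟨by omega, (mir_iff _ _).2 hHg⟩
    omega
  have hHv : r H v := by
    have e : -x1 = v := by omega
    rw [e] at hHx
    exact hHx
  have hH1 : c < laps 3 B r (H - 1) := by
    have h4 := C.min (H - 1)
    rcases h4.lt_or_eq with h5 | h5
    · exact h5
    · exfalso
      refine S.noM h.mirror C.mir (x := -(H - 1)) (by omega) (by omega) ?_
        ((mir_iff _ _).2 (h.pred H))
      rw [laps_mirror', h5]
  have hc2 : c < laps 3 B r (v + 2) := by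
    rw [h.laps_class (v := H - 1) (v' := v + 2) (by omega)]
    exact hH1
  have hlam1 : 1 ≤ lam := by omega
  have ht : t = H ∨ t = H - 1 := by
    rcases hH.lt_or_eq with h4 | h4
    · right
      obtain ⟨e, e1, e2, e3, e4⟩ := exists_last (p := fun z => r v z) (a := t) (b := H - 1)
        (by omega) g4
      have heH : r e H := h.cn v e H (by omega) (by omega) e3 (h.symm _ _ hHv)
        fun m m1 m2 => e4 m m1 (by omega)
      have he : e = H - 1 := by
        by_contra hc
        exact hHhid e (by omega) (by omega) (h.symm _ _ heH)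
      by_contra hc
      have h6 := h.f5' (closC l) C hMH (q := g) (p := H - 1) (by omega) (by omega) (h.pred H) hHg
        (fun m m1 m2 => hHhid m (by omega) (by omega)) (by omega) (by omega)
      omega
    · exact Or.inl h4
  refine ⟨lam, H', C, hlam1, hv, ?_, hc2, ?_, ?_, ?_, ?_, ?_, ?_, ?_, ?_⟩
  · rw [← hgv]; exact hg
  · rw [← hlam]; exact h.symm _ _ hHv
  · intro y y1 y2
    exact g5 y (by omega) (by omega)
  · rw [← hlam, ← hgv]; exact hHg
  · intro y y1 y2
    rw [← hlam]
    exact hHhid y y1 y2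
  · rcases ht with h4 | h4
    · left
      exact ⟨by omega, g5 _ (by omega) (by omega)⟩
    · right
      have e : v + 3 * lam + 2 = t := by omega
      rw [e]
      exact ⟨by omega, g4⟩
  · omega
  · rw [← hgv]; exact G4
  · intro y y1 y2
    rw [← hgv]
    exact G5 y (by omega) y2

end Tp

end VisMap
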