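import Pool.Agent.Lib.MP_9f3af0_lcB.Not2
import Pool.Agent.Lib.MP_9f3af0_lcB.Six3b
import Pool.Agent.Lib.MP_9f3af0_lcB.CutTZ

/-!
# MP_9f3af0_lc: a linked class in `T'`-structures with at most three classes
-/

namespace VisMap

namespace Tp

/-- Every `T'`-structure with at most three classes has a linked class. -/
theorem linkTZ_three : ∀ N : ℕ, ∀ (n : ℕ) (k B : ℤ) (r : ℤ → ℤ → Prop), k.toNat ≤ N → k ≤ 3 →
    TZ n k B r → ∃ c, ∀ u, k ∣ u - c → r u (u + k) := by
  intro N
  induction N with
  | zero => intro n k B r h1 _ h; have := h.hk; omega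
  | succ N ih =>
    intro n k B r hN hk3 h
    have hk := h.hk
    by_cases hk1 : k = 1
    · subst hk1
      exact ⟨0, fun u _ => h.succ u⟩
    by_contra hno
    have hc : NoWide k r := fun c d d1 d2 hv => by
      rcases eq_or_lt_of_le d2 with hd | hd
      · subst hd
        exact hno ⟨c, hv⟩
      · obtain ⟨n', r', p1, p2⟩ := h.cut d1 hd hv
        exact hno (p2 (ih n' (k - d + 1) B r' (by omega) (by omega) p1))
    obtain ⟨r', h', -, c, l, v, g, t, F⟩ := h.exists_term (by omega) hc
    obtain rfl | rfl : k = 2 ∨ k = 3 := by omega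
    · exact F.not2 h'
    · exact F.not3 h'

/-- Every `T'`-structure with at most three classes has a linked class. -/
theorem TZ.link_three {n : ℕ} {k B : ℤ} {r : ℤ → ℤ → Prop} (h : TZ n k B r) (hk : k ≤ 3) :
    ∃ c, ∀ u, k ∣ u - c → r u (u + k) :=
  linkTZ_three _ n k B r le_rfl hk h

end Tp

end VisMap
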