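import Pool.Agent.Lib.MP_9f3af0_lcB.FarMaps
import Pool.Agent.Lib.MP_9f3af0_lcB.Link3

/-!
# MP_9f3af0_lc: polygons with at most three views in which far vertices see each other
-/

namespace VisMap

variable {n : ℕ}

/-- A simple polygon with three views in which far vertices see each other is linked. -/
theorem linked_of_farSees3 (hn : 3 ≤ n) {v : ZMod n → ℂ} (hR : VisRel (Sees v))
    (bef : Ag.BoundaryOrder v) (h2 : 2 < views v) (h3 : 3 * views v < n) (hv3 : views v ≤ 3)
    (hf : FarSees v) : Linked v := by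
  have hn2 : 2 ≤ n := by omega
  have : NeZero n := ⟨by omega⟩
  obtain ⟨k, hk0, hkn, hk⟩ := Ag.exists_gen (Ag.periods hn2 hR)
  obtain ⟨m, rfl⟩ : ∃ m : ℕ, k = m := ⟨k.toNat, by omega⟩
  have halike : ∀ a b : ZMod n, Alike v a b ↔ b - a ∈ Ag.periods hn2 hR := fun a b => by
    rw [Ag.alike_iff bef (fun i => Ag.degR_pos hn2 hR i), Ag.E_iff_sub_mem]
  have hm : views v = m := by
    rw [← Ag.ncard_cosets (H := Ag.periods hn2 hR) (k := m) (by omega) hk]
    unfold views
    have e : (fun i : ZMod n => {j | Alike v i j}) =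
        fun i => {j | j - i ∈ Ag.periods hn2 hR} := by
      funext a
      ext b
      exact halike a b
    rw [e]
  rw [hm] at h2 h3 hv3
  have hE : Ag.E (Sees v) (Sees v) 0 0 := Ag.Eqv.refl _
  have hF := Ag.fam_of_E hn hR hR hE hk0 hkn hk
  have hz : ZRel n (unroll (Sees v)) := hF.zrel true
  have hw : Cut.Wd n m (unroll (Sees v)) := fun i i' hi => hF.fw true true i i' hi
  obtain ⟨q, hq⟩ := id hkn
  have hq4 : 4 ≤ q := by
    by_contra hcon
    have : (m : ℤ) * q ≤ m * 3 := mul_le_mul_of_nonneg_left (by omega) hk0.le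
    omega
  have h4 : 4 * (m : ℤ) ≤ n := by
    have : (m : ℤ) * 4 ≤ m * q := mul_le_mul_of_nonneg_left hq4 hk0.le
    omega
  obtain ⟨B, hB⟩ : ∃ B : ℤ, B = (n : ℤ) / 3 := ⟨_, rfl⟩
  have hTZ := Tp.TZ.of_far (B := B) hz hk0 hkn hw (by omega) (by omega) (by omega)
    (fun a b h5 h6 => by
      obtain ⟨l, hl⟩ : ∃ l : ℕ, (l : ℤ) = b - a := ⟨(b - a).toNat, by omega⟩
      have h7 := hf (a : ZMod n) l (by omega) (by omega)
      have e : (a : ZMod n) + (l : ZMod n) = (b : ZMod n) := by
        have h8 : b = a + l := by omega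
        rw [h8]; push_cast; ring
      rw [e] at h7
      exact h7)
  obtain ⟨c, hc⟩ := hTZ.link_three (by omega)
  have hlink : ∀ u : ℤ, (m : ℤ) ∣ u - c → unroll (Sees v) u (u + m) := fun u hu =>
    (hc u hu).2 (by omega) (by omega)
  refine ⟨(c : ZMod n), fun j l hj hjl hl0 hln hno => ?_⟩
  obtain ⟨u, hu⟩ : ∃ u : ℤ, (u : ZMod n) = j := ⟨(j.val : ℤ), by
    push_cast; exact ZMod.natCast_zmod_val j⟩
  rw [← hu] at hj hjl hno ⊢
  have hcls : ∀ x : ℤ, Alike v (c : ZMod n) (x : ZMod n) ↔ (m : ℤ) ∣ x - c := by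
    intro x
    rw [halike, ← hk]
    push_cast
    rfl
  have h5 := (hcls u).1 hj
  have h6 : (m : ℤ) ∣ (u + l) - c := (hcls (u + l)).1 (by push_cast; exact hjl)
  have h7 : (m : ℤ) ∣ l := by
    have := dvd_sub h6 h5
    have e : u + (l : ℤ) - c - (u - c) = l := by ring
    rwa [e] at this
  have h8 : (m : ℤ) ≤ l := Int.le_of_dvd (by omega) h7
  have h9 : l = m := by
    by_contra hne
    refine hno m (by omega) (by omega) ?_
    have : Alike v (c : ZMod n) ((u + m : ℤ) : ZMod n) := (hcls (u + m)).2 (by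
      have e : u + (m : ℤ) - c = (u - c) + m := by ring
      rw [e]; exact dvd_add h5 (dvd_refl _))
    push_cast at this; exact this
  have := hlink u h5
  unfold unroll at this
  rw [h9]
  push_cast at this; exact this

/-- Polygons with at most three views in which far vertices see each other can be mapped. -/
theorem maps_farSees3 (n : ℕ) :
    ∃ S : Strategy, ∀ (v : ZMod n → ℂ) (i : ZMod n), IsPolygon v →
      (views v ≤ 2 ∨ n ≤ 3 * views v ∨ Linked v ∨ Turning v ∨ (views v ≤ 3 ∧ FarSees v)) →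
      ∃ t : ℕ, ∀ (v' : ZMod n → ℂ) (i' : ZMod n), IsPolygon v' →
        (run S v' i' t).1 = (run S v i t).1 → Nonempty (visGraph v' ≃g visGraph v) := by
  have hbef : ∀ (v : ZMod n → ℂ), IsPolygon v → Ag.BoundaryOrder v :=
    fun v hv i j k hj hk => before_iff hv hj hk
  obtain ⟨S, hS⟩ := maps_linked (n := n) (fun v hv => geoE hv) (fun v hv => hbef v hv)
  refine ⟨S, fun v i hv h => hS v i hv ?_⟩
  rcases h with h | h | h | h | h
  · exact Or.inl h
  · exact Or.inr (Or.inl h)
  · exact Or.inr (Or.inr (Or.inl h))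
  · exact Or.inr (Or.inr (Or.inr h))
  · rcases le_or_gt (views v) 2 with h2 | h2
    · exact Or.inl h2
    rcases le_or_gt n (3 * views v) with h3 | h3
    · exact Or.inr (Or.inl h3)
    exact Or.inr (Or.inr (Or.inl (linked_of_farSees3 hv.simple.three (geoE hv).rel (hbef v hv)
      h2 h3 h.1 h.2)))

end VisMap
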