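import Pool.Agent.Lib.MP_9f3af0_lcB.FatE
import Pool.Agent.Lib.MP_9f3af0_lcB.NoFat

/-!
# MP_9f3af0_lc: the widest fat rectangle has `b ≥ 2 k` (helper55)

`FatF k r s a b` with `b < 2 k` is impossible (`FatF.false_of_lt`).  The last sight `s0` of `s` in
`[t, s + 2 k]` has the minimal number of laps, so `c = s0 - k` has; `c` has two backward laps and a
forward lap, and `s` has at most one backward lap.
-/

namespace VisMap

namespace Tp

variable {n : ℕ} {k B : ℤ} {r : ℤ → ℤ → Prop}

/-- If `u` sees `v` and hides `(v, d)` and the column `v` hides `(T, u)`, then the rows `(T, v)` hide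
`(v, d)`. -/
theorem TZ.mut (h : TZ n k B r) {T u v d : ℤ} (huv : u < v) (hu : r u v)
    (hud : ∀ m, v < m → m < d → ¬ r u m) (hT : ∀ m, T < m → m < u → ¬ r v m) :
    ∀ x y, T < x → x < v → v < y → y < d → ¬ r x y := by
  have h1 : ∀ x y, u ≤ x → x < v → v < y → y < d → ¬ r x y := fun x y x1 x2 y1 y2 =>
    h.hide x1 x2 y1 hu (hud y y1 y2)
  by_contra hcon
  push Not at hcon
  obtain ⟨x0, y0, a1, a2, a3, a4, a5⟩ := hcon
  obtain ⟨x, ⟨x1, x2, y, y1, y2, y3⟩, hmax⟩ := Int.exists_greatest_of_bdd
    (P := fun x => T < x ∧ x < v ∧ ∃ y, v < y ∧ y < d ∧ r x y) ⟨v, fun x hx => hx.2.1.le⟩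
    ⟨x0, a1, a2, y0, a3, a4, a5⟩
  have hxu : x < u := by
    by_contra hc
    exact h1 x y (by omega) x2 y1 y2 y3
  have hxv : ¬ r x v := fun h2 => hT x x1 hxu (h.symm _ _ h2)
  obtain ⟨p, p1, p2, p3, p4⟩ := h.last (v := x) (a := v) x2
  have hpv : p < v := by
    rcases p2.lt_or_eq with h2 | h2
    · exact h2
    · rw [h2] at p3
      exact absurd p3 hxv
  obtain ⟨z, z1, z2, z3, z4⟩ := exists_first (p := fun z => r x z) (a := v + 1) (b := y)
    (by omega) y3
  have hpz : r p z := h.cn x p z p1 (by omega) p3 z3 fun m m1 m2 => by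
    rcases le_or_gt m v with h2 | h2
    · exact p4 m m1 h2
    · exact z4 m (by omega) m2
  have := hmax p ⟨by omega, hpv, z, by omega, by omega, hpz⟩
  omega

section

variable {s a b : ℤ}

/-- (a) `s` has at most one backward lap if `b < 2 k`. -/
theorem FatF.lb_le_one (h : TZ n k B r) (f : FatF k r s a b) (hb2 : b < 2 * k) :
    lb k B r s ≤ 1 := by
  have hk := h.hk
  have hka := f.ka
  have hkb := f.kb
  have hm := h.mirror
  have hw := f.wide.mirror h
  -- the gaps with laps of the column `s`
  have key : ∀ x y, Gp (VisMap.mirror r) (-s) x y → x + k < y →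
      -s + a + 1 ≤ x ∧ x ≤ -s + b ∧ y ≤ x + b + 1 := by
    rintro x y ⟨g1, g2, g3, g4, g5⟩ hxy
    have hx : -s + a + 1 ≤ x := by
      by_contra hc
      have h1 : y ≤ -s + a + 1 := by
        by_contra hc'
        refine g5 (-(s - a - 1)) (by omega) (by omega) ?_
        exact (mir_iff s (s - a - 1)).2 (f.sT h)
      refine f.nolap_T h (z := x + k) (by omega) (by omega) ⟨fun h2 => g5 (x + k) (by omega) hxy h2.2,
        x, by omega, ⟨g1, g3⟩, fun m m1 m2 m3 => g5 m m1 (by omega) m3.2, ⟨1, by ring⟩⟩
    have hx2 := hw.near hm g1 g3 hxy g5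
    refine ⟨hx, by omega, ?_⟩
    by_contra hc
    have h1 := hw.near' hm g1 g3 (by omega) g5
    omega
  by_cases hex : ∃ z, LapP k (Tf (VisMap.mirror r) (-s)) z
  · obtain ⟨z, hz⟩ := hex
    obtain ⟨x, y, g, z1, z2, z3⟩ := hm.gap_of_lap hz
    obtain ⟨x1, x2, x3⟩ := key x y g (by omega)
    have huniq : ∀ z', LapP k (Tf (VisMap.mirror r) (-s)) z' → x < z' ∧ z' < y := by
      intro z' hz'
      obtain ⟨x', y', g', w1, w2, w3⟩ := hm.gap_of_lap hz'
      obtain ⟨x1', x2', x3'⟩ := key x' y' g' (by omega)
      rcases lt_trichotomy x x' with h1 | h1 | h1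
      · exfalso
        have h2 : y ≤ x' := by
          by_contra hc
          exact g.2.2.2.2 x' h1 (by omega) g'.2.2.1
        omega
      · rw [h1]
        refine ⟨w1, ?_⟩
        by_contra hc
        exact g'.2.2.2.2 y (by rw [← h1]; exact g.2.1) (by omega) g.2.2.2.1
      · exfalso
        have h2 : y' ≤ x := by
          by_contra hc
          exact g'.2.2.2.2 x h1 (by omega) g.2.2.1
        omega
    obtain ⟨g1, g2, g3, g4, g5⟩ := g
    set M := max (-s + B) y with hM
    have e1 : lb k B r s = lcT k (Tf (VisMap.mirror r) (-s)) (-s) M :=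
      hm.lf_eq (v := -s) (le_max_left _ _)
    have e2 := lcT_split (k := k) (T := Tf (VisMap.mirror r) (-s)) (a := -s) (b := x) (c := M)
      g1.le (le_trans g2.le (le_max_right _ _))
    have e3 := lcT_split (k := k) (T := Tf (VisMap.mirror r) (-s)) (a := x) (b := y) (c := M)
      g2.le (le_max_right _ _)
    have e4 : lcT k (Tf (VisMap.mirror r) (-s)) (-s) x = 0 :=
      lcT_eq_zero fun z' h1 h2 h3 => by have := huniq z' h3; omega
    have e5 : lcT k (Tf (VisMap.mirror r) (-s)) y M = 0 :=
      lcT_eq_zero fun z' h1 h2 h3 => by have := huniq z' h3; omega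
    have e6 := lcT_gap hk (T := Tf (VisMap.mirror r) (-s)) g2 ⟨g1, g3⟩ ⟨by omega, g4⟩
      fun m m1 m2 m3 => g5 m m1 m2 m3.2
    have e7 : (y - 1 - x) / k < 2 := by
      rw [Int.ediv_lt_iff_lt_mul hk]
      omega
    omega
  · have e1 : lb k B r s = lcT k (Tf (VisMap.mirror r) (-s)) (-s) (-s + B) :=
      hm.lf_eq (v := -s) le_rfl
    rw [e1, lcT_eq_zero fun z _ _ hz => hex ⟨z, hz⟩]
    omega

/-- (d) Every vertex of `(s + b % k, s + k]` has a forward lap if `b < 2 k`: the descent. -/
theorem FatF.chain1 (h : TZ n k B r) (f : FatF k r s a b) (hb2 : b < 2 * k) {c : ℤ}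
    (hc1 : s + b % k < c) (hc2 : c ≤ s + k) (N : ℕ) :
    ∀ u v d, c - v ≤ N → s ≤ u → u < v → v < c → c < d → d ≤ s + b + 1 → r u v → r u d →
      (∀ m, v < m → m < d → ¬ r u m) →
      (∀ x y, s - a ≤ x → x ≤ u → v < y → y ≤ c → ¬ r x y) →
      (∀ x, s - a ≤ x → x < u → ¬ r v x) → v + k < d → 1 ≤ lf k B r c := by
  have hk := h.hk
  have hka := f.ka
  have hkb := f.kb
  induction N with
  | zero =>
    intro u v d hN
    push_cast at hN
    intro h1 h2 h3
    omega
  | succ N ih =>
    intro u v d hN hsu huv hvc hcd hdt ruv rud hud hrow hcol hvd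
    have rvd : r v d := h.cn u v d huv (by omega) ruv rud hud
    obtain ⟨v', w1, w2, w3, w4⟩ := h.last (v := v) (a := c) hvc
    obtain ⟨d', e1, e2, e3, -⟩ := h.next (v := v) (a := c) hvc.le
    have hd'd : d' ≤ d := by
      by_contra hc
      exact e3 d hcd (by omega) rvd
    have hvm : ∀ m, v' < m → m < d' → ¬ r v m := by
      intro m m1 m2
      rcases le_or_gt m c with h1 | h1
      · exact w4 m m1 h1
      · exact e3 m h1 m2
    have hrow' : ∀ x y, s - a ≤ x → x < v → v < y → y ≤ c → ¬ r x y := by
      intro x y x1 x2 y1 y2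
      rcases le_or_gt x u with h1 | h1
      · exact hrow x y x1 h1 y1 y2
      · exact h.hide h1.le x2 y1 ruv (hud y y1 (by omega))
    by_cases hc : v' < c ∧ v' + k < d'
    · refine ih v v' d' (by push_cast at hN; omega) (by omega) w1 hc.1 e1 (by omega) w3 e2 hvm ?_ ?_
        hc.2
      · intro x y x1 x2 y1 y2
        rcases x2.lt_or_eq with h1 | h1
        · exact hrow' x y x1 h1 (by omega) y2
        · rw [h1]; exact w4 y y1 y2
      · intro x x1 x2 x3
        exact hrow' x v' x1 x2 w1 w2 (h.symm _ _ x3)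
    · -- the stop
      have hb := Int.emod_add_mul_ediv b k
      have hlam : b / k = 1 := by
        refine le_antisymm ?_ ?_
        · have : b / k < 2 := by
            rw [Int.ediv_lt_iff_lt_mul hk]; omega
          omega
        · rw [Int.le_ediv_iff_mul_le hk]; omega
      rw [hlam, mul_one] at hb
      have hvρ : v ≤ s + b % k := by omega
      have hsv : s < v := by omega
      -- no laps of `v` up to `d'`
      have lap0 : lcT k (Tf r v) v d' = 0 := by
        have g1 := lcT_split (k := k) (T := Tf r v) (a := v) (b := v') (c := d') w1.le (by omega)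
        have g2 := h.lcT_le w1 w3
        have g3 : (v' - 1 - v) / k = 0 := Int.ediv_eq_zero_of_lt (by omega) (by omega)
        have g4 := lcT_gap hk (T := Tf r v) (a := v') (b := d') (by omega) ⟨w1, w3⟩
          ⟨by omega, e2⟩ fun m m1 m2 m3 => hvm m m1 m2 m3.2
        have g5 : (d' - 1 - v') / k = 0 := by
          refine Int.ediv_eq_zero_of_lt (by omega) ?_
          by_cases hv' : v' < c
          · have : ¬ v' + k < d' := fun h1 => hc ⟨hv', h1⟩
            omega
          · omega
        omega
      -- `lf v ≤ lf c`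
      have hle : lf k B r v ≤ lf k B r c := by
        have g1 := h.mirror.lb_le_of (T := -d') (u := -c) (x := -v) (by omega) (by omega)
          ((mir_iff v d').2 e2) (fun z z1 z2 => by
            show r (- -v) (-z)
            have z3 : r (- -c) (-z) := z2
            rw [neg_neg] at z3 ⊢
            exact h.X v c d' (-z) hvc e1 (by omega) e2 z3)
          (by rw [mirror_mirror, neg_neg, neg_neg]; exact lap0)
        rw [lb_mirror', lb_mirror'] at g1
        exact g1
      -- `1 ≤ lf v`
      have hge : 1 ≤ lf k B r v := by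
        obtain ⟨T', t1, t2, t3, -⟩ := h.next' (v := v) (a := u) huv.le
        have hT' : T' ≤ s - a - 1 := by
          by_contra hc'
          exact hcol T' (by omega) t1 t2
        have hmut := h.mut huv ruv hud t3
        have hT'b : v - b - 1 ≤ T' := by
          by_contra hc'
          exact f.wide.eh v fun x y x1 x2 y1 y2 => hmut x y (by omega) x2 y1 (by omega)
        have e' : ∀ v m : ℤ, VisMap.mirror r (-v) m ↔ r v (-m) := fun v m => by
          show r (- -v) (-m) ↔ _
          rw [neg_neg]
        set M := max (max (-s + B + 1) (-v + B + 1)) (-T') with hMdef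
        have hM1 : -s + B + 1 ≤ M := le_trans (le_max_left _ _) (le_max_left _ _)
        have hM2 : -v + B + 1 ≤ M := le_trans (le_max_right _ _) (le_max_left _ _)
        have hM3 : -T' ≤ M := le_max_right _ _
        have g1 : lb k B r v = lcT k (Tf (VisMap.mirror r) (-v)) (-v) (-T') +
            lcT k (Tf (VisMap.mirror r) (-v)) (-T') M := by
          rw [h.lb_eq (v := v) (M := M) (by omega),
            lcT_split (a := -v) (b := -T') (c := M) (by omega) hM3]
        have g2 := h.mirror.lcT_le (k := k) (x := -v) (y := -T') (by omega)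
          ((mir_iff v T').2 t2)
        have g3 : (-T' - 1 - -v) / k < 2 := by
          rw [Int.ediv_lt_iff_lt_mul hk]; omega
        have g4 : lb k B r s = lcT k (Tf (VisMap.mirror r) (-s)) (-s) (-(s - a - 1)) +
            lcT k (Tf (VisMap.mirror r) (-s)) (-(s - a - 1)) M := by
          rw [h.lb_eq (v := s) (M := M) (by omega),
            lcT_split (a := -s) (b := -(s - a - 1)) (c := M) (by omega) (by omega)]
        have g5 : lcT k (Tf (VisMap.mirror r) (-v)) (-T') M ≤
            lcT k (Tf (VisMap.mirror r) (-s)) (-(s - a - 1)) M := by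
          refine lcT_mono' hk (by omega) hM3 ⟨by omega, (mir_iff s (s - a - 1)).2 (f.sT h)⟩
            ⟨by omega, (mir_iff v T').2 t2⟩ ⟨by omega, (e' s M).2 (h.far' (by omega))⟩ ?_
          rintro z z1 z2 ⟨z3, z4⟩
          have z5 := (e' s z).1 z4
          refine ⟨by omega, (e' v z).2 ?_⟩
          rcases (show -z ≤ T' by omega).lt_or_eq with h5 | h5
          · exact h.symm _ _ (h.X (-z) T' s v h5 (by omega) hsv (h.symm _ _ z5) (h.symm _ _ t2))
          · rw [h5]; exact t2
        have hL := f.lemL h (j := v - s) (by omega) (by omega) (v := v) ⟨0, by ring⟩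
        have hR : 1 ≤ a / k := by
          rw [Int.le_ediv_iff_mul_le hk]; omega
        have hlf := f.lf_s h
        have e1 : laps k B r s = lf k B r s + lb k B r s := rfl
        have e2 : laps k B r v = lf k B r v + lb k B r v := rfl
        omega
      omega

/-- Transport of a backward sight to a mate. -/
theorem TZ.transport' (h : TZ n k B r) {v v' z : ℤ} (hv : k ∣ v' - v) (hz : z < v) (hr : r v z) :
    ∃ z', z' < v' ∧ r v' z' ∧
      v' - z' - k * lcT k (Tf (VisMap.mirror r) (-v')) (-v') (-z') =
        v - z - k * lcT k (Tf (VisMap.mirror r) (-v)) (-v) (-z) := by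
  obtain ⟨z', z1, z2, z3⟩ := h.mirror.transport (v := -v) (v' := -v') (z := -z) (by
    have e : -v' - -v = -(v' - v) := by ring
    rw [e]
    exact (dvd_neg).2 hv) (by omega) ((mir_iff v z).2 hr)
  refine ⟨-z', by omega, ?_, ?_⟩
  · have z4 : r (- -v') (-z') := z2
    rw [neg_neg] at z4
    exact z4
  · rw [neg_neg]
    have e1 : z' - -v' = v' - -z' := by ring
    have e2 : -z - -v = v - z := by ring
    rw [e1, e2] at z3
    exact z3

/-- The rows of the columns hidden from `s` beyond the last sight `s0` of `s` before `s + 2 k`. -/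
theorem FatF.chain_s0 (h : TZ n k B r) (f : FatF k r s a b) {s0 o : ℤ} (h1 : s + b + 1 ≤ s0)
    (hs0 : r s s0) (hm : ∀ m, s0 < m → m ≤ o → ¬ r s m) (N : ℕ) :
    ∀ p, p - s0 ≤ N → s0 ≤ p → p ≤ o → lf k B r s0 ≤ lf k B r p ∧ laps k B r s0 ≤ laps k B r p ∧
      (s0 < p → b / k ≤ (lb k B r p : ℤ)) := by
  have hk := h.hk
  have hkb := f.kb
  induction N with
  | zero =>
    intro p hp hp0 hpo
    push_cast at hp
    have e : p = s0 := by omega
    rw [e]
    exact ⟨le_rfl, le_rfl, fun h2 => absurd h2 (lt_irrefl _)⟩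
  | succ N ih =>
    intro p hp hp0 hpo
    rcases hp0.lt_or_eq with h2 | h2
    · have hhid : ∀ x, s ≤ x → x < s0 → ¬ r x p := fun x x1 x2 =>
        h.hide x1 x2 h2 hs0 (hm p h2 hpo)
      obtain ⟨p', a1, a2, a3, a4⟩ := h.last' (v := p) (a := s) (by omega)
      obtain ⟨q, b1, b2, b3, -⟩ := h.next' (v := p) (a := s) (by omega)
      have hp' : s0 ≤ p' := by
        by_contra hc
        exact hhid p' a1 (by omega) (h.symm _ _ a3)
      have hg : ∀ m, q < m → m < p' → ¬ r p m := by
        intro m m1 m2
        rcases lt_or_ge m s with h3 | h3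
        · exact b3 m m1 h3
        · exact a4 m h3 m2
      obtain ⟨c1, c2, c3⟩ := f.wide.laps_le' h (by omega) (z := p) (p := p') (q := q) (by omega) a2
        a3 b2 hg
      obtain ⟨d1, d2, -⟩ := ih p' (by push_cast at hp; omega) hp' (by omega)
      have e1 := h.lb_ge (by omega) a2 a3 b2 hg
      have e2 : b / k ≤ (p' - 1 - q) / k := Int.ediv_le_ediv hk (by omega)
      exact ⟨d1.trans c1, d2.trans c3, fun _ => e2.trans e1⟩
    · rw [← h2]
      exact ⟨le_rfl, le_rfl, fun h3 => absurd h3 (lt_irrefl _)⟩

/-- **The widest fat rectangle has `b ≥ 2 k`.** -/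
theorem FatF.false_of_lt (h : TZ n k B r) (f : FatF k r s a b) (hb2 : b < 2 * k) : False := by
  have hk := h.hk
  have hka := f.ka
  have hkb := f.kb
  have hlam : b / k = 1 := by
    refine le_antisymm ?_ ?_
    · have : b / k < 2 := by
        rw [Int.ediv_lt_iff_lt_mul hk]; omega
      omega
    · rw [Int.le_ediv_iff_mul_le hk]; omega
  have hb := Int.emod_add_mul_ediv b k
  rw [hlam, mul_one] at hb
  have hb' := Int.emod_lt_of_pos b hk
  have hρ := f.rho_pos h
  have hlb := f.lb_le_one h hb2
  have hlf := f.lf_s h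
  rw [hlam] at hlf
  have hms : laps k B r s = lf k B r s + lb k B r s := rfl
  obtain ⟨s0, s1, s2, s3, s4⟩ := exists_last (p := fun z => r s z) (a := s + b + 1)
    (b := s + 2 * k) (by omega) (f.st h)
  obtain ⟨c, hc⟩ : ∃ c, c = s0 - k := ⟨_, rfl⟩
  have hsc : ¬ r s c := by
    intro h1
    have h2 := f.nat_le h (x := c) (by omega) (by omega) h1
    have h3 := h.lcT_le (k := k) (x := s) (y := c) (by omega) h1
    have h4 : (c - 1 - s) / k = 0 := Int.ediv_eq_zero_of_lt (by omega) (by omega)
    have h5 : lcT k (Tf r s) s c = 0 := by omega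
    rw [h5] at h2
    push_cast at h2
    omega
  -- `laps c = laps s` and the natural of `s`
  have key : laps k B r c = laps k B r s ∧ ∃ z', z' < c ∧ r c z' ∧
      c - z' - k * lcT k (Tf (VisMap.mirror r) (-c)) (-c) (-z') = c - s := by
    rcases s2.lt_or_eq with h1 | h1
    · -- `s` does not see `s + 2 k`
      obtain ⟨g1, g2, g3⟩ := f.chain_s0 h s1 s3 s4 (s + 2 * k - s0).toNat (s + 2 * k) (by omega)
        s2 le_rfl
      have g3 := g3 h1
      rw [hlam] at g3
      have g4 := h.laps_class (v := s) (v' := s + 2 * k) ⟨2, by ring⟩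
      have g5 := f.min h s0
      have g6 : laps k B r (s + 2 * k) = lf k B r (s + 2 * k) + lb k B r (s + 2 * k) := rfl
      have g7 : laps k B r s0 = lf k B r s0 + lb k B r s0 := rfl
      have g8 : laps k B r c = laps k B r s0 := h.laps_class ⟨-1, by rw [hc]; ring⟩
      refine ⟨by omega, ?_⟩
      have g9 := f.wide.mirror h |>.lf_eq h.mirror (x := -s0) (y := -s) (by omega)
        ((mir_iff s0 s).2 (h.symm _ _ s3)) (by omega)
      rw [lf_mirror'] at g9
      have g10 := h.mirror.lcT_le (k := k) (x := -s0) (y := -s) (by omega)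
        ((mir_iff s0 s).2 (h.symm _ _ s3))
      have g11 : (-s - 1 - -s0) / k < 2 := by
        rw [Int.ediv_lt_iff_lt_mul hk]; omega
      obtain ⟨z', z1, z2, z3⟩ := h.transport' (v := s0) (v' := c) (z := s)
        ⟨-1, by rw [hc]; ring⟩ (by omega) (h.symm _ _ s3)
      refine ⟨z', z1, z2, ?_⟩
      have g12 : (lcT k (Tf (VisMap.mirror r) (-s0)) (-s0) (-s) : ℤ) = 1 := by omega
      rw [z3, g12, hc]
      ring
    · -- `s` sees `s + 2 k`
      have hcs : c = s + k := by omega
      refine ⟨h.laps_class ⟨1, by rw [hcs]; ring⟩, ?_⟩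
      -- `s - k` sees `s`
      have h2 : r (s - k) s := by
        obtain ⟨z', z1, z2, z3⟩ := h.transport (v := s) (v' := s - k) (z := s0) ⟨-1, by ring⟩
          (by omega) s3
        rw [f.lc_t h s1 s3, hlam, mul_one] at z3
        have h3 := h.lcT_le_lf (v := s - k) (z := z') z1.le
        rw [(f.mate h (x := s - k) (by omega) (by omega) ⟨-1, by ring⟩).1] at h3
        generalize lcT k (Tf r (s - k)) (s - k) z' = L at z3 h3
        have hL : L = 0 ∨ L = 1 := by omega
        rcases hL with hL | hL
        · rw [hL] at z3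
          have e : z' = s := by
            push_cast at z3
            omega
          rw [e] at z2
          exact z2
        · exfalso
          rw [hL] at z3
          have e : z' = s + k := by
            push_cast at z3
            omega
          rw [e] at z2
          exact f.hid (s - k) (s + k) (by omega) (by omega) (by omega) (by omega) z2
      obtain ⟨z', z1, z2, z3⟩ := h.transport' (v := s) (v' := c) (z := s - k)
        ⟨1, by rw [hcs]; ring⟩ (by omega) (h.symm _ _ h2)
      refine ⟨z', z1, z2, ?_⟩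
      have g10 := h.mirror.lcT_le (k := k) (x := -s) (y := -(s - k)) (by omega)
        ((mir_iff s (s - k)).2 (h.symm _ _ h2))
      have g11 : (-(s - k) - 1 - -s) / k = 0 := Int.ediv_eq_zero_of_lt (by omega) (by omega)
      have g12 : (lcT k (Tf (VisMap.mirror r) (-s)) (-s) (-(s - k)) : ℤ) = 0 := by omega
      rw [z3, g12, hcs]
      ring
  obtain ⟨hlc, z', z1, z2, z3⟩ := key
  -- two backward laps
  have hlb2 : 2 ≤ lb k B r c := by
    have h1 := h.mirror.lcT_le_lf (v := -c) (z := -z') (by omega)
    rw [lf_mirror'] at h1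
    generalize lcT k (Tf (VisMap.mirror r) (-c)) (-c) (-z') = L at z3 h1
    by_contra hcon
    have hL : L = 0 ∨ L = 1 := by omega
    rcases hL with hL | hL
    · rw [hL] at z3
      have e : z' = s := by
        push_cast at z3
        omega
      rw [e] at z2
      exact hsc (h.symm _ _ z2)
    · rw [hL] at z3
      have e : z' = s - k := by
        push_cast at z3
        omega
      rw [e] at z2
      exact f.hid (s - k) c (by omega) (by omega) (by omega) (by omega) (h.symm _ _ z2)
  -- a forward lap
  have hlf1 : 1 ≤ lf k B r c := by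
    obtain ⟨v, v1, v2, v3, v4⟩ := h.last (v := s) (a := c) (by omega)
    obtain ⟨d, d1, d2, d3, -⟩ := h.next (v := s) (a := c) (by omega)
    have hvc : v < c := by
      rcases v2.lt_or_eq with h1 | h1
      · exact h1
      · rw [h1] at v3; exact absurd v3 hsc
    have hdt : d ≤ s + b + 1 := by
      by_contra hcon
      exact d3 (s + b + 1) (by omega) (by omega) (f.st h)
    have hg : ∀ m, v < m → m < d → ¬ r s m := by
      intro m m1 m2
      rcases le_or_gt m c with h1 | h1
      · exact v4 m m1 h1
      · exact d3 m h1 m2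
    refine f.chain1 h hb2 (by omega) (by omega) (c - v).toNat s v d (by omega) le_rfl v1 hvc d1 hdt
      v3 d2 hg ?_ ?_ ?_
    · intro x y x1 x2 y1 y2
      rcases x2.lt_or_eq with h1 | h1
      · exact f.hid x y x1 h1 (by omega) (by omega)
      · rw [h1]; exact v4 y y1 y2
    · intro x x1 x2 x3
      exact f.hid x v x1 x2 v1 (by omega) (h.symm _ _ x3)
    · by_contra hcon
      have e1 := h.lcT_le (k := k) (x := s) (y := v) v1 v3
      have e2 : (v - 1 - s) / k = 0 := Int.ediv_eq_zero_of_lt (by omega) (by omega)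
      have e3 := lcT_gap hk (T := Tf r s) (a := v) (b := d) (by omega) ⟨v1, v3⟩
        ⟨by omega, d2⟩ fun m m1 m2 m3 => hg m m1 m2 m3.2
      have e4 : (d - 1 - v) / k = 0 := Int.ediv_eq_zero_of_lt (by omega) (by omega)
      have e5 := lcT_split (k := k) (T := Tf r s) (a := s) (b := v) (c := d) v1.le (by omega)
      have e6 : lcT k (Tf r s) s d = 0 := by omega
      rcases hdt.lt_or_eq with h1 | h1
      · have e7 := f.nat_le h (x := d) (by omega) (by omega) d2
        rw [e6] at e7
        push_cast at e7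
        omega
      · have e7 := f.lc_t h (z := d) (by omega) d2
        rw [e6, hlam] at e7
        exact absurd e7 (by norm_num)
  have hlc2 : laps k B r c = lf k B r c + lb k B r c := rfl
  omega

end

end Tp

end VisMap
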