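import Pool.Agent.Lib.MP_9f3af0_lcB.CutTZ
import Pool.Agent.Lib.MP_9f3af0_lcB.FatOne

/-!
# MP_9f3af0_lc: a linked class in `T'`-structures without hidden pairs at a distance above `3 k`
-/

namespace VisMap

namespace Tp

variable {n : ℕ} {k B : ℤ} {r : ℤ → ℤ → Prop}

/-- The cut in `T'`-structures, with the range of the hidden pairs. -/
theorem TZ.cutF (h : TZ n k B r) {c d : ℤ} (h2 : 2 ≤ d) (hdk : d < k)
    (hv : ∀ u, k ∣ u - c → r u (u + d)) :
    ∃ (n' : ℕ) (r' : ℤ → ℤ → Prop), TZ n' (k - d + 1) B r' ∧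
      (∀ m : ℤ, (∀ a b, a + k * m < b → r a b) → ∀ a b, a + (k - d + 1) * m < b → r' a b) ∧
      ((∃ c', ∀ u, (k - d + 1) ∣ u - c' → r' u (u + (k - d + 1))) →
        ∃ c', ∀ u, k ∣ u - c' → r u (u + k)) := by
  obtain ⟨q, hq⟩ := h.kn
  have hB := h.hB
  have hn := h.npos
  have hq0 : 0 < q := by
    by_contra hlt
    have : k * q ≤ 0 := mul_nonpos_of_nonneg_of_nonpos (by omega) (by omega)
    omega
  obtain ⟨j, hj⟩ : ∃ j : ℕ, (j : ℤ) = 2 * B + 3 := ⟨(2 * B + 3).toNat, by omega⟩
  have hN := h.mul (j := j) (by omega)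
  have hqj : (j : ℤ) ≤ q * j := by
    have : 1 * (j : ℤ) ≤ q * j := mul_le_mul_of_nonneg_right (by omega) (by omega)
    omega
  have hk'q : 1 * (q * j) ≤ (k - d + 1) * (q * j) :=
    mul_le_mul_of_nonneg_right (by omega) (by omega)
  obtain ⟨n', hn'⟩ : ∃ n' : ℕ, (n' : ℤ) = (k - d + 1) * (q * j) :=
    ⟨((k - d + 1) * (q * j)).toNat, by omega⟩
  obtain ⟨Q, hQ⟩ : ∃ Q : ℕ, (Q : ℤ) = q * j := ⟨(q * j).toNat, by omega⟩
  have hE : Cut.Enum (n * j) n' (Cut.Kp k d c) (Cut.ph (k - d + 1) k d c) :=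
    Cut.enum_ph (q := Q) (by push_cast; rw [hQ, hq]; ring) h2 hdk (by rw [hn', hQ])
  have hres := Cut.ph_res (c := c) h2 hdk
  have hG : Gapped (Cut.Kp k d c) r := by
    intro z hz
    have k1 := Int.emod_nonneg (z - c) (show k ≠ 0 by omega)
    have k2 := Int.emod_lt_of_pos (z - c) (show 0 < k by omega)
    have k3 := Int.mul_ediv_add_emod (z - c) k
    unfold Cut.Kp at hz
    have e0 : ∀ x p : ℤ, 0 ≤ x → x < k → (c + k * p + x - c) % k = x := by
      intro x p x0 x1
      have e : c + k * p + x - c = x + k * p := by ring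
      rw [e, Int.add_mul_emod_self_left, Int.emod_eq_of_lt x0 x1]
    refine ⟨c + k * ((z - c) / k), c + k * ((z - c) / k) + d, by omega, by omega, ?_, ?_, ?_, ?_⟩
    · left
      have := e0 0 ((z - c) / k) le_rfl (by omega)
      rwa [add_zero] at this
    · right
      rw [e0 d _ (by omega) hdk]
    · intro m m1 m2 m3
      have e : m = c + k * ((z - c) / k) + (m - (c + k * ((z - c) / k))) := by ring
      unfold Cut.Kp at m3
      rw [e, e0 _ _ (by omega) (by omega)] at m3
      omega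
    · exact hv _ ⟨(z - c) / k, by ring⟩
  have hsucc : ∀ a, r (Cut.ph (k - d + 1) k d c a) (Cut.ph (k - d + 1) k d c (a + 1)) := by
    intro a
    obtain ⟨p, x, h0, h1, rfl⟩ : ∃ p x : ℤ, 0 ≤ x ∧ x < k - d + 1 ∧ a = x + (k - d + 1) * p :=
      ⟨a / (k - d + 1), a % (k - d + 1), Int.emod_nonneg _ (by omega),
        Int.emod_lt_of_pos _ (by omega), by
          have := Int.mul_ediv_add_emod a (k - d + 1); omega⟩
    rw [Cut.ph_eq (by omega) h0 h1]
    by_cases hx : x + 1 < k - d + 1
    · have e : x + (k - d + 1) * p + 1 = (x + 1) + (k - d + 1) * p := by ring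
      rw [e, Cut.ph_eq (by omega) (by omega) hx]
      by_cases hx0 : x = 0
      · have e1 : Cut.gg d x = 0 := by unfold Cut.gg; rw [if_pos hx0]
        have e2 : Cut.gg d (x + 1) = d := by unfold Cut.gg; rw [if_neg (by omega)]; omega
        rw [e1, e2, add_zero]
        exact hv _ ⟨p, by ring⟩
      · have e2 : Cut.gg d (x + 1) = Cut.gg d x + 1 := by
          unfold Cut.gg; rw [if_neg (by omega), if_neg hx0]; ring
        rw [e2, ← add_assoc]
        exact h.succ _
    · have e : x + (k - d + 1) * p + 1 = 0 + (k - d + 1) * (p + 1) := by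
        have : x = k - d := by omega
        rw [this]; ring
      rw [e, Cut.ph_eq (by omega) le_rfl (by omega)]
      have e1 : c + k * (p + 1) + Cut.gg d 0 = c + k * p + Cut.gg d x + 1 := by
        unfold Cut.gg
        rw [if_pos rfl, if_neg (by omega)]
        have : x = k - d := by omega
        rw [this]; ring
      rw [e1]
      exact h.succ _
  have hTZ := hN.sub hE (fun z z' hz => Cut.kp_of_dvd hz) hres hG (by omega) ⟨q * j, hn'⟩
    (by omega) hsucc
  refine ⟨n', _, hTZ, fun m hm a b hab => hm _ _ ?_, ?_⟩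
  · have h3 := hE.mono hab
    rwa [Cut.ph_add (k' := k - d + 1) (k := k) (d := d) (c := c) (by omega) a m] at h3
  rintro ⟨a, ha⟩
  refine ⟨Cut.ph (k - d + 1) k d c a, fun u hu => ?_⟩
  obtain ⟨b, rfl⟩ := hE.surj u ((Cut.kp_of_dvd hu).2 (hE.mem a))
  have h1 := ha b ((hres a b).2 hu)
  have e : Cut.ph (k - d + 1) k d c (b + (k - d + 1)) = Cut.ph (k - d + 1) k d c b + k := by
    have := Cut.ph_add (k' := k - d + 1) (k := k) (d := d) (c := c) (by omega) b 1
    rwa [mul_one, mul_one] at this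
  rw [← e]; exact h1


/-- A `T'`-structure without class-wide chords has a hidden pair at a distance above `3 k`. -/
theorem TZ.false_of_far3 (h : TZ n k B r) (hk : 2 ≤ k) (hc : NoWide k r)
    (hf : ∀ a b, a + k * 3 < b → r a b) : False := by
  refine h.false_of_noFat hk hc fun s => ?_
  by_contra hcon
  have hs : Hid r s k k := fun x y h1 h2 h3 h4 h5 => hcon ⟨x, y, h1, h2, h3, h4, h5⟩
  have key : ∀ r' : ℤ → ℤ → Prop, TZ n k B r' → (∀ a b, a + k * 3 < b → r' a b) →
      ∀ s a b, FatF k r' s a b → False := by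
    intro r' h' hf' s a b f
    rcases lt_or_ge b (2 * k) with hb | hb
    · exact f.false_of_lt h' hb
    · have hka := f.ka
      have h1 : b = 2 * k := by
        by_contra hne
        exact f.hid (s - a) (s + b) (by omega) (by omega) (by omega) (by omega)
          (hf' _ _ (by omega))
      have h2 := f.rho_pos h'
      rw [h1, Int.mul_emod_left] at h2
      omega
  rcases h.exists_fat hs with ⟨s, a, b, f⟩ | ⟨s, a, b, f⟩
  · exact key r h hf s a b f
  · exact key _ h.mirror (fun a b hab => h.symm _ _ (hf _ _ (by omega))) s a b f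

/-- Every `T'`-structure without hidden pairs at a distance above `3 k` has a linked class. -/
theorem TZ.link_far3 : ∀ N : ℕ, ∀ (n : ℕ) (k B : ℤ) (r : ℤ → ℤ → Prop), k.toNat ≤ N →
    TZ n k B r → (∀ a b, a + k * 3 < b → r a b) → ∃ c, ∀ u, k ∣ u - c → r u (u + k) := by
  intro N
  induction N with
  | zero => intro n k B r h1 h; have := h.hk; omega
  | succ N ih =>
    intro n k B r hN h hf
    have hk := h.hk
    by_cases hk1 : k = 1
    · subst hk1
      exact ⟨0, fun u _ => h.succ u⟩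
    by_contra hno
    refine h.false_of_far3 (by omega) (fun c d d1 d2 hv => ?_) hf
    rcases eq_or_lt_of_le d2 with hd | hd
    · subst hd
      exact hno ⟨c, hv⟩
    · obtain ⟨n', r', p1, p3, p2⟩ := h.cutF d1 hd hv
      exact hno (p2 (ih n' (k - d + 1) B r' (by omega) p1 (p3 3 hf)))

end Tp

end VisMap
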