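import Pool.Agent.Lib.MP_9f3af0_lcB.Mono

/-!
# MP_9f3af0_lc: the backward laps at a minimal fat column (helper54; Lean by helper31)

`FatAt k r T x`: the `k` rows before `x` hide `(x, T)`.  If no gap is longer than `t`, `x` is fat for
`T = a + t` and no `y` in `[a, x)` is fat, then `x` has at most as many backward laps as `x - k`.
-/

namespace VisMap

namespace Tp

variable {n : ℕ} {k B : ℤ} {r : ℤ → ℤ → Prop} {t : ℤ}

/-- The rows `x - k, …, x - 1` hide everything strictly between `x` and `T`. -/
def FatAt (k : ℤ) (r : ℤ → ℤ → Prop) (T x : ℤ) : Prop :=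
  ∀ u y, x - k ≤ u → u < x → x < y → y < T → ¬ r u y

private theorem fat_rows (h : TZ n k B r) {T x d : ℤ} (hf : FatAt k r T x) (hd1 : x - k ≤ d)
    (hd2 : d < x) (hr : r d x) (hh : ∀ u, d - k ≤ u → u < d → ¬ r u x) (m : ℕ) :
    ∀ u, u < d → d - k ≤ u → d - u ≤ m → ∀ y, x < y → y < T → ¬ r u y := by
  induction m with
  | zero => intro u h1 h2 h3; push_cast at h3; omega
  | succ m ih =>
    intro u h1 h2 h3 y h4 h5 h6
    rcases le_or_gt (x - k) u with h7 | h7
    · exact hf u y h7 (by omega) h4 h5 h6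
    · obtain ⟨p, p1, p2, p3, p4⟩ := h.last (v := u) (a := x) (by omega)
      obtain ⟨q, q1, q2, q3, -⟩ := h.next (v := u) (a := x) (by omega)
      have hpx : p < x := by
        rcases p2.lt_or_eq with h8 | h8
        · exact h8
        · rw [h8] at p3
          exact absurd p3 (hh u h2 h1)
      have hqy : q ≤ y := by
        by_contra hc
        exact q3 y h4 (by omega) h6
      have hcn : r p q := h.cn u p q p1 (by omega) p3 q2 fun w w1 w2 => by
        rcases lt_or_ge x w with hw | hw
        · exact q3 w hw w2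
        · exact p4 w w1 hw
      rcases lt_or_ge d p with h8 | h8
      · exact hh u h2 h1 (h.X u d p x h1 h8 hpx p3 hr)
      · rcases le_or_gt (x - k) p with h9 | h9
        · exact hf p q h9 hpx q1 (by omega) hcn
        · exact ih p (by omega) (by omega) (by push_cast at h3; omega) q q1 (by omega) hcn

/-- The claim in the proof: the column `x` does not see a `d` in `[x - k, x)` such that it hides the
`k` rows before `d`. -/
theorem FatAt.no_lap (h : TZ n k B r) (hgf : ∀ u x y, Gp r u x y → y - x ≤ t) {a T x d : ℤ}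
    (hT : T = a + t) (hf : FatAt k r T x) (hmin : ∀ y, a ≤ y → y < x → ¬ FatAt k r T y)
    (hd1 : x - k ≤ d) (hd2 : d < x) (hr : r d x) (hh : ∀ u, d - k ≤ u → u < d → ¬ r u x) :
    False := by
  have hk := h.hk
  have hfd : FatAt k r T d := by
    intro u y h1 h2 h3 h4 h5
    rcases lt_trichotomy y x with h6 | h6 | h6
    · exact hh u h1 h2 (h.X u d y x h2 h3 h6 h5 hr)
    · rw [h6] at h5
      exact hh u h1 h2 h5
    · exact fat_rows h hf hd1 hd2 hr hh (d - u).toNat u h2 h1
        (by rw [Int.toNat_of_nonneg (by omega)]) y h6 h4 h5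
  rcases le_or_gt a d with h1 | h1
  · exact hmin d h1 hd2 hfd
  · obtain ⟨z, z1, z2, z3, -⟩ := h.next (v := d - 1) (a := d) (by omega)
    have hs : r (d - 1) d := by
      have := h.succ (d - 1)
      rwa [sub_add_cancel] at this
    have hg := hgf (d - 1) d z ⟨by omega, z1, hs, z2, z3⟩
    exact hfd (d - 1) z (by omega) (by omega) z1 (by omega) z2

/-- (S2B) of helper54: the backward laps at a minimal fat column. -/
theorem FatAt.lb_le (h : TZ n k B r) (hgf : ∀ u x y, Gp r u x y → y - x ≤ t) {a T x : ℤ}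
    (hT : T = a + t) (hf : FatAt k r T x) (hmin : ∀ y, a ≤ y → y < x → ¬ FatAt k r T y) :
    lb k B r x ≤ lb k B r (x - k) := by
  have hk := h.hk
  obtain ⟨b, b1, b2, b3, -⟩ := h.next' (v := x) (a := x - k) (by omega)
  refine h.mono' (x := b) (y := x - k) (x' := x) b1 (by omega) (h.symm _ _ b2) ?_
  refine lcT_eq_zero fun y y1 y2 y3 => ?_
  obtain ⟨h1, s, s1, s2, s3, s4⟩ := y3
  have hsee : ∀ m, m < x → r x m → Tf (VisMap.mirror r) (-x) (-m) := fun m m1 m2 =>
    ⟨by omega, (mir_iff x m).2 m2⟩
  have hsr : r x (-s) := by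
    have := s2.2
    rw [show s = -(-s) from (neg_neg s).symm] at this
    exact (mir_iff x (-s)).1 this
  have hsx : -s < x := by have := s2.1; omega
  have hle : k ≤ y - s := Int.le_of_dvd (by omega) s4
  rcases le_or_gt (x - k) (-s) with h2 | h2
  · refine FatAt.no_lap h hgf hT hf hmin h2 hsx (h.symm _ _ hsr) fun u u1 u2 u3 => ?_
    have h3 := hsee u (by omega) (h.symm _ _ u3)
    rcases lt_or_ge (-u) y with h4 | h4
    · exact s3 (-u) (by omega) h4 h3
    · have e : -u = y := by omega
      rw [e] at h3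
      exact h1 h3
  · have h3 : -s ≤ b := by
      by_contra hc
      exact b3 (-s) (by omega) h2 hsr
    omega

end Tp

end VisMap
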