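import Pool.Agent.Lib.MP_9f3af0_lcB.LapDef
import Pool.Agent.Lib.MP_9f3af0_lcB.C1

/-!
# MP_9f3af0_lc: the number of the laps is a class function (job J2, helper87)

`TZ.laps_class`: the vertices of one class of a `T'`-structure have the same number of laps.
For matched sights `o`, `φ o` of two vertices of one class the difference `φ o - o` is `k` times the
difference of the numbers of the laps before them; far out this difference is the shift of the
numbers of the hidden vertices, and the two shifts cancel by the totals.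
-/

namespace VisMap

namespace Tp

variable {n : ℕ} {k B : ℤ} {r : ℤ → ℤ → Prop}

open Classical in
/-- The number of the laps of `v` in `(v, v + o]`. -/
noncomputable def lc (k : ℤ) (r : ℤ → ℤ → Prop) (v o : ℤ) : ℕ :=
  ((Finset.Ioc v (v + o)).filter fun y => LapAt k r v y).card

/-- The laps of one gap. -/
theorem lc_step (hk : 0 < k) {v a o : ℤ} (ha : NF r v a) (ho : NF r v o) (hao : a < o)
    (hm : ∀ m, a < m → m < o → ¬ r v (v + m)) :
    (lc k r v o : ℤ) = lc k r v a + (o - 1 - a) / k := by
  classical
  have h1 : (lc k r v o : ℤ) = lc k r v a +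
      (((Finset.Ioc (v + a) (v + (o - 1))).filter fun z => k ∣ z - (v + a)).card : ℤ) := by
    unfold lc
    rw [← Nat.cast_add, ← Finset.card_union_of_disjoint]
    · congr 2
      ext z
      simp only [Finset.mem_union, Finset.mem_filter, Finset.mem_Ioc]
      constructor
      · rintro ⟨⟨z1, z2⟩, z3⟩
        rcases le_or_gt z (v + a) with hz | hz
        · exact Or.inl ⟨⟨z1, hz⟩, z3⟩
        · right
          obtain ⟨z4, s, s1, s2, s3, s4, s5⟩ := z3
          have hzo : z ≠ v + o := by
            intro he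
            rw [he] at z4
            exact z4 ho.2
          have hs : s = v + a := by
            rcases lt_trichotomy s (v + a) with h | h | h
            · exact absurd ha.2 (s4 _ h hz)
            · exact h
            · exfalso
              refine hm (s - v) (by omega) (by omega) ?_
              rw [add_sub_cancel]
              exact s3
          refine ⟨⟨hz, by omega⟩, ?_⟩
          rw [← hs]
          exact s5
      · rintro (⟨⟨z1, z2⟩, z3⟩ | ⟨⟨z1, z2⟩, z3⟩)
        · exact ⟨⟨z1, by omega⟩, z3⟩
        · have ha1 := ha.1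
          refine ⟨⟨by omega, by omega⟩, ?_, v + a, by omega, z1, ha.2, ?_, z3⟩
          · have := hm (z - v) (by omega) (by omega)
            rw [add_sub_cancel] at this
            exact this
          · intro m m1 m2
            have := hm (m - v) (by omega) (by omega)
            rw [add_sub_cancel] at this
            exact this
    · rw [Finset.disjoint_left]
      intro z hz hz'
      rw [Finset.mem_filter, Finset.mem_Ioc] at hz hz'
      omega
  rw [h1, card_cls hk _ _ _ (by omega)]
  have e1 : v + (o - 1) - (v + a) = o - 1 - a := by ring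
  have e2 : v + a - (v + a) = 0 := by ring
  rw [e1, e2, Int.zero_ediv, sub_zero]

/-- The first sight has no lap before it. -/
theorem lc_one {v : ℤ} (h1 : r v (v + 1)) : lc k r v 1 = 0 := by
  classical
  unfold lc
  rw [Finset.card_eq_zero, Finset.filter_eq_empty_iff]
  intro z hz
  rw [Finset.mem_Ioc] at hz
  have : z = v + 1 := by omega
  rw [this]
  exact fun h => h.1 h1

/-- Matched sights: the shift is `k` times the difference of the numbers of the laps. -/
theorem TZ.lc_match (h : TZ n k B r) {v v' : ℤ} {φ : ℤ → ℤ}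
    (f1 : ∀ o, NF r v o → NF r v' (φ o)) (f2 : ∀ o, NF r v o → k ∣ φ o - o)
    (f3 : ∀ a b, NF r v a → NF r v b → a < b → φ a < φ b)
    (f4 : ∀ o', NF r v' o' → ∃ o, NF r v o ∧ φ o = o') (j : ℕ) :
    ∀ o, NF r v o → o ≤ j → φ o - o = k * (lc k r v' (φ o) - lc k r v o) := by
  have hk := h.hk
  have hone : φ 1 = 1 := match_one (P := NF r v) (Q := NF r v') (fun o ho => ho.1)
    (fun o ho => ho.1) ⟨one_pos, h.succ _⟩ ⟨one_pos, h.succ _⟩ f1 f3 f4
  induction j with
  | zero =>
    intro o ho ho'
    have := ho.1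
    push_cast at ho'
    omega
  | succ j ih =>
    intro o ho ho'
    have ho1 := ho.1
    rcases (by omega : o = 1 ∨ 1 < o) with he | hlt
    · rw [he, hone, lc_one (h.succ v), lc_one (h.succ v')]
      simp
    · obtain ⟨s, s1, s2, s3, s4⟩ := h.last (v := v) (a := v + (o - 1)) (by omega)
      have hs : NF r v (s - v) := ⟨by omega, by rw [add_sub_cancel]; exact s3⟩
      have hso : s - v < o := by omega
      have h1 := ih (s - v) hs (by push_cast at ho'; omega)
      have h2 := lc_step hk hs ho hso (fun m m1 m2 => s4 (v + m) (by omega) (by omega))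
      have h3 := lc_step hk (f1 _ hs) (f1 _ ho) (f3 _ _ hs ho hso) (fun m m1 m2 m3 => by
        have hm0 := (f1 _ hs).1
        obtain ⟨o', o1, o2⟩ := f4 m ⟨by omega, m3⟩
        rcases lt_trichotomy o' (s - v) with hl | hl | hl
        · have := f3 _ _ o1 hs hl; omega
        · rw [hl] at o2; omega
        · rcases lt_trichotomy o' o with hl' | hl' | hl'
          · exact s4 (v + o') (by omega) (by omega) o1.2
          · rw [hl'] at o2; omega
          · have := f3 _ _ ho o1 hl'; omega)
      obtain ⟨x, hx⟩ := f2 _ hs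
      obtain ⟨y, hy⟩ := f2 _ ho
      have e1 : φ o - 1 - φ (s - v) = (o - 1 - (s - v)) + k * (y - x) := by linarith
      rw [e1, Int.add_mul_ediv_left _ _ hk.ne'] at h3
      rw [h3, h2]
      have e2 : ((lc k r v' (φ (s - v)) : ℤ) + ((o - 1 - (s - v)) / k + (y - x)) -
          (lc k r v (s - v) + (o - 1 - (s - v)) / k)) =
          (lc k r v' (φ (s - v)) - lc k r v (s - v)) + (y - x) := by ring
      rw [e2, mul_add, ← h1]
      linarith

theorem TZ.lf_lc (h : TZ n k B r) {v L : ℤ} (hL : B ≤ L) : lf k B r v = lc k r v L := by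
  classical
  unfold lf lc
  congr 1
  ext z
  simp only [Finset.mem_filter, Finset.mem_Ioc]
  constructor
  · rintro ⟨⟨z1, z2⟩, z3⟩
    exact ⟨⟨z1, by omega⟩, z3⟩
  · rintro ⟨⟨z1, z2⟩, z3⟩
    exact ⟨⟨z1, (h.near z3.1).1⟩, z3⟩

/-- The shift of the forward views is the difference of the numbers of the forward laps. -/
theorem TZ.lf_add (h : TZ n k B r) {v v' : ℤ} (hv : k ∣ v' - v) :
    ∃ E : ℤ, (lf k B r v' : ℤ) = lf k B r v + E ∧
      ∀ e, (hf k B r v' e : ℤ) = hf k B r v e + E := by
  have hB := h.hB
  have hk := h.hk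
  obtain ⟨φ, f1, f2, f3, f4⟩ := h.fw v v' hv
  have hfar : ∀ o, B < o → NF r v o := fun o ho => ⟨by omega, h.far _ _ (by omega)⟩
  have hgrow : ∀ j : ℕ, φ (B + 1) + j ≤ φ (B + 1 + j) := by
    intro j
    induction j with
    | zero => simp
    | succ j ih =>
      have := f3 (B + 1 + j) (B + 1 + (j + 1 : ℕ)) (hfar _ (by omega)) (hfar _ (by push_cast; omega))
        (by push_cast; omega)
      push_cast at this ih ⊢
      omega
  have hL : NF r v (2 * B + 1) := hfar _ (by omega)
  have hφL : B ≤ φ (2 * B + 1) := by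
    have h1 := hgrow B.toNat
    have h2 := (f1 _ (hfar (B + 1) (by omega))).1
    have e : B + 1 + (B.toNat : ℤ) = 2 * B + 1 := by omega
    rw [e] at h1
    omega
  obtain ⟨a, ha⟩ := hv
  obtain ⟨b, hb⟩ := f2 _ hL
  refine ⟨b, ?_, fun e => ?_⟩
  · have h1 := h.lc_match f1 f2 f3 f4 (2 * B + 1).toNat (2 * B + 1) hL (by omega)
    rw [h.lf_lc (v := v) (L := 2 * B + 1) (by omega), h.lf_lc (v := v') hφL]
    rw [hb] at h1
    have := mul_left_cancel₀ hk.ne' h1
    omega
  · have h1 := h.hf_vf (v := v) (L := 2 * B + 1) (by omega) e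
    have h2 := h.hf_vf (v := v') (L := φ (2 * B + 1)) hφL e
    have h3 := vf_match (e := e) hL f1 f2 f3 f4 (v' := v') ⟨a, ha⟩
    rw [← h3] at h2
    have e1 : v' + φ (2 * B + 1) - e = (v + (2 * B + 1) - e) + k * (a + b) := by linarith
    have e2 : v' - e = (v - e) + k * a := by linarith
    rw [e1, e2, Int.add_mul_ediv_left _ _ hk.ne', Int.add_mul_ediv_left _ _ hk.ne'] at h2
    omega

/-- The same for the backward laps. -/
theorem TZ.lb_add (h : TZ n k B r) {v v' : ℤ} (hv : k ∣ v' - v) :
    ∃ E : ℤ, (lb k B r v' : ℤ) = lb k B r v + E ∧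
      ∀ e, (hb k B r v' e : ℤ) = hb k B r v e + E := by
  obtain ⟨E, hE, hE'⟩ := h.mirror.lf_add (v := -v) (v' := -v') (by
    have e1 : -v' - -v = -(v' - v) := by ring
    rw [e1]
    exact (dvd_neg).2 hv)
  refine ⟨E, hE, fun e => ?_⟩
  have := hE' (-e)
  rw [hf_mirror, hf_mirror, neg_neg, neg_neg, neg_neg] at this
  exact this

/-- The number of the laps is a class function. -/
theorem TZ.laps_class (h : TZ n k B r) {v v' : ℤ} (hv : k ∣ v' - v) :
    laps k B r v' = laps k B r v := by
  obtain ⟨E, hE, hE'⟩ := h.lf_add hv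
  obtain ⟨F, hF, hF'⟩ := h.lb_add hv
  have h1 := h.tot v v' 0 hv
  have h2 := hE' 0
  have h3 := hF' 0
  unfold laps
  omega

end Tp

end VisMap
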