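import Pool.Agent.Lib.MP_9f3af0_lc.FatEar
import Pool.Agent.Lib.MP_9f3af0_lc.FMax

/-!
# MP_9f3af0_lc: the statement HEAR implies that some class is linked (helper37)

`HEAR`: all vertices of the class of a vertex with the largest first gap (of length `h ≥ k`) are
ears.
-/

namespace VisMap

namespace LemB

open Cut FMax

/-- The statement about the vertices with the largest first gap. -/
def HEAR : Prop :=
  ∀ (n : ℕ) (k h : ℤ) (r : ℤ → ℤ → Prop), ZRel n r → 2 ≤ k → k ∣ (n : ℤ) → 4 * k ≤ n → Wd n k r →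
    k ≤ h → JB n 1 (h + 2) r → (∀ m, 1 < m → m < h + 2 → ¬ r 0 m) → ∀ w, k ∣ w → r (w - 1) (w + 1)

variable {n : ℕ} {k h J : ℤ} {r : ℤ → ℤ → Prop}

theorem jb_sh (hJ : JB n 1 J r) (c : ℤ) : JB n 1 J (sh r c) := by
  refine ⟨fun v => ?_, fun v => ?_⟩
  · obtain ⟨m, m1, m2, m3, m4⟩ := hJ.1 (v + c)
    refine ⟨m - c, by omega, by omega, by omega, ?_⟩
    show r (v + c) (m - c + c)
    rwa [sub_add_cancel]
  · obtain ⟨m, m1, m2, m3, m4⟩ := hJ.2 (v + c)
    refine ⟨m - c, by omega, by omega, by omega, ?_⟩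
    show r (v + c) (m - c + c)
    rwa [sub_add_cancel]

/-- `HEAR` for an arbitrary vertex and without the lower bound on the gap. -/
theorem hear_at (H : HEAR) (hz : ZRel n r) (hk : 2 ≤ k) (hkn : k ∣ (n : ℤ)) (h4 : 4 * k ≤ n)
    (hw : Wd n k r) (hJ : JB n 1 J r) {v : ℤ} (hv : ∀ m, v + 1 < m → m < v + J → ¬ r v m) {w : ℤ}
    (hvw : k ∣ w - v) : r (w - 1) (w + 1) := by
  rcases lt_or_ge J (k + 2) with hs | hb
  · -- all mates have the same first gap
    have hfst : ∀ u, Fw n r u 1 := fun u => ⟨by omega, by omega, hz.succ u⟩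
    obtain ⟨φ, f1, f2, f3, f4⟩ := hw v w hvw
    have φ1 : φ 1 = 1 := by
      obtain ⟨o, o1, o2⟩ := f4 1 (hfst w)
      rcases lt_or_ge 1 o with hl | hl
      · have h5 := f3 1 o (hfst v) o1 hl
        have h6 := (f1 1 (hfst v)).1
        omega
      · have : o = 1 := by have := o1.1; omega
        rw [this] at o2; exact o2
    refine ear_self hz hJ (v := w) fun m m1 m2 m3 => ?_
    have hmn : m < w + n := by
      obtain ⟨m', a1, a2, a3, a4⟩ := hJ.1 v
      rcases lt_or_ge m' (v + J) with h6 | h6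
      · exact (hv m' a1 h6 a4).elim
      · omega
    obtain ⟨o, o1, o2⟩ := f4 (m - w) ⟨by omega, by omega, by rw [add_sub_cancel]; exact m3⟩
    have ho1 : 1 < o := by
      rcases lt_trichotomy 1 o with hl | hl | hl
      · exact hl
      · rw [← hl, φ1] at o2; omega
      · have := o1.1; omega
    have hoJ : J ≤ o := by
      by_contra hc
      exact hv (v + o) (by omega) (by omega) o1.2.2
    have h7 : k ∣ o - φ o := by
      have e : o - φ o = -(φ o - o) := by ring
      rw [e]; exact (dvd_neg).2 (f2 o o1)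
    -- the second sight of `v` is mapped to at most `m - w`, and is congruent
    obtain ⟨m', a1, a2, a3, a4⟩ := hJ.1 v
    have ha : m' = v + J := by
      by_contra hne
      exact hv m' a1 (by omega) a4
    have hFJ : Fw n r v J := ⟨by omega, by omega, by rw [← ha]; exact a4⟩
    have h8 : φ J ≤ φ o := by
      rcases hoJ.lt_or_eq with hl | he
      · exact (f3 _ _ hFJ o1 hl).le
      · rw [he]
    have h9 := f3 1 J (hfst v) hFJ (by omega)
    rw [φ1] at h9
    have h10 : k ∣ J - φ J := by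
      have e : J - φ J = -(φ J - J) := by ring
      rw [e]; exact (dvd_neg).2 (f2 J hFJ)
    have h11 := Int.le_of_dvd (by omega) h10
    omega
  · -- translate to `0`
    have hz' := zrel_sh hz v
    have hw' := wd_sh hw v
    have hJ' := jb_sh hJ v
    have h1 := H n k (J - 2) (sh r v) hz' hk hkn h4 hw' (by omega) (by
      have e : J - 2 + 2 = J := by ring
      rw [e]; exact hJ') (fun m m1 m2 m3 => hv (m + v) (by omega) (by omega) (by
        have e : (0 : ℤ) + v = v := by ring
        have h5 : r (0 + v) (m + v) := m3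
        rwa [e] at h5)) (w - v) hvw
    have h5 : r (w - v - 1 + v) (w - v + 1 + v) := h1
    have e1 : w - v - 1 + v = w - 1 := by ring
    have e2 : w - v + 1 + v = w + 1 := by ring
    rwa [e1, e2] at h5

/-- `HEAR` excludes structures without links. -/
theorem false_of_hear (H : HEAR) (hz : ZRel n r) (hk : 2 ≤ k) (hd : k ∣ (n : ℤ)) (h4 : 4 * k ≤ n)
    (hw : Wd n k r) (hnl : NL k r) : False := by
  have hn : 3 ≤ n := by omega
  have hz' := ZR.of_zRel hz
  have htop : JB n 1 (n - 1) r := by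
    refine ⟨fun v => ⟨v + n - 1, by omega, by omega, by omega, last hz v⟩, fun v =>
      ⟨v - n + 1, by omega, by omega, by omega, ?_⟩⟩
    have h1 := hz.succ v
    rw [← hz'.perR]
    have e : v - (n : ℤ) + 1 + n = v + 1 := by ring
    rw [e]; exact h1
  obtain ⟨J, hJ2, hJ3⟩ := Dism.exists_first (P := fun J => JB n 1 J r) (b := 2)
    (fun z hz => by
      obtain ⟨m, m1, m2, -, -⟩ := hz.1 0
      omega) (a := (n : ℤ) - 1) htop
  have hno : ¬ JB n 1 (J - 1) r := by
    intro hc
    have := hJ3 (J - 1) hc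
    omega
  unfold JB at hno
  rw [not_and_or] at hno
  rcases hno with hno | hno
  · push Not at hno
    obtain ⟨v₀, hv₀⟩ := hno
    have hide : ∀ m, v₀ + 1 < m → m < v₀ + J → ¬ r v₀ m := by
      intro m m1 m2 m3
      rcases lt_or_ge m (v₀ + n) with h5 | h5
      · exact hv₀ m m1 (by omega) h5 m3
      · obtain ⟨m', a1, a2, a3, a4⟩ := hJ2.1 v₀
        rcases lt_or_ge m' (v₀ + J) with h6 | h6
        · exact hv₀ m' a1 (by omega) a3 a4
        · omega
    refine hnl (v₀ - 1) 2 le_rfl hk fun u hu => ?_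
    have h5 := hear_at H hz hk hd h4 hw hJ2 hide (w := u + 1) (by
      have e : u + 1 - v₀ = u - (v₀ - 1) := by ring
      rw [e]; exact hu)
    have e1 : u + 1 - 1 = u := by ring
    have e2 : u + 1 + 1 = u + 2 := by ring
    rwa [e1, e2] at h5
  · push Not at hno
    obtain ⟨v₀, hv₀⟩ := hno
    have hm := hz.mirror
    have hwm := hw.mirror hz (by omega) hd hn
    have hnlm := hnl.mirror hz.symm
    have hJm := hJ2.mirror
    have hide : ∀ m, -v₀ + 1 < m → m < -v₀ + J → ¬ VisMap.mirror r (-v₀) m := by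
      intro m m1 m2 m3
      have m4 : r v₀ (-m) := by
        have : r (- -v₀) (-m) := m3
        rwa [neg_neg] at this
      rcases lt_or_ge m (-v₀ + n) with h5 | h5
      · exact hv₀ (-m) (by omega) (by omega) (by omega) m4
      · obtain ⟨m', a1, a2, a3, a4⟩ := hJ2.2 v₀
        rcases lt_or_ge (v₀ - J) m' with h6 | h6
        · exact hv₀ m' (by omega) a2 a3 a4
        · omega
    refine hnlm (-v₀ - 1) 2 le_rfl hk fun u hu => ?_
    have h5 := hear_at H hm hk hd h4 hwm hJm hide (w := u + 1) (by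
      have e : u + 1 - -v₀ = u - (-v₀ - 1) := by ring
      rw [e]; exact hu)
    have e1 : u + 1 - 1 = u := by ring
    have e2 : u + 1 + 1 = u + 2 := by ring
    rwa [e1, e2] at h5

/-- `HEAR` implies that some class is linked. -/
theorem linked_of_hear (H : HEAR) : ∀ (n : ℕ) (k : ℤ) (r : ℤ → ℤ → Prop), ZRel n r → 0 < k →
    k ∣ (n : ℤ) → k < n → Wd n k r → Lkd k r :=
  linked_of fun _ _ _ h hk hd h4 hw hc => false_of_hear H h hk hd h4 hw hc

end LemB

end VisMap
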