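import Pool.Agent.Lib.MP_9f3af0_lcB.Kill3

/-!
# MP_9f3af0_lc: the facing picture for `k = 3` (helper80), second part: the vertex `T`
-/

namespace VisMap

namespace Tp

variable {n : ℕ} {k B : ℤ} {r : ℤ → ℤ → Prop} {c : ℕ} {l s lam T T' y : ℤ}

/-- The forward laps of `s + 1`. -/
theorem Pic3.lf_g (h : TZ n 3 B r) (P : Pic3 B r c l s lam T') :
    (lf 3 B r (s + 1) : ℤ) ≤ lam - 1 + (T' - 1 - (s + 3 * lam + 3)) / 3 := by
  have hlam := P.lam1
  have hT' := P.T'3
  have r1 : r (s + 3 * lam + 2) (s + 1) := by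
    refine h.cn' (s + 3 * lam + 3) (s + 3 * lam + 2) (s + 1) (by omega) (by omega) ?_ P.Hg
      P.Hhid
    have := h.pred (s + 3 * lam + 3)
    have e : s + 3 * lam + 3 - 1 = s + 3 * lam + 2 := by ring
    rw [e] at this
    exact this
  have r2 : r (s + 1) (s + 3 * lam + 2) := h.symm _ _ r1
  have r3 : r (s + 1) (s + 3 * lam + 3) := h.symm _ _ P.Hg
  have e1 := h.lf_split (v := s + 1) (a := s + 3 * lam + 2) (by omega)
  have e2 := h.lfx_split (v := s + 1) (a := s + 3 * lam + 2) (b := s + 3 * lam + 3) (by omega)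
  have e3 := h.lfx_split (v := s + 1) (a := s + 3 * lam + 3) (b := T') (by omega)
  have e4 := P.nolap h
  have e5 := h.lcT_le2 (x := s + 1) (y := s + 3 * lam + 2) (by omega) r2
  have e6 : lcT 3 (Tf r (s + 1)) (s + 3 * lam + 2) (s + 3 * lam + 3) = 0 := by
    have e : s + 3 * lam + 3 = s + 3 * lam + 2 + 1 := by ring
    rw [e]
    refine lcT_seen ⟨by omega, ?_⟩
    rw [← e]
    exact r3
  have e7 := lcT_gap h.hk (T := Tf r (s + 1)) (a := s + 3 * lam + 3) (b := T') (by omega)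
    ⟨by omega, r3⟩ ⟨by omega, P.gT'⟩ (fun m m1 m2 m3 => P.ghid m m1 m2 m3.2)
  omega

/-- The forward laps of `s - 2`. -/
theorem Pic3.lf_2 (h : TZ n 3 B r) (P : Pic3 B r c l s lam T') :
    lam + (T' - 1 - (s + 3 * lam + 3)) / 3 ≤ (lf 3 B r (s - 2) : ℤ) := by
  have hlam := P.lam1
  have hT' := P.T'3
  obtain ⟨x, x1, x2, x3, x4⟩ := h.last (v := s - 2) (a := s) (by omega)
  obtain ⟨q, q1, q2, q3, -⟩ := h.next (v := s - 2) (a := s) (by omega)
  have hg : Gp r (s - 2) x q := ⟨x1, by omega, x3, q2, fun m m1 m2 => by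
    rcases le_or_gt m s with h1 | h1
    · exact x4 m m1 h1
    · exact q3 m h1 m2⟩
  have hq : s + 3 * lam + 3 + 3 * ((T' - 1 - (s + 3 * lam + 3)) / 3 - 1) < q := by
    by_contra hc
    exact P.hid2 h (i := (T' - 1 - (s + 3 * lam + 3)) / 3 - 1) (e := 2) (by omega) (by omega)
      (by omega) le_rfl (x := q) q1 (by omega) q2
  have e1 := h.lf_ge hg
  omega

/-- The column `s + 1` below `T`. -/
theorem Pic3.beta1 (h : TZ n 3 B r) (_P : Pic3 B r c l s lam T') (hT : T < s)
    (rT : r (s + 1) T) (hid : ∀ m, T < m → m < s → ¬ r (s + 1) m) :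
    r s T ∧ lfx 3 B (VisMap.mirror r) (-(s + 1)) (-T) ≤ lb 3 B r s := by
  have e' : ∀ v m : ℤ, VisMap.mirror r (-v) m ↔ r v (-m) := fun v m => by
    show r (- -v) (-m) ↔ _
    rw [neg_neg]
  have rs : r s T := by
    have h1 := h.pred (s + 1)
    have e : s + 1 - 1 = s := by ring
    rw [e] at h1
    exact h.cn' (s + 1) s T hT (by omega) h1 rT hid
  refine ⟨rs, ?_⟩
  have h1 := h.mirror.lfx_mono (u := -s) (v := -(s + 1)) (x := -T) (T := -T) (by omega)
    ((e' s _).2 (by rw [neg_neg]; exact rs)) (by omega)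
    ((e' (s + 1) _).2 (by rw [neg_neg]; exact rT)) le_rfl (fun z z1 z2 => by
      refine (e' (s + 1) z).2 (h.symm _ _ ?_)
      exact h.X (-z) T s (s + 1) (by omega) hT (by omega) (h.symm _ _ ((e' s z).1 z2))
        (h.symm _ _ rT))
  have h2 := h.mirror.lf_split (v := -s) (a := -T) (by omega)
  have h3 : lf 3 B (VisMap.mirror r) (-s) = lb 3 B r s := rfl
  omega

/-- `T < s - 3`. -/
theorem Pic3.exT (h : TZ n 3 B r) (P : Pic3 B r c l s lam T') :
    ∃ T, T + 3 < s ∧ r (s + 1) T ∧ ∀ m, T < m → m < s → ¬ r (s + 1) m := by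
  have e' : ∀ v m : ℤ, VisMap.mirror r (-v) m ↔ r v (-m) := fun v m => by
    show r (- -v) (-m) ↔ _
    rw [neg_neg]
  obtain ⟨T, t1, t2, t3, -⟩ := h.next' (v := s + 1) (a := s) (by omega)
  refine ⟨T, ?_, t2, t3⟩
  by_contra hc
  obtain ⟨rs, hb⟩ := P.beta1 h t1 t2 t3
  have s3 := P.s3 h
  have a1 := h.mirror.lf_split (v := -(s + 1)) (a := -T) (by omega)
  have a2 := h.mirror.lcT_le2 (x := -(s + 1)) (y := -T) (by omega)
    ((e' (s + 1) _).2 (by rw [neg_neg]; exact t2))
  have a3 : lf 3 B (VisMap.mirror r) (-(s + 1)) = lb 3 B r (s + 1) := rfl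
  have b1 := h.mirror.lf_split (v := -s) (a := -(s - 3)) (by omega)
  have b2 := h.mirror.lcT_le (x := -s) (y := -(s - 3)) (by omega)
    ((e' s _).2 (by rw [neg_neg]; exact h.symm _ _ s3))
  have b3 : lf 3 B (VisMap.mirror r) (-s) = lb 3 B r s := rfl
  have b4 := h.mirror.lfx_mono (u := -(s - 2)) (v := -s) (x := -(s - 3)) (T := -(s - 3))
    (by omega) ((e' (s - 2) _).2 (by
      rw [neg_neg]
      have := h.pred (s - 2)
      have e : s - 2 - 1 = s - 3 := by ring
      rw [e] at this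
      exact this)) (by omega)
    ((e' s _).2 (by rw [neg_neg]; exact h.symm _ _ s3)) le_rfl (fun z z1 z2 => by
      refine (e' s z).2 (h.symm _ _ ?_)
      exact h.X (-z) (s - 3) (s - 2) s (by omega) (by omega) (by omega)
        (h.symm _ _ ((e' (s - 2) z).1 z2)) s3)
  have c1 := h.mirror.lf_split (v := -(s - 2)) (a := -(s - 3)) (by omega)
  have c3 : lf 3 B (VisMap.mirror r) (-(s - 2)) = lb 3 B r (s - 2) := rfl
  have d1 := P.lf_g h
  have d2 := P.lf_2 h
  have d3 : laps 3 B r (s - 2) = laps 3 B r (s + 1) :=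
    h.laps_class (v := s + 1) (v' := s - 2) ⟨-1, by ring⟩
  unfold laps at d3
  omega

/-- The side of the rows. -/
theorem Pic3.side1 (h : TZ n 3 B r) (P : Pic3 B r c l s lam T') (_hT : T + 3 < s)
    (rT : r (s + 1) T) (hid : ∀ m, T < m → m < s → ¬ r (s + 1) m)
    (hy : (y = s + 3 * lam + 3 ∧ l = 3 * lam + 2) ∨ (y = s + 3 * lam + 2 ∧ l = 3 * lam + 1)) :
    Side3 B r c l s y T lam := by
  have hlam := P.lam1
  have hlen := P.len
  obtain ⟨e1, e2⟩ := P.lf_s h
  refine ⟨P.cl, hlam, P.hs, fun v hv => P.mod h hv, fun x z x1 x2 z1 z2 => ?_, by omega, by omega,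
    by omega, e2, e1, P.sH⟩
  rcases (show s + 1 ≤ z by omega).lt_or_eq with h1 | h1
  · refine h.mut (T := T) (u := s) (v := s + 1) (d := y) (by omega) (h.succ s)
      (fun m m1 m2 => ?_) hid x z x1 (by omega) h1 z2
    rcases lt_or_ge m (s + 3 * lam + 2) with h2 | h2
    · exact P.shid m m1 h2
    · have h3 : m = s + 3 * lam + 2 := by omega
      rw [h3]
      rcases P.len with ⟨l1, l2⟩ | ⟨l1, l2⟩
      · exact l2
      · exfalso
        omega
  · rw [← h1]
    exact fun h2 => hid x x1 x2 (h.symm _ _ h2)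

/-- The column `s - 2` hides `[s - 3 R, s - 4]`. -/
theorem Pic3.hidc (h : TZ n 3 B r) (S : Side3 B r c l s y T lam) {x : ℤ}
    (hx : s - 3 * ((s - T - 1) / 3) ≤ x) (hx4 : x ≤ s - 4) : ¬ r (s - 2) x := by
  have hlam := S.lam1
  have hy1 := S.y1
  intro hr
  obtain ⟨i, hi⟩ : ∃ i, i = (s - x + 2) / 3 := ⟨_, rfl⟩
  have i1 : s - 3 * i ≤ x := by omega
  have i2 : x < s - 3 * (i - 1) := by omega
  have i3 : 2 ≤ i := by omega
  have i4 : T < s - 3 * i := by omega
  have e1 := S.hide_e h (i := i) (e := 1) i3 i4 le_rfl (by omega) (by omega)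
  have e : s - 3 + 1 = s - 2 := by ring
  rw [e] at e1
  rcases i1.lt_or_eq with h1 | h1
  · have e2 := S.adj h (i := i - 1) (by omega) (by
      have e : i - 1 + 1 = i := by ring
      rw [e]; exact i4)
    have e3 : i - 1 + 1 = i := by ring
    rw [e3] at e2
    exact e1 (h.X (s - 3 * i) x (s - 3 * (i - 1)) (s - 2) h1 i2 (by omega) e2
      (h.symm _ _ hr))
  · rw [← h1] at hr
    exact e1 (h.symm _ _ hr)

/-- Comparison of the columns `s - 2` and `s + 1` below `T`. -/
theorem Pic3.sub2 (h : TZ n 3 B r) (P : Pic3 B r c l s lam T') (hT : T + 3 < s)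
    (rT : r (s + 1) T) {z : ℤ} (hz : z < T) (hr : r (s - 2) z) : r (s + 1) z := by
  have s3 := P.s3 h
  have h1 := h.X z (s - 3) (s - 2) s (by omega) (by omega) (by omega) (h.symm _ _ hr) s3
  exact h.symm _ _ (h.X z T s (s + 1) hz (by omega) (by omega) h1 (h.symm _ _ rT))

/-- The backward laps of `s - 2`, if the column `s - 2` hides `[w0, s - 4]`. -/
theorem Pic3.lb_2 (h : TZ n 3 B r) (P : Pic3 B r c l s lam T') (hT : T + 3 < s)
    (rT : r (s + 1) T) {w0 : ℤ} (hw0 : w0 ≤ s - 3) (hTw : T ≤ w0)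
    (hw : ∀ x, w0 ≤ x → x ≤ s - 4 → ¬ r (s - 2) x) {Q : ℤ} (hQ1 : 3 * Q ≤ s - 3 - w0)
    : Q + lfx 3 B (VisMap.mirror r) (-(s + 1)) (-T) ≤ (lb 3 B r (s - 2) : ℤ) := by
  have e' : ∀ v m : ℤ, VisMap.mirror r (-v) m ↔ r v (-m) := fun v m => by
    show r (- -v) (-m) ↔ _
    rw [neg_neg]
  obtain ⟨x, x1, x2, x3, -⟩ := h.next' (v := s - 2) (a := s - 3) (by omega)
  have hxw : x < w0 := by
    by_contra hc
    exact hw x (by omega) (by omega) x2
  have hp : r (s - 2) (s - 3) := by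
    have := h.pred (s - 2)
    have e : s - 2 - 1 = s - 3 := by ring
    rw [e] at this
    exact this
  have hg := gp_mirror (r := r) (z := s - 2) (p := s - 3) (q := x) (by omega) (by omega) hp x2 x3
  have e1 := h.mirror.lf_ge_of (u := -(s - 2)) (v := -(s + 1)) (T := -T) hg (by omega) (by omega)
    ((e' (s + 1) _).2 (by rw [neg_neg]; exact rT)) (fun z z1 z2 => by
      exact (e' (s + 1) z).2 (P.sub2 h hT rT (by omega) ((e' (s - 2) z).1 z2)))
  have e2 : lf 3 B (VisMap.mirror r) (-(s - 2)) = lb 3 B r (s - 2) := rfl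
  have e3 : -w0 ≤ min (-x - 1) (-T) := le_min (by omega) (by omega)
  rw [e2] at e1
  omega

/-- The laps of `s + 1`. -/
theorem Pic3.laps_g (h : TZ n 3 B r) (P : Pic3 B r c l s lam T') (hT : T + 3 < s)
    (rT : r (s + 1) T) (hid : ∀ m, T < m → m < s → ¬ r (s + 1) m) :
    (laps 3 B r (s + 1) : ℤ) ≤ lam - 1 + (T' - 1 - (s + 3 * lam + 3)) / 3 + (s - T - 1) / 3 +
      lfx 3 B (VisMap.mirror r) (-(s + 1)) (-T) := by
  have e' : ∀ v m : ℤ, VisMap.mirror r (-v) m ↔ r v (-m) := fun v m => by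
    show r (- -v) (-m) ↔ _
    rw [neg_neg]
  have hps : r (s + 1) s := by
    have := h.pred (s + 1)
    have e : s + 1 - 1 = s := by ring
    rw [e] at this
    exact this
  have e0 := P.lf_g h
  have e1 := h.mirror.lf_split (v := -(s + 1)) (a := -s) (by omega)
  have e2 := h.mirror.lfx_split (v := -(s + 1)) (a := -s) (b := -T) (by omega)
  have e3 : lf 3 B (VisMap.mirror r) (-(s + 1)) = lb 3 B r (s + 1) := rfl
  have e4 : lcT 3 (Tf (VisMap.mirror r) (-(s + 1))) (-(s + 1)) (-s) = 0 := by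
    have e : -s = -(s + 1) + 1 := by ring
    rw [e]
    refine lcT_seen ⟨by omega, ?_⟩
    rw [← e]
    exact (e' (s + 1) _).2 (by rw [neg_neg]; exact hps)
  have e5 := lcT_gap h.hk (T := Tf (VisMap.mirror r) (-(s + 1))) (a := -s) (b := -T) (by omega)
    ⟨by omega, (e' (s + 1) _).2 (by rw [neg_neg]; exact hps)⟩
    ⟨by omega, (e' (s + 1) _).2 (by rw [neg_neg]; exact rT)⟩
    (fun m m1 m2 m3 => hid (-m) (by omega) (by omega) ((e' (s + 1) m).1 m3.2))
  unfold laps
  push_cast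
  omega

/-- `T` is not a mate of `s`. -/
theorem Pic3.notmate (h : TZ n 3 B r) (P : Pic3 B r c l s lam T') (hT : T + 3 < s)
    (rT : r (s + 1) T) (hid : ∀ m, T < m → m < s → ¬ r (s + 1) m)
    (S : Side3 B r c l s y T lam) : ¬ (3 : ℤ) ∣ s - T := by
  rintro ⟨i, hi⟩
  have hlam := P.lam1
  have hy1 := S.y1
  have hi2 : 2 ≤ i := by omega
  obtain ⟨rs, -⟩ := P.beta1 h (by omega) rT hid
  have eT : T = s - 3 * i := by omega
  -- no laps of `T` before `s`
  have p1 := h.nat_pos (v := T) (y := s) (by omega) (h.symm _ _ rs)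
  have hL0 : lcT 3 (Tf r T) T s = 0 := by
    by_contra hne
    have hL1 : 1 ≤ lcT 3 (Tf r T) T s := Nat.one_le_iff_ne_zero.2 hne
    have e1 := lcT_split (k := 3) (T := Tf r T) (a := T) (b := s) (c := s + 1) (by omega)
      (by omega)
    have e2 := lcT_seen (k := 3) (T := Tf r T) (a := s) ⟨by omega, h.symm _ _ rT⟩
    refine S.hole h (v := T) (z := s + 1) (j := i - lcT 3 (Tf r T) T s) (e := 1)
      ⟨-i, by omega⟩ (by omega) (h.symm _ _ rT) (by omega) (by omega) le_rfl (by omega) ?_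
    rw [e1, e2]
    push_cast
    omega
  -- `T` hides `s - 2`
  have hT2 : ¬ r T (s - 2) := by
    intro hr
    have e1 := lcT_grow (k := 3) (T := Tf r T) (a := T) (b := s - 2) (c := s) (by omega) (by omega)
    have e2 : lcT 3 (Tf r T) T (s - 2) = 0 := by omega
    refine S.hole h (v := T) (z := s - 2) (j := i - 1) (e := 1)
      ⟨-i, by omega⟩ (by omega) hr (by omega) (by omega) le_rfl (by omega) ?_
    rw [e2]
    push_cast
    omega
  -- `T` sees `T + 3`
  have hT3 : r T (T + 3) := by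
    obtain ⟨g1, -, -, g4, -⟩ := S.mate h 1 le_rfl (by push_cast; omega)
    have e1 : s - 3 * ((1 : ℕ) : ℤ) = s - 3 := by push_cast; ring
    rw [e1] at g1 g4
    obtain ⟨z', z1, z2, z3⟩ := h.transport (v := s - 3) (v' := T) (z := s)
      ⟨1 - i, by omega⟩ (by omega) g1
    rw [g4] at z3
    have hz : z' < s := by
      by_contra hc
      rcases (show s ≤ z' by omega).lt_or_eq with h2 | h2
      · have := h.nat_lt (v := T) (y := s) (z := z') (by omega) h2 (h.symm _ _ rs) z2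
        rw [hL0] at this
        push_cast at this z3
        omega
      · rw [← h2, hL0] at z3
        push_cast at z3
        omega
    have h2 := lcT_grow (k := 3) (T := Tf r T) (a := T) (b := z') (c := s) z1.le hz.le
    have e : z' = T + 3 := by
      push_cast at z3
      omega
    rw [← e]
    exact z2
  -- the column `s - 2` hides `[T, s - 4]`
  have hw : ∀ x, T ≤ x → x ≤ s - 4 → ¬ r (s - 2) x := by
    intro x x1 x2 x3
    rcases le_or_gt (s - 3 * ((s - T - 1) / 3)) x with h1 | h1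
    · exact Pic3.hidc h S h1 x2 x3
    · rcases x1.lt_or_eq with h2 | h2
      · exact hT2 (h.X T x (T + 3) (s - 2) h2 (by omega) (by omega) hT3 (h.symm _ _ x3))
      · rw [← h2] at x3
        exact hT2 (h.symm _ _ x3)
  have f1 := P.lb_2 h hT rT (w0 := T) (by omega) le_rfl hw (Q := (s - T - 1) / 3) (by omega)
  have f2 := P.lf_2 h
  have f3 := P.laps_g h hT rT hid
  have f4 : laps 3 B r (s - 2) = laps 3 B r (s + 1) :=
    h.laps_class (v := s + 1) (v' := s - 2) ⟨-1, by ring⟩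
  rw [← f4] at f3
  unfold laps at f3
  push_cast at f3
  omega

/-- `T` is farther from `s` than `T'` from `H`. -/
theorem Pic3.R_lt (h : TZ n 3 B r) (P : Pic3 B r c l s lam T') (hT : T + 3 < s)
    (rT : r (s + 1) T) (hid : ∀ m, T < m → m < s → ¬ r (s + 1) m)
    (S : Side3 B r c l s y T lam) :
    (T' - 1 - (s + 3 * lam + 3)) / 3 < (s - T - 1) / 3 := by
  have hlam := P.lam1
  have hlen := P.len
  have hy1 := S.y1
  have hly := S.ly
  have hm := P.notmate h hT rT hid S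
  obtain ⟨rs, -⟩ := P.beta1 h (by omega) rT hid
  by_contra hc
  have S2 := P.side2 h
  have e' : ∀ v m : ℤ, VisMap.mirror r (-v) m ↔ r v (-m) := fun v m => by
    show r (- -v) (-m) ↔ _
    rw [neg_neg]
  have h0 : lcT 3 (Tf (VisMap.mirror r) (-s)) (-s) (-T) = 0 :=
    lcT_eq_zero fun z z1 z2 => h.nolap_a (closC l) P.cl P.hs rs
      (fun x z x1 x2 x3 x4 => S.hid x z x1 x2 x3 x4) hly (by omega) z1 z2
  refine S2.hole h.mirror (v := -s) (z := -T) (j := (s - T - 1) / 3)
    (e := s - T - 3 * ((s - T - 1) / 3)) ⟨lam + 1, by ring⟩ (by omega)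
    ((e' s _).2 (by rw [neg_neg]; exact rs)) (by omega) (by omega) (by omega) (by omega) ?_
  rw [h0]
  push_cast
  ring

end Tp

end VisMap
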