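import Pool.Agent.Lib.MP_9f3af0_lcB.Kill3b

/-!
# MP_9f3af0_lc: the facing picture for `k = 3` (helper80), third part
-/

namespace VisMap

namespace Tp

variable {n : ℕ} {k B : ℤ} {r : ℤ → ℤ → Prop} {c : ℕ} {l s lam T T' y : ℤ}

/-- Step (6). -/
def Six3 (n : ℕ) (B : ℤ) (r : ℤ → ℤ → Prop) (c : ℕ) (l s lam T T' y : ℤ) : Prop :=
  TZ n 3 B r → Side3 B r c l s y T lam →
    Side3 B (VisMap.mirror r) c l (-(s + 3 * lam + 3)) (-s) (-T') lam →
    T + 3 < s → s + 3 * lam + 3 + 3 < T' → r (s + 3 * lam + 3) T' →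
    lcT 3 (Tf r (s + 3 * lam + 3)) (s + 3 * lam + 3) T' = 0 → (3 : ℤ) ∣ T' - s →
    lam + (s - T - 1) / 3 + (T' - (s + 3 * lam + 3) - 1) / 3 + (lf 3 B r (s + 3 * lam + 3) : ℤ) ≤
      laps 3 B r (s + 3 * lam + 4)

/-- The main statement on one facing picture. -/
theorem Pic3.key (h6 : ∀ y T, Six3 n B r c l s lam T T' y) (h : TZ n 3 B r)
    (P : Pic3 B r c l s lam T') :
    l = 3 * lam + 1 ∧ r (s - 3 * ((T' - 1 - (s + 3 * lam + 3)) / 3)) (s + 3 * lam + 2) := by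
  have hlam := P.lam1
  have hlen := P.len
  have hT' := P.T'3
  obtain ⟨T, hT, rT, hid⟩ := P.exT h
  obtain ⟨y, hy⟩ : ∃ y, (y = s + 3 * lam + 3 ∧ l = 3 * lam + 2) ∨
      (y = s + 3 * lam + 2 ∧ l = 3 * lam + 1) := by
    rcases hlen with ⟨h1, -⟩ | ⟨h1, -⟩
    · exact ⟨_, Or.inl ⟨rfl, h1⟩⟩
    · exact ⟨_, Or.inr ⟨rfl, h1⟩⟩
  have S := P.side1 h hT rT hid hy
  have S2 := P.side2 h
  have hR := P.R_lt h hT rT hid S
  obtain ⟨rs, hb⟩ := P.beta1 h (by omega) rT hid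
  have e' : ∀ v m : ℤ, VisMap.mirror r (-v) m ↔ r v (-m) := fun v m => by
    show r (- -v) (-m) ↔ _
    rw [neg_neg]
  have hHc : laps 3 B r (s + 3 * lam + 3) = c := by
    rw [h.laps_class (v := s) (v' := s + 3 * lam + 3) ⟨lam + 1, by ring⟩]
    exact P.hs
  -- `H ~ T'` and no laps of `H` before `T'`
  have rHT : r (s + 3 * lam + 3) T' :=
    h.cn (s + 1) (s + 3 * lam + 3) T' (by omega) (by omega) (h.symm _ _ P.Hg) P.gT' P.ghid
  have hH0 : lcT 3 (Tf r (s + 3 * lam + 3)) (s + 3 * lam + 3) T' = 0 := by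
    refine lcT_eq_zero fun z z1 z2 => ?_
    have := h.mirror.nolap_a (closC l) P.cl.mir (T := -T') (p := -(s + 3 * lam + 3)) (q := -s)
      (z := z) (by rw [laps_mirror', hHc]) ((e' _ _).2 (by rw [neg_neg]; exact rHT))
      (fun x z x1 x2 x3 x4 => S2.hid x z x1 x2 x3 x4) (by omega) (by omega) (by omega)
      (by omega)
    rw [mirror_mirror, neg_neg] at this
    exact this
  -- `T'` is not a mate
  have hm : ¬ (3 : ℤ) ∣ T' - s := by
    intro hm
    have f1 := h6 y T h S S2 hT hT' rHT hH0 hm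
    have f2 := P.laps_g h hT rT hid
    have f3 : laps 3 B r (s + 3 * lam + 4) = laps 3 B r (s + 1) :=
      h.laps_class (v := s + 1) (v' := s + 3 * lam + 4) ⟨lam + 1, by ring⟩
    obtain ⟨-, f4⟩ := P.lf_s h
    have f5 := S2.lfp
    have f6 : lf 3 B (VisMap.mirror r) (-(s + 3 * lam + 3)) = lb 3 B r (s + 3 * lam + 3) := rfl
    have f7 : laps 3 B r s = lf 3 B r s + lb 3 B r s := rfl
    have f8 : laps 3 B r (s + 3 * lam + 3) =
      lf 3 B r (s + 3 * lam + 3) + lb 3 B r (s + 3 * lam + 3) := rfl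
    have f9 := P.hs
    omega
  have hhole : ∀ e, T' = s + 3 * lam + 3 + 3 * ((T' - 1 - (s + 3 * lam + 3)) / 3) + e → 1 ≤ e →
      s + e + 3 * lam < y → False := by
    intro e he he1 he2
    refine S.hole h (v := s + 3 * lam + 3) (z := T')
      (j := (T' - 1 - (s + 3 * lam + 3)) / 3) (e := e) ⟨lam + 1, by ring⟩ (by omega) rHT
      (by omega) (by omega) he1 he2 ?_
    rw [hH0]
    push_cast
    omega
  rcases hy with ⟨y1, y2⟩ | ⟨y1, y2⟩
  · exfalso
    refine hhole (T' - (s + 3 * lam + 3) - 3 * ((T' - 1 - (s + 3 * lam + 3)) / 3)) (by omega)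
      (by omega) (by omega)
  · refine ⟨y2, ?_⟩
    have hT2 : T' = s + 3 * lam + 3 + 3 * ((T' - 1 - (s + 3 * lam + 3)) / 3) + 2 := by
      by_contra hc
      refine hhole (T' - (s + 3 * lam + 3) - 3 * ((T' - 1 - (s + 3 * lam + 3)) / 3)) (by omega)
        (by omega) (by omega)
    obtain ⟨j, hj⟩ : ∃ j, j = (T' - 1 - (s + 3 * lam + 3)) / 3 := ⟨_, rfl⟩
    rw [← hj] at hT2 hR ⊢
    obtain ⟨j', hj'⟩ : ∃ j' : ℕ, (j' : ℤ) = j := ⟨j.toNat, by omega⟩
    obtain ⟨-, g2, -, -, -⟩ := S.mate h j' (by omega) (by omega)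
    rw [hj'] at g2
    obtain ⟨z', z1, z2, z3⟩ := h.transport (v := s + 3 * lam + 3) (v' := s - 3 * j) (z := T')
      ⟨-lam - 1 - j, by ring⟩ (by omega) rHT
    rw [hH0] at z3
    have h2 := h.lcT_le_lf (v := s - 3 * j) (z := z') z1.le
    have h3 : ¬ z' < y := fun h4 => S.hid (s - 3 * j) z' (by omega) (by omega) (by omega) h4 z2
    have e : z' = s + 3 * lam + 2 := by
      push_cast at z3
      omega
    rw [← e]
    exact z2

/-- The two facing pictures of type 2 exclude each other. -/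
theorem Pic3.false_pair {l' lam' T1 : ℤ}
    (h6 : ∀ y T, Six3 n B r c l s lam T T' y)
    (h6' : ∀ y T, Six3 n B (VisMap.mirror r) c l' (-(s + 3 * lam + 3)) lam' T T1 y)
    (h : TZ n 3 B r) (P : Pic3 B r c l s lam T')
    (P' : Pic3 B (VisMap.mirror r) c l' (-(s + 3 * lam + 3)) lam' T1) (hl : l' = l) : False := by
  have hlam := P.lam1
  obtain ⟨l1, k1⟩ := P.key h6 h
  obtain ⟨l2, k2⟩ := P'.key h6' h.mirror
  have el : lam' = lam := by omega
  subst el
  have hT' := P.T'3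
  have hT1 := P'.T'3
  have e1 : -(s + 3 * lam' + 3) + 3 * lam' + 3 = -s := by ring
  have e2 : -(s + 3 * lam' + 3) + 3 * lam' + 2 = -(s + 1) := by ring
  rw [e1, e2] at k2
  rw [e1] at hT1
  have e3 : -(s + 3 * lam' + 3) - 3 * ((T1 - 1 - -s) / 3) =
      -(s + 3 * lam' + 3 + 3 * ((T1 - 1 - -s) / 3)) := by ring
  rw [e3, mir_iff] at k2
  rcases le_or_gt ((T1 - 1 - -s) / 3) ((T' - 1 - (s + 3 * lam' + 3)) / 3) with h1 | h1
  · exact P.ghid (s + 3 * lam' + 3 + 3 * ((T1 - 1 - -s) / 3)) (by omega) (by omega)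
      (h.symm _ _ k2)
  · have h2 := P'.ghid (-(s - 3 * ((T' - 1 - (s + 3 * lam' + 3)) / 3))) (by omega) (by omega)
    have e4 : -(s + 3 * lam' + 3) + 1 = -(s + 3 * lam' + 2) := by ring
    rw [e4, mir_iff] at h2
    exact h2 (h.symm _ _ k1)

/-- The reduction of the longest terminal gap to the facing picture. -/
def Red3 : Prop :=
  ∀ (n : ℕ) (B : ℤ) (r : ℤ → ℤ → Prop) (c : ℕ) (l v g t : ℤ), TZ n 3 B r →
    TermF 3 B r c l v g t → ∃ lam T', Pic3 B r c l v lam T'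

/-- The mirrored frame of a facing picture of type 2. -/
theorem Pic3.term (h : TZ n 3 B r) (P : Pic3 B r c l s lam T') (hl : l = 3 * lam + 1)
    (hc : 1 ≤ c) : TermF 3 B (VisMap.mirror r) c l (-(s + 3 * lam + 3)) (-(s + 3 * lam + 2))
      (-(s + 1)) := by
  have hlam := P.lam1
  have hHc : laps 3 B r (s + 3 * lam + 3) = c := by
    rw [h.laps_class (v := s) (v' := s + 3 * lam + 3) ⟨lam + 1, by ring⟩]
    exact P.hs
  have hH2 : laps 3 B r (s + 3 * lam + 2) = laps 3 B r (s + 2) :=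
    h.laps_class (v := s + 2) (v' := s + 3 * lam + 2) ⟨lam, by ring⟩
  have h2 := P.h2
  rw [← hH2] at h2
  have hp : r (s + 3 * lam + 3) (s + 3 * lam + 2) := by
    have := h.pred (s + 3 * lam + 3)
    have e : s + 3 * lam + 3 - 1 = s + 3 * lam + 2 := by ring
    rw [e] at this
    exact this
  refine ⟨P.cl.mir, by omega, hc, by rw [laps_mirror', hHc],
    gp_mirror (by omega) (by omega) hp P.Hg P.Hhid, by omega, by rw [laps_mirror']; exact h2,
    fun x x1 x2 => ?_, by omega⟩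
  have e : x = -(s + 3 * lam + 2) := by omega
  rw [e, laps_mirror']
  exact h2

/-- The frame of the longest terminal gap is impossible for `k = 3`. -/
theorem TermF.false3 (red : Red3) (h6 : ∀ n B r c l s lam T T' y, Six3 n B r c l s lam T T' y)
    (h : TZ n 3 B r) {v g t : ℤ} (F : TermF 3 B r c l v g t) : False := by
  obtain ⟨lam, T', P⟩ := red _ _ _ _ _ _ _ _ h F
  obtain ⟨l1, -⟩ := P.key (fun y T => h6 _ _ _ _ _ _ _ _ _ _) h
  obtain ⟨lam', T1, P'⟩ := red _ _ _ _ _ _ _ _ h.mirror (P.term h l1 F.c1)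
  exact P.false_pair (fun y T => h6 _ _ _ _ _ _ _ _ _ _) (fun y T => h6 _ _ _ _ _ _ _ _ _ _) h
    P' rfl

end Tp

end VisMap
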