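import Pool.Agent.Lib.MP_9f3af0_lcB.LapDef

/-!
# MP_9f3af0_lc: counting laps (helper64)

`lcT k T a b` is the number of the laps of the set `T` in `(a, b]`.  A larger set has fewer laps
(`lcT_mono`).
-/

namespace VisMap

namespace Tp

/-- `y` is a lap of the set `T`: it is not in `T` and congruent to the last element before it. -/
def LapP (k : ℤ) (T : ℤ → Prop) (y : ℤ) : Prop :=
  ¬ T y ∧ ∃ s, s < y ∧ T s ∧ (∀ m, s < m → m < y → ¬ T m) ∧ k ∣ y - s

open Classical in
/-- The number of the laps of `T` in `(a, b]`. -/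
noncomputable def lcT (k : ℤ) (T : ℤ → Prop) (a b : ℤ) : ℕ :=
  ((Finset.Ioc a b).filter fun y => LapP k T y).card

variable {n : ℕ} {k B : ℤ} {r : ℤ → ℤ → Prop}

theorem lcT_self (T : ℤ → Prop) (a : ℤ) : lcT k T a a = 0 := by
  classical
  unfold lcT
  simp

theorem lcT_split {T : ℤ → Prop} {a b c : ℤ} (h1 : a ≤ b) (h2 : b ≤ c) :
    lcT k T a c = lcT k T a b + lcT k T b c := by
  classical
  unfold lcT
  rw [← Finset.card_union_of_disjoint, ← Finset.filter_union,
    Finset.Ioc_union_Ioc_eq_Ioc h1 h2]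
  rw [Finset.disjoint_left]
  intro y hy1 hy2
  rw [Finset.mem_filter, Finset.mem_Ioc] at hy1 hy2
  omega

theorem lcT_congr {S T : ℤ → Prop} {a b : ℤ}
    (h : ∀ y, a < y → y ≤ b → (LapP k S y ↔ LapP k T y)) : lcT k S a b = lcT k T a b := by
  classical
  unfold lcT
  congr 1
  ext y
  rw [Finset.mem_filter, Finset.mem_filter, Finset.mem_Ioc]
  constructor
  · rintro ⟨⟨a1, a2⟩, a3⟩
    exact ⟨⟨a1, a2⟩, (h y a1 a2).1 a3⟩
  · rintro ⟨⟨a1, a2⟩, a3⟩
    exact ⟨⟨a1, a2⟩, (h y a1 a2).2 a3⟩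

theorem lcT_eq_zero {T : ℤ → Prop} {a b : ℤ} (h : ∀ y, a < y → y ≤ b → ¬ LapP k T y) :
    lcT k T a b = 0 := by
  classical
  unfold lcT
  rw [Finset.card_eq_zero, Finset.filter_eq_empty_iff]
  intro y hy
  rw [Finset.mem_Ioc] at hy
  exact h y hy.1 hy.2

theorem lcT_zero {T : ℤ → Prop} {a b : ℤ} (h : lcT k T a b = 0) {y : ℤ} (h1 : a < y) (h2 : y ≤ b) :
    ¬ LapP k T y := by
  classical
  unfold lcT at h
  rw [Finset.card_eq_zero, Finset.filter_eq_empty_iff] at h
  exact h (Finset.mem_Ioc.2 ⟨h1, h2⟩)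

/-- The number of the laps of one gap. -/
theorem lcT_gap (hk : 0 < k) {T : ℤ → Prop} {a b : ℤ} (hab : a < b) (ha : T a) (hb : T b)
    (hn : ∀ m, a < m → m < b → ¬ T m) : (lcT k T a b : ℤ) = (b - 1 - a) / k := by
  classical
  have e : (Finset.Ioc a b).filter (fun y => LapP k T y) =
      (Finset.Ioc a (b - 1)).filter fun z => k ∣ z - a := by
    ext y
    rw [Finset.mem_filter, Finset.mem_filter, Finset.mem_Ioc, Finset.mem_Ioc]
    constructor
    · rintro ⟨⟨a1, a2⟩, a3, s, s1, s2, s3, s4⟩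
      have hyb : y ≠ b := by rintro rfl; exact a3 hb
      have hs : s = a := by
        rcases lt_trichotomy s a with h1 | h1 | h1
        · exact absurd ha (s3 a h1 a1)
        · exact h1
        · exact absurd s2 (hn s h1 (by omega))
      rw [hs] at s4
      exact ⟨⟨a1, by omega⟩, s4⟩
    · rintro ⟨⟨a1, a2⟩, a3⟩
      exact ⟨⟨a1, by omega⟩, hn y a1 (by omega), a, a1, ha, fun m m1 m2 => hn m m1 (by omega), a3⟩
  unfold lcT
  rw [e, card_cls hk a (b - 1) a (by omega)]
  simp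

/-- `k` times the number of the laps is smaller than the length. -/
theorem lcT_lt (hk : 0 < k) {T : ℤ → Prop} {a b : ℤ} (hab : a < b) (ha : T a) (hb : T b) :
    k * (lcT k T a b : ℤ) < b - a := by
  obtain ⟨j, hj⟩ : ∃ j : ℕ, b - a ≤ j := ⟨(b - a).toNat, by omega⟩
  induction j generalizing b with
  | zero => omega
  | succ j ih =>
    obtain ⟨c, c1, c2, c3, c4⟩ := exists_last (p := T) (a := a) (b := b - 1) (by omega) ha
    have hg := lcT_gap hk (T := T) (a := c) (b := b) (by omega) c3 hb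
      fun m m1 m2 => c4 m m1 (by omega)
    have h2 : k * ((b - 1 - c) / k) ≤ b - 1 - c := Int.mul_ediv_self_le hk.ne'
    rw [← hg] at h2
    rcases c1.lt_or_eq with hc | hc
    · have h1 := ih hc c3 (by push_cast at hj; omega)
      have h3 := lcT_split (k := k) (T := T) (a := a) (b := c) (c := b) c1 (by omega)
      rw [h3]
      push_cast
      rw [mul_add]
      omega
    · rw [hc]
      omega

/-- A larger set has fewer laps. -/
theorem lcT_mono (hk : 0 < k) {S T : ℤ → Prop} {a b : ℤ} (hab : a ≤ b) (ha : S a) (hb : S b)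
    (hST : ∀ z, a ≤ z → z ≤ b → S z → T z) : lcT k T a b ≤ lcT k S a b := by
  obtain ⟨j, hj⟩ : ∃ j : ℕ, b - a ≤ j := ⟨(b - a).toNat, by omega⟩
  induction j generalizing b with
  | zero =>
    have e : b = a := by push_cast at hj; omega
    rw [e, lcT_self]
    exact Nat.zero_le _
  | succ j ih =>
    rcases hab.lt_or_eq with hlt | he
    · obtain ⟨c, c1, c2, c3, c4⟩ := exists_last (p := S) (a := a) (b := b - 1) (by omega) ha
      have hg := lcT_gap hk (T := S) (a := c) (b := b) (by omega) c3 hb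
        fun m m1 m2 => c4 m m1 (by omega)
      have h1 := ih c1 c3 (fun z z1 z2 => hST z z1 (by omega)) (by push_cast at hj; omega)
      have h2 := lcT_lt hk (T := T) (a := c) (b := b) (by omega) (hST c c1 (by omega) c3)
        (hST b hab le_rfl hb)
      have h3 := lcT_split (k := k) (T := T) (a := a) (b := c) (c := b) c1 (by omega)
      have h4 := lcT_split (k := k) (T := S) (a := a) (b := c) (c := b) c1 (by omega)
      have h5 : (lcT k T c b : ℤ) ≤ (b - 1 - c) / k := by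
        rw [Int.le_ediv_iff_mul_le hk, mul_comm]
        omega
      rw [← hg] at h5
      omega
    · rw [he, lcT_self]
      exact Nat.zero_le _

/-- The forward sights of `v`. -/
def Tf (r : ℤ → ℤ → Prop) (v z : ℤ) : Prop := v < z ∧ r v z

theorem lapAt_iff {v y : ℤ} (hy : v < y) : LapAt k r v y ↔ LapP k (Tf r v) y := by
  unfold LapAt LapP Tf
  constructor
  · rintro ⟨h1, s, s1, s2, s3, s4, s5⟩
    exact ⟨fun h => h1 h.2, s, s2, ⟨s1, s3⟩, fun m m1 m2 m3 => s4 m m1 m2 m3.2, s5⟩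
  · rintro ⟨h1, s, s1, s2, s3, s4⟩
    exact ⟨fun h => h1 ⟨hy, h⟩, s, s2.1, s1, s2.2, fun m m1 m2 m3 => s3 m m1 m2
      ⟨by have := s2.1; omega, m3⟩, s4⟩

theorem lf_eq_lcT (v : ℤ) : lf k B r v = lcT k (Tf r v) v (v + B) := by
  classical
  unfold lf lcT
  congr 1
  ext y
  rw [Finset.mem_filter, Finset.mem_filter, Finset.mem_Ioc]
  constructor
  · rintro ⟨⟨a1, a2⟩, a3⟩
    exact ⟨⟨a1, a2⟩, (lapAt_iff a1).1 a3⟩
  · rintro ⟨⟨a1, a2⟩, a3⟩
    exact ⟨⟨a1, a2⟩, (lapAt_iff a1).2 a3⟩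

theorem TZ.lf_eq (h : TZ n k B r) {v M : ℤ} (hM : v + B ≤ M) :
    lf k B r v = lcT k (Tf r v) v M := by
  have hB := h.hB
  rw [lf_eq_lcT, lcT_split (a := v) (b := v + B) (c := M) (by omega) hM,
    lcT_eq_zero (a := v + B) (b := M) (fun y y1 y2 y3 => y3.1 ⟨by omega, h.far _ _ (by omega)⟩),
    add_zero]

/-- Between two sights of `v` the laps of `v` are the laps of its forward sights. -/
theorem lapP_iff_of {T : ℤ → Prop} {S : ℤ → Prop} {a y : ℤ} (ha : a < y) (hSa : S a) (hTa : T a)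
    (hST : ∀ z, a ≤ z → z ≤ y → (S z ↔ T z)) : LapP k S y ↔ LapP k T y := by
  have key : ∀ {S T : ℤ → Prop}, S a → T a → (∀ z, a ≤ z → z ≤ y → (S z ↔ T z)) → LapP k S y →
      LapP k T y := by
    intro S T hSa hTa hST
    rintro ⟨h1, s, s1, s2, s3, s4⟩
    have has : a ≤ s := by
      by_contra hc
      exact s3 a (by omega) ha hSa
    exact ⟨fun h => h1 ((hST y ha.le le_rfl).2 h), s, s1, (hST s has s1.le).1 s2,
      fun m m1 m2 m3 => s3 m m1 m2 ((hST m (by omega) m2.le).2 m3), s4⟩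
  exact ⟨key hSa hTa hST, key hTa hSa fun z z1 z2 => (hST z z1 z2).symm⟩

end Tp

end VisMap
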