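import Pool.Agent.Lib.MP_9f3af0_lcB.TZCount

/-!
# MP_9f3af0_lc: laps (helper37, after helper44 and helper12)

A gap of `v` from the sight `s` to the next sight `t` contains `⌈(t - s) / k⌉ - 1` laps: the vertices
`s + k`, `s + 2 k`, ... in `(s, t)`.  `laps k B r v` is the number of the laps of all gaps of `v`.
-/

namespace VisMap

namespace Tp

/-- `(s, t)` is a forward gap of `v`: `s` and `t` are consecutive sights of `v`, `v < s < t`. -/
def Gp (r : ℤ → ℤ → Prop) (v s t : ℤ) : Prop :=
  v < s ∧ s < t ∧ r v s ∧ r v t ∧ ∀ m, s < m → m < t → ¬ r v m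

/-- `y` is a lap of the row `v`: it is hidden and congruent to the last sight of `v` before `y`. -/
def LapAt (k : ℤ) (r : ℤ → ℤ → Prop) (v y : ℤ) : Prop :=
  ¬ r v y ∧ ∃ s, v < s ∧ s < y ∧ r v s ∧ (∀ m, s < m → m < y → ¬ r v m) ∧ k ∣ y - s

open Classical in
/-- The number of the laps of the forward gaps of `v`. -/
noncomputable def lf (k B : ℤ) (r : ℤ → ℤ → Prop) (v : ℤ) : ℕ :=
  ((Finset.Ioc v (v + B)).filter fun y => LapAt k r v y).card

/-- The number of the laps of the backward gaps of `v`. -/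
noncomputable def lb (k B : ℤ) (r : ℤ → ℤ → Prop) (v : ℤ) : ℕ := lf k B (mirror r) (-v)

/-- The number of the laps of all gaps of `v`. -/
noncomputable def laps (k B : ℤ) (r : ℤ → ℤ → Prop) (v : ℤ) : ℕ := lf k B r v + lb k B r v

end Tp

end VisMap
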