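import Pool.Agent.Lib.MP_9f3af0_lc.Jump
import Pool.Agent.Lib.MP_9f3af0_lc.Count

/-!
# MP_9f3af0_lc: LEMMA B' (helper37, after helper55, helper33 and helper74)

`Hd r a c b`: the rectangle `[a, c) × (c, b]` is hidden.  `PB n r D P`: every hidden rectangle whose
far end is in `D` has its other side at most `P`.  `lemB`: if the rectangle `[v, p) × (p, z]` is
hidden, `v` sees `p` and `z - p ≥ P`, then `p` sees every element of `D` seen by `v`, and every
element of `D` between `v` and `p`.
-/

namespace VisMap

namespace LemB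

/-- The rectangle `[a, c) × (c, b]` is hidden. -/
def Hd (r : ℤ → ℤ → Prop) (a c b : ℤ) : Prop :=
  ∀ x y, a ≤ x → x < c → c < y → y ≤ b → ¬ r x y

/-- Every hidden rectangle whose far end is in `D` has its other side at most `P`. -/
structure PB (n : ℕ) (r : ℤ → ℤ → Prop) (D : ℤ → Prop) (P : ℤ) : Prop where
  per : ∀ y, D (y + n) ↔ D y
  fw : ∀ x c y, D y → x < c → c < y → y < x + n → Hd r x c y → c - x ≤ P
  bw : ∀ y c x, D y → y < c → c < x → x < y + n → Hd r y c x → x - c ≤ P

variable {n : ℕ} {r : ℤ → ℤ → Prop} {D : ℤ → Prop} {P v p z : ℤ}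

theorem Hd.mono {a c b a' b' : ℤ} (h : Hd r a c b) (h1 : a ≤ a') (h2 : b' ≤ b) : Hd r a' c b' :=
  fun x y x1 x2 y1 y2 => h x y (by omega) x2 y1 (by omega)

/-- The hidden rectangle of a viewer ends before the last neighbour. -/
theorem far_lt (h : ZRel n r) (hn : 3 ≤ n) (hvp : v < p) (hpn : p < v + n) (hpz : p < z)
    (hH : Hd r v p z) : p < v + n - 1 ∧ z < v + n - 1 := by
  have h1 := Cut.last h v
  have h2 : p < v + n - 1 := by
    by_contra hne
    have hp : p = v + n - 1 := by omega
    have h3 := (ZR.of_zRel h).perR (v + 1) v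
    have h4 := h3.2 (h.symm _ _ (h.succ v))
    exact hH (v + 1) (v + n) (by omega) (by omega) (by omega) (by omega) h4
  refine ⟨h2, ?_⟩
  by_contra hne
  exact hH v (v + n - 1) le_rfl hvp h2 (by omega) h1

/-- LEMMA B', the vertices between `v` and `p`. -/
theorem lemB_in (h : ZRel n r) (hn : 3 ≤ n) (hD : PB n r D P) (hvp : v < p) (hpn : p < v + n)
    (hr : r v p) (hpz : p < z) (hH : Hd r v p z) (hP : P ≤ z - p) {y : ℤ} (hy : D y)
    (h1 : v < y) (h2 : y < p) : r y p := by
  by_contra hno
  obtain ⟨hf1, hf2⟩ := far_lt h hn hvp hpn hpz hH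
  have hz := ZR.of_zRel h
  have hy1 : y + 1 ≠ p := by
    rintro e
    exact hno (e ▸ h.succ y)
  obtain ⟨s, s1, s2, s3, s4⟩ := exists_last (p := fun z => r y z) (a := y + 1) (b := p - 1)
    (by omega) (h.succ y)
  obtain ⟨t, t1, t2, t3, t4⟩ := exists_first (p := fun z => r y z) (a := p + 1)
    (b := y + n - 1) (by omega) (Cut.last h y)
  have hgap : ∀ m, s < m → m < t → ¬ r y m := by
    intro m m1 m2
    rcases lt_trichotomy m p with hm | hm | hm
    · exact s4 m m1 (by omega)
    · rw [hm]; exact hno
    · exact t4 m (by omega) m2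
  have hzt : z < t := by
    by_contra hne
    exact hH y t (by omega) h2 (by omega) (by omega) t3
  obtain ⟨c, c1, c2, c3, c4⟩ := h.nc y s t (by omega) (by omega) (by omega) s3 t3 hgap
  rcases le_or_gt p c with hc | hc
  · have hR : Hd r y s z := by
      intro x w x1 x2 w1 w2
      rcases le_or_gt w p with hw | hw
      · exact c3 x w x1 x2 w1 (by omega)
      · exact hH x w (by omega) (by omega) hw w2
    have := hD.bw y s z hy (by omega) (by omega) (by omega) hR
    omega
  · rcases lt_or_ge t (v + n) with ht | ht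
    · have h5 : r (v + n) p := (h.per v p).2 hr
      exact c4 (v + n) p ht (by omega) hc (by omega) h5
    · have hR : Hd r p t (y + n) := by
        intro x w x1 x2 w1 w2 hxw
        exact c4 w x w1 w2 (by omega) x2 (h.symm _ _ hxw)
      have := hD.fw p t (y + n) ((hD.per y).2 hy) (by omega) (by omega) (by omega) hR
      omega

/-- LEMMA B', the vertices beyond `p`, normalised. -/
theorem lemB_out (h : ZRel n r) (hn : 3 ≤ n) (hD : PB n r D P) (hvp : v < p) (hpn : p < v + n)
    (hr : r v p) (hpz : p < z) (hH : Hd r v p z) (hP : P ≤ z - p) {y : ℤ} (hy : D y)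
    (h1 : p < y) (h2 : y < v + n) (hvy : r v y) : r p y := by
  by_contra hno
  obtain ⟨hf1, hf2⟩ := far_lt h hn hvp hpn hpz hH
  have hz := ZR.of_zRel h
  obtain ⟨q, q1, q2, q3, q4⟩ := exists_first (p := fun z => r v z) (a := p + 1) (b := y)
    (by omega) hvy
  have hpq : r p q := by
    refine h.cn v p q hvp (by omega) (by omega) hr q3 fun m m1 m2 => q4 m (by omega) m2
  have hzq : z < q := by
    by_contra hne
    exact hH v q le_rfl hvp (by omega) (by omega) q3
  have hqy : q ≠ y := by
    rintro e
    exact hno (e ▸ hpq)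
  have hpv : r p (v + n) := (hz.perR p v).2 (h.symm _ _ hr)
  obtain ⟨s, s1, s2, s3, s4⟩ := exists_last (p := fun z => r p z) (a := q) (b := y - 1)
    (by omega) hpq
  obtain ⟨t, t1, t2, t3, t4⟩ := exists_first (p := fun z => r p z) (a := y + 1)
    (b := v + n) (by omega) hpv
  have hgap : ∀ m, s < m → m < t → ¬ r p m := by
    intro m m1 m2
    rcases lt_trichotomy m y with hm | hm | hm
    · exact s4 m m1 (by omega)
    · rw [hm]; exact hno
    · exact t4 m (by omega) m2
  obtain ⟨c, c1, c2, c3, c4⟩ := h.nc p s t (by omega) (by omega) (by omega) s3 t3 hgap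
  rcases le_or_gt y c with hc | hc
  · have hR : Hd r p s y := fun x w x1 x2 w1 w2 => c3 x w x1 x2 w1 (by omega)
    have := hD.fw p s y hy (by omega) (by omega) (by omega) hR
    omega
  · have ht : t = v + n := by
      by_contra hne
      have h5 : r (v + n) y := (h.per v y).2 hvy
      exact c4 (v + n) y (by omega) (by omega) hc (by omega) h5
    subst ht
    have hR : Hd r (y - n) v p := by
      intro x w x1 x2 w1 w2 hxw
      refine c4 (w + n) (x + n) (by omega) (by omega) (by omega) (by omega) ?_
      rw [h.per, hz.perR]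
      exact h.symm _ _ hxw
    have hR2 : Hd r (y - n) v z := by
      by_contra hne
      have hex : ∃ x w, y - n ≤ x ∧ x < v ∧ v < w ∧ w ≤ z ∧ r x w := by
        unfold Hd at hne
        push Not at hne
        exact hne
      obtain ⟨x0, w0, a1, a2, a3, a4, a5⟩ := hex
      obtain ⟨x, ⟨b1, w, b2, b3, b4⟩, b5⟩ := Dism.exists_last
        (P := fun x => x < v ∧ ∃ w, v < w ∧ w ≤ z ∧ r x w) (b := v) (fun z hz => hz.1.le) (a := x0)
        ⟨a2, w0, a3, a4, a5⟩
      have b6 := b5 x0 ⟨a2, w0, a3, a4, a5⟩
      have hpw : p < w := by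
        by_contra hne
        exact hR x w (by omega) b1 b2 (by omega) b4
      obtain ⟨w', w1, w2, w3, w4⟩ := exists_first (p := fun z => r x z) (a := v + 1) (b := w)
        (by omega) b4
      have hpw' : p < w' := by
        by_contra hne
        exact hR x w' (by omega) b1 (by omega) (by omega) w3
      obtain ⟨u, u1, u2, u3, u4⟩ := exists_last (p := fun z => r x z) (a := x + 1) (b := v)
        (by omega) (h.succ x)
      have huw : r u w' := by
        refine h.cn x u w' (by omega) (by omega) (by omega) u3 w3 fun m m1 m2 => ?_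
        rcases le_or_gt m v with hm | hm
        · exact u4 m m1 hm
        · exact w4 m (by omega) m2
      rcases u2.lt_or_eq with hu | hu
      · have := b5 u ⟨hu, w', by omega, by omega, huw⟩
        omega
      · rw [hu] at huw
        exact hH v w' le_rfl hvp hpw' (by omega) huw
    have hDy : D (y - n) := by
      rw [← hD.per, sub_add_cancel]; exact hy
    have := hD.bw (y - n) v z hDy (by omega) (by omega) (by omega) hR2
    omega

/-- LEMMA B': if the rectangle `[v, p) × (p, z]` is hidden, `v` sees `p` and `z - p ≥ P`, then `p`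
sees every element of `D` seen by `v` (except itself). -/
theorem lemB (h : ZRel n r) (hn : 3 ≤ n) (hD : PB n r D P) (hvp : v < p) (hpn : p < v + n)
    (hr : r v p) (hpz : p < z) (hH : Hd r v p z) (hP : P ≤ z - p) {y : ℤ} (hy : D y)
    (hyp : y ≠ p) (h1 : v < y) (h2 : y < v + n) (hvy : r v y) : r p y := by
  rcases lt_or_gt_of_ne hyp with hlt | hgt
  · exact h.symm _ _ (lemB_in h hn hD hvp hpn hr hpz hH hP hy h1 hlt)
  · exact lemB_out h hn hD hvp hpn hr hpz hH hP hy hgt h2 hvy

/-- LEMMA Q: the corner of a hidden rectangle of extremal side with far end `v` is seen by `v`. -/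
theorem lemQ (h : ZRel n r) (hn : 3 ≤ n) (hD : PB n r D P) (hv : D v) (hvp : v < p)
    (hpn : p < v + n) (hpz : p < z) (hH : Hd r v p z) (hP : P ≤ z - p) : r v p := by
  by_contra hno
  obtain ⟨hf1, hf2⟩ := far_lt h hn hvp hpn hpz hH
  have hy1 : v + 1 ≠ p := by
    rintro e
    exact hno (e ▸ h.succ v)
  obtain ⟨s, s1, s2, s3, s4⟩ := exists_last (p := fun z => r v z) (a := v + 1) (b := p - 1)
    (by omega) (h.succ v)
  obtain ⟨t, t1, t2, t3, t4⟩ := exists_first (p := fun z => r v z) (a := p + 1)
    (b := v + n - 1) (by omega) (Cut.last h v)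
  have hgap : ∀ m, s < m → m < t → ¬ r v m := by
    intro m m1 m2
    rcases lt_trichotomy m p with hm | hm | hm
    · exact s4 m m1 (by omega)
    · rw [hm]; exact hno
    · exact t4 m (by omega) m2
  have hzt : z < t := by
    by_contra hne
    exact hH v t le_rfl hvp (by omega) (by omega) t3
  obtain ⟨c, c1, c2, c3, c4⟩ := h.nc v s t (by omega) (by omega) (by omega) s3 t3 hgap
  rcases le_or_gt p c with hc | hc
  · have hR : Hd r v s z := by
      intro x w x1 x2 w1 w2
      rcases le_or_gt w p with hw | hw
      · exact c3 x w x1 x2 w1 (by omega)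
      · exact hH x w (by omega) (by omega) hw w2
    have := hD.bw v s z hv (by omega) (by omega) (by omega) hR
    omega
  · have hR : Hd r p t (v + n) := by
      intro x w x1 x2 w1 w2 hxw
      exact c4 w x w1 w2 (by omega) x2 (h.symm _ _ hxw)
    have := hD.fw p t (v + n) ((hD.per v).2 hv) (by omega) (by omega) (by omega) hR
    omega

/-- The class of `e`. -/
def Cl (k e : ℤ) (z : ℤ) : Prop := k ∣ z - e

/-- LEMMA B', all vertices of the circle. -/
theorem lemB_nb (h : ZRel n r) (hn : 3 ≤ n) (hD : PB n r D P) (hvp : v < p) (hpn : p < v + n)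
    (hr : r v p) (hpz : p < z) (hH : Hd r v p z) (hP : P ≤ z - p) {y : ℤ} (hy : D y)
    (hvy : Cut.Nb n r v y) : Cut.Nb n r p y := by
  have hz := ZR.of_zRel h
  rcases hvy with hvy | hvy
  · right
    obtain ⟨j, hj⟩ := hvy
    have e : y = v + j * n := by linarith [mul_comm (n : ℤ) j]
    rw [e]
    exact (per_mul (p := fun z => r p z) (fun z => hz.perR p z) v j).2 (h.symm _ _ hr)
  · by_cases hyp : (n : ℤ) ∣ y - p
    · exact Or.inl hyp
    · right
      have hn0 : (0 : ℤ) < n := by omega
      have e1 := Int.emod_add_mul_ediv (y - v) n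
      have h0 := Int.emod_nonneg (y - v) hn0.ne'
      have h1 := Int.emod_lt_of_pos (y - v) hn0
      set y' := v + (y - v) % n with hy'
      set j := (y - v) / n with hj
      have e2 : y = y' + j * n := by rw [hy']; linarith [mul_comm (n : ℤ) j]
      have hr' : r v y' := by
        have := (per_mul (p := fun z => r v z) (fun z => hz.perR v z) y' j)
        rw [e2] at hvy
        exact this.1 hvy
      have hD' : D y' := by
        have := (per_mul (p := fun z => D z) (fun z => hD.per z) y' j)
        rw [e2] at hy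
        exact this.1 hy
      have hne : y' ≠ v := by
        intro he
        rw [he] at hr'
        exact h.irrefl v hr'
      have hnp : y' ≠ p := by
        intro he
        apply hyp
        exact ⟨j, by rw [e2, he]; ring⟩
      have h2 := lemB h hn hD hvp hpn hr hpz hH hP hD' hnp (by omega) (by omega) hr'
      rw [e2]
      exact (per_mul (p := fun z => r p z) (fun z => hz.perR p z) y' j).2 h2

/-- LEMMA B, the numbers of the hidden vertices of a class: the corner hides at most as many. -/
theorem lemB_Hc (h : ZRel n r) (hn : 3 ≤ n) {k e : ℤ} (hD : PB n r (Cl k e) P) (hvp : v < p)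
    (hpn : p < v + n) (hr : r v p) (hpz : p < z) (hH : Hd r v p z) (hP : P ≤ z - p) :
    Cut.Hc n k r p e ≤ Cut.Hc n k r v e :=
  Cut.Hc_le (V := Cl k e) (fun _ hy hvy => lemB_nb h hn hD hvp hpn hr hpz hH hP hy hvy)
    fun _ hz => hz

/-- LEMMA B, the case of equality: the viewer and the corner see the same vertices of the class. -/
theorem lemB_twins (h : ZRel n r) (hn : 3 ≤ n) {k e : ℤ} (hk : k ∣ n) (hD : PB n r (Cl k e) P)
    (hvp : v < p) (hpn : p < v + n) (hr : r v p) (hpz : p < z) (hH : Hd r v p z) (hP : P ≤ z - p)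
    (heq : Cut.Hc n k r v e ≤ Cut.Hc n k r p e) {y : ℤ} (hy : k ∣ y - e) :
    Cut.Nb n r v y ↔ Cut.Nb n r p y :=
  Cut.twins_of h (by omega) hk (V := Cl k e)
    (fun _ hy hvy => lemB_nb h hn hD hvp hpn hr hpz hH hP hy hvy) (fun _ hz => hz) heq hy

/-- The side bound of the mirror relation. -/
theorem PB.mirror (hs : ∀ a b, r a b → r b a) (hD : PB n r D P) :
    PB n (VisMap.mirror r) (fun z => D (-z)) P where
  per y := by
    have e : -(y + (n : ℤ)) = -y - n := by ring
    rw [e, ← hD.per (-y - n), sub_add_cancel]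
  fw x c y hy h1 h2 h3 hH := by
    have := hD.bw (-y) (-c) (-x) hy (by omega) (by omega) (by omega)
      (fun a b a1 a2 b1 b2 hab => hH (-b) (-a) (by omega) (by omega) (by omega) (by omega) (by
        show r (- -b) (- -a)
        rw [neg_neg, neg_neg]
        exact hs _ _ hab))
    omega
  bw y c x hy h1 h2 h3 hH := by
    have := hD.fw (-x) (-c) (-y) hy (by omega) (by omega) (by omega)
      (fun a b a1 a2 b1 b2 hab => hH (-b) (-a) (by omega) (by omega) (by omega) (by omega) (by
        show r (- -b) (- -a)
        rw [neg_neg, neg_neg]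
        exact hs _ _ hab))
    omega

end LemB

end VisMap
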