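import Pool.Agent.Lib.MP_9f3af0_lcB.OG
import Pool.Agent.Lib.MP_9f3af0_lcB.NoFat
import Pool.Agent.Lib.MP_9f3af0_lcB.FatE

/-!
# MP_9f3af0_lc: monotonicity of the forward laps (helper80; Lean by helper59)

If `x` sees `x'` and has no laps before `x'`, then `x` has at most as many forward laps as any vertex
`y` between them (`TZ.mono`); the mirror image is `TZ.mono'`.  `OG.lt`, `OG.lf_v`, `OG.word`: the
number of the laps and the word of the viewer of the overall longest gap.
-/

namespace VisMap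

namespace Tp

variable {n : ℕ} {k B : ℤ} {r : ℤ → ℤ → Prop} {t v : ℤ}

/-- (M1) -/
theorem TZ.mono (h : TZ n k B r) {x y x' : ℤ} (h1 : x < y) (h2 : y < x') (hr : r x x')
    (hl : lcT k (Tf r x) x x' = 0) : lf k B r x ≤ lf k B r y := by
  have hB := h.hB
  have e1 : lf k B r x = lcT k (Tf r x) x' (x' + B + 1) := by
    rw [h.lf_eq (v := x) (M := x' + B + 1) (by omega),
      lcT_split (a := x) (b := x') (c := x' + B + 1) (by omega) (by omega), hl, zero_add]
  have e2 : lf k B r y = lcT k (Tf r y) (y + 1) (x' + B + 1) := by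
    rw [h.lf_eq (v := y) (M := x' + B + 1) (by omega),
      lcT_split (a := y) (b := y + 1) (c := x' + B + 1) (by omega) (by omega),
      lcT_eq_zero (a := y) (b := y + 1) (fun z z1 z2 z3 => by
        have e : z = y + 1 := by omega
        rw [e] at z3
        exact z3.1 ⟨by omega, h.succ y⟩), zero_add]
  rw [e1, e2]
  refine lcT_mono' h.hk (p := y + 1) (a := x') (b := x' + B + 1) (by omega) (by omega)
    ⟨by omega, h.succ y⟩ ⟨by omega, hr⟩ ⟨by omega, h.far _ _ (by omega)⟩ fun z z1 z2 z3 => ?_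
  rcases z1.lt_or_eq with hz | hz
  · exact ⟨by omega, h.X x y x' z h1 h2 hz hr z3.2⟩
  · rw [← hz]; exact ⟨by omega, hr⟩

/-- (M2) -/
theorem TZ.mono' (h : TZ n k B r) {x y x' : ℤ} (h1 : x < y) (h2 : y < x') (hr : r x x')
    (hl : lcT k (Tf (VisMap.mirror r) (-x')) (-x') (-x) = 0) : lb k B r x' ≤ lb k B r y := by
  have := h.mirror.mono (x := -x') (y := -y) (x' := -x) (by omega) (by omega)
    ((mir_iff x' x).2 (h.symm _ _ hr)) hl
  exact this

/-- The longest gap has a lap. -/
theorem OG.lt (h : TZ n k B r) (hk : 2 ≤ k) (hc : NoWide k r) (G : OG r t v) : k < t := by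
  obtain ⟨w, -, hw⟩ := h.wall hk hc 0
  obtain ⟨z, z1, z2, z3, -⟩ := h.next (v := w) (a := w + k + 1) (by omega)
  have := G.gf w (w + 1) z ⟨by omega, by omega, h.succ w, z2, fun m m1 m2 => by
    rcases lt_or_ge (w + k + 1) m with hm | hm
    · exact z3 m hm m2
    · exact hw m m1 (by omega)⟩
  omega

/-- The laps of the viewer up to a sight beyond the gap. -/
theorem OG.lc_v (h : TZ n k B r) (G : OG r t v) {z : ℤ} (hz : v + 1 + t ≤ z) :
    (lcT k (Tf r v) v z : ℤ) = (t - 1) / k := by
  have ht : 0 < t := by have := G.g.2.1; omega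
  have e1 := lcT_split (k := k) (T := Tf r v) (a := v) (b := v + 1) (c := z) (by omega) (by omega)
  have e2 := lcT_split (k := k) (T := Tf r v) (a := v + 1) (b := v + 1 + t) (c := z) (by omega) hz
  have e3 : lcT k (Tf r v) v (v + 1) = 0 := lcT_eq_zero fun y y1 y2 y3 => by
    have e : y = v + 1 := by omega
    rw [e] at y3
    exact y3.1 ⟨by omega, h.succ v⟩
  have e4 : lcT k (Tf r v) (v + 1 + t) z = 0 := lcT_eq_zero fun y y1 y2 y3 =>
    y3.1 ⟨by omega, G.see_v h y1.le⟩
  have e5 := lcT_gap h.hk (T := Tf r v) (a := v + 1) (b := v + 1 + t) (by omega)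
    ⟨by omega, h.succ v⟩ ⟨by omega, G.g.2.2.2.1⟩ fun m m1 m2 m3 => G.g.2.2.2.2 m m1 m2 m3.2
  have e6 : v + 1 + t - 1 - (v + 1) = t - 1 := by ring
  rw [e6] at e5
  omega

theorem OG.lf_v (h : TZ n k B r) (G : OG r t v) : (lf k B r v : ℤ) = (t - 1) / k := by
  have hB := h.hB
  rw [h.lf_eq (v := v) (M := max (v + B) (v + 1 + t)) (le_max_left _ _)]
  exact G.lc_v h (le_max_right _ _)

/-- The word of the viewer: the naturals of the sights of a mate `w` other than `w + 1` are at least
`(t - 1) % k + 2`. -/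
theorem OG.word (h : TZ n k B r) (G : OG r t v) {w z : ℤ} (hw : k ∣ w - v) (hz : w + 1 < z)
    (hr : r w z) : (t - 1) % k + 2 ≤ z - w - k * (lcT k (Tf r w) w z : ℤ) := by
  have ht : 0 < t := by have := G.g.2.1; omega
  obtain ⟨z', z1, z2, z3⟩ := h.transport (v := w) (v' := v) (z := z) (by
    have e : v - w = -(w - v) := by ring
    rw [e]; exact (dvd_neg).2 hw) (by omega) hr
  have h1 := h.nat_lt (v := w) (y := w + 1) (z := z) (by omega) hz (h.succ w) hr
  have h2 := h.nat_pos (v := w) (y := w + 1) (by omega) (h.succ w)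
  have h3 : v + 1 + t ≤ z' := by
    by_contra hc
    have e : z' = v + 1 := by
      rcases lt_trichotomy z' (v + 1) with h4 | h4 | h4
      · omega
      · exact h4
      · exact absurd z2 (G.g.2.2.2.2 z' h4 (by omega))
    rw [e] at z3
    have e3 : lcT k (Tf r v) v (v + 1) = 0 := lcT_eq_zero fun y y1 y2 y3 => by
      have e : y = v + 1 := by omega
      rw [e] at y3
      exact y3.1 ⟨by omega, h.succ v⟩
    rw [e3] at z3
    push_cast at z3
    omega
  have h4 := G.lc_v h h3
  have h5 := Int.emod_add_mul_ediv (t - 1) k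
  rw [h4] at z3
  omega

/-- Every natural `≥ (t - 1) % k + 2` is a sight of every mate of the viewer. -/
theorem OG.word' (h : TZ n k B r) (G : OG r t v) {w m : ℤ} (hw : k ∣ w - v)
    (hm : (t - 1) % k + 2 ≤ m) : ∃ z, w < z ∧ r w z ∧ z - w - k * (lcT k (Tf r w) w z : ℤ) = m := by
  have ht : 0 < t := by have := G.g.2.1; omega
  have h5 := Int.emod_add_mul_ediv (t - 1) k
  have h6 : v + 1 + t ≤ v + m + k * ((t - 1) / k) := by omega
  obtain ⟨z', z1, z2, z3⟩ := h.transport (v := v) (v' := w) (z := v + m + k * ((t - 1) / k)) hw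
    (by omega) (G.see_v h h6)
  rw [G.lc_v h h6] at z3
  exact ⟨z', z1, z2, by rw [z3]; ring⟩

end Tp

end VisMap
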