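import Pool.Agent.Lib.MP_9f3af0_lc.FatEar

/-!
# MP_9f3af0_lc: structures in which every vertex sees the second next vertex of its class (helper37)

`Two k r`: every vertex `x` sees `x + 2k`.  This is inherited by the cut structures, and forbids fat
rectangles; so some class is linked.
-/

namespace VisMap

namespace Cut

open Dism

/-- Every vertex sees the second next vertex of its class. -/
def Two (k : ℤ) (r : ℤ → ℤ → Prop) : Prop := ∀ x, r x (x + 2 * k)

variable {n : ℕ} {r : ℤ → ℤ → Prop}

/-- **The cut**, which inherits `Two`. -/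
theorem cut_two {k d c : ℤ} (h : ZRel n r) (hn : 0 < n) (hk : k ∣ n) (hw : Wd n k r) (h2 : 2 ≤ d)
    (hdk : d < k) (hv : ∀ u, k ∣ u - c → r u (u + d)) (ht : Two k r) :
    ∃ (n' : ℕ) (r' : ℤ → ℤ → Prop), ZRel n' r' ∧ (k - d + 1) ∣ (n' : ℤ) ∧
      (n' : ℤ) * k = n * (k - d + 1) ∧ Wd n' (k - d + 1) r' ∧ Two (k - d + 1) r' ∧
      (Lkd (k - d + 1) r' → Lkd k r) := by
  have hS := sr_kp h hn hk h2 hdk hv
  obtain ⟨q, hq⟩ := hk
  have hq0 : 0 < q := by
    by_contra hlt
    have : k * q ≤ 0 := mul_nonpos_of_nonneg_of_nonpos (by omega) (by omega)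
    omega
  obtain ⟨q, rfl⟩ : ∃ m : ℕ, q = m := ⟨q.toNat, by omega⟩
  have hk'q : 0 ≤ (k - d + 1) * (q : ℤ) := mul_nonneg (by omega) (by omega)
  obtain ⟨n', hn'⟩ : ∃ n' : ℕ, (n' : ℤ) = (k - d + 1) * q :=
    ⟨((k - d + 1) * (q : ℤ)).toNat, by omega⟩
  have hE : Enum n n' (Kp k d c) (ph (k - d + 1) k d c) := enum_ph hq h2 hdk hn'
  refine ⟨n', _, hE.zrel hS ?_, ⟨q, hn'⟩, by rw [hn', hq]; ring,
    hE.wd hw (fun z z' hz => kp_of_dvd hz) (ph_res h2 hdk), fun a => ?_, ?_⟩
  · have : (k - d + 1) * 1 ≤ (k - d + 1) * (q : ℤ) :=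
      mul_le_mul_of_nonneg_left (by omega) (by omega)
    omega
  · have e : ph (k - d + 1) k d c (a + 2 * (k - d + 1)) = ph (k - d + 1) k d c a + 2 * k := by
      have := ph_add (k' := k - d + 1) (k := k) (d := d) (c := c) (by omega) a 2
      rwa [mul_comm (k - d + 1) 2, mul_comm k 2] at this
    show r (ph (k - d + 1) k d c a) (ph (k - d + 1) k d c (a + 2 * (k - d + 1)))
    rw [e]; exact ht _
  · rintro ⟨a, ha⟩
    refine ⟨ph (k - d + 1) k d c a, fun u hu => ?_⟩
    obtain ⟨b, rfl⟩ := hE.surj u ((kp_of_dvd hu).2 (hE.mem a))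
    have h1 := ha b ((ph_res h2 hdk a b).2 hu)
    have e : ph (k - d + 1) k d c (b + (k - d + 1)) = ph (k - d + 1) k d c b + k := by
      have := ph_add (k' := k - d + 1) (k := k) (d := d) (c := c) (by omega) b 1
      rwa [mul_one, mul_one] at this
    rw [← e]; exact h1

/-- If every vertex sees the second next vertex of its class, some class is linked. -/
theorem linked_of_two : ∀ (n : ℕ) (k : ℤ) (r : ℤ → ℤ → Prop), ZRel n r → 0 < k → k ∣ (n : ℤ) →
    k < n → Wd n k r → Two k r → Lkd k r := by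
  have main : ∀ N : ℕ, ∀ (n : ℕ) (k : ℤ) (r : ℤ → ℤ → Prop), k.toNat ≤ N → ZRel n r → 0 < k →
      k ∣ (n : ℤ) → k < n → Wd n k r → Two k r → Lkd k r := by
    intro N
    induction N with
    | zero => intro n k r h1 _ h2; omega
    | succ N ih =>
      intro n k r hN h hk hkn hlt hw ht
      by_cases hk1 : k = 1
      · subst hk1
        exact ⟨0, fun u _ => h.succ u⟩
      obtain ⟨q, hq⟩ := id hkn
      have hq2 : 2 ≤ q := by
        by_contra hcon
        have : k * q ≤ k * 1 := mul_le_mul_of_nonneg_left (by omega) hk.le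
        omega
      have hn4 : 4 ≤ (n : ℤ) := by
        have : k * 2 ≤ k * q := mul_le_mul_of_nonneg_left hq2 hk.le
        omega
      by_cases hn3 : (n : ℤ) ≤ 3 * k
      · exact linked_three h hk hkn hlt (by omega) hn3 hw
      have hq4 : 4 ≤ q := by
        by_contra hcon
        have : k * q ≤ k * 3 := mul_le_mul_of_nonneg_left (by omega) hk.le
        omega
      have h4k : 4 * k ≤ n := by
        have : k * 4 ≤ k * q := mul_le_mul_of_nonneg_left hq4 hk.le
        omega
      by_contra hno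
      refine false_of_noFat h (by omega) hkn h4k hw (fun c d d1 d2 hv => ?_) fun s hs =>
        hs (s - k) (s + k) le_rfl (by omega) (by omega) le_rfl (by
          have e : s + k = (s - k) + 2 * k := by ring
          rw [e]; exact ht _)
      rcases eq_or_lt_of_le d2 with hd | hd
      · subst hd
        exact hno ⟨c, hv⟩
      · obtain ⟨n', r', p1, p2, p3, p4, p5, p6⟩ := cut_two h (by omega) hkn hw d1 hd hv ht
        refine hno (p6 (ih n' (k - d + 1) r' (by omega) p1 (by omega) p2 ?_ p4 p5))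
        by_contra hcon
        have h5 : (n' : ℤ) * k ≤ (k - d + 1) * k := mul_le_mul_of_nonneg_right (by omega) hk.le
        have h6 : k * (k - d + 1) < n * (k - d + 1) := mul_lt_mul_of_pos_right hlt (by omega)
        have h7 : (k - d + 1) * k = k * (k - d + 1) := by ring
        omega
  exact fun n k r h => main _ n k r le_rfl h

end Cut

end VisMap
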