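import Pool.Agent.Lib.MP_9f3af0_lcB.FatL
import Pool.Agent.Lib.MP_9f3af0_lcB.TWalls

/-!
# MP_9f3af0_lc: the overall longest gap (helper98; Lean by helper59)

`OG r t v`: no gap of either direction is longer than `t`, and `v` has the gap `(v + 1, v + 1 + t)`.
Then the rows `≤ v + 1` see the columns `≥ v + 1 + t` and `v` is an ear.  If the frame moves to a mate
of `v`, all mates of `v` are ears, which is impossible without class-wide chords.
-/

namespace VisMap

namespace Tp

/-- The frame of the overall longest gap. -/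
structure OG (r : ℤ → ℤ → Prop) (t v : ℤ) : Prop where
  gf : ∀ u x y, Gp r u x y → y - x ≤ t
  gb : ∀ u x y, Gp (VisMap.mirror r) u x y → y - x ≤ t
  g : Gp r v (v + 1) (v + 1 + t)

variable {n : ℕ} {k B : ℤ} {r : ℤ → ℤ → Prop} {t v : ℤ}

private theorem mm (r : ℤ → ℤ → Prop) : VisMap.mirror (VisMap.mirror r) = r := by
  funext a b
  show r (- -a) (- -b) = r a b
  rw [neg_neg, neg_neg]

/-- The row before the near corner of a longest gap has the same gap. -/
theorem TZ.gap_pred (h : TZ n k B r) (hgf : ∀ u x y, Gp r u x y → y - x ≤ t) {u x y : ℤ}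
    (hg : Gp r u x y) (hl : y - x = t) : Gp r (x - 1) x y := by
  obtain ⟨g1, g2, g3, g4, g5⟩ := hg
  have hh : ∀ m, x < m → m < y → ¬ r (x - 1) m := fun m m1 m2 =>
    h.hide (v := u) (x := x - 1) (p := x) (y := m) (by omega) (by omega) m1 g3 (g5 m m1 m2)
  have hs : r (x - 1) x := by
    have := h.succ (x - 1)
    rwa [sub_add_cancel] at this
  obtain ⟨z, z1, z2, z3, -⟩ := h.next (v := x - 1) (a := y - 1) (by omega)
  have hz : Gp r (x - 1) x z := ⟨by omega, by omega, hs, z2, fun m m1 m2 => by
    rcases lt_or_ge (y - 1) m with hm | hm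
    · exact z3 m hm m2
    · exact hh m m1 (by omega)⟩
  have := hgf _ _ _ hz
  have e : z = y := by omega
  rw [← e]; exact hz

/-- Existence of the frame. -/
theorem TZ.exists_OG (h : TZ n k B r) (hk : 2 ≤ k) (hc : NoWide k r) :
    ∃ t v, 2 ≤ t ∧ (OG r t v ∨ OG (VisMap.mirror r) t v) := by
  have hB := h.hB
  obtain ⟨w, -, hw⟩ := h.wall hk hc 0
  obtain ⟨z, z1, z2, z3, -⟩ := h.next (v := w) (a := w + k + 1) (by omega)
  have hg0 : Gp r w (w + 1) z := ⟨by omega, by omega, h.succ w, z2, fun m m1 m2 => by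
    rcases lt_or_ge (w + k + 1) m with hm | hm
    · exact z3 m hm m2
    · exact hw m m1 (by omega)⟩
  have hb : ∀ {r : ℤ → ℤ → Prop}, TZ n k B r → ∀ {u x y : ℤ}, Gp r u x y → y - x ≤ B + 1 := by
    intro r h u x y hg
    obtain ⟨g1, g2, g3, g4, g5⟩ := hg
    by_contra hcon
    exact g5 (y - 1) (by omega) (by omega) (h.far _ _ (by omega))
  obtain ⟨t, ⟨u, x, y, hg, ht⟩, hmax⟩ := Int.exists_greatest_of_bdd
    (P := fun t => ∃ u x y, (Gp r u x y ∨ Gp (VisMap.mirror r) u x y) ∧ y - x = t)
    ⟨B + 1, fun t ⟨u, x, y, hg, ht⟩ => by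
      rcases hg with hg | hg
      · have := hb h hg; omega
      · have := hb h.mirror hg; omega⟩ ⟨z - (w + 1), w, w + 1, z, Or.inl hg0, rfl⟩
  have h2 : 2 ≤ t := by
    have := hmax (z - (w + 1)) ⟨w, w + 1, z, Or.inl hg0, rfl⟩
    omega
  have hgf : ∀ u x y, Gp r u x y → y - x ≤ t := fun u x y hg => hmax _ ⟨u, x, y, Or.inl hg, rfl⟩
  have hgb : ∀ u x y, Gp (VisMap.mirror r) u x y → y - x ≤ t := fun u x y hg =>
    hmax _ ⟨u, x, y, Or.inr hg, rfl⟩
  refine ⟨t, x - 1, h2, ?_⟩
  have e1 : x - 1 + 1 = x := by ring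
  have e2 : x + t = y := by omega
  rcases hg with hg | hg
  · refine Or.inl ⟨hgf, hgb, ?_⟩
    rw [e1, e2]
    exact h.gap_pred hgf hg ht
  · refine Or.inr ⟨hgb, by rw [mm]; exact hgf, ?_⟩
    rw [e1, e2]
    exact h.mirror.gap_pred hgb hg ht

/-- The viewer sees everything beyond the gap. -/
theorem OG.see_v (h : TZ n k B r) (G : OG r t v) {y : ℤ} (hy : v + 1 + t ≤ y) : r v y := by
  have ht : 0 < t := by have := G.g.2.1; omega
  by_contra hno
  obtain ⟨p, p1, p2, p3, p4⟩ := h.last (v := v) (a := y) (by omega)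
  have hpy : p < y := by
    rcases p2.lt_or_eq with h1 | h1
    · exact h1
    · rw [h1] at p3; exact absurd p3 hno
  have hp : v + 1 + t ≤ p := by
    by_contra hc
    exact p4 (v + 1 + t) (by omega) hy G.g.2.2.2.1
  have hh : ∀ m, v ≤ m → m < p → ¬ r y m := fun m m1 m2 m3 =>
    h.hide m1 m2 hpy p3 hno (h.symm _ _ m3)
  obtain ⟨q, q1, q2, q3, -⟩ := h.next' (v := y) (a := v) (by omega)
  obtain ⟨s, s1, s2, s3, s4⟩ := h.last' (v := y) (a := v) (by omega)
  have hs : p ≤ s := by
    by_contra hc
    exact hh s s1 (by omega) s3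
  have := G.gb _ _ _ (gp_mirror (by omega : q < s) s2 s3 q2 fun m m1 m2 => by
    rcases lt_or_ge m v with hm | hm
    · exact q3 m m1 hm
    · exact s4 m hm m2)
  omega

/-- The rows `≤ v + 1` see the columns `≥ v + 1 + t`. -/
theorem OG.see (h : TZ n k B r) (G : OG r t v) {u y : ℤ} (hu : u ≤ v + 1) (hy : v + 1 + t ≤ y) :
    r u y := by
  have ht : 0 < t := by have := G.g.2.1; omega
  have hv := G.see_v h hy
  rcases lt_trichotomy u v with h1 | h1 | h1
  · by_contra hno
    obtain ⟨p, p1, p2, p3, p4⟩ := h.last (v := u) (a := y) (by omega)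
    have hpy : p < y := by
      rcases p2.lt_or_eq with h2 | h2
      · exact h2
      · rw [h2] at p3; exact absurd p3 hno
    have hpv : p ≤ v := by
      by_contra hc
      exact hno (h.X u v p y h1 (by omega) hpy p3 hv)
    obtain ⟨z, z1, z2, z3, -⟩ := h.next (v := u) (a := y) (by omega)
    have := G.gf u p z ⟨p1, by omega, p3, z2, fun m m1 m2 => by
      rcases lt_or_ge y m with hm | hm
      · exact z3 m hm m2
      · exact p4 m m1 hm⟩
    omega
  · rw [h1]; exact hv
  · have e : u = v + 1 := by omega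
    subst e
    by_contra hno
    obtain ⟨s, s1, s2, s3, s4⟩ := h.last' (v := y) (a := v + 1) (by omega)
    have hs : v + 1 < s := by
      rcases s1.lt_or_eq with h2 | h2
      · exact h2
      · rw [← h2] at s3; exact absurd (h.symm _ _ s3) hno
    have hcn := h.cn' y s v (by omega) s2 s3 (h.symm _ _ hv) fun m m1 m2 => s4 m (by omega) m2
    have hs2 : v + 1 + t ≤ s := by
      by_contra hc
      exact G.g.2.2.2.2 s hs (by omega) (h.symm _ _ hcn)
    have := G.gb _ _ _ (gp_mirror (by omega : v < s) s2 s3 (h.symm _ _ hv) fun m m1 m2 =>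
      s4 m (by omega) m2)
    omega

/-- The viewer is an ear. -/
theorem OG.ear (h : TZ n k B r) (G : OG r t v) : r (v - 1) (v + 1) := by
  by_contra hno
  have hs : r (v - 1) v := by
    have := h.succ (v - 1)
    rwa [sub_add_cancel] at this
  obtain ⟨z, z1, z2, z3, -⟩ := h.next (v := v - 1) (a := v + 1) (by omega)
  have hg : Gp r (v - 1) v z := ⟨by omega, by omega, hs, z2, fun m m1 m2 => by
    rcases lt_or_ge (v + 1) m with hm | hm
    · exact z3 m hm m2
    · have e : m = v + 1 := by omega
      rw [e]; exact hno⟩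
  have hcn := h.cn (v - 1) v z (by omega) (by omega) hs z2 hg.2.2.2.2
  have := G.gf _ _ _ hg
  exact G.g.2.2.2.2 z z1 (by omega) hcn

/-- If the frame moves to a mate, there is a contradiction. -/
theorem false_of_move (h : TZ n k B r) (hk : 2 ≤ k) (hc : NoWide k r) {e : ℤ} (he : e = k ∨ e = -k)
    (H : ∀ v, OG r t v → OG r t (v + e)) (G : OG r t v) : False := by
  have hn := h.npos
  have h1 : ∀ j : ℕ, OG r t (v + j * e) := by
    intro j
    induction j with
    | zero => simpa using G
    | succ j ih =>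
      have := H _ ih
      have e1 : v + (j : ℤ) * e + e = v + ((j + 1 : ℕ) : ℤ) * e := by push_cast; ring
      rw [e1] at this; exact this
  have h2 : ∀ u, k ∣ u - (v - 1) → r u (u + 2) := by
    intro u hu
    obtain ⟨c, hc'⟩ := hu
    obtain ⟨q, hq⟩ := h.kn
    have hqp : 0 < q := by
      by_contra hlt
      have : k * q ≤ 0 := mul_nonpos_of_nonneg_of_nonpos (by omega) (by omega)
      omega
    have key : ∀ j : ℕ, ∀ i : ℤ, u + 1 + i * n = v + j * e → r u (u + 2) := by
      intro j i hi
      have h3 := (h1 j).ear h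
      rw [← hi] at h3
      have h4 := (h.shiftj u (u + 2) i).1 (by
        have e1 : u + 1 + i * n - 1 = u + i * n := by ring
        have e2 : u + 1 + i * n + 1 = u + 2 + i * n := by ring
        rwa [e1, e2] at h3)
      exact h4
    rcases he with he | he
    · -- `e = k`
      refine key (c + |c| * q).toNat |c| ?_
      have h5 : 0 ≤ c + |c| * q := by
        have := mul_le_mul_of_nonneg_left (show (1 : ℤ) ≤ q from hqp) (abs_nonneg c)
        have := neg_abs_le c
        omega
      rw [Int.toNat_of_nonneg h5, he, hq]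
      have e3 : u = v - 1 + k * c := by omega
      rw [e3]; ring
    · refine key (-c + |c| * q).toNat (-|c|) ?_
      have h5 : 0 ≤ -c + |c| * q := by
        have := mul_le_mul_of_nonneg_left (show (1 : ℤ) ≤ q from hqp) (abs_nonneg c)
        have := le_abs_self c
        omega
      rw [Int.toNat_of_nonneg h5, he, hq]
      have e3 : u = v - 1 + k * c := by omega
      rw [e3]; ring
  exact hc (v - 1) 2 le_rfl hk h2

/-- **Reduction to one step.**  If in every `T'`-structure without class-wide chords the mate `v + e`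
(`e = k` or `e = -k`) of the viewer `v` of the overall longest gap has the shifted gap, there is no such
structure. -/
theorem false_of_step {s : ℤ} (hs : s = 1 ∨ s = -1)
    (H : ∀ (n : ℕ) (k B : ℤ) (r : ℤ → ℤ → Prop) (t v : ℤ), TZ n k B r → 2 ≤ k → NoWide k r →
      2 ≤ t → OG r t v → Gp r (v + s * k) (v + s * k + 1) (v + s * k + 1 + t))
    (h : TZ n k B r) (hk : 2 ≤ k) (hc : NoWide k r) : False := by
  have he : s * k = k ∨ s * k = -k := by
    rcases hs with rfl | rfl
    · left; ring
    · right; ring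
  obtain ⟨t, v, ht, hG | hG⟩ := h.exists_OG hk hc
  · exact false_of_move h hk hc he (fun w G => ⟨G.gf, G.gb, H n k B r t w h hk hc ht G⟩) hG
  · exact false_of_move h.mirror hk (hc.mirror h.symm) he (fun w G => ⟨G.gf, G.gb,
      H n k B _ t w h.mirror hk (hc.mirror h.symm) ht G⟩) hG

end Tp

end VisMap
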