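import Pool.Agent.Lib.MP_9f3af0_lc.FMax

/-!
# MP_9f3af0_lc: structures in which every vertex sees one of the next two vertices of its class
(helper37)

`OT k r`: every vertex `x` sees `x + k` or `x + 2k`.  Then there are no fat rectangles: `OT.fatA`: if
`s` is the centre of a fat rectangle and does not see `s + k`, then `s - k` is also the centre of one;
`OT.fatB`: if `s` is the centre of a fat rectangle, then it does not see `s + k`.
-/

namespace VisMap

namespace Cut

/-- Every vertex sees one of the next two vertices of its class. -/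
def OT (k : ℤ) (r : ℤ → ℤ → Prop) : Prop := ∀ x, r x (x + k) ∨ r x (x + 2 * k)

variable {n : ℕ} {k : ℤ} {r : ℤ → ℤ → Prop}

theorem OT.sh (h : OT k r) (c : ℤ) : OT k (FMax.sh r c) := by
  intro x
  rcases h (x + c) with h1 | h1
  · left
    show r (x + c) (x + k + c)
    have e : x + k + c = x + c + k := by ring
    rwa [e]
  · right
    show r (x + c) (x + 2 * k + c)
    have e : x + 2 * k + c = x + c + 2 * k := by ring
    rwa [e]

/-- `ψ o` is the vertex seen by `k` that corresponds to the vertex `o` seen by `0`. -/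
theorem exists_psi (hw : Wd n k r) : ∃ ψ : ℤ → ℤ,
    (∀ o : ℤ, 0 < o → o < n → r 0 o → k < ψ o ∧ ψ o < k + n ∧ r k (ψ o)) ∧
    (∀ o : ℤ, 0 < o → o < n → r 0 o → k ∣ ψ o - o) ∧
    (∀ a b : ℤ, 0 < a → a < b → b < n → r 0 a → r 0 b → ψ a < ψ b) ∧
    (∀ p : ℤ, k < p → p < k + n → r k p → ∃ o : ℤ, 0 < o ∧ o < n ∧ r 0 o ∧ ψ o = p) := by
  obtain ⟨φ, h1, h2, h3, h4⟩ := hw 0 k (by simp)
  have fw : ∀ o : ℤ, 0 < o → o < n → r 0 o → Fw n r 0 o := fun o o1 o2 o3 =>
    ⟨o1, o2, by rwa [zero_add]⟩
  refine ⟨fun o => k + φ o, fun o o1 o2 o3 => ?_, fun o o1 o2 o3 => ?_,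
    fun a b a1 ab b2 ha hb => ?_, fun p p1 p2 p3 => ?_⟩
  · obtain ⟨q1, q2, q3⟩ := h1 o (fw o o1 o2 o3)
    exact ⟨by show k < k + φ o; omega, by show k + φ o < k + n; omega, q3⟩
  · have := h2 o (fw o o1 o2 o3)
    show k ∣ k + φ o - o
    have e : k + φ o - o = k + (φ o - o) := by ring
    rw [e]
    exact dvd_add (dvd_refl _) this
  · have := h3 a b (fw a a1 (by omega) ha) (fw b (by omega) b2 hb) ab
    show k + φ a < k + φ b
    omega
  · obtain ⟨o, ⟨o1, o2, o3⟩, o4⟩ := h4 (p - k) ⟨by omega, by omega, by rwa [add_sub_cancel]⟩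
    rw [zero_add] at o3
    exact ⟨o, o1, o2, o3, by show k + φ o = p; omega⟩

theorem step {a b : ℤ} (h : k ∣ b - a) (hab : a < b) : a + k ≤ b := by
  have := Int.le_of_dvd (by omega) h
  omega

theorem shift {a b : ℤ} (h : k ∣ b - a) : k ∣ b - (a + k) := by
  have e : b - (a + k) = b - a - k := by ring
  rw [e]; exact dvd_sub h (dvd_refl _)

theorem neg_dvd' {a b : ℤ} (h : k ∣ b - a) : k ∣ a - b := by
  have := (dvd_neg).2 h
  rwa [neg_sub] at this

/-- Case A. -/
theorem OT.fatA (ho : OT k r) (h : ZRel n r) (hk : 2 ≤ k) (hd : k ∣ n) (h4 : 4 * k ≤ n)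
    (hw : Wd n k r) (hf : Fat k r 0) (h0 : ¬ r 0 k) : Fat k r (-k) := by
  have hz := ZR.of_zRel h
  obtain ⟨ψ, g1, g2, g3, g4⟩ := exists_psi hw
  -- the mates near `0`
  have hmk : r (-k) 0 := by
    rcases ho (-k) with h1 | h1
    · rwa [neg_add_cancel] at h1
    · exact (hf (-k) (-k + 2 * k) (by omega) (by omega) (by omega) (by omega) h1).elim
  have hnk : r 0 (n - k) := by
    have e : (n : ℤ) - k = -k + n := by ring
    rw [e, hz.perR]
    exact h.symm _ _ hmk
  have h2k : r 0 (2 * k) := by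
    rcases ho 0 with h1 | h1
    · rw [zero_add] at h1; exact (h0 h1).elim
    · rwa [zero_add] at h1
  -- the last mate seen by `k`
  obtain ⟨p1, p2, p3⟩ := g1 (n - k) (by omega) (by omega) hnk
  have p4 := g2 (n - k) (by omega) (by omega) hnk
  have p5 : k ∣ n - ψ (n - k) := by
    have := neg_dvd' p4
    have e : (n : ℤ) - ψ (n - k) = (n - k - ψ (n - k)) + k := by ring
    rw [e]; exact dvd_add this (dvd_refl _)
  have p6 : ψ (n - k) ≠ n := by
    intro he
    rw [he] at p3
    have e : (n : ℤ) = 0 + n := by ring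
    rw [e, hz.perR] at p3
    exact h0 (h.symm _ _ p3)
  have p7 : ψ (n - k) ≠ n - k := by
    intro he
    rw [he] at p3
    have e : (n : ℤ) - k = -k + n := by ring
    rw [e, hz.perR] at p3
    exact hf (-k) k (by omega) (by omega) (by omega) (by omega) (h.symm _ _ p3)
  have p8 : ψ (n - k) < n := by
    by_contra hc
    have := step (k := k) (a := (n : ℤ)) (b := ψ (n - k)) (neg_dvd' p5) (by omega)
    omega
  have p9 := step p5 p8
  -- the crossing
  obtain ⟨z, z1, z2, ⟨z3, z4⟩, z5⟩ := exists_first (p := fun o : ℤ => r 0 o ∧ ψ o < o) (a := 1)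
    (b := (n : ℤ) - k) (by omega) ⟨hnk, by omega⟩
  obtain ⟨z6, z7, z8⟩ := g1 z (by omega) (by omega) z3
  have z9 := step (neg_dvd' (g2 z (by omega) (by omega) z3)) z4
  have hr1 : r 0 1 := by
    have := h.succ 0
    rwa [zero_add] at this
  obtain ⟨y, y1, y2, y3, y4⟩ := exists_last (p := fun o : ℤ => r 0 o) (a := 1) (b := z - 1)
    (by omega) hr1
  have y5 : y ≤ ψ y := by
    by_contra hc
    exact z5 y y1 (by omega) ⟨y3, by omega⟩
  have y6 := g3 y z (by omega) (by omega) (by omega) y3 z3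
  have y7 : k < y := by
    by_contra hc
    have : y ≠ k := by rintro rfl; exact h0 y3
    exact y4 (2 * k) (by omega) (by omega) h2k
  obtain ⟨c, c1, c2, c3, c4⟩ := h.nc 0 y z (by omega) (by omega) (by omega) y3 z3
    fun m m1 m2 => y4 m m1 (by omega)
  have c5 : c < ψ z := by
    by_contra hc
    exact c3 k (ψ z) (by omega) y7 (by omega) (by omega) z8
  have z10 : z = n - k := by
    by_contra hne
    rcases ho (z - k + 1) with h1 | h1
    · exact c4 (z - k + 1 + k) (z - k + 1) (by omega) (by omega) (by omega) (by omega)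
        (h.symm _ _ h1)
    · exact c4 (z - k + 1 + 2 * k) (z - k + 1) (by omega) (by omega) (by omega) (by omega)
        (h.symm _ _ h1)
  intro a b a1 a2 b1 b2 hab
  refine c4 (b + n) (a + n) (by omega) (by omega) (by omega) (by omega) ?_
  rw [h.per, hz.perR]
  exact h.symm _ _ hab

/-- Case B. -/
theorem OT.fatB (ho : OT k r) (h : ZRel n r) (hk : 2 ≤ k) (hd : k ∣ n) (h4 : 4 * k ≤ n)
    (hw : Wd n k r) (hf : Fat k r 0) (h0 : r 0 k) : False := by
  have hz := ZR.of_zRel h
  obtain ⟨ψ, g1, g2, g3, g4⟩ := exists_psi hw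
  have hmk : r (-k) 0 := by
    rcases ho (-k) with h1 | h1
    · rwa [neg_add_cancel] at h1
    · exact (hf (-k) (-k + 2 * k) (by omega) (by omega) (by omega) (by omega) h1).elim
  have hnk : r 0 (n - k) := by
    have e : (n : ℤ) - k = -k + n := by ring
    rw [e, hz.perR]
    exact h.symm _ _ hmk
  -- a vertex of `(k, 2k)` seen by `0`
  obtain ⟨y, y1, y2, y3⟩ : ∃ y, k < y ∧ y < 2 * k ∧ r 0 y := by
    have h1 : r (-1) (-1 + 2 * k) := by
      rcases ho (-1) with h1 | h1
      · exact (hf (-1) (-1 + k) (by omega) (by omega) (by omega) (by omega) h1).elim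
      · exact h1
    obtain ⟨y, y1, y2, y3, y4⟩ := exists_first (p := fun z : ℤ => r (-1) z) (a := 1)
      (b := -1 + 2 * k) (by omega) h1
    have hr : r (-1) 0 := by
      have := h.succ (-1)
      rwa [neg_add_cancel] at this
    refine ⟨y, ?_, by omega, ?_⟩
    · by_contra hc
      exact hf (-1) y (by omega) (by omega) (by omega) (by omega) y3
    · exact h.cn (-1) 0 y (by omega) (by omega) (by omega) hr y3 fun m m1 m2 => y4 m (by omega) m2
  -- the last vertex `q` seen by `k` before `n`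
  have hkn : r k n := by
    have e : (n : ℤ) = 0 + n := by ring
    rw [e, hz.perR]
    exact h.symm _ _ h0
  obtain ⟨q, q1, q2, q3, q4⟩ := exists_last (p := fun z : ℤ => r k z) (a := k + 1)
    (b := (n : ℤ) - 1) (by omega) (h.succ k)
  have q5 : q < n - k := by
    by_contra hc
    refine hf (q - n) k (by omega) (by omega) (by omega) (by omega) ?_
    have : r k (q - n) := by
      rw [← hz.perR, sub_add_cancel]
      exact q3
    exact h.symm _ _ this
  have q6 : r 0 q := by
    have h1 := h.cn k q n (by omega) (by omega) (by omega) q3 hkn fun m m1 m2 => q4 m m1 (by omega)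
    have e : (n : ℤ) = 0 + n := by ring
    rw [e, hz.perR] at h1
    exact h.symm _ _ h1
  obtain ⟨o, o1, o2, o3, o4⟩ := g4 q (by omega) (by omega) q3
  -- `ψ (n - k) = n`
  have p0 : (n : ℤ) ≤ ψ (n - k) := by
    obtain ⟨t, t1, t2, t3, t4⟩ := g4 n (by omega) (by omega) hkn
    have t5 := g2 t t1 t2 t3
    rw [t4] at t5
    have t6 := step t5 t2
    rcases eq_or_lt_of_le t6 with t7 | t7
    · have e : t = n - k := by omega
      rw [← e, t4]
    · have := g3 t (n - k) t1 (by omega) (by omega) t3 hnk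
      omega
  obtain ⟨p1, p2, p3⟩ := g1 (n - k) (by omega) (by omega) hnk
  have p4 := g2 (n - k) (by omega) (by omega) hnk
  have p5 : ψ (n - k) = n := by
    by_contra hne
    have h1 : k ∣ ψ (n - k) - n := by
      have e : ψ ((n : ℤ) - k) - n = ψ (n - k) - (n - k) - k := by ring
      rw [e]; exact dvd_sub p4 (dvd_refl _)
    have := step h1 (by omega)
    omega
  have o5 : o < n - k := by
    by_contra hc
    rcases eq_or_lt_of_le (show (n : ℤ) - k ≤ o by omega) with h1 | h1
    · rw [← h1] at o4; omega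
    · have := g3 (n - k) o (by omega) h1 o2 hnk o3
      omega
  have o6 : q ≤ o := by
    by_contra hc
    have h1 := g3 o q o1 (by omega) (by omega) o3 q6
    have h2 := g3 q (n - k) (by omega) q5 (by omega) q6 hnk
    exact q4 (ψ q) (by omega) (by omega) (g1 q (by omega) (by omega) q6).2.2
  -- the crossing
  obtain ⟨z, z1, z2, ⟨z3, z4⟩, z5⟩ := exists_first (p := fun x : ℤ => r 0 x ∧ ψ x ≤ x) (a := 1)
    (b := o) (by omega) ⟨o3, by omega⟩
  obtain ⟨z6, z7, z8⟩ := g1 z (by omega) (by omega) z3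
  have hr1 : r 0 1 := by
    have := h.succ 0
    rwa [zero_add] at this
  obtain ⟨v, v1, v2, v3, v4⟩ := exists_last (p := fun x : ℤ => r 0 x) (a := 1) (b := z - 1)
    (by omega) hr1
  have hgt : ∀ x : ℤ, 0 < x → x < z → r 0 x → x + k ≤ ψ x := by
    intro x x1 x2 x3
    refine step (g2 x x1 (by omega) x3) ?_
    by_contra hc
    exact z5 x (by omega) x2 ⟨x3, by omega⟩
  have v5 := hgt v (by omega) (by omega) v3
  have v6 := g3 v z (by omega) (by omega) (by omega) v3 z3
  have v7 : k < v := by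
    have h1 : k ≤ v := by
      by_contra hc
      exact v4 k (by omega) (by omega) h0
    rcases eq_or_lt_of_le h1 with h2 | h2
    · exfalso
      have : z ≤ y := by
        by_contra hc
        exact v4 y (by omega) (by omega) y3
      omega
    · exact h2
  obtain ⟨c, c1, c2, c3, c4⟩ := h.nc 0 v z (by omega) (by omega) (by omega) v3 z3
    fun m m1 m2 => v4 m m1 (by omega)
  have kv := (g1 v (by omega) (by omega) v3).2.2
  have c5 : c < ψ v := by
    by_contra hc
    exact c3 k (ψ v) (by omega) v7 (by omega) (by omega) kv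
  -- step 1
  have c6 : n - 2 * k ≤ c := by
    by_contra hc
    obtain ⟨w, w1, w2, w3, w4⟩ : ∃ w : ℤ, c < w ∧ z - k < w ∧ w < z ∧ w + 2 * k ≤ n := by
      rcases le_total c (z - k) with h1 | h1
      · exact ⟨z - k + 1, by omega, by omega, by omega, by omega⟩
      · exact ⟨c + 1, by omega, by omega, by omega, by omega⟩
    rcases ho w with h1 | h1
    · exact c4 (w + k) w (by omega) (by omega) w1 w3 (h.symm _ _ h1)
    · exact c4 (w + 2 * k) w (by omega) (by omega) w1 w3 (h.symm _ _ h1)
  -- step 2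
  have c7 : c ≤ v + k := by
    by_contra hc
    rcases ho (v - k + 1) with h1 | h1
    · exact c3 (v - k + 1) (v - k + 1 + k) (by omega) (by omega) (by omega) (by omega) h1
    · exact c3 (v - k + 1) (v - k + 1 + 2 * k) (by omega) (by omega) (by omega) (by omega) h1
  have v8 : ψ v = v + k := by
    by_contra hne
    have h1 := step (shift (g2 v (by omega) (by omega) v3)) (by omega)
    omega
  -- step 3
  have k2 : ¬ r k (n - 2 * k) := c3 k (n - 2 * k) (by omega) v7 (by omega) (by omega)
  have k34 : r (n - 4 * k) (n - 3 * k) := by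
    rcases ho (n - 4 * k) with h1 | h1
    · have e : (n : ℤ) - 4 * k + k = n - 3 * k := by ring
      rwa [e] at h1
    · exact (c3 (n - 4 * k) (n - 4 * k + 2 * k) (by omega) (by omega) (by omega) (by omega)
        h1).elim
  -- the multiples of `k`
  have hd2 : ∀ x : ℤ, 0 < x → x < n → r 0 x → k ∣ n - x → k ∣ n - ψ x := by
    intro x x1 x2 x3 x4
    have e : (n : ℤ) - ψ x = (n - x) - (ψ x - x) := by ring
    rw [e]; exact dvd_sub x4 (g2 x x1 x2 x3)
  have hmul : ∀ x : ℤ, 0 < x → x < v → r 0 x → k ∣ n - x → ψ x ≤ n - 3 * k := by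
    intro x x1 x2 x3 x4
    have h1 := hd2 x x1 (by omega) x3 x4
    have h2 := g3 x v x1 x2 (by omega) x3 v3
    have h3 := step h1 (by omega)
    have h4 : k ∣ n - k - ψ x := by
      have e : (n : ℤ) - k - ψ x = (n - ψ x) - k := by ring
      rw [e]; exact dvd_sub h1 (dvd_refl _)
    have h5 := step h4 (by omega)
    have h6 : ψ x ≠ n - 2 * k := by
      intro he
      exact k2 (he ▸ (g1 x x1 (by omega) x3).2.2)
    have h7 : k ∣ n - 2 * k - ψ x := by
      have e : (n : ℤ) - 2 * k - ψ x = (n - k - ψ x) - k := by ring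
      rw [e]; exact dvd_sub h4 (dvd_refl _)
    have h8 := step h7 (by omega)
    omega
  -- step 4
  have k3 : ¬ r 0 (n - 3 * k) := by
    intro hr
    have h1 := hgt (n - 3 * k) (by omega) (by omega) hr
    have h2 := hmul (n - 3 * k) (by omega) (by omega) hr (by
      have e : (n : ℤ) - (n - 3 * k) = k * 3 := by ring
      rw [e]; exact dvd_mul_right _ _)
    omega
  have h5 : 5 * k ≤ n := by
    have h1 : 4 * k ≠ n := by
      intro he
      refine k3 ?_
      have e : (n : ℤ) - 3 * k = k := by omega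
      rw [e]; exact h0
    have h2 : k ∣ (n : ℤ) - 4 * k := dvd_sub hd (Dvd.intro_left _ rfl)
    have := step h2 (by omega)
    omega
  -- step 5
  obtain ⟨a, a1, a2, a3, a4⟩ := exists_last (p := fun x : ℤ => r 0 x) (a := y)
    (b := (n : ℤ) - 3 * k - 1) (by omega) y3
  obtain ⟨u, u1, u2, u3, u4⟩ := exists_first (p := fun x : ℤ => r 0 x)
    (a := (n : ℤ) - 3 * k + 1) (b := v) (by omega) v3
  have hno : ∀ m, a < m → m < u → ¬ r 0 m := by
    intro m m1 m2 m3
    rcases lt_trichotomy m ((n : ℤ) - 3 * k) with hm | hm | hm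
    · exact a4 m m1 (by omega) m3
    · rw [hm] at m3; exact k3 m3
    · exact u4 m (by omega) m2 m3
  obtain ⟨d, d1, d2, d3, d4⟩ := h.nc 0 a u (by omega) (by omega) (by omega) a3 u3 hno
  have d5 : u - 1 ≤ d := by
    by_contra hc
    obtain ⟨w, w1, w2, w3⟩ : ∃ w : ℤ, d < w ∧ u - k < w ∧ w < u := by
      rcases le_total d (u - k) with h1 | h1
      · exact ⟨u - k + 1, by omega, by omega, by omega⟩
      · exact ⟨d + 1, by omega, by omega, by omega⟩
    rcases ho w with h1 | h1
    · exact d4 (w + k) w (by omega) (by omega) w1 w3 (h.symm _ _ h1)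
    · exact d4 (w + 2 * k) w (by omega) (by omega) w1 w3 (h.symm _ _ h1)
  have d6 : u ≤ a + k + 1 := by
    by_contra hc
    rcases ho (a - k + 1) with h1 | h1
    · exact d3 (a - k + 1) (a - k + 1 + k) (by omega) (by omega) (by omega) (by omega) h1
    · exact d3 (a - k + 1) (a - k + 1 + 2 * k) (by omega) (by omega) (by omega) (by omega) h1
  have d7 : a ≤ n - 4 * k := by
    by_contra hc
    exact d3 (n - 4 * k) (n - 3 * k) (by omega) (by omega) (by omega) (by omega) k34
  have d8 : a = n - 4 * k := by omega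
  have e1 := hgt a (by omega) (by omega) a3
  have e2 := hmul a (by omega) (by omega) a3 (by
    have e : (n : ℤ) - a = k * 4 := by rw [d8]; ring
    rw [e]; exact dvd_mul_right _ _)
  have e3 : ψ a = n - 3 * k := by omega
  have e4 := (g1 a (by omega) (by omega) a3).2.2
  rw [e3] at e4
  exact d3 k (n - 3 * k) (by omega) (by omega) (by omega) (by omega) e4

/-- There are no fat rectangles. -/
theorem OT.not_fat (ho : OT k r) (h : ZRel n r) (hk : 2 ≤ k) (hd : k ∣ n) (h4 : 4 * k ≤ n)
    (hw : Wd n k r) (s : ℤ) : ¬ Fat k r s := by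
  have key : ∀ c, Fat k r c → Fat k (FMax.sh r c) 0 := fun c hf x y x1 x2 y1 y2 =>
    hf (x + c) (y + c) (by omega) (by omega) (by omega) (by omega)
  intro hf
  by_cases h0 : r s (s + k)
  · refine (ho.sh s).fatB (FMax.zrel_sh h s) hk hd h4 (FMax.wd_sh hw s) (key s hf) ?_
    show r (0 + s) (k + s)
    rw [zero_add, add_comm]
    exact h0
  · have hA := (ho.sh s).fatA (FMax.zrel_sh h s) hk hd h4 (FMax.wd_sh hw s) (key s hf) (by
      intro h1
      have h2 : r (0 + s) (k + s) := h1
      rw [zero_add, add_comm] at h2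
      exact h0 h2)
    have hf' : Fat k r (s - k) := fun x y x1 x2 y1 y2 hxy =>
      hA (x - s) (y - s) (by omega) (by omega) (by omega) (by omega) (by
        show r (x - s + s) (y - s + s)
        rw [sub_add_cancel, sub_add_cancel]; exact hxy)
    refine (ho.sh (s - k)).fatB (FMax.zrel_sh h _) hk hd h4 (FMax.wd_sh hw _) (key _ hf') ?_
    show r (0 + (s - k)) (k + (s - k))
    have e1 : (0 : ℤ) + (s - k) = s - k := by ring
    have e2 : k + (s - k) = s := by ring
    rw [e1, e2]
    rcases ho (s - k) with h1 | h1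
    · rwa [sub_add_cancel] at h1
    · exact (hf (s - k) (s - k + 2 * k) (by omega) (by omega) (by omega) (by omega) h1).elim

/-- **The cut**, which inherits `OT`. -/
theorem cut_ot {k d c : ℤ} (h : ZRel n r) (hn : 0 < n) (hk : k ∣ n) (hw : Wd n k r) (h2 : 2 ≤ d)
    (hdk : d < k) (hv : ∀ u, k ∣ u - c → r u (u + d)) (ht : OT k r) :
    ∃ (n' : ℕ) (r' : ℤ → ℤ → Prop), ZRel n' r' ∧ (k - d + 1) ∣ (n' : ℤ) ∧
      (n' : ℤ) * k = n * (k - d + 1) ∧ Wd n' (k - d + 1) r' ∧ OT (k - d + 1) r' ∧
      (Lkd (k - d + 1) r' → Lkd k r) := by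
  have hS := sr_kp h hn hk h2 hdk hv
  obtain ⟨q, hq⟩ := hk
  have hq0 : 0 < q := by
    by_contra hlt
    have : k * q ≤ 0 := mul_nonpos_of_nonneg_of_nonpos (by omega) (by omega)
    omega
  obtain ⟨q, rfl⟩ : ∃ m : ℕ, q = m := ⟨q.toNat, by omega⟩
  have hk'q : 0 ≤ (k - d + 1) * (q : ℤ) := mul_nonneg (by omega) (by omega)
  obtain ⟨n', hn'⟩ : ∃ n' : ℕ, (n' : ℤ) = (k - d + 1) * q :=
    ⟨((k - d + 1) * (q : ℤ)).toNat, by omega⟩
  have hE : Enum n n' (Kp k d c) (ph (k - d + 1) k d c) := enum_ph hq h2 hdk hn'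
  refine ⟨n', _, hE.zrel hS ?_, ⟨q, hn'⟩, by rw [hn', hq]; ring,
    hE.wd hw (fun z z' hz => kp_of_dvd hz) (ph_res h2 hdk), fun a => ?_, ?_⟩
  · have : (k - d + 1) * 1 ≤ (k - d + 1) * (q : ℤ) :=
      mul_le_mul_of_nonneg_left (by omega) (by omega)
    omega
  · have e1 : ph (k - d + 1) k d c (a + (k - d + 1)) = ph (k - d + 1) k d c a + k := by
      have := ph_add (k' := k - d + 1) (k := k) (d := d) (c := c) (by omega) a 1
      rwa [mul_one, mul_one] at this
    have e2 : ph (k - d + 1) k d c (a + 2 * (k - d + 1)) = ph (k - d + 1) k d c a + 2 * k := by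
      have := ph_add (k' := k - d + 1) (k := k) (d := d) (c := c) (by omega) a 2
      rwa [mul_comm (k - d + 1) 2, mul_comm k 2] at this
    show r (ph (k - d + 1) k d c a) (ph (k - d + 1) k d c (a + (k - d + 1))) ∨
      r (ph (k - d + 1) k d c a) (ph (k - d + 1) k d c (a + 2 * (k - d + 1)))
    rw [e1, e2]; exact ht _
  · rintro ⟨a, ha⟩
    refine ⟨ph (k - d + 1) k d c a, fun u hu => ?_⟩
    obtain ⟨b, rfl⟩ := hE.surj u ((kp_of_dvd hu).2 (hE.mem a))
    have h1 := ha b ((ph_res h2 hdk a b).2 hu)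
    have e : ph (k - d + 1) k d c (b + (k - d + 1)) = ph (k - d + 1) k d c b + k := by
      have := ph_add (k' := k - d + 1) (k := k) (d := d) (c := c) (by omega) b 1
      rwa [mul_one, mul_one] at this
    rw [← e]; exact h1

/-- If every vertex sees one of the next two vertices of its class, some class is linked. -/
theorem linked_of_ot : ∀ (n : ℕ) (k : ℤ) (r : ℤ → ℤ → Prop), ZRel n r → 0 < k → k ∣ (n : ℤ) →
    k < n → Wd n k r → OT k r → Lkd k r := by
  have main : ∀ N : ℕ, ∀ (n : ℕ) (k : ℤ) (r : ℤ → ℤ → Prop), k.toNat ≤ N → ZRel n r → 0 < k →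
      k ∣ (n : ℤ) → k < n → Wd n k r → OT k r → Lkd k r := by
    intro N
    induction N with
    | zero => intro n k r h1 _ h2; omega
    | succ N ih =>
      intro n k r hN h hk hkn hlt hw ht
      by_cases hk1 : k = 1
      · subst hk1
        exact ⟨0, fun u _ => h.succ u⟩
      obtain ⟨q, hq⟩ := id hkn
      have hq2 : 2 ≤ q := by
        by_contra hcon
        have : k * q ≤ k * 1 := mul_le_mul_of_nonneg_left (by omega) hk.le
        omega
      have hn4 : 4 ≤ (n : ℤ) := by
        have : k * 2 ≤ k * q := mul_le_mul_of_nonneg_left hq2 hk.le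
        omega
      by_cases hn3 : (n : ℤ) ≤ 3 * k
      · exact linked_three h hk hkn hlt (by omega) hn3 hw
      have hq4 : 4 ≤ q := by
        by_contra hcon
        have : k * q ≤ k * 3 := mul_le_mul_of_nonneg_left (by omega) hk.le
        omega
      have h4k : 4 * k ≤ n := by
        have : k * 4 ≤ k * q := mul_le_mul_of_nonneg_left hq4 hk.le
        omega
      by_contra hno
      refine false_of_noFat h (by omega) hkn h4k hw (fun c d d1 d2 hv => ?_) fun s =>
        ht.not_fat h (by omega) hkn h4k hw s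
      rcases eq_or_lt_of_le d2 with hd | hd
      · subst hd
        exact hno ⟨c, hv⟩
      · obtain ⟨n', r', p1, p2, p3, p4, p5, p6⟩ := cut_ot h (by omega) hkn hw d1 hd hv ht
        refine hno (p6 (ih n' (k - d + 1) r' (by omega) p1 (by omega) p2 ?_ p4 p5))
        by_contra hcon
        have h5 : (n' : ℤ) * k ≤ (k - d + 1) * k := mul_le_mul_of_nonneg_right (by omega) hk.le
        have h6 : k * (k - d + 1) < n * (k - d + 1) := mul_lt_mul_of_pos_right hlt (by omega)
        have h7 : (k - d + 1) * k = k * (k - d + 1) := by ring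
        omega
  exact fun n k r h => main _ n k r le_rfl h

theorem Lkd.of_mirror (hs : ∀ a b, r a b → r b a) (h : Lkd k (VisMap.mirror r)) : Lkd k r := by
  obtain ⟨a, ha⟩ := h
  refine ⟨-a - k, fun u hu => ?_⟩
  have h1 : r (-(-u - k)) (-(-u - k + k)) := ha (-u - k) (by
    have e : -u - k - a = -(u - (-a - k)) := by ring
    rw [e]
    exact (dvd_neg).2 hu)
  have e1 : -(-u - k) = u + k := by ring
  have e2 : -(-u - k + k) = u := by ring
  rw [e1, e2] at h1
  exact hs _ _ h1

/-- If every vertex sees one of the previous two vertices of its class, some class is linked. -/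
theorem linked_of_ot' (h : ZRel n r) (hk : 0 < k) (hd : k ∣ (n : ℤ)) (hlt : k < n) (hn : 3 ≤ n)
    (hw : Wd n k r) (ho : ∀ x, r x (x - k) ∨ r x (x - 2 * k)) : Lkd k r := by
  refine Lkd.of_mirror h.symm (linked_of_ot n k _ h.mirror hk hd hlt (hw.mirror h hk hd hn)
    fun x => ?_)
  rcases ho (-x) with h1 | h1
  · left
    show r (-x) (-(x + k))
    have e : -(x + k) = -x - k := by ring
    rwa [e]
  · right
    show r (-x) (-(x + 2 * k))
    have e : -(x + 2 * k) = -x - 2 * k := by ring
    rwa [e]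

end Cut

end VisMap
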