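import Pool.Agent.Lib.MP_9f3af0_lc.AgLink
import Pool.Agent.Lib.MP_9f3af0_lc.GeoE
import Pool.Agent.Lib.MP_9f3af0_lc.Ord
import Pool.Agent.Lib.MP_9f3af0_lcB.OneTwo

/-!
# MP_9f3af0_lc: polygons in which every vertex sees one of the next two vertices that look like it
(helper37)

Such a polygon has a linked class (or at least `n / 3` views, or at most two), and can be mapped.
-/

namespace VisMap

/-- Every vertex sees at least one of the next two vertices that look like it (counter-clockwise on
the boundary, if there are two before the boundary closes up). -/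
def SeesNextTwo {n : ℕ} (v : ZMod n → ℂ) : Prop :=
  ∀ (i : ZMod n) (l m : ℕ), 0 < l → l < m → m < n → Alike v i (i + l) → Alike v i (i + m) →
    (∀ j : ℕ, 0 < j → j < m → Alike v i (i + j) → j = l) → Sees v i (i + l) ∨ Sees v i (i + m)

/-- Every vertex sees at least one of the previous two vertices that look like it (clockwise on the
boundary, if there are two before the boundary closes up). -/
def SeesPrevTwo {n : ℕ} (v : ZMod n → ℂ) : Prop :=
  ∀ (i : ZMod n) (l m : ℕ), 0 < l → l < m → m < n → Alike v i (i - l) → Alike v i (i - m) →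
    (∀ j : ℕ, 0 < j → j < m → Alike v i (i - j) → j = l) → Sees v i (i - l) ∨ Sees v i (i - m)

variable {n : ℕ}

theorem linked_of_seesTwo (hn : 3 ≤ n) {v : ZMod n → ℂ} (hR : VisRel (Sees v))
    (bef : Ag.BoundaryOrder v) (h2 : 2 < views v) (h3 : 3 * views v < n)
    (hf : SeesNextTwo v ∨ SeesPrevTwo v) : Linked v := by
  have hn2 : 2 ≤ n := by omega
  have : NeZero n := ⟨by omega⟩
  obtain ⟨k, hk0, hkn, hk⟩ := Ag.exists_gen (Ag.periods hn2 hR)
  obtain ⟨m, rfl⟩ : ∃ m : ℕ, k = m := ⟨k.toNat, by omega⟩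
  have halike : ∀ a b : ZMod n, Alike v a b ↔ b - a ∈ Ag.periods hn2 hR := fun a b => by
    rw [Ag.alike_iff bef (fun i => Ag.degR_pos hn2 hR i), Ag.E_iff_sub_mem]
  have hm : views v = m := by
    rw [← Ag.ncard_cosets (H := Ag.periods hn2 hR) (k := m) (by omega) hk]
    unfold views
    have e : (fun i : ZMod n => {j | Alike v i j}) =
        fun i => {j | j - i ∈ Ag.periods hn2 hR} := by
      funext a
      ext b
      exact halike a b
    rw [e]
  rw [hm] at h2 h3
  have hE : Ag.E (Sees v) (Sees v) 0 0 := Ag.Eqv.refl _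
  have hF := Ag.fam_of_E hn hR hR hE hk0 hkn hk
  have hz : ZRel n (unroll (Sees v)) := hF.zrel true
  have hw : Cut.Wd n m (unroll (Sees v)) := fun i i' hi => hF.fw true true i i' hi
  obtain ⟨q, hq⟩ := id hkn
  have hq4 : 4 ≤ q := by
    by_contra hcon
    have : (m : ℤ) * q ≤ m * 3 := mul_le_mul_of_nonneg_left (by omega) hk0.le
    omega
  have h4 : 4 * (m : ℤ) ≤ n := by
    have : (m : ℤ) * 4 ≤ m * q := mul_le_mul_of_nonneg_left hq4 hk0.le
    omega
  have hal : ∀ (x : ℤ) (j : ℕ), Alike v (x : ZMod n) ((x : ZMod n) + j) ↔ (m : ℤ) ∣ j := by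
    intro x j
    rw [halike, ← hk]
    push_cast
    rw [add_sub_cancel_left]
  have hal' : ∀ (x : ℤ) (j : ℕ), Alike v (x : ZMod n) ((x : ZMod n) - j) ↔ (m : ℤ) ∣ j := by
    intro x j
    rw [halike, ← dvd_neg, ← hk]
    push_cast
    rw [sub_sub_cancel_left]
  have hone : ∀ j : ℕ, 0 < j → j < 2 * m → (m : ℤ) ∣ j → j = m := by
    rintro j j1 j2 ⟨t, ht⟩
    have t1 : 0 < t := by
      by_contra hc
      have : (m : ℤ) * t ≤ 0 := mul_nonpos_of_nonneg_of_nonpos (by omega) (by omega)
      omega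
    have t2 : t < 2 := by
      by_contra hc
      have : (m : ℤ) * 2 ≤ m * t := mul_le_mul_of_nonneg_left (by omega) (by omega)
      omega
    have t3 : t = 1 := by omega
    rw [t3] at ht
    omega
  have hlkd : Cut.Lkd (m : ℤ) (unroll (Sees v)) := by
    rcases hf with hf | hf
    · refine Cut.linked_of_ot n m _ hz hk0 hkn (by omega) hw fun x => ?_
      have h5 := hf (x : ZMod n) m (2 * m) (by omega) (by omega) (by omega)
        ((hal x m).2 (dvd_refl _)) ((hal x (2 * m)).2 ⟨2, by push_cast; ring⟩) (fun j j1 j2 j3 =>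
          hone j j1 j2 ((hal x j).1 j3))
      unfold unroll
      push_cast at h5 ⊢
      exact h5
    · refine Cut.linked_of_ot' hz hk0 hkn (by omega) hn hw fun x => ?_
      have h5 := hf (x : ZMod n) m (2 * m) (by omega) (by omega) (by omega)
        ((hal' x m).2 (dvd_refl _)) ((hal' x (2 * m)).2 ⟨2, by push_cast; ring⟩) (fun j j1 j2 j3 =>
          hone j j1 j2 ((hal' x j).1 j3))
      unfold unroll
      push_cast at h5 ⊢
      exact h5
  obtain ⟨c, hc⟩ := hlkd
  refine ⟨(c : ZMod n), fun j l hj hjl hl0 hln hno => ?_⟩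
  obtain ⟨u, hu⟩ : ∃ u : ℤ, (u : ZMod n) = j := ⟨(j.val : ℤ), by
    push_cast; exact ZMod.natCast_zmod_val j⟩
  rw [← hu] at hj hjl hno ⊢
  have hcls : ∀ x : ℤ, Alike v (c : ZMod n) (x : ZMod n) ↔ (m : ℤ) ∣ x - c := by
    intro x
    rw [halike, ← hk]
    push_cast
    rfl
  have h5 := (hcls u).1 hj
  have h6 : (m : ℤ) ∣ (u + l) - c := (hcls (u + l)).1 (by push_cast; exact hjl)
  have h7 : (m : ℤ) ∣ l := by
    have := dvd_sub h6 h5
    have e : u + (l : ℤ) - c - (u - c) = l := by ring
    rwa [e] at this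
  have h8 : (m : ℤ) ≤ l := Int.le_of_dvd (by omega) h7
  have h9 : l = m := by
    by_contra hne
    refine hno m (by omega) (by omega) ?_
    have : Alike v (c : ZMod n) ((u + m : ℤ) : ZMod n) := (hcls (u + m)).2 (by
      have e : u + (m : ℤ) - c = (u - c) + m := by ring
      rw [e]; exact dvd_add h5 (dvd_refl _))
    push_cast at this; exact this
  have := hc u h5
  unfold unroll at this
  rw [h9]
  push_cast at this; exact this

/-- Polygons in which every vertex sees one of the next (or of the previous) two vertices that look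
like it can be mapped. -/
theorem maps_seesTwo (n : ℕ) :
    ∃ S : Strategy, ∀ (v : ZMod n → ℂ) (i : ZMod n), IsPolygon v →
      (views v ≤ 2 ∨ n ≤ 3 * views v ∨ Linked v ∨ Turning v ∨ SeesNextTwo v ∨ SeesPrevTwo v) →
      ∃ t : ℕ, ∀ (v' : ZMod n → ℂ) (i' : ZMod n), IsPolygon v' →
        (run S v' i' t).1 = (run S v i t).1 → Nonempty (visGraph v' ≃g visGraph v) := by
  have hbef : ∀ (v : ZMod n → ℂ), IsPolygon v → Ag.BoundaryOrder v :=
    fun v hv i j k hj hk => before_iff hv hj hk
  obtain ⟨S, hS⟩ := maps_linked (n := n) (fun v hv => geoE hv) (fun v hv => hbef v hv)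
  refine ⟨S, fun v i hv h => hS v i hv ?_⟩
  rcases h with h | h | h | h | h
  · exact Or.inl h
  · exact Or.inr (Or.inl h)
  · exact Or.inr (Or.inr (Or.inl h))
  · exact Or.inr (Or.inr (Or.inr h))
  · rcases le_or_gt (views v) 2 with h2 | h2
    · exact Or.inl h2
    rcases le_or_gt n (3 * views v) with h3 | h3
    · exact Or.inr (Or.inl h3)
    exact Or.inr (Or.inr (Or.inl (linked_of_seesTwo hv.simple.three (geoE hv).rel (hbef v hv)
      h2 h3 h)))

end VisMap
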