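import Pool.Agent.Lib.MP_9f3af0_lcB.TZCount

/-!
# MP_9f3af0_lc: no nonear mate of a wall without lap gaps (helper96)

`S2 n k B H r`: the mates (the multiples of `k`) of the wall vertex `0`, which hides `(1, H + 2)`, have
no lap gaps ahead, all first gaps have length at most `H`.  Then every mate is an ear
(`S2.main`).  Only the numbers of the hidden mates are counted.
-/

namespace VisMap

namespace Tp

/-- The setting of the second step. -/
structure S2 (n : ℕ) (k B H : ℤ) (r : ℤ → ℤ → Prop) : Prop where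
  k2 : 2 ≤ k
  kn : k ∣ n
  npos : (0 : ℤ) < n
  hB : 0 ≤ B
  symm : ∀ a b, r a b → r b a
  shift : ∀ a b, r (a + n) (b + n) ↔ r a b
  succ : ∀ a, r a (a + 1)
  far : ∀ a b, a + B < b → r a b
  cn : ∀ i s t : ℤ, i < s → s < t → r i s → r i t → (∀ m, s < m → m < t → ¬ r i m) → r s t
  X : ∀ a b c d : ℤ, a < b → b < c → c < d → r a c → r b d → r a d
  fg : ∀ v, ∃ m, v + 1 < m ∧ m ≤ v + H + 2 ∧ r v m
  wall : ∀ m, 1 < m → m < H + 2 → ¬ r 0 m
  lap : ∀ v, k ∣ v → ∀ y, v + 1 < y → r v y → r v (y + 1)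
  w1 : ∀ v F, k ∣ v → v + 1 < F → r v F → (∀ m, v + 1 < m → m < F → ¬ r v m) →
    k ∣ F - v - (H + 2)
  w2 : ∀ w p, k ∣ w → w < p → r (w - 1) p → (∀ m, w < m → m < p → ¬ r (w - 1) m) →
    r (-1) 1 → k ∣ p - w - 1
  w3 : ∀ w l, k ∣ w → 1 ≤ l → (∀ y, w < y → (r (w - 1) y ↔ w + 1 + k * l ≤ y)) →
    r (-1) 1 → r (-1) (H + 2) → k ∣ H + 1 → 1 < H + 2 → ∃ m, k ∣ m ∧ 1 < m ∧ m < H + 2 ∧ r (-1) m
  w4 : ∀ x y, k ∣ x → k ∣ y → y < x → r x (y - 1) → (∀ m, k ∣ m → y ≤ m → m < x → ¬ r x m) →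
    ∀ x', k ∣ x' → ∃ y', k ∣ y' ∧ y' < x' ∧ r x' (y' - 1) ∧ ¬ r x' y'
  c00 : ∀ v v', k ∣ v → k ∣ v' → hf k B r v' 0 + hb k B r v' 0 = hf k B r v 0 + hb k B r v 0
  cm0 : ∀ v v', k ∣ v → k ∣ v' →
    hf k B r (v' - 1) 0 + hb k B r (v' - 1) 0 = hf k B r v (-1) + hb k B r v (-1)

/-- The second sights of the mates. -/
structure FF (k H : ℤ) (r : ℤ → ℤ → Prop) (F : ℤ → ℤ) : Prop where
  lo : ∀ x, k ∣ x → x + 2 ≤ F x
  hi : ∀ x, k ∣ x → F x ≤ x + H + 2
  vis : ∀ x y, k ∣ x → x + 1 < y → (r x y ↔ F x ≤ y)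
  res : ∀ x, k ∣ x → k ∣ F x - x - (H + 2)

namespace S2

variable {n : ℕ} {k B H : ℤ} {r : ℤ → ℤ → Prop} {F : ℤ → ℤ}

theorem exF (h : S2 n k B H r) {x : ℤ} (hx : k ∣ x) :
    ∃ F, x + 2 ≤ F ∧ F ≤ x + H + 2 ∧ (∀ y, x + 1 < y → (r x y ↔ F ≤ y)) ∧
      k ∣ F - x - (H + 2) := by
  obtain ⟨m, m1, m2, m3⟩ := h.fg x
  obtain ⟨F, F1, F2, F3, F4⟩ := exists_first (p := fun z => r x z) (a := x + 2) (b := m) (by omega) m3
  have up : ∀ j : ℕ, r x (F + j) := by
    intro j
    induction j with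
    | zero => simpa using F3
    | succ j ih =>
      have := h.lap x hx (F + j) (by omega) ih
      push_cast
      rw [← add_assoc]
      exact this
  refine ⟨F, F1, by omega, fun y hy => ⟨fun hr => ?_, fun hr => ?_⟩, ?_⟩
  · by_contra hc
    exact F4 y (by omega) (by omega) hr
  · have := up (y - F).toNat
    have e : F + ((y - F).toNat : ℤ) = y := by omega
    rwa [e] at this
  · exact h.w1 x F hx (by omega) F3 fun m h1 h2 => F4 m (by omega) h2

theorem exFF (h : S2 n k B H r) : ∃ F : ℤ → ℤ, FF k H r F := by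
  have h1 := fun x (hx : k ∣ x) => h.exF hx
  choose! F a b c d using h1
  exact ⟨F, a, b, fun x y hx hy => c x hx y hy, d⟩

theorem near (h : S2 n k B H r) {a b : ℤ} (hab : ¬ r a b) : b ≤ a + B ∧ a ≤ b + B := by
  refine ⟨?_, ?_⟩
  · by_contra hc
    exact hab (h.far _ _ (by omega))
  · by_contra hc
    exact hab (h.symm _ _ (h.far _ _ (by omega)))

theorem comm (h : S2 n k B H r) (a b : ℤ) : r a b ↔ r b a := ⟨h.symm _ _, h.symm _ _⟩

/-- Two different mates have a distance of at least `k`. -/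
theorem gap {x y : ℤ} (hk : 2 ≤ k) (hx : k ∣ x) (hy : k ∣ y) (hxy : x < y) : x + k ≤ y := by
  obtain ⟨a, rfl⟩ := hx
  obtain ⟨b, rfl⟩ := hy
  have h1 : a < b := lt_of_mul_lt_mul_left hxy (by omega)
  have h2 : k * (a + 1) ≤ k * b := mul_le_mul_of_nonneg_left (by omega) (by omega)
  linarith

/-- The number of the hidden vertices of a class when they form an interval. -/
theorem hf_int (h : S2 n k B H r) {v e a b : ℤ} (hva : v ≤ a) (hab : a ≤ b)
    (hH : ∀ z, v < z → k ∣ z - e → (¬ r v z ↔ a < z ∧ z ≤ b)) :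
    (hf k B r v e : ℤ) = (b - e) / k - (a - e) / k := by
  classical
  have := h.k2
  rw [← card_cls (by omega) a b e hab]
  unfold hf
  congr 2
  ext z
  simp only [Finset.mem_filter, Finset.mem_Ioc]
  constructor
  · rintro ⟨⟨h1, h2⟩, h3, h4⟩
    exact ⟨(hH z h1 h3).1 h4, h3⟩
  · rintro ⟨⟨h1, h2⟩, h3⟩
    have h4 := (hH z (by omega) h3).2 ⟨h1, h2⟩
    exact ⟨⟨by omega, (h.near h4).1⟩, h3, h4⟩

theorem hf_le (h : S2 n k B H r) {v v' e : ℤ}
    (hH : ∀ z, v < z → k ∣ z - e → ¬ r v z → v' < z ∧ ¬ r v' z) :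
    hf k B r v e ≤ hf k B r v' e := by
  classical
  unfold hf
  refine Finset.card_le_card ?_
  intro z
  simp only [Finset.mem_filter, Finset.mem_Ioc]
  rintro ⟨⟨h1, h2⟩, h3, h4⟩
  obtain ⟨h5, h6⟩ := hH z h1 h3 h4
  exact ⟨⟨h5, (h.near h6).1⟩, h3, h6⟩

theorem hf_lt (h : S2 n k B H r) {v v' e z : ℤ}
    (hH : ∀ z, v < z → k ∣ z - e → ¬ r v z → v' < z ∧ ¬ r v' z)
    (h1 : v' < z) (h2 : k ∣ z - e) (h3 : ¬ r v' z) (h4 : v < z → r v z) :
    hf k B r v e < hf k B r v' e := by
  classical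
  unfold hf
  refine Finset.card_lt_card ?_
  rw [Finset.ssubset_iff_of_subset]
  · refine ⟨z, ?_, ?_⟩
    · rw [Finset.mem_filter, Finset.mem_Ioc]
      exact ⟨⟨h1, (h.near h3).1⟩, h2, h3⟩
    · rw [Finset.mem_filter, Finset.mem_Ioc]
      rintro ⟨⟨h5, -⟩, -, h6⟩
      exact h6 (h4 h5)
  · intro z
    simp only [Finset.mem_filter, Finset.mem_Ioc]
    rintro ⟨⟨h1, h2⟩, h3, h4⟩
    obtain ⟨h5, h6⟩ := hH z h1 h3 h4
    exact ⟨⟨h5, (h.near h6).1⟩, h3, h6⟩

theorem hf_per (h : S2 n k B H r) (v : ℤ) : hf k B r (v + n) 0 = hf k B r v 0 := by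
  classical
  unfold hf
  symm
  refine Finset.card_bij' (fun z _ => z + n) (fun z _ => z - n) ?_ ?_ ?_ ?_
  · intro z
    simp only [Finset.mem_filter, Finset.mem_Ioc]
    rintro ⟨⟨h1, h2⟩, h3, h4⟩
    refine ⟨⟨by omega, by omega⟩, ?_, ?_⟩
    · have e : z + (n : ℤ) - 0 = z - 0 + n := by ring
      rw [e]
      exact dvd_add h3 h.kn
    · rw [h.shift]
      exact h4
  · intro z
    simp only [Finset.mem_filter, Finset.mem_Ioc]
    rintro ⟨⟨h1, h2⟩, h3, h4⟩
    refine ⟨⟨by omega, by omega⟩, ?_, ?_⟩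
    · have e : z - (n : ℤ) - 0 = z - 0 - n := by ring
      rw [e]
      exact dvd_sub h3 h.kn
    · rw [← h.shift, sub_add_cancel]
      exact h4
  · intro z _
    show z + n - n = z
    ring
  · intro z _
    show z - n + n = z
    ring

/-- A mate that is not an ear: the view of the vertex before it. -/
theorem nonear (h : S2 n k B H r) (hF : FF k H r F) (ear0 : r (-1) 1) {w : ℤ} (hw : k ∣ w)
    (hne : ¬ r (w - 1) (w + 1)) :
    ∃ l : ℤ, 1 ≤ l ∧ k * l ≤ H ∧ F w ≤ w + 1 + k * l ∧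
      (∀ y, w < y → (r (w - 1) y ↔ w + 1 + k * l ≤ y)) ∧ (hf k B r (w - 1) 0 : ℤ) = l := by
  have hk := h.k2
  obtain ⟨m, m1, m2, m3⟩ := h.fg (w - 1)
  obtain ⟨p, p1, p2, p3, p4⟩ :=
    exists_first (p := fun z => r (w - 1) z) (a := w + 1) (b := m) (by omega) m3
  have hp : p ≠ w + 1 := by
    intro e
    rw [e] at p3
    exact hne p3
  have hsw : r (w - 1) w := by
    have := h.succ (w - 1)
    rwa [sub_add_cancel] at this
  obtain ⟨l, hl⟩ := h.w2 w p hw (by omega) p3 (fun m h1 h2 => p4 m (by omega) h2) ear0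
  have hl1 : 1 ≤ l := by
    by_contra hc
    have : k * l ≤ k * 0 := mul_le_mul_of_nonneg_left (by omega) (by omega)
    omega
  have hwp : r w p := h.cn (w - 1) w p (by omega) (by omega) hsw p3 fun m h1 h2 => p4 m (by omega) h2
  have hrow : ∀ y, w < y → (r (w - 1) y ↔ w + 1 + k * l ≤ y) := by
    intro y hy
    constructor
    · intro hr
      by_contra hc
      exact p4 y (by omega) (by omega) hr
    · intro hr
      rcases (show p ≤ y by omega).lt_or_eq with h1 | h1
      · refine h.X (w - 1) w p y (by omega) (by omega) h1 p3 ?_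
        exact (hF.vis w y hw (by omega)).2 (((hF.vis w p hw (by omega)).1 hwp).trans h1.le)
      · rw [← h1]
        exact p3
  refine ⟨l, hl1, by omega, ?_, hrow, ?_⟩
  · have := (hF.vis w p hw (by omega)).1 hwp
    omega
  · have hkl : 0 ≤ k * l := mul_nonneg (by omega) (by omega)
    rw [h.hf_int (a := w) (b := w + k * l) (by omega) (by omega)]
    · obtain ⟨a, rfl⟩ := hw
      rw [sub_zero, sub_zero, ← mul_add, Int.mul_ediv_cancel_left _ (by omega),
        Int.mul_ediv_cancel_left _ (by omega)]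
      ring
    · intro z hz hd
      rcases (show w ≤ z by omega).lt_or_eq with h1 | h1
      · rw [hrow z h1]
        omega
      · rw [← h1]
        constructor
        · intro h2
          exact absurd hsw h2
        · intro h2
          omega

/-- The vertex before an ear sees everything beyond the gap of the ear. -/
theorem ear (h : S2 n k B H r) (hF : FF k H r F) {y : ℤ} (hy : k ∣ y) (he : r (y - 1) (y + 1)) {z : ℤ}
    (hz : F y ≤ z) : r (y - 1) z := by
  have h1 := hF.lo y hy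
  exact h.X (y - 1) y (y + 1) z (by omega) (by omega) (by omega) he
    ((hF.vis y z hy (by omega)).2 hz)

theorem ear_hid (h : S2 n k B H r) (hF : FF k H r F) {y : ℤ} (hy : k ∣ y) (he : r (y - 1) (y + 1)) :
    ∀ z, y - 1 < z → k ∣ z - 0 → ¬ r (y - 1) z → y < z ∧ ¬ r y z := by
  intro z h1 h2 h3
  have hk := h.k2
  rw [sub_zero] at h2
  rcases (show y ≤ z by omega).lt_or_eq with h4 | h4
  · refine ⟨h4, fun h5 => h3 (h.ear hF hy he ?_)⟩
    have h6 := gap hk hy h2 h4
    exact (hF.vis y z hy (by omega)).1 h5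
  · exfalso
    apply h3
    rw [← h4]
    have := h.succ (y - 1)
    rwa [sub_add_cancel] at this

theorem ear_le (h : S2 n k B H r) (hF : FF k H r F) {y : ℤ} (hy : k ∣ y) (he : r (y - 1) (y + 1)) :
    hf k B r (y - 1) 0 ≤ hf k B r y 0 :=
  h.hf_le (h.ear_hid hF hy he)

/-- The number of the mates hidden ahead of a mate. -/
theorem hf_mate (h : S2 n k B H r) (hF : FF k H r F) {w : ℤ} (hw : k ∣ w) :
    (hf k B r w 0 : ℤ) = (F w - w - 1) / k := by
  have hk := h.k2
  have h1 := hF.lo w hw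
  rw [h.hf_int (a := w + 1) (b := F w - 1) (by omega) (by omega)]
  · obtain ⟨a, rfl⟩ := hw
    have e1 : F (k * a) - 1 - 0 = (F (k * a) - k * a - 1) + k * a := by ring
    have e2 : k * a + 1 - 0 = 1 + k * a := by ring
    rw [e1, e2, Int.add_mul_ediv_left _ _ (by omega), Int.add_mul_ediv_left _ _ (by omega),
      Int.ediv_eq_zero_of_lt (by omega : (0 : ℤ) ≤ 1) (by omega : (1 : ℤ) < k)]
    ring
  · intro z hz hd
    rw [sub_zero] at hd
    have h2 := gap hk hw hd hz
    rw [hF.vis w z hw (by omega)]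
    omega

theorem F_zero (h : S2 n k B H r) (hF : FF k H r F) : F 0 = H + 2 := by
  have h1 := hF.lo 0 (dvd_zero _)
  have h2 := hF.hi 0 (dvd_zero _)
  have h3 := (hF.vis 0 (F 0) (dvd_zero _) (by omega)).2 le_rfl
  by_contra hc
  exact h.wall (F 0) (by omega) (by omega) h3

theorem hf_le_zero (h : S2 n k B H r) (hF : FF k H r F) {w : ℤ} (hw : k ∣ w) :
    (hf k B r w 0 : ℤ) ≤ (H + 1) / k := by
  have hk := h.k2
  rw [h.hf_mate hF hw]
  have := hF.hi w hw
  exact Int.ediv_le_ediv (by omega) (by omega)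

theorem hf_zero (h : S2 n k B H r) (hF : FF k H r F) : (hf k B r 0 0 : ℤ) = (H + 1) / k := by
  rw [h.hf_mate hF (dvd_zero _), h.F_zero hF]
  congr 1
  ring

theorem mem_hb (h : S2 n k B H r) {v e z : ℤ} [DecidablePred fun z => k ∣ z - e ∧ ¬ r v z] :
    z ∈ (Finset.Ico (v - B) v).filter (fun z => k ∣ z - e ∧ ¬ r v z) ↔
      z < v ∧ k ∣ z - e ∧ ¬ r v z := by
  rw [Finset.mem_filter, Finset.mem_Ico]
  constructor
  · rintro ⟨⟨h1, h2⟩, h3, h4⟩
    exact ⟨h2, h3, h4⟩
  · rintro ⟨h2, h3, h4⟩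
    have := (h.near h4).2
    exact ⟨⟨by omega, h2⟩, h3, h4⟩

open Classical in
/-- The number of the mates behind `w` whose second sight is not before `w`. -/
noncomputable def N1 (k H : ℤ) (F : ℤ → ℤ) (w : ℤ) : ℕ :=
  ((Finset.Ico (w - (H + 2)) w).filter fun z => k ∣ z ∧ w ≤ F z).card

theorem mem_N1 (hF : FF k H r F) {w z : ℤ} [DecidablePred fun z => k ∣ z ∧ w ≤ F z] :
    z ∈ (Finset.Ico (w - (H + 2)) w).filter (fun z => k ∣ z ∧ w ≤ F z) ↔
      z < w ∧ k ∣ z ∧ w ≤ F z := by
  rw [Finset.mem_filter, Finset.mem_Ico]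
  constructor
  · rintro ⟨⟨h1, h2⟩, h3, h4⟩
    exact ⟨h2, h3, h4⟩
  · rintro ⟨h2, h3, h4⟩
    have := hF.hi z h3
    exact ⟨⟨by omega, h2⟩, h3, h4⟩

/-- `1` for `k = 2` and `0` otherwise. -/
def eps (k : ℤ) : ℤ := if k = 2 then 1 else 0

theorem hb_pred (h : S2 n k B H r) (hF : FF k H r F) {w : ℤ} (hw : k ∣ w) :
    (hb k B r (w - 1) 0 : ℤ) + eps k = N1 k H F w := by
  classical
  have hk := h.k2
  unfold hb N1 eps
  by_cases h2 : k = 2
  · rw [if_pos h2]
    have hnot : w - 2 ∉ (Finset.Ico (w - 1 - B) (w - 1)).filter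
        (fun z => k ∣ z - 0 ∧ ¬ r (w - 1) z) := by
      rw [h.mem_hb]
      rintro ⟨-, -, h3⟩
      apply h3
      have := h.succ (w - 2)
      have e : w - 2 + 1 = w - 1 := by ring
      rw [e] at this
      exact h.symm _ _ this
    have e : (Finset.Ico (w - (H + 2)) w).filter (fun z => k ∣ z ∧ w ≤ F z) =
        insert (w - 2) ((Finset.Ico (w - 1 - B) (w - 1)).filter
          (fun z => k ∣ z - 0 ∧ ¬ r (w - 1) z)) := by
      ext z
      rw [mem_N1 hF, Finset.mem_insert, h.mem_hb, sub_zero]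
      constructor
      · rintro ⟨h3, h4, h5⟩
        have h6 := gap hk h4 hw h3
        rcases (show z ≤ w - 2 by omega).eq_or_lt with h7 | h7
        · exact Or.inl h7
        · refine Or.inr ⟨by omega, h4, fun h8 => ?_⟩
          have := (hF.vis z (w - 1) h4 (by omega)).1 (h.symm _ _ h8)
          omega
      · rintro (h3 | ⟨h3, h4, h5⟩)
        · have h4 : k ∣ z := by
            rw [h3]
            refine dvd_sub hw ?_
            rw [h2]
          have := hF.lo z h4
          exact ⟨by omega, h4, by omega⟩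
        · have h6 : z ≠ w - 2 := by
            intro h7
            apply h5
            rw [h7]
            have := h.succ (w - 2)
            have e : w - 2 + 1 = w - 1 := by ring
            rw [e] at this
            exact h.symm _ _ this
          refine ⟨by omega, h4, ?_⟩
          by_contra h7
          exact h5 (h.symm _ _ ((hF.vis z (w - 1) h4 (by omega)).2 (by omega)))
    rw [e, Finset.card_insert_of_notMem hnot]
    push_cast
    ring
  · rw [if_neg h2, add_zero]
    congr 2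
    ext z
    rw [mem_N1 hF, h.mem_hb, sub_zero]
    constructor
    · rintro ⟨h3, h4, h5⟩
      have h6 := gap hk h4 hw (by omega)
      refine ⟨by omega, h4, ?_⟩
      by_contra h7
      exact h5 (h.symm _ _ ((hF.vis z (w - 1) h4 (by omega)).2 (by omega)))
    · rintro ⟨h3, h4, h5⟩
      have h6 := gap hk h4 hw h3
      refine ⟨by omega, h4, fun h8 => ?_⟩
      have := (hF.vis z (w - 1) h4 (by omega)).1 (h.symm _ _ h8)
      omega

theorem hb_eq (h : S2 n k B H r) (hF : FF k H r F) (hq : ¬ k ∣ H + 2) {w : ℤ} (hw : k ∣ w) :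
    hb k B r w 0 = N1 k H F w := by
  classical
  have hk := h.k2
  unfold hb N1
  congr 1
  ext z
  rw [mem_N1 hF, h.mem_hb, sub_zero]
  constructor
  · rintro ⟨h3, h4, h5⟩
    have h6 := gap hk h4 hw h3
    refine ⟨h3, h4, ?_⟩
    by_contra h7
    exact h5 (h.symm _ _ ((hF.vis z w h4 (by omega)).2 (by omega)))
  · rintro ⟨h3, h4, h5⟩
    have h6 := gap hk h4 hw h3
    refine ⟨h3, h4, fun h8 => ?_⟩
    have h7 := (hF.vis z w h4 (by omega)).1 (h.symm _ _ h8)
    apply hq
    have h9 := hF.res z h4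
    rw [le_antisymm h7 h5] at h9
    have e : H + 2 = (w - z) - (w - z - (H + 2)) := by ring
    rw [e]
    exact dvd_sub (dvd_sub hw h4) h9

theorem F_dvd (hF : FF k H r F) (hq : k ∣ H + 2) {z : ℤ} (hz : k ∣ z) : k ∣ F z := by
  have h9 := hF.res z hz
  have e : F z = (F z - z - (H + 2)) + z + (H + 2) := by ring
  rw [e]
  exact dvd_add (dvd_add h9 hz) hq

theorem N1_eq (h : S2 n k B H r) (hF : FF k H r F) (hq : k ∣ H + 2) {w : ℤ} (hw : k ∣ w) :
    N1 k H F w = hb k B r (w - k) 0 + 1 := by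
  classical
  have hk := h.k2
  unfold hb N1
  have hwk : k ∣ w - k := dvd_sub hw dvd_rfl
  have hnot : w - k ∉ (Finset.Ico (w - k - B) (w - k)).filter
      (fun z => k ∣ z - 0 ∧ ¬ r (w - k) z) := by
    rw [h.mem_hb]
    rintro ⟨h3, -⟩
    omega
  have e : (Finset.Ico (w - (H + 2)) w).filter (fun z => k ∣ z ∧ w ≤ F z) =
      insert (w - k) ((Finset.Ico (w - k - B) (w - k)).filter
        (fun z => k ∣ z - 0 ∧ ¬ r (w - k) z)) := by
    ext z
    rw [mem_N1 hF, Finset.mem_insert, h.mem_hb, sub_zero]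
    constructor
    · rintro ⟨h3, h4, h5⟩
      have h6 := gap hk h4 hw h3
      rcases (show z ≤ w - k by omega).eq_or_lt with h7 | h7
      · exact Or.inl h7
      · have h8 := gap hk h4 hwk h7
        refine Or.inr ⟨h7, h4, fun h9 => ?_⟩
        have := (hF.vis z (w - k) h4 (by omega)).1 (h.symm _ _ h9)
        omega
    · rintro (h3 | ⟨h3, h4, h5⟩)
      · have h4 : k ∣ z := by
          rw [h3]
          exact hwk
        have h5 := hF.lo z h4
        have h6 := gap hk h4 (F_dvd hF hq h4) (by omega)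
        exact ⟨by omega, h4, by omega⟩
      · have h8 := gap hk h4 hwk h3
        refine ⟨by omega, h4, ?_⟩
        have h9 : w - k < F z := by
          by_contra h7
          exact h5 (h.symm _ _ ((hF.vis z (w - k) h4 (by omega)).2 (by omega)))
        have := gap hk hwk (F_dvd hF hq h4) h9
        omega
  rw [e, Finset.card_insert_of_notMem hnot]

theorem hb_le (h : S2 n k B H r) (hF : FF k H r F) {w : ℤ} (hw : k ∣ w) :
    hb k B r w 0 ≤ N1 k H F w := by
  classical
  have hk := h.k2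
  unfold hb N1
  refine Finset.card_le_card ?_
  intro z
  rw [mem_N1 hF, h.mem_hb, sub_zero]
  rintro ⟨h3, h4, h5⟩
  have h6 := gap hk h4 hw h3
  refine ⟨h3, h4, ?_⟩
  by_contra h7
  exact h5 (h.symm _ _ ((hF.vis z w h4 (by omega)).2 (by omega)))

theorem hb_lt (h : S2 n k B H r) (hF : FF k H r F) {w y : ℤ} (hw : k ∣ w) (hy : k ∣ y) (hyw : y < w)
    (hFy : F y = w) : hb k B r w 0 < N1 k H F w := by
  classical
  have hk := h.k2
  unfold hb N1
  refine Finset.card_lt_card ?_
  rw [Finset.ssubset_iff_of_subset]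
  · refine ⟨y, ?_, ?_⟩
    · rw [mem_N1 hF]
      exact ⟨hyw, hy, hFy.ge⟩
    · rw [h.mem_hb]
      rintro ⟨-, -, h1⟩
      have h6 := gap hk hy hw hyw
      exact h1 (h.symm _ _ ((hF.vis y w hy (by omega)).2 hFy.le))
  · intro z
    rw [mem_N1 hF, h.mem_hb, sub_zero]
    rintro ⟨h3, h4, h5⟩
    have h6 := gap hk h4 hw h3
    refine ⟨h3, h4, ?_⟩
    by_contra h7
    exact h5 (h.symm _ _ ((hF.vis z w h4 (by omega)).2 (by omega)))

/-- The number of the hidden vertices of the class of `-1` ahead of a mate. -/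
theorem hf_pred (h : S2 n k B H r) (hF : FF k H r F) (hq : k ∣ H + 2) {w : ℤ} (hw : k ∣ w) :
    (hf k B r w (-1) : ℤ) = hf k B r w 0 + 1 - eps k := by
  have hk := h.k2
  have h1 := hF.lo w hw
  rw [h.hf_mate hF hw, h.hf_int (a := w + 1) (b := F w - 1) (by omega) (by omega)]
  · obtain ⟨a, ha⟩ := hw
    obtain ⟨c, hc⟩ := F_dvd hF hq ⟨a, ha⟩
    rw [hc, ha]
    have e1 : k * c - 1 - -1 = k * c := by ring
    have e2 : k * a + 1 - -1 = 2 + k * a := by ring
    have e3 : k * c - k * a - 1 = (k - 1) + k * (c - a - 1) := by ring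
    rw [e1, e2, e3, Int.add_mul_ediv_left _ _ (by omega), Int.add_mul_ediv_left _ _ (by omega),
      Int.mul_ediv_cancel_left _ (by omega),
      Int.ediv_eq_zero_of_lt (by omega : (0 : ℤ) ≤ k - 1) (by omega)]
    unfold eps
    by_cases h2 : k = 2
    · rw [if_pos h2, h2]
      have : (2 : ℤ) / 2 = 1 := rfl
      rw [this]
      ring
    · rw [if_neg h2, Int.ediv_eq_zero_of_lt (by omega : (0 : ℤ) ≤ 2) (by omega)]
      ring
  · intro z hz hd
    rcases (show w + 1 ≤ z by omega).eq_or_lt with h2 | h2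
    · rw [← h2]
      constructor
      · intro h3
        exact absurd (h.succ w) h3
      · intro h3
        omega
    · rw [hF.vis w z hw h2]
      omega

/-- The second sight in terms of the number of the hidden mates ahead. -/
theorem F_eq (h : S2 n k B H r) (hF : FF k H r F) (hq : k ∣ H + 2) {w : ℤ} (hw : k ∣ w) :
    F w = w + k * (hf k B r w 0 + 1) := by
  have hk := h.k2
  rw [h.hf_mate hF hw]
  obtain ⟨a, ha⟩ := hw
  obtain ⟨c, hc⟩ := F_dvd hF hq ⟨a, ha⟩
  rw [hc, ha]
  have e3 : k * c - k * a - 1 = (k - 1) + k * (c - a - 1) := by ring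
  rw [e3, Int.add_mul_ediv_left _ _ (by omega),
      Int.ediv_eq_zero_of_lt (by omega : (0 : ℤ) ≤ k - 1) (by omega)]
  ring

/-- The wall is an ear. -/
theorem ear_zero (h : S2 n k B H r) : r (-1) 1 := by
  have hk := h.k2
  obtain ⟨m, m1, m2, m3⟩ := h.fg (-1)
  obtain ⟨p, p1, p2, p3, p4⟩ :=
    exists_first (p := fun z => r (-1) z) (a := 1) (b := m) (by omega) m3
  by_cases hp : p = 1
  · rw [hp] at p3
    exact p3
  · exfalso
    have h2 : r 0 p := h.cn (-1) 0 p (by omega) (by omega) (h.succ (-1)) p3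
      fun m h1 h2 => p4 m (by omega) h2
    exact h.wall p (by omega) (by omega) h2

/-- The case in which the second sights are not mates. -/
theorem main_one (h : S2 n k B H r) (hF : FF k H r F) (hq : ¬ k ∣ H + 2) {w : ℤ} (hw : k ∣ w) :
    r (w - 1) (w + 1) := by
  by_contra hne
  have hk := h.k2
  have ear0 := h.ear_zero
  have e0 : r (0 - 1) (0 + 1) := by simpa using ear0
  obtain ⟨l, l1, l2, l3, l4, l5⟩ := h.nonear hF ear0 hw hne
  have a1 := h.hb_pred hF hw
  have a2 := h.hb_pred hF (dvd_zero k)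
  have a3 := h.hb_eq hF hq hw
  have a4 := h.hb_eq hF hq (dvd_zero k)
  have a5 := h.c00 0 w (dvd_zero k) hw
  have a6 := h.cm0 0 w (dvd_zero k) hw
  have a7 := h.cm0 0 0 (dvd_zero k) (dvd_zero k)
  have a8 := h.ear_le hF (dvd_zero k) e0
  have a9 : (hf k B r w 0 : ℤ) ≤ l := by
    rw [h.hf_mate hF hw]
    have : F w - w - 1 ≤ k * l := by omega
    calc (F w - w - 1) / k ≤ (k * l) / k := Int.ediv_le_ediv (by omega) this
      _ = l := Int.mul_ediv_cancel_left _ (by omega)
  have b1 : (hf k B r w 0 : ℤ) = l := by omega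
  have b2 : hf k B r (0 - 1) 0 = hf k B r 0 0 := by omega
  have b3 : F w = w + 1 + k * l := by
    by_contra hc
    have b4 : F w - w - 1 ≤ (k - 1) + k * (l - 1) := by
      have : k * (l - 1) = k * l - k := by ring
      omega
    have b5 : (F w - w - 1) / k ≤ l - 1 := by
      calc (F w - w - 1) / k ≤ ((k - 1) + k * (l - 1)) / k := Int.ediv_le_ediv (by omega) b4
        _ = l - 1 := by
          rw [Int.add_mul_ediv_left _ _ (by omega), Int.ediv_eq_zero_of_lt (by omega) (by omega)]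
          ring
    rw [← h.hf_mate hF hw] at b5
    omega
  have b6 : k ∣ H + 1 := by
    have := hF.res w hw
    rw [b3] at this
    have e : H + 1 = k * l - (w + 1 + k * l - w - (H + 2)) := by ring
    rw [e]
    exact dvd_sub (dvd_mul_right _ _) this
  have b7 : r (-1) (H + 2) := by
    have := h.ear hF (dvd_zero k) e0 (z := H + 2) (h.F_zero hF).le
    simpa using this
  have b8 : 1 < H + 2 := by
    have h1 := hF.lo 0 (dvd_zero k)
    have h2 := h.F_zero hF
    omega
  obtain ⟨m, m1, m2, m3, m4⟩ := h.w3 w l hw l1 l4 ear0 b7 b6 b8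
  have b9 : hf k B r (0 - 1) 0 < hf k B r 0 0 := by
    refine h.hf_lt (h.ear_hid hF (dvd_zero k) e0) (z := m) (by omega) (by rwa [sub_zero])
      (h.wall m m2 m3) fun _ => ?_
    have e : (0 : ℤ) - 1 = -1 := by norm_num
    rw [e]
    exact m4
  omega

theorem F_mono (h : S2 n k B H r) (hF : FF k H r F) (hq : k ∣ H + 2) {y : ℤ} (hy : k ∣ y) (j : ℕ) :
    F y ≤ F (y + k * j) := by
  have hk := h.k2
  induction j with
  | zero => simp
  | succ j ih =>
    refine ih.trans ?_
    have hz : k ∣ y + k * j := dvd_add hy (dvd_mul_right _ _)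
    have e : y + k * ((j + 1 : ℕ) : ℤ) = y + k * j + k := by
      push_cast
      ring
    have hz' : k ∣ y + k * ((j + 1 : ℕ) : ℤ) := dvd_add hy (dvd_mul_right _ _)
    have h1 := h.F_eq hF hq hz
    have h2 := h.F_eq hF hq hz'
    have h3 := h.c00 _ _ hz hz'
    have h4 := h.hb_le hF hz'
    have h5 := h.N1_eq hF hq hz'
    have e' : y + k * ((j + 1 : ℕ) : ℤ) - k = y + k * j := by
      push_cast
      ring
    rw [e'] at h5
    have h6 : (hf k B r (y + k * j) 0 : ℤ) ≤ hf k B r (y + k * ((j + 1 : ℕ) : ℤ)) 0 + 1 := by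
      omega
    rw [h1, h2]
    have h7 : k * ((hf k B r (y + k * j) 0 : ℤ)) ≤
        k * (hf k B r (y + k * ((j + 1 : ℕ) : ℤ)) 0 + 1) := mul_le_mul_of_nonneg_left h6 (by omega)
    have h8 : k * ((hf k B r (y + k * ((j + 1 : ℕ) : ℤ)) 0 : ℤ) + 1) =
      k * (hf k B r (y + k * ((j + 1 : ℕ) : ℤ)) 0 : ℤ) + k := by ring
    have h9 : k * ((hf k B r (y + k * j) 0 : ℤ) + 1) = k * (hf k B r (y + k * j) 0 : ℤ) + k := by ring
    rw [h8] at h7
    rw [h8, h9, e]
    rw [e] at h7
    linarith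

/-- The case in which the second sights are mates. -/
theorem main_two (h : S2 n k B H r) (hF : FF k H r F) (hq : k ∣ H + 2) {w : ℤ} (hw : k ∣ w) :
    r (w - 1) (w + 1) := by
  by_contra hne
  have hk := h.k2
  have ear0 := h.ear_zero
  have e0 : r (0 - 1) (0 + 1) := by simpa using ear0
  -- the constants
  have T : ∀ x, k ∣ x → hf k B r x 0 + hb k B r x 0 = hf k B r 0 0 + hb k B r 0 0 :=
    fun x hx => h.c00 0 x (dvd_zero k) hx
  have U : ∀ x, k ∣ x → hf k B r (x - 1) 0 + hb k B r (x - 1) 0 =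
      hf k B r 0 (-1) + hb k B r 0 (-1) := fun x hx => h.cm0 0 x (dvd_zero k) hx
  obtain ⟨C, hC⟩ : ∃ C : ℤ, C = (hf k B r 0 (-1) + hb k B r 0 (-1) : ℕ) -
    (hf k B r 0 0 + hb k B r 0 0 : ℕ) - 1 + eps k := ⟨_, rfl⟩
  push_cast at hC
  have G : ∀ x, k ∣ x → (hf k B r (x - 1) 0 : ℤ) = hf k B r (x - k) 0 + C := by
    intro x hx
    have a1 := h.hb_pred hF hx
    have a2 := h.N1_eq hF hq hx
    have a3 := T (x - k) (dvd_sub hx dvd_rfl)
    have a4 := U x hx
    omega
  -- the constant is not positive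
  have hC0 : C ≤ 0 := by
    have a1 := G k dvd_rfl
    rw [sub_self] at a1
    have a2 := h.hf_le_zero hF (dvd_refl k)
    have a3 := h.hf_zero hF
    by_cases he : r (k - 1) (k + 1)
    · have a4 := h.ear_le hF (dvd_refl k) he
      omega
    · obtain ⟨l, l1, l2, l3, l4, l5⟩ := h.nonear hF ear0 (dvd_refl k) he
      have a4 : l ≤ (H + 1) / k := by
        rw [Int.le_ediv_iff_mul_le (by omega)]
        have : l * k = k * l := by ring
        omega
      omega
  -- the mates that are not ears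
  have NE : ∀ x, k ∣ x → ¬ r (x - 1) (x + 1) → C = 0 ∧ hb k B r x 0 = N1 k H F x ∧
      hf k B r (x - k) 0 = hf k B r x 0 + 1 ∧ (∀ y, x < y → (r (x - 1) y ↔ F x < y)) := by
    intro x hx hnx
    obtain ⟨l, l1, l2, l3, l4, l5⟩ := h.nonear hF ear0 hx hnx
    have a1 := h.F_eq hF hq hx
    have a2 : (hf k B r x 0 : ℤ) + 1 ≤ l := by
      by_contra hc
      have : k * (l + 1) ≤ k * ((hf k B r x 0 : ℤ) + 1) :=
        mul_le_mul_of_nonneg_left (by omega) (by omega)
      have : k * (l + 1) = k * l + k := by ring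
      omega
    have a3 := G x hx
    have a4 := T x hx
    have a5 := T (x - k) (dvd_sub hx dvd_rfl)
    have a6 := h.N1_eq hF hq hx
    have a7 := h.hb_le hF hx
    have a8 : l = hf k B r x 0 + 1 := by omega
    refine ⟨by omega, by omega, by omega, fun y hy => ?_⟩
    rw [l4 y hy, a1, ← a8]
    omega
  have hC1 : C = 0 := (NE w hw hne).1
  -- some ear sees a mate behind the gap of the ear
  obtain ⟨y, y1, y2, y3⟩ : ∃ y, k ∣ y ∧ r (y - 1) (y + 1) ∧
      hf k B r (y - k) 0 < hf k B r y 0 := by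
    by_contra hc
    push Not at hc
    have down : ∀ x, k ∣ x → hf k B r x 0 ≤ hf k B r (x - k) 0 := by
      intro x hx
      by_cases he : r (x - 1) (x + 1)
      · exact hc x hx he
      · have := (NE x hx he).2.2.1
        omega
    have down' : ∀ j : ℕ, hf k B r (w + k * j) 0 ≤ hf k B r w 0 := by
      intro j
      induction j with
      | zero => simp
      | succ j ih =>
        have a1 := down (w + k * ((j + 1 : ℕ) : ℤ)) (dvd_add hw (dvd_mul_right _ _))
        have e : w + k * ((j + 1 : ℕ) : ℤ) - k = w + k * j := by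
          push_cast
          ring
        rw [e] at a1
        omega
    obtain ⟨c, hc'⟩ := h.kn
    have hn := h.npos
    have c1 : 1 ≤ c := by
      by_contra hcc
      have : k * c ≤ k * 0 := mul_le_mul_of_nonneg_left (by omega) (by omega)
      omega
    have a1 := down' (c - 1).toNat
    have e : w + k * ((c - 1).toNat : ℤ) = w - k + n := by
      have : ((c - 1).toNat : ℤ) = c - 1 := by omega
      rw [this, hc']
      ring
    rw [e, h.hf_per] at a1
    have a2 := (NE w hw hne).2.2.1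
    omega
  obtain ⟨z, z1, z2, z3, z4⟩ : ∃ z, k ∣ z ∧ y < z ∧ ¬ r y z ∧ r (y - 1) z := by
    by_contra hc
    push Not at hc
    have a1 : hf k B r y 0 ≤ hf k B r (y - 1) 0 := by
      refine h.hf_le fun z h1 h2 h3 => ⟨by omega, ?_⟩
      rw [sub_zero] at h2
      exact hc z h2 h1 h3
    have a2 := G y y1
    omega
  have z5 : z < F y := by
    by_contra hc
    have := gap hk y1 z1 z2
    exact z3 ((hF.vis y z y1 (by omega)).2 (by omega))
  -- no mate between `y - 1` and `z` sees `z`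
  have z6 : ∀ m, k ∣ m → y ≤ m → m < z → ¬ r z m := by
    intro m hm hym hmz hr
    obtain ⟨a, ha⟩ := dvd_sub hm y1
    have a0 : 0 ≤ a := by
      by_contra hc
      have : k * a ≤ k * (-1) := mul_le_mul_of_nonneg_left (by omega) (by omega)
      omega
    have a1 := h.F_mono hF hq y1 a.toNat
    have e : y + k * (a.toNat : ℤ) = m := by
      have : (a.toNat : ℤ) = a := by omega
      rw [this]
      omega
    rw [e] at a1
    have a2 := gap hk hm z1 hmz
    have a3 := (hF.vis m z hm (by omega)).1 (h.symm _ _ hr)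
    omega
  have key := h.w4 z y z1 y1 z2 (h.symm _ _ z4) z6
  -- count the vertices behind `w`
  obtain ⟨y', p1, p2, p3, p4⟩ := key w hw
  have q1 : (hb k B r w (-1) : ℤ) = hb k B r w 0 := by
    have a1 := h.hf_pred hF hq hw
    have a2 := h.cm0 w 0 hw (dvd_zero k)
    have a3 := U 0 (dvd_zero k)
    have a4 := T w hw
    omega
  obtain ⟨x, x1, x2, x3, x4⟩ : ∃ x, k ∣ x ∧ x < w ∧ r w x ∧ ¬ r w (x - 1) := by
    classical
    by_contra hc
    push Not at hc
    have a1 : hb k B r w (-1) < hb k B r w 0 := by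
      unfold hb
      have inj : Function.Injective (fun z : ℤ => z + 1) := fun a b hab => by
        simpa using hab
      rw [← Finset.card_image_of_injective _ inj]
      refine Finset.card_lt_card ?_
      rw [Finset.ssubset_iff_of_subset]
      · refine ⟨y', ?_, ?_⟩
        · rw [h.mem_hb, sub_zero]
          exact ⟨p2, p1, p4⟩
        · rw [Finset.mem_image]
          rintro ⟨t, ht, ht'⟩
          rw [h.mem_hb] at ht
          have e : t = y' - 1 := by
            have : t + 1 = y' := ht'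
            omega
          rw [e] at ht
          exact ht.2.2 p3
      · intro t
        rw [Finset.mem_image, h.mem_hb, sub_zero]
        rintro ⟨t', ht, rfl⟩
        rw [h.mem_hb] at ht
        obtain ⟨b1, b2, b3⟩ := ht
        have b4 : k ∣ t' + 1 := by
          have e : t' - -1 = t' + 1 := by ring
          rwa [e] at b2
        have b5 : t' + 1 ≠ w := by
          intro b6
          apply b3
          have := h.succ t'
          rw [b6] at this
          exact h.symm _ _ this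
        refine ⟨by omega, b4, fun b7 => b3 ?_⟩
        have := hc (t' + 1) b4 (by omega) b7
        have e : t' + 1 - 1 = t' := by ring
        rwa [e] at this
    omega
  have x5 := gap hk x1 hw x2
  have x6 := (hF.vis x w x1 (by omega)).1 (h.symm _ _ x3)
  by_cases hx : r (x - 1) (x + 1)
  · exact x4 (h.symm _ _ (h.ear hF x1 hx x6))
  · have a1 := (NE x x1 hx).2.2.2 w x2
    have a2 : F x = w := by
      by_contra hc
      exact x4 (h.symm _ _ (a1.2 (by omega)))
    have a3 := h.hb_lt hF hw x1 x2 a2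
    have a4 := (NE w hw hne).2.1
    omega

/-- Every mate is an ear. -/
theorem main (h : S2 n k B H r) {w : ℤ} (hw : k ∣ w) : r (w - 1) (w + 1) := by
  obtain ⟨F, hF⟩ := h.exFF
  by_cases hq : k ∣ H + 2
  · exact h.main_two hF hq hw
  · exact h.main_one hF hq hw

end S2

/-- The second elements of matching sets correspond. -/
theorem match_second {P Q : ℤ → Prop} {φ : ℤ → ℤ} (hP : ∀ o, P o → 0 < o)
    (hQ : ∀ o, Q o → 0 < o) (P1 : P 1) (Q1 : Q 1) {s s' : ℤ} (h1 : 1 < s) (h2 : P s)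
    (h3 : ∀ m, 1 < m → m < s → ¬ P m) (h1' : 1 < s') (h2' : Q s')
    (h3' : ∀ m, 1 < m → m < s' → ¬ Q m) (f1 : ∀ o, P o → Q (φ o))
    (f3 : ∀ a b, P a → P b → a < b → φ a < φ b) (f4 : ∀ o', Q o' → ∃ o, P o ∧ φ o = o') :
    φ 1 = 1 ∧ φ s = s' := by
  have a1 : φ 1 = 1 := by
    obtain ⟨o, o1, o2⟩ := f4 1 Q1
    have b1 := hP o o1
    have b2 := hQ _ (f1 1 P1)
    rcases (show 1 ≤ o by omega).eq_or_lt with h | h
    · rw [← h] at o2
      exact o2
    · have := f3 1 o P1 o1 h
      omega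
  refine ⟨a1, ?_⟩
  obtain ⟨o, o1, o2⟩ := f4 s' h2'
  have b1 := hP o o1
  have b2 := f3 1 s P1 h2 h1
  have b3 : s' ≤ φ s := by
    by_contra hc
    exact h3' (φ s) (by omega) (by omega) (f1 s h2)
  have b4 : o ≠ 1 := by
    intro h
    rw [h] at o2
    omega
  have b5 : s ≤ o := by
    by_contra hc
    exact h3 o (by omega) (by omega) o1
  rcases b5.eq_or_lt with h | h
  · rw [h]
    exact o2
  · have := f3 s o h2 o1 h
    omega

open Classical in
/-- The total numbers of the hidden vertices are symmetric. -/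
theorem TZ.tot_symm {n : ℕ} {k B : ℤ} {r : ℤ → ℤ → Prop} (h : TZ n k B r) (a b : ℤ) :
    hf k B r a b + hb k B r a b = hf k B r b a + hb k B r b a := by
  have hn0 : 0 < n := by have := h.npos; omega
  have h1 := h.dc a b
  have h2 := h.dc b a
  have h3 : ∀ c e : ℤ, ∑ v ∈ (Finset.Ico (0 : ℤ) n).filter (fun z => k ∣ z - c), hf k B r v e +
      ∑ v ∈ (Finset.Ico (0 : ℤ) n).filter (fun z => k ∣ z - c), hb k B r v e =
      ((Finset.Ico (0 : ℤ) n).filter (fun z => k ∣ z - c)).card * (hf k B r c e + hb k B r c e) := by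
    intro c e
    rw [← Finset.sum_add_distrib, Finset.sum_congr rfl (g := fun _ => hf k B r c e + hb k B r c e),
      Finset.sum_const, smul_eq_mul]
    intro v hv
    rw [Finset.mem_filter] at hv
    exact h.tot c v e hv.2
  have h4 := h3 a b
  have h5 := h3 b a
  have hAB := Cut.card_class hn0 h.kn a b
  rw [← hAB] at h5
  have hA0 : 0 < ((Finset.Ico (0 : ℤ) n).filter fun z => k ∣ z - a).card := by
    have hne : ((Finset.Ico (0 : ℤ) n).filter fun z => k ∣ z - (0 : ℤ)).Nonempty :=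
      ⟨0, by rw [Finset.mem_filter, Finset.mem_Ico]; exact ⟨⟨le_rfl, by omega⟩, by simp⟩⟩
    rw [Cut.card_class hn0 h.kn a 0]
    exact Finset.card_pos.2 hne
  refine Nat.eq_of_mul_eq_mul_left hA0 ?_
  rw [← h4, ← h5]
  omega

/-- A `T'`-structure with a wall without lap gaps is a structure of the second step. -/
theorem TZ.toS2 {n : ℕ} {k B H : ℤ} {r : ℤ → ℤ → Prop} (h : TZ n k B r) (hk : 2 ≤ k)
    (hf1 : ∀ v, ∃ m, v + 1 < m ∧ m ≤ v + H + 2 ∧ r v m)
    (wall : ∀ m, 1 < m → m < H + 2 → ¬ r 0 m)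
    (lap : ∀ v, k ∣ v → ∀ y, v + 1 < y → r v y → r v (y + 1)) : S2 n k B H r where
  k2 := hk
  kn := h.kn
  npos := h.npos
  hB := h.hB
  symm := h.symm
  shift := h.shift
  succ := h.succ
  far := h.far
  cn := h.cn
  X := h.X
  fg := hf1
  wall := wall
  lap := lap
  w1 := by
    intro v F hv hF1 hF2 hF3
    obtain ⟨φ, f1, f2, f3, f4⟩ := h.fw 0 v (by rwa [sub_zero])
    obtain ⟨m, m1, m2, m3⟩ := hf1 0
    have e : m = H + 2 := by
      by_contra hc
      exact wall m (by omega) (by omega) m3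
    have e1 : (0 : ℤ) + (H + 2) = H + 2 := by ring
    have e2 : v + (F - v) = F := by ring
    obtain ⟨-, g2⟩ := match_second (P := NF r 0) (Q := NF r v) (φ := φ) (s := H + 2) (s' := F - v)
      (fun o ho => ho.1) (fun o ho => ho.1) ⟨by omega, by simpa using h.succ 0⟩
      ⟨by omega, h.succ v⟩ (by omega) ⟨by omega, by rw [e1, ← e]; exact m3⟩
      (fun m h1 h2 h3 => wall m h1 h2 (by have := h3.2; rwa [zero_add] at this)) (by omega)
      ⟨by omega, by rw [e2]; exact hF2⟩
      (fun m h1 h2 h3 => hF3 (v + m) (by omega) (by omega) h3.2) f1 f3 f4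
    have := f2 (H + 2) ⟨by omega, by rw [e1, ← e]; exact m3⟩
    rwa [g2] at this
  w2 := by
    intro w p hw hp1 hp2 hp3 ear0
    have hkw : k ∣ (w - 1) - (-1) := by
      have e : (w - 1) - (-1) = w := by ring
      rwa [e]
    obtain ⟨φ, f1, f2, f3, f4⟩ := h.fw (-1) (w - 1) hkw
    have hs2 : NF r (-1) 2 := ⟨by omega, ear0⟩
    have e2 : w - 1 + (p - w + 1) = p := by ring
    obtain ⟨-, g2⟩ := match_second (P := NF r (-1)) (Q := NF r (w - 1)) (φ := φ) (s := 2)
      (s' := p - w + 1)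
      (fun o ho => ho.1) (fun o ho => ho.1) ⟨by omega, h.succ (-1)⟩
      ⟨by omega, h.succ (w - 1)⟩ (by omega) hs2
      (fun m h1 h2 h3 => by omega) (by omega)
      ⟨by omega, by rw [e2]; exact hp2⟩
      (fun m h1 h2 h3 => hp3 (w - 1 + m) (by omega) (by omega) h3.2) f1 f3 f4
    have := f2 2 hs2
    rw [g2] at this
    have e : p - w - 1 = p - w + 1 - 2 := by ring
    rwa [e]
  w3 := by
    intro w l hw hl hrow ear0 hq hH hH1
    have hkw : k ∣ (-1) - (w - 1) := by
      have e : (-1) - (w - 1) = -w := by ring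
      rw [e]
      exact (dvd_neg).2 hw
    obtain ⟨φ, f1, f2, f3, f4⟩ := h.fw (w - 1) (-1) hkw
    have hkl : 0 < k * l := mul_pos (by omega) (by omega)
    have hs2 : NF r (-1) 2 := ⟨by omega, ear0⟩
    have hsl : NF r (w - 1) (2 + k * l) := ⟨by omega, (hrow _ (by omega)).2 (by omega)⟩
    obtain ⟨g1, g2⟩ := match_second (P := NF r (w - 1)) (Q := NF r (-1)) (φ := φ) (s := 2 + k * l)
      (s' := 2) (fun o ho => ho.1) (fun o ho => ho.1) ⟨by omega, h.succ (w - 1)⟩
      ⟨by omega, h.succ (-1)⟩ (by omega) hsl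
      (fun m h1 h2 h3 => by
        have := (hrow (w - 1 + m) (by omega)).1 h3.2
        omega) (by omega) hs2 (fun m h1 h2 h3 => by omega) f1 f3 f4
    have e3 : (-1 : ℤ) + (H + 3) = H + 2 := by ring
    obtain ⟨o, o1, o2⟩ := f4 (H + 3) ⟨by omega, by rw [e3]; exact hq⟩
    have o3 : 2 + k * l < o := by
      rcases lt_trichotomy o (2 + k * l) with h1 | h1 | h1
      · exfalso
        have := f3 o (2 + k * l) o1 hsl h1
        omega
      · exfalso
        rw [h1, g2] at o2
        omega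
      · exact h1
    have o4 : k ∣ o - (2 + k * l) := by
      have a1 := f2 o o1
      rw [o2] at a1
      have e : o - (2 + k * l) = (H + 1) - (H + 3 - o) - k * l := by ring
      rw [e]
      exact dvd_sub (dvd_sub hH a1) (dvd_mul_right _ _)
    obtain ⟨c, hc⟩ := o4
    have hc1 : 1 ≤ c := by
      by_contra hcc
      have : k * c ≤ k * 0 := mul_le_mul_of_nonneg_left (by omega) (by omega)
      omega
    have hc2 : k ≤ k * c := by
      have : k * 1 ≤ k * c := mul_le_mul_of_nonneg_left hc1 (by omega)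
      omega
    have hP : NF r (w - 1) (1 + k * l + k) := ⟨by omega, (hrow _ (by omega)).2 (by omega)⟩
    have b1 := f3 _ _ hsl hP (by omega)
    have b2 := f3 _ _ hP o1 (by omega)
    have b3 := f1 _ hP
    have b4 := f2 _ hP
    refine ⟨φ (1 + k * l + k) - 1, ?_, by omega, by omega, ?_⟩
    · have e : φ (1 + k * l + k) - 1 = φ (1 + k * l + k) - (1 + k * l + k) + k * (l + 1) := by ring
      rw [e]
      exact dvd_add b4 (dvd_mul_right _ _)
    · have := b3.2
      have e : (-1 : ℤ) + φ (1 + k * l + k) = φ (1 + k * l + k) - 1 := by ring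
      rwa [e] at this
  w4 := by
    intro x y hx hy hyx hr hno x' hx'
    obtain ⟨φ, f1, f2, f3, f4⟩ := h.bw x x' (dvd_sub hx' hx)
    have e1 : x - (x - y + 1) = y - 1 := by ring
    have ho : NB r x (x - y + 1) := ⟨by omega, by rw [e1]; exact hr⟩
    have h1 : NB r x 1 := ⟨by omega, h.pred x⟩
    have a1 := (f1 1 h1).1
    have a2 := f3 1 (x - y + 1) h1 ho (by omega)
    have a3 := f1 _ ho
    have a4 := f2 _ ho
    have a5 : k ∣ φ (x - y + 1) - 1 := by
      have e : φ (x - y + 1) - 1 = φ (x - y + 1) - (x - y + 1) + (x - y) := by ring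
      rw [e]
      exact dvd_add a4 (dvd_sub hx hy)
    refine ⟨x' - φ (x - y + 1) + 1, ?_, by omega, ?_, ?_⟩
    · have e : x' - φ (x - y + 1) + 1 = x' - (φ (x - y + 1) - 1) := by ring
      rw [e]
      exact dvd_sub hx' a5
    · have e : x' - φ (x - y + 1) + 1 - 1 = x' - φ (x - y + 1) := by ring
      rw [e]
      exact a3.2
    · intro hc
      have e : x' - φ (x - y + 1) + 1 = x' - (φ (x - y + 1) - 1) := by ring
      rw [e] at hc
      obtain ⟨o, o1, o2⟩ := f4 (φ (x - y + 1) - 1) ⟨by omega, hc⟩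
      have o3 := f2 o o1
      rw [o2] at o3
      have o4 : k ∣ o := by
        have e : o = (φ (x - y + 1) - 1) - (φ (x - y + 1) - 1 - o) := by ring
        rw [e]
        exact dvd_sub a5 o3
      have o5 : o < x - y + 1 := by
        by_contra hcc
        rcases (show x - y + 1 ≤ o by omega).eq_or_lt with h5 | h5
        · rw [← h5] at o2
          omega
        · have := f3 _ _ ho o1 h5
          omega
      have := o1.1
      exact hno (x - o) (dvd_sub hx o4) (by omega) (by omega) o1.2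
  c00 := by
    intro v v' hv hv'
    exact h.tot v v' 0 (dvd_sub hv' hv)
  cm0 := by
    intro v v' hv hv'
    have h1 := h.tot (-1) (v' - 1) 0 (by
      have e : v' - 1 - -1 = v' := by ring
      rwa [e])
    have h2 := h.tot 0 v (-1) (by rwa [sub_zero])
    have h3 := h.tot_symm (-1) 0
    omega

/-- STEP II: if the mates of a wall have no lap gaps ahead, then all of them are ears. -/
theorem TZ.step2 {n : ℕ} {k B H : ℤ} {r : ℤ → ℤ → Prop} (h : TZ n k B r) (hk : 2 ≤ k)
    (hf1 : ∀ v, ∃ m, v + 1 < m ∧ m ≤ v + H + 2 ∧ r v m)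
    (wall : ∀ m, 1 < m → m < H + 2 → ¬ r 0 m)
    (lap : ∀ v, k ∣ v → ∀ y, v + 1 < y → r v y → r v (y + 1)) {w : ℤ} (hw : k ∣ w) :
    r (w - 1) (w + 1) :=
  (h.toS2 hk hf1 wall lap).main hw

end Tp

end VisMap
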