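import Pool.Agent.Lib.MP_9f3af0_lcB.Step2
import Pool.Agent.Lib.MP_9f3af0_lcB.FH

/-!
# MP_9f3af0_lc: no nonear mate of a wall without lap gaps, in the full `n`-gon (helper72)

`N2 n k h r`: all first gaps have length at most `h`, the vertex `0` hides `(1, h + 2)`, and for
every mate `v` (multiple of `k`) the forward hidden vertices `FH r v` form an interval `(v + 1, F v)`.
-/

namespace VisMap

namespace LemB

open Cut

/-- The setting of the second step in the full `n`-gon. -/
structure N2 (n : ℕ) (k h : ℤ) (r : ℤ → ℤ → Prop) : Prop where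
  hz : ZRel n r
  k2 : 2 ≤ k
  kn : k ∣ (n : ℤ)
  n3 : 2 * k ≤ n
  hh : 1 ≤ h
  hw : Wd n k r
  hJ : JB n 1 (h + 2) r
  wall : ∀ m, 1 < m → m < h + 2 → ¬ r 0 m
  lap : ∀ v, k ∣ v → ∀ y, v + 1 < y → y + 1 < v + n → ¬ FH r v y → ¬ FH r v (y + 1)

namespace N2

variable {n : ℕ} {k h : ℤ} {r : ℤ → ℤ → Prop}

theorem perR (H : N2 n k h r) (a b : ℤ) : r a (b + n) ↔ r a b := (ZR.of_zRel H.hz).perR a b

theorem comm (H : N2 n k h r) (a b : ℤ) : r a b ↔ r b a := ⟨H.hz.symm _ _, H.hz.symm _ _⟩

theorem mono (H : N2 n k h r) {v y z : ℤ} (hv : k ∣ v) (h1 : v + 1 < y) (h2 : y ≤ z)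
    (h3 : z < v + n) (hy : ¬ FH r v y) : ¬ FH r v z := by
  have key : ∀ j : ℕ, y + j < v + n → ¬ FH r v (y + j) := by
    intro j
    induction j with
    | zero => intro _; simpa using hy
    | succ j ih =>
      intro hj
      push_cast at hj ⊢
      have := H.lap v hv (y + j) (by omega) (by omega) (ih (by omega))
      rwa [add_assoc] at this
  have := key (z - y).toNat (by omega)
  have e : y + ((z - y).toNat : ℤ) = z := by omega
  rwa [e] at this

/-- A visible pair is not forward hidden. -/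
theorem nf (H : N2 n k h r) {a b : ℤ} (hr : r a b) : ¬ FH r a b ∧ ¬ FH r b (a + n) :=
  ⟨fun hf => hf.not_r hr, fun hf => hf.not_r ((H.perR b a).2 (H.hz.symm _ _ hr))⟩

theorem vis_of (H : N2 n k h r) {a b : ℤ} (h1 : a < b) (h2 : b < a + n) (h3 : ¬ FH r a b)
    (h4 : ¬ FH r b (a + n)) : r a b := by
  by_contra hno
  rcases FH.of_hidden H.hz h1 h2 hno with hf | hf
  · exact h3 hf
  · exact h4 hf

theorem gap (H : N2 n k h r) {x y : ℤ} (hx : k ∣ x) (hy : k ∣ y) (hxy : x < y) : x + k ≤ y :=
  Tp.S2.gap H.k2 hx hy hxy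

theorem wallvis (H : N2 n k h r) : r 0 (h + 2) ∧ h + 2 < n := by
  obtain ⟨m, m1, m2, m3, m4⟩ := H.hJ.1 0
  have e : m = h + 2 := by
    by_contra hc
    exact H.wall m (by omega) (by omega) m4
  rw [e] at m4 m3
  exact ⟨m4, by omega⟩

/-- The second sights of the mates. -/
theorem second (H : N2 n k h r) {v F : ℤ} (hv : k ∣ v) (h1 : v + 1 < F) (h2 : F < v + n)
    (h3 : r v F) (h4 : ∀ m, v + 1 < m → m < F → ¬ r v m) : k ∣ F - v - (h + 2) := by
  obtain ⟨w1, w2⟩ := H.wallvis
  have h5 : F ≤ v + (h + 2) := by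
    obtain ⟨m, m1, m2, m3, m4⟩ := H.hJ.1 v
    by_contra hc
    exact h4 m (by omega) (by omega) m4
  have h6 := second_dvd H.hw H.hz (v := v) (v' := 0) (d := F - v) (d' := h + 2)
    (by rw [zero_sub]; exact (dvd_neg).2 hv) (by omega) (by omega)
    (by rw [add_sub_cancel]; exact h3) (fun m m1 m2 => h4 _ (by omega) (by omega))
    (by have := H.hh; omega) w2 (by rw [zero_add]; exact w1)
    (fun m m1 m2 => by rw [zero_add]; exact H.wall m m1 m2) (by omega)
  have e : F - v - (h + 2) = -(h + 2 - (F - v)) := by ring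
  rw [e]
  exact (dvd_neg).2 h6

/-- The wall is an ear. -/
theorem ear0 (H : N2 n k h r) : r (-1) 1 := by
  by_contra hno
  obtain ⟨w1, w2⟩ := H.wallvis
  obtain ⟨m, m1, m2, m3, m4⟩ := H.hJ.1 (-1)
  obtain ⟨p, p1, p2, p3, p4⟩ := exists_first (p := fun z => r (-1) z) (a := 1) (b := m)
    (by omega) m4
  have hp1 : p ≠ 1 := by
    intro e
    rw [e] at p3
    exact hno p3
  have hs : r (-1) 0 := by
    have := H.hz.succ (-1)
    simpa using this
  have h0p : r 0 p := H.hz.cn (-1) 0 p (by omega) (by omega) (by omega) hs p3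
    fun z z1 z2 => p4 z (by omega) z2
  exact H.wall p (by omega) (by omega) h0p

/-- The vertex before an ear sees all the mates seen by the ear, if the second sight of a mate is
not a mate. -/
theorem ear_sub (H : N2 n k h r) (hq : ¬ k ∣ h + 2) {v z : ℤ} (hv : k ∣ v) (hz : k ∣ z)
    (h1 : v < z) (h2 : z < v + n) (he : r (v - 1) (v + 1)) (hr : r v z) : r (v - 1) z := by
  have hk := H.k2
  have g1 := H.gap hv hz h1
  have g2 := H.gap hz (dvd_add hv H.kn) h2
  obtain ⟨a1, a2⟩ := H.nf hr
  refine H.vis_of (by omega) (by omega) (fun hf => ?_) (fun hf => ?_)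
  · rcases FH.cross (r := r) (a := v - 1) (b := v) (c := v + 1) (d := z) (by omega) (by omega)
      (by omega) hf with hc | hc
    · exact hc.not_r he
    · exact a1 hc
  · have g3 := hf.lt
    apply hq
    have h5 : k ∣ (v + n) - z - (h + 2) := by
      refine H.second hz (by omega) (by omega) ((H.perR z v).2 (H.hz.symm _ _ hr))
        fun m m1 m2 hm => ?_
      have h6 : m ≠ v - 1 + n := by
        intro e
        rw [e] at hm
        exact hf.not_r hm
      exact H.mono hz m1 (by omega : m ≤ v - 1 + n) (by omega) (H.nf hm).1 hf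
    have e : h + 2 = (v + n - z) - (v + n - z - (h + 2)) := by ring
    rw [e]
    exact dvd_sub (dvd_sub (dvd_add hv H.kn) hz) h5

/-- A mate `w` that is not an ear sees all the mates seen by the vertex before it, except
`w - 2` (if `k = 2`). -/
theorem nonear_sub (H : N2 n k h r) {w z : ℤ} (hw : k ∣ w) (hz : k ∣ z)
    (h1 : w < z) (h2 : z < w + n) (h3 : z ≠ w - 2 + n) (hne : ¬ r (w - 1) (w + 1))
    (hr : r (w - 1) z) : r w z := by
  have hk := H.k2
  have g1 := H.gap hw hz h1
  have g2 := H.gap hz (dvd_add hw H.kn) h2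
  obtain ⟨p, p1, p2, p3, p4⟩ := exists_first (p := fun z => r (w - 1) z) (a := w + 1) (b := z)
    (by omega) hr
  have hp1 : p ≠ w + 1 := by
    intro e
    rw [e] at p3
    exact hne p3
  have hs : r (w - 1) w := by
    have := H.hz.succ (w - 1)
    rwa [sub_add_cancel] at this
  have hwp : r w p := H.hz.cn (w - 1) w p (by omega) (by omega) (by omega) hs p3
    fun z z1 z2 => p4 z (by omega) z2
  obtain ⟨a1, a2⟩ := H.nf hr
  refine H.vis_of h1 h2 (H.mono hw (by omega : w + 1 < p) p2 h2 (H.nf hwp).1) ?_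
  have e : w - 1 + n + 1 = w + n := by ring
  have h5 := H.lap z hz (w - 1 + n) (by omega) (by omega) a2
  rwa [e] at h5

theorem nb_red (H : N2 n k h r) {v : ℤ} (P : ℤ → Prop) (hP : ∀ z, P (z + n) ↔ P z)
    (hp : ∀ z, v ≤ z → z < v + n → P z) (z : ℤ) : P z := by
  have hn : (0 : ℤ) < n := by have := H.n3; have := H.k2; omega
  have e1 := Int.emod_add_mul_ediv (z - v) n
  have h1 := hp (v + (z - v) % n) (by have := Int.emod_nonneg (z - v) hn.ne'; omega)
    (by have := Int.emod_lt_of_pos (z - v) hn; omega)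
  have h2 := (per_mul (p := P) hP (v + (z - v) % n) ((z - v) / n)).2 h1
  have e2 : v + (z - v) % n + (z - v) / n * n = z := by linarith [mul_comm (n : ℤ) ((z - v) / n)]
  rwa [e2] at h2

theorem Hc_ear (H : N2 n k h r) (hq : ¬ k ∣ h + 2) {v : ℤ} (hv : k ∣ v) (he : r (v - 1) (v + 1)) :
    ∀ z, k ∣ z → Nb n r v z → Nb n r (v - 1) z := by
  have hn : (0 : ℤ) < n := by have := H.n3; have := H.k2; omega
  refine H.nb_red (v := v) (fun z => k ∣ z → Nb n r v z → Nb n r (v - 1) z) (fun z => ?_)
    fun z h1 h2 hz hN => ?_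
  · rw [Nb.perR H.hz, Nb.perR H.hz, dvd_add_left H.kn]
  · rcases h1.eq_or_lt with h3 | h3
    · right
      rw [← h3]
      have := H.hz.succ (v - 1)
      rwa [sub_add_cancel] at this
    · rcases hN with h4 | h4
      · exfalso
        have := Int.le_of_dvd (by omega) h4
        omega
      · right
        exact H.ear_sub hq hv hz h3 h2 he h4

theorem Hc_nonear (H : N2 n k h r) {v : ℤ} (hv : k ∣ v) (he : ¬ r (v - 1) (v + 1)) :
    ∀ z, k ∣ z → Nb n r (v - 1) z → Nb n r v z ∨ (k = 2 ∧ (n : ℤ) ∣ z - (v - 2)) := by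
  have hn : (0 : ℤ) < n := by have := H.n3; have := H.k2; omega
  have hk := H.k2
  refine H.nb_red (v := v) (fun z => k ∣ z → Nb n r (v - 1) z →
    Nb n r v z ∨ (k = 2 ∧ (n : ℤ) ∣ z - (v - 2))) (fun z => ?_)
    fun z h1 h2 hz hN => ?_
  · have e : z + (n : ℤ) - (v - 2) = z - (v - 2) + n := by ring
    rw [Nb.perR H.hz, Nb.perR H.hz, dvd_add_left H.kn, e, dvd_add_self_right]
  · rcases h1.eq_or_lt with h3 | h3
    · left; left
      rw [← h3, sub_self]
      exact dvd_zero _
    · have g2 := H.gap hz (dvd_add hv H.kn) h2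
      by_cases h5 : z = v - 2 + n
      · right
        refine ⟨by omega, ?_⟩
        rw [h5]
        have e : v - 2 + (n : ℤ) - (v - 2) = n := by ring
        rw [e]
      · rcases hN with h4 | h4
        · exfalso
          have := Int.le_of_dvd (by omega) h4
          omega
        · left; right
          exact H.nonear_sub hv hz h3 h2 h5 he h4

theorem not_two (H : N2 n k h r) (hq : ¬ k ∣ h + 2) (h2 : k = 2) {v : ℤ} (hv : k ∣ v) :
    ¬ Nb n r v (v - 2) := by
  have hn3 := H.n3
  rintro (h3 | h3)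
  · have e : v - 2 - v = -2 := by ring
    rw [e, dvd_neg] at h3
    have := Int.le_of_dvd (by omega) h3
    omega
  · apply hq
    have hv2 : k ∣ v - 2 := dvd_sub hv (by rw [h2])
    have h4 := H.second hv2 (F := v) (by omega) (by omega) (H.hz.symm _ _ h3)
      (fun m m1 m2 => by omega)
    have e : h + 2 = 2 - (v - (v - 2) - (h + 2)) := by ring
    rw [e]
    exact dvd_sub (by rw [h2]) h4

open Classical in
/-- If some mate is not an ear, every mate sees all the mates seen by the vertex before it. -/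
theorem twin (H : N2 n k h r) (hq : ¬ k ∣ h + 2) {w : ℤ} (hw : k ∣ w)
    (hne : ¬ r (w - 1) (w + 1)) {v z : ℤ} (hv : k ∣ v) (hz : k ∣ z) (hN : Nb n r (v - 1) z) :
    Nb n r v z ∨ (k = 2 ∧ (n : ℤ) ∣ z - (v - 2)) := by
  have hn : 0 < n := by have := H.n3; have := H.k2; omega
  by_cases he : r (v - 1) (v + 1)
  swap
  · exact H.Hc_nonear hv he z hz hN
  have h3 := Hc_class H.hz hn H.kn H.hw (v := 0) (v' := w) (e := 0) (by simpa using hw)
  have h4 := Hc_class H.hz hn H.kn H.hw (v := 0) (v' := v) (e := 0) (by simpa using hv)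
  have h5 := Hc_class H.hz hn H.kn H.hw (v := 0 - 1) (v' := w - 1) (e := 0)
    (by have e : w - 1 - (0 - 1) = w := by ring
        rwa [e])
  have h6 := Hc_class H.hz hn H.kn H.hw (v := 0 - 1) (v' := v - 1) (e := 0)
    (by have e : v - 1 - (0 - 1) = v := by ring
        rwa [e])
  by_cases h2k : k = 2
  · -- the sets of the hidden mates
    have hn' : (n : ℤ) ≠ 0 := by omega
    have hn0 : (0 : ℤ) < n := by omega
    have red : ∀ y, y % (n : ℤ) = y + (-(y / n)) * n := fun y => by
      linarith [Int.emod_add_mul_ediv y n, mul_comm (n : ℤ) (y / n)]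
    have memI : ∀ y, y % (n : ℤ) ∈ Finset.Ico (0 : ℤ) n := fun y => by
      rw [Finset.mem_Ico]
      exact ⟨Int.emod_nonneg _ hn', Int.emod_lt_of_pos _ hn0⟩
    have nbr : ∀ u y, Nb n r u (y % n) ↔ Nb n r u y := fun u y => by
      rw [red]
      exact per_mul (p := fun z => Nb n r u z) (fun z => Nb.perR H.hz u z) y _
    have kr : ∀ y, k ∣ y % (n : ℤ) ↔ k ∣ y := fun y => by
      rw [red, dvd_add_left (dvd_mul_of_dvd_right H.kn _)]
    have inP : ∀ u, k ∣ u → (u - 2) % n ∈ (Finset.Ico (0 : ℤ) n).filter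
        (fun z => k ∣ z - 0 ∧ ¬ Nb n r u z) := fun u hu => by
      rw [Finset.mem_filter, sub_zero, nbr, kr]
      exact ⟨memI _, dvd_sub hu (by rw [h2k]), H.not_two hq h2k hu⟩
    have notQ : ∀ u, k ∣ u → (u - 2) % n ∉ (Finset.Ico (0 : ℤ) n).filter
        (fun z => k ∣ z - 0 ∧ ¬ Nb n r (u - 1) z) := fun u hu => by
      rw [Finset.mem_filter, nbr]
      rintro ⟨-, -, h7⟩
      apply h7
      right
      have := H.hz.succ (u - 2)
      have e : u - 2 + 1 = u - 1 := by ring
      rw [e] at this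
      exact H.hz.symm _ _ this
    have ear_le : ∀ u, k ∣ u → r (u - 1) (u + 1) → insert ((u - 2) % n) ((Finset.Ico (0 : ℤ) n).filter
        (fun z => k ∣ z - 0 ∧ ¬ Nb n r (u - 1) z)) ⊆ (Finset.Ico (0 : ℤ) n).filter
        (fun z => k ∣ z - 0 ∧ ¬ Nb n r u z) := by
      intro u hu heu y hy
      rw [Finset.mem_insert] at hy
      rcases hy with hy | hy
      · rw [hy]
        exact inP u hu
      · rw [Finset.mem_filter] at hy ⊢
        exact ⟨hy.1, hy.2.1, fun h7 => hy.2.2 (H.Hc_ear hq hu heu y (by simpa using hy.2.1) h7)⟩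
    have a1 := Finset.card_le_card (ear_le 0 (dvd_zero k) (by simpa using H.ear0))
    rw [Finset.card_insert_of_notMem (notQ 0 (dvd_zero k))] at a1
    have a2 : Hc n k r w 0 ≤ Hc n k r (w - 1) 0 + 1 := by
      unfold Hc
      refine le_trans (Finset.card_le_card (t := insert ((w - 2) % n) ((Finset.Ico (0 : ℤ) n).filter
        (fun z => k ∣ z - 0 ∧ ¬ Nb n r (w - 1) z))) fun y hy => ?_) (Finset.card_insert_le _ _)
      rw [Finset.mem_filter] at hy
      rw [Finset.mem_insert]
      by_cases h7 : Nb n r (w - 1) y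
      · left
        rcases H.Hc_nonear hw hne y (by simpa using hy.2.1) h7 with h8 | ⟨-, h8⟩
        · exact absurd h8 hy.2.2
        · have h9 := Finset.mem_Ico.1 hy.1
          rw [← Int.emod_eq_of_lt h9.1 h9.2]
          exact (Int.ModEq.symm ((Int.modEq_iff_dvd).2 h8))
      · right
        rw [Finset.mem_filter]
        exact ⟨hy.1, hy.2.1, h7⟩
    have a3 : (Hc n k r (0 - 1) 0) + 1 ≤ Hc n k r 0 0 := a1
    have a4 : Hc n k r v 0 = Hc n k r (v - 1) 0 + 1 := by omega
    have a5 := Finset.eq_of_subset_of_card_le (ear_le v hv he) (by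
      rw [Finset.card_insert_of_notMem (notQ v hv)]
      exact a4.le)
    by_contra hcon
    push Not at hcon
    have a6 : z % n ∈ (Finset.Ico (0 : ℤ) n).filter (fun z => k ∣ z - 0 ∧ ¬ Nb n r v z) := by
      rw [Finset.mem_filter, sub_zero, nbr, kr]
      exact ⟨memI _, hz, hcon.1⟩
    rw [← a5, Finset.mem_insert] at a6
    rcases a6 with a7 | a7
    · apply hcon.2 h2k
      exact Int.ModEq.dvd a7.symm
    · rw [Finset.mem_filter, nbr] at a7
      exact a7.2.2 hN
  · have h1 := Hc_le (n := n) (k := k) (r := r) (V := fun z => k ∣ z) (i := 0) (p := 0 - 1) (e := 0)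
      (H.Hc_ear hq (dvd_zero k) (by simpa using H.ear0)) (fun z hz => by simpa using hz)
    have h2 := Hc_le (n := n) (k := k) (r := r) (V := fun z => k ∣ z) (i := w - 1) (p := w) (e := 0)
      (fun z hz hN => (H.Hc_nonear hw hne z hz hN).resolve_right fun h7 => h2k h7.1)
      (fun z hz => by simpa using hz)
    left
    exact (twins_of H.hz hn H.kn (V := fun z => k ∣ z) (i := v) (p := v - 1) (e := 0)
      (H.Hc_ear hq hv he) (fun z hz => by simpa using hz) (by omega) (z := z)
      (by simpa using hz)).2 hN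

/-- The second backward sight of the vertex after a nonear is congruent to `-1`. -/
theorem second_bw (H : N2 n k h r) {w O : ℤ} (hw : k ∣ w) (h1 : w + 1 - n < O) (h2 : O < w)
    (h3 : r (w + 1) O) (h4 : ∀ m, O < m → m < w → ¬ r (w + 1) m) : k ∣ O + 1 := by
  have hk := H.k2
  have hn := H.n3
  have h5 := second_dvd (wd_mir H.hz H.hw) (zrel_mir H.hz) (v := -1) (v' := -(w + 1)) (d := 2)
    (d' := w + 1 - O)
    (by
      have e : -(w + 1) - -1 = -w := by ring
      rw [e]
      exact (dvd_neg).2 hw) (by omega) (by omega)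
    (by
      show r (- -1) (-(-1 + 2))
      have := H.hz.symm _ _ H.ear0
      have e : -(-1 + 2) = (-1 : ℤ) := by ring
      rw [e, neg_neg]
      exact this) (fun m m1 m2 => by omega) (by omega) (by omega)
    (by
      show r (- -(w + 1)) (-(-(w + 1) + (w + 1 - O)))
      have e : -(-(w + 1) + (w + 1 - O)) = O := by ring
      rw [e, neg_neg]
      exact h3)
    (fun m m1 m2 => by
      show ¬ r (- -(w + 1)) (-(-(w + 1) + m))
      have e : -(-(w + 1) + m) = w + 1 - m := by ring
      rw [e, neg_neg]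
      exact h4 _ (by omega) (by omega)) (by omega)
  have e : O + 1 = w - (w + 1 - O - 2) := by ring
  rw [e]
  exact dvd_sub hw h5

/-- `FH r (w + 1) (O + 1 + n)` with the corner `O + n` bounds `n`. -/
theorem small_of (H : N2 n k h r) {w O : ℤ} (h1 : w + 1 - n < O) (h2 : O < w)
    (h3 : r (w + 1) O) (h4 : ∀ m, O < m → m < w → ¬ r (w + 1) m)
    (hf : FH r (w + 1) (O + 1 + n)) : (n : ℤ) ≤ 2 * h + 2 := by
  obtain ⟨m, m1, m2, m3, m4⟩ := H.hJ.2 (w + 1)
  have h5 : w + 1 - (h + 2) ≤ O := by
    by_contra hc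
    exact h4 m (by omega) (by omega) m4
  obtain ⟨c, c1, c2, c3⟩ := hf
  have hc : c = O + n := by
    by_contra hne
    exact c3 (w + 1) (O + n) le_rfl c1 (by omega) (by omega) ((H.perR _ _).2 h3)
  rw [hc] at c3 c1 c2
  have := (side_le H.hz H.hJ c1 c2 (by omega) c3).1
  omega

open Classical in
/-- The visible mates in `[0, h + 2)` : none, if some mates see each other. -/
theorem indep (H : N2 n k h r) {x x' : ℤ} (hx : k ∣ x) (hx' : k ∣ x') (h0 : 0 ≤ x) (h1 : x < x')
    (h2 : x' < h + 2) : ¬ r x x' := by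
  have hk := H.k2
  have hn : 0 < n := by have := H.n3; omega
  obtain ⟨w1, w2⟩ := H.wallvis
  rcases h0.eq_or_lt with h3 | h3
  · rw [← h3]
    have := H.gap hx hx' h1
    exact H.wall x' (by omega) h2
  intro hr
  have g1 := H.gap (dvd_zero k) hx h3
  have g2 := H.gap hx hx' h1
  have hlt : Hc n k r x 0 < Hc n k r 0 0 := by
    have h4 : ∀ z, k ∣ z → 0 < z → z < n → r 0 z → r x z := by
      intro z hz z1 z2 hr0
      have hzq : h + 2 ≤ z := by
        by_contra hc
        have := H.gap (dvd_zero k) hz z1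
        exact H.wall z (by omega) (by omega) hr0
      have g3 := H.gap hz H.kn z2
      obtain ⟨a1, a2⟩ := H.nf hr0
      rw [zero_add] at a2
      refine H.vis_of (by omega) (by omega)
        (H.mono hx (by omega) (by omega : x' ≤ z) (by omega) (H.nf hr).1)
        (H.mono hz (by omega) (by omega : (n : ℤ) ≤ x + n) (by omega) a2)
    unfold Hc
    have hxm : x ∈ (Finset.Ico (0 : ℤ) n).filter (fun z => k ∣ z - 0 ∧ ¬ Nb n r 0 z) := by
      rw [Finset.mem_filter, Finset.mem_Ico]
      refine ⟨⟨h0, by omega⟩, by simpa using hx, ?_⟩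
      rintro (h5 | h5)
      · rw [sub_zero] at h5
        have := Int.le_of_dvd h3 h5
        omega
      · exact H.wall x (by omega) (by omega) h5
    have hxm' : x' ∈ (Finset.Ico (0 : ℤ) n).filter (fun z => k ∣ z - 0 ∧ ¬ Nb n r 0 z) := by
      rw [Finset.mem_filter, Finset.mem_Ico]
      refine ⟨⟨by omega, by omega⟩, by simpa using hx', ?_⟩
      rintro (h5 | h5)
      · rw [sub_zero] at h5
        have := Int.le_of_dvd (by omega) h5
        omega
      · exact H.wall x' (by omega) (by omega) h5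
    have hsub : ((Finset.Ico (0 : ℤ) n).filter (fun z => k ∣ z - 0 ∧ ¬ Nb n r x z)) ⊆
        insert 0 ((((Finset.Ico (0 : ℤ) n).filter (fun z => k ∣ z - 0 ∧ ¬ Nb n r 0 z)).erase x').erase
          x) := by
      intro z
      rw [Finset.mem_filter, Finset.mem_Ico]
      rintro ⟨⟨z1, z2⟩, z3, z4⟩
      rw [sub_zero] at z3
      rcases z1.eq_or_lt with z5 | z5
      · rw [← z5]
        exact Finset.mem_insert_self _ _
      · refine Finset.mem_insert_of_mem ?_
        rw [Finset.mem_erase, Finset.mem_erase, Finset.mem_filter, Finset.mem_Ico, sub_zero]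
        refine ⟨?_, ?_, ⟨z1, z2⟩, z3, ?_⟩
        · rintro rfl
          exact z4 (Or.inl (by rw [sub_self]; exact dvd_zero _))
        · rintro rfl
          exact z4 (Or.inr hr)
        · rintro (h5 | h5)
          · rw [sub_zero] at h5
            have := Int.le_of_dvd z5 h5
            omega
          · exact z4 (Or.inr (h4 z z3 z5 z2 h5))
    have h6 := Finset.card_le_card hsub
    have h7 := Finset.card_insert_le (0 : ℤ)
      ((((Finset.Ico (0 : ℤ) n).filter (fun z => k ∣ z - 0 ∧ ¬ Nb n r 0 z)).erase x').erase x)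
    have h8 : x ∈ ((Finset.Ico (0 : ℤ) n).filter (fun z => k ∣ z - 0 ∧ ¬ Nb n r 0 z)).erase x' :=
      Finset.mem_erase.2 ⟨by omega, hxm⟩
    have h9 := Finset.card_erase_of_mem h8
    have h10 := Finset.card_erase_of_mem hxm'
    have h11 : 0 < (((Finset.Ico (0 : ℤ) n).filter
        (fun z => k ∣ z - 0 ∧ ¬ Nb n r 0 z)).erase x').card := Finset.card_pos.2 ⟨x, h8⟩
    omega
  have := Hc_class H.hz hn H.kn H.hw (v := 0) (v' := x) (e := 0) (by simpa using hx)
  omega

open Classical in
/-- If `n ≤ 2 h + 3`, no two mates see each other. -/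
theorem blind (H : N2 n k h r) (hs : (n : ℤ) ≤ 2 * h + 3) {x y : ℤ} (hx : k ∣ x) (hy : k ∣ y) :
    ¬ r x y := by
  have hk := H.k2
  have hn : 0 < n := by have := H.n3; omega
  obtain ⟨w1, w2⟩ := H.wallvis
  obtain ⟨T, hT⟩ : ∃ T, T = (Finset.Ico (0 : ℤ) (h + 2)).filter fun z => k ∣ z := ⟨_, rfl⟩
  obtain ⟨S, hS⟩ : ∃ S, S = (Finset.Ico (h + 2 : ℤ) n).filter fun z => k ∣ z := ⟨_, rfl⟩
  have memT : ∀ z, z ∈ T ↔ (0 ≤ z ∧ z < h + 2) ∧ k ∣ z := by
    intro z; rw [hT, Finset.mem_filter, Finset.mem_Ico]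
  have memS : ∀ z, z ∈ S ↔ (h + 2 ≤ z ∧ z < n) ∧ k ∣ z := by
    intro z; rw [hS, Finset.mem_filter, Finset.mem_Ico]
  -- `S` is smaller than `T`
  have hST : S.card < T.card := by
    have h0 : (0 : ℤ) ∈ T := (memT 0).2 ⟨⟨le_rfl, by omega⟩, dvd_zero _⟩
    have h1 : S.card ≤ (T.erase 0).card := by
      refine Finset.card_le_card_of_injOn (fun z => n - z) (fun z hz => ?_) (fun a _ b _ hab => ?_)
      · rw [Finset.mem_coe, memS] at hz
        rw [Finset.mem_coe, Finset.mem_erase, memT]
        exact ⟨by show (n : ℤ) - z ≠ 0; omega,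
          ⟨by show 0 ≤ (n : ℤ) - z; omega, by show (n : ℤ) - z < h + 2; omega⟩,
          dvd_sub H.kn hz.2⟩
      · have : (n : ℤ) - a = n - b := hab
        omega
    have h2 := Finset.card_erase_of_mem h0
    have h3 : 0 < T.card := Finset.card_pos.2 ⟨0, h0⟩
    omega
  have hdis : Disjoint T S := by
    rw [Finset.disjoint_left]
    intro z h1 h2
    rw [memT] at h1
    rw [memS] at h2
    omega
  have huni : (Finset.Ico (0 : ℤ) n).filter (fun z => k ∣ z - 0) = T ∪ S := by
    ext z
    rw [Finset.mem_union, memT, memS, Finset.mem_filter, Finset.mem_Ico, sub_zero]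
    constructor
    · rintro ⟨h1, h2⟩
      rcases lt_or_ge z (h + 2) with h3 | h3
      · exact Or.inl ⟨⟨h1.1, h3⟩, h2⟩
      · exact Or.inr ⟨⟨h3, h1.2⟩, h2⟩
    · rintro (⟨h1, h2⟩ | ⟨h1, h2⟩)
      · exact ⟨⟨h1.1, by omega⟩, h2⟩
      · exact ⟨⟨by omega, h1.2⟩, h2⟩
  -- the number of the hidden mates
  obtain ⟨c, hc⟩ : ∃ c, c = Hc n k r 0 0 := ⟨_, rfl⟩
  have hcl : ∀ v, k ∣ v → Hc n k r v 0 = c := fun v hv => by
    rw [hc]
    exact Hc_class H.hz hn H.kn H.hw (v := 0) (v' := v) (e := 0) (by simpa using hv)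
  have hsplit : ∀ v, k ∣ v → (T.filter fun z => ¬ Nb n r v z).card +
      (S.filter fun z => ¬ Nb n r v z).card = c := by
    intro v hv
    rw [← hcl v hv]
    unfold Hc
    rw [← Finset.card_union_of_disjoint (Finset.disjoint_filter_filter hdis), ← Finset.filter_union,
      ← huni, Finset.filter_filter]
  have hTT : ∀ t ∈ T, (T.filter fun z => ¬ Nb n r t z).card + 1 = T.card := by
    intro t ht
    have ht' := (memT t).1 ht
    have e : (T.filter fun z => ¬ Nb n r t z) = T.erase t := by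
      ext z
      rw [Finset.mem_filter, Finset.mem_erase]
      constructor
      · rintro ⟨h1, h2⟩
        refine ⟨?_, h1⟩
        rintro rfl
        exact h2 (Or.inl (by rw [sub_self]; exact dvd_zero _))
      · rintro ⟨h1, h2⟩
        have hz' := (memT z).1 h2
        refine ⟨h2, ?_⟩
        rintro (h3 | h3)
        · have h4 : z - t = 0 := Int.eq_zero_of_abs_lt_dvd h3 (by
            rw [abs_lt]; constructor <;> omega)
          omega
        · rcases lt_or_gt_of_ne h1 with h4 | h4
          · exact H.indep hz'.2 ht'.2 hz'.1.1 h4 ht'.1.2 (H.hz.symm _ _ h3)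
          · exact H.indep ht'.2 hz'.2 ht'.1.1 h4 hz'.1.2 h3
    rw [e, Finset.card_erase_of_mem ht]
    have : 0 < T.card := Finset.card_pos.2 ⟨t, ht⟩
    omega
  have hvis : ∀ (A : Finset ℤ) (v : ℤ), (A.filter fun z => Nb n r v z).card +
      (A.filter fun z => ¬ Nb n r v z).card = A.card := fun A v =>
    Finset.card_filter_add_card_filter_not (s := A) (p := fun z => Nb n r v z)
  have h0T : (0 : ℤ) ∈ T := (memT 0).2 ⟨⟨le_rfl, by omega⟩, dvd_zero _⟩
  -- `m` is the number of the visible mates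
  obtain ⟨m, hm⟩ : ∃ m, m = (S.filter fun z => Nb n r 0 z).card := ⟨_, rfl⟩
  have a0 := hsplit 0 (dvd_zero _)
  have b0 := hTT 0 h0T
  have c0 := hvis S 0
  have key := Finset.card_mul_le_card_mul (s := T) (t := S) (fun t s => Nb n r t s) (m := m) (n := m)
    (fun t ht => by
      have a1 := hsplit t ((memT t).1 ht).2
      have b1 := hTT t ht
      have c1 := hvis S t
      show m ≤ (S.filter fun z => Nb n r t z).card
      omega)
    (fun s hs => by
      show (T.bipartiteBelow (fun t s => Nb n r t s) s).card ≤ m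
      have a1 := hsplit s ((memS s).1 hs).2
      have c1 := hvis S s
      have d1 := hvis T s
      have e1 : 0 < (S.filter fun z => Nb n r s z).card := Finset.card_pos.2 ⟨s, by
        rw [Finset.mem_filter]
        exact ⟨hs, Or.inl (by rw [sub_self]; exact dvd_zero _)⟩⟩
      have e : (T.bipartiteBelow (fun t s => Nb n r t s) s) = T.filter fun z => Nb n r s z := by
        unfold Finset.bipartiteBelow
        refine Finset.filter_congr fun z _ => ⟨fun h1 => h1.symm H.hz, fun h1 => h1.symm H.hz⟩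
      rw [e]
      omega)
  have hm0 : m = 0 := by
    by_contra hne
    have h1 : S.card * m < T.card * m := Nat.mul_lt_mul_of_pos_right hST (Nat.pos_of_ne_zero hne)
    omega
  -- so every mate hides all the other mates
  intro hr
  have hxy : ¬ (n : ℤ) ∣ y - x := by
    rintro ⟨j, hj⟩
    have e : y = x + j * n := by linarith [mul_comm (n : ℤ) j]
    rw [e] at hr
    exact H.hz.irrefl x ((per_mul (p := fun z => r x z) (fun z => H.perR x z) x j).1 hr)
  have hn' : (n : ℤ) ≠ 0 := by omega
  have hn0 : (0 : ℤ) < n := by omega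
  have e1 := Int.emod_add_mul_ediv y n
  have e2 : y % n = y + (-(y / n)) * n := by linarith [mul_comm (n : ℤ) (y / n)]
  have e3 := Int.emod_add_mul_ediv x n
  have e4 : x % n = x + (-(x / n)) * n := by linarith [mul_comm (n : ℤ) (x / n)]
  have hy2 : k ∣ y % n := by
    rw [e2]
    exact dvd_add hy (dvd_mul_of_dvd_right H.kn _)
  have hx2 : k ∣ x % n := by
    rw [e4]
    exact dvd_add hx (dvd_mul_of_dvd_right H.kn _)
  have hyr : r x (y % n) := by
    rw [e2]
    exact (per_mul (p := fun z => r x z) (fun z => H.perR x z) y _).2 hr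
  -- count the visible mates of `x`
  have a1 := hsplit x hx
  have c1 := hvis S x
  have d1 := hvis T x
  have m1 : y % n ∈ T ∪ S := by
    rw [← huni, Finset.mem_filter, Finset.mem_Ico, sub_zero]
    exact ⟨⟨Int.emod_nonneg _ hn', Int.emod_lt_of_pos _ hn0⟩, hy2⟩
  have m2 : x % n ∈ T ∪ S := by
    rw [← huni, Finset.mem_filter, Finset.mem_Ico, sub_zero]
    exact ⟨⟨Int.emod_nonneg _ hn', Int.emod_lt_of_pos _ hn0⟩, hx2⟩
  have hne : x % n ≠ y % n := by
    intro e
    apply hxy
    exact Int.ModEq.dvd e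
  have hsub : ({x % n, y % n} : Finset ℤ) ⊆ (T ∪ S).filter fun z => Nb n r x z := by
    intro z hz
    rw [Finset.mem_insert, Finset.mem_singleton] at hz
    rw [Finset.mem_filter]
    rcases hz with rfl | rfl
    · refine ⟨m2, Or.inl ?_⟩
      rw [e4]
      have e : x + -(x / n) * (n : ℤ) - x = -(x / n) * n := by ring
      rw [e]
      exact dvd_mul_left _ _
    · exact ⟨m1, Or.inr hyr⟩
  have h2 := Finset.card_le_card hsub
  rw [Finset.card_pair hne, Finset.filter_union,
    Finset.card_union_of_disjoint (Finset.disjoint_filter_filter hdis)] at h2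
  omega

/-- STEP II, if the second sights of the mates are not mates. -/
theorem main_one (H : N2 n k h r) (hq : ¬ k ∣ h + 2) {w : ℤ} (hw : k ∣ w) :
    r (w - 1) (w + 1) := by
  by_contra hne
  have hn3 := H.n3
  obtain ⟨m, m1, m2, m3, m4⟩ := H.hJ.2 (w + 1)
  obtain ⟨O, O1, O2, O3, O4⟩ := exists_last (p := fun z => r (w + 1) z) (a := m) (b := w - 1)
    (by omega) m4
  have hO : O ≠ w - 1 := by
    intro e
    rw [e] at O3
    exact hne (H.hz.symm _ _ O3)
  have O5 : ∀ m, O < m → m < w → ¬ r (w + 1) m := fun m h1 h2 => O4 m h1 (by omega)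
  have hO1 := H.second_bw hw (by omega) (by omega) O3 O5
  have hpw : r (w + 1) w := H.hz.symm _ _ (H.hz.succ w)
  have hper : ∀ z, r (w + 1 - n) z ↔ r (w + 1) z := fun z => by
    have := H.hz.per (w + 1 - n) z
    rw [sub_add_cancel] at this
    exact this.symm
  have hOw : r O w := H.hz.cn (w + 1 - n) O w (by omega) (by omega) (by omega)
    ((hper _).2 O3) ((hper _).2 hpw) fun z z1 z2 hzr => O5 z z1 z2 ((hper _).1 hzr)
  have g1 := H.gap hO1 hw (by omega : O + 1 < w)
  have hk := H.k2
  have h1 : Nb n r (O + 1) w := by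
    have e : O + 1 - 1 = O := by ring
    rcases H.twin hq hw hne hO1 hw (Or.inr (by rw [e]; exact hOw)) with h1 | ⟨-, h1⟩
    · exact h1
    · exfalso
      have := Int.le_of_dvd (by omega) h1
      omega
  have h2 : r (O + 1) w := by
    rcases h1 with h3 | h3
    · exfalso
      have := Int.le_of_dvd (by omega) h3
      omega
    · exact h3
  have h3 : ¬ FH r (O + 1) (w + 1) :=
    H.lap (O + 1) hO1 w (by omega) (by omega) (H.nf h2).1
  have h4 : ¬ r (O + 1) (w + 1) := fun h5 => O5 (O + 1) (by omega) (by omega) (H.hz.symm _ _ h5)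
  rcases FH.of_hidden H.hz (by omega) (by omega) h4 with h5 | h5
  · exact h3 h5
  · have h6 := H.small_of (by omega) (by omega) O3 O5 h5
    exact H.blind (by omega) hO1 hw h2

end N2

variable {n : ℕ} {k h : ℤ} {r : ℤ → ℤ → Prop}

/-- The symmetrised relation `¬ FH`. -/
def rt (n : ℕ) (r : ℤ → ℤ → Prop) (a b : ℤ) : Prop :=
  a ≠ b ∧ (a < b → b < a + n → ¬ FH r a b) ∧ (b < a → a < b + n → ¬ FH r b a)

theorem rt_lt {n : ℕ} {r : ℤ → ℤ → Prop} {a b : ℤ} (h1 : a < b) (h2 : b < a + n) :
    rt n r a b ↔ ¬ FH r a b :=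
  ⟨fun h => h.2.1 h1 h2, fun h => ⟨by omega, fun _ _ => h, fun h3 => by omega⟩⟩

theorem rt_symm {n : ℕ} {r : ℤ → ℤ → Prop} {a b : ℤ} (h : rt n r a b) : rt n r b a :=
  ⟨h.1.symm, h.2.2, h.2.1⟩

theorem rt_far {n : ℕ} {r : ℤ → ℤ → Prop} {a b : ℤ} (hn : 0 < n) (h2 : a + n ≤ b) : rt n r a b :=
  ⟨by omega, fun _ h => by omega, fun h => by omega⟩

theorem N2.rt_of (H : N2 n k h r) {a b : ℤ} (hne : a ≠ b) (hr : r a b) : rt n r a b :=
  ⟨hne, fun _ _ => (H.nf hr).1, fun _ _ => (H.nf (H.hz.symm _ _ hr)).1⟩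

/-- A forward hidden pair `(v, z)` of a mate `v` is short. -/
theorem N2.mate_near (H : N2 n k h r) {v z : ℤ} (hv : k ∣ v) (h2 : z < v + n)
    (hf : FH r v z) : z ≤ v + h + 1 := by
  obtain ⟨m, m1, m2, m3, m4⟩ := H.hJ.1 v
  by_contra hc
  exact H.mono hv m1 (by omega : m ≤ z) h2 (H.nf m4).1 hf

/-- A forward hidden pair `(v - 1, z)` is short if `v` is a mate. -/
theorem N2.pred_near (H : N2 n k h r) {v z : ℤ} (hv : k ∣ v) (h2 : z < v - 1 + n)
    (hf : FH r (v - 1) z) : z ≤ v + h + 1 := by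
  have hl := hf.lt
  by_contra hc
  obtain ⟨m, m1, m2, m3, m4⟩ := H.hJ.1 (v - 1)
  obtain ⟨p, p1, p2, p3, p4⟩ := exists_first (p := fun z => r (v - 1) z) (a := v + 1) (b := m)
    (by omega) m4
  have hs : r (v - 1) v := by
    have := H.hz.succ (v - 1)
    rwa [sub_add_cancel] at this
  have hvp : r v p := H.hz.cn (v - 1) v p (by omega) (by omega) (by omega) hs p3
    fun z z1 z2 => p4 z (by omega) z2
  rcases FH.cross (r := r) (a := v - 1) (b := v) (c := p) (d := z) (by omega) (by omega)
    (by omega) hf with h3 | h3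
  · exact h3.not_r p3
  · have := H.mate_near hv (by omega) h3
    omega

/-- The first gap is forward hidden. -/
theorem N2.gap_fh (H : N2 n k h r) (hb : 2 * h + 2 < n) {v F m : ℤ} (h1 : v + 1 < F)
    (h2 : F < v + n) (h3 : r v F) (h4 : ∀ m, v + 1 < m → m < F → ¬ r v m) (m1 : v + 1 < m)
    (m2 : m < F) : FH r v m := by
  have hn3 := H.n3
  have hk := H.k2
  obtain ⟨m', n1, n2, n3, n4⟩ := H.hJ.1 v
  have hF : F ≤ v + h + 2 := by
    by_contra hc
    exact h4 m' n1 (by omega) n4
  obtain ⟨c, c1, c2, c3, c4⟩ := H.hz.nc v (v + 1) F (by omega) h1 h2 (H.hz.succ v) h3 h4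
  rcases le_or_gt m c with hc | hc
  · exact ⟨v + 1, by omega, m1, fun a b a1 a2 b1 b2 => c3 a b a1 a2 b1 (by omega)⟩
  · exfalso
    have hR : Hd r m F (v + n) := fun a b a1 a2 b1 b2 hab =>
      c4 b a b1 b2 (by omega) a2 (H.hz.symm _ _ hab)
    have := (side_le H.hz H.hJ m2 (by omega) (by omega) hR).2
    omega

/-- The next sight for `rt` is the next sight. -/
theorem N2.next_r (H : N2 n k h r) (hb : 2 * h + 2 < n) {v F : ℤ} (h1 : v + 1 < F)
    (h3 : rt n r v F) (h4 : ∀ m, v + 1 < m → m < F → ¬ rt n r v m) :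
    r v F ∧ F ≤ v + h + 2 ∧ F < v + n ∧ ∀ m, v + 1 < m → m < F → ¬ r v m := by
  obtain ⟨m', n1, n2, n3, n4⟩ := H.hJ.1 v
  obtain ⟨G, G1, G2, G3, G4⟩ := exists_first (p := fun z => r v z) (a := v + 2) (b := m')
    (by omega) n4
  have hFG : F ≤ G := by
    by_contra hc
    exact h4 G (by omega) (by omega) (H.rt_of (by omega) G3)
  have hGF : G ≤ F := by
    by_contra hc
    have := H.gap_fh hb (by omega) (by omega) G3 (fun m m1 m2 => G4 m (by omega) m2) h1
      (by omega : F < G)
    exact (rt_lt (by omega) (by omega)).1 h3 this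
  have e : F = G := by omega
  rw [e]
  exact ⟨G3, by omega, by omega, fun m m1 m2 => G4 m (by omega) m2⟩

open Classical in
/-- The hidden vertices of a class are hidden ahead or behind. -/
theorem N2.Hc_split (H : N2 n k h r) {v e : ℤ}
    (hdis : ∀ z, v < z → z < v + n → k ∣ z - e → FH r v z → ¬ FH r z (v + n)) :
    Tp.hf k (2 * h) (rt n r) v e + Tp.hb k (2 * h) (rt n r) v e = Hc n k r v e := by
  have hk := H.k2
  have hn : 0 < n := by have := H.n3; omega
  have hh := H.hh
  have e0 : Hc n k r v e = ((Finset.Ioo (0 : ℤ) n).filter fun o =>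
      k ∣ v + o - e ∧ (FH r v (v + o) ∨ FH r (v + o) (v + n))).card := by
    unfold Hc
    rw [← card_shift (P := fun z => k ∣ z - e ∧ ¬ Nb n r v z) hn (fun z => by
      rw [dvd_per H.kn, Nb.perR H.hz]) v]
    congr 1
    ext o
    rw [Finset.mem_filter, Finset.mem_filter, Finset.mem_Ico, Finset.mem_Ioo]
    constructor
    · rintro ⟨⟨h1, h2⟩, h3, h4⟩
      rcases h1.eq_or_lt with h5 | h5
      · exfalso
        apply h4
        left
        rw [← h5, add_zero, sub_self]
        exact dvd_zero _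
      · refine ⟨⟨h5, h2⟩, h3, FH.of_hidden H.hz (by omega) (by omega) fun h6 => h4 (Or.inr h6)⟩
    · rintro ⟨⟨h1, h2⟩, h3, h4⟩
      refine ⟨⟨h1.le, h2⟩, h3, ?_⟩
      rintro (h5 | h5)
      · rw [add_sub_cancel_left] at h5
        have := Int.le_of_dvd h1 h5
        omega
      · exact (FH.iff_hidden H.hz (by omega) (by omega)).2 h4 h5
  have e1 : Tp.hf k (2 * h) (rt n r) v e = ((Finset.Ioo (0 : ℤ) n).filter fun o =>
      k ∣ v + o - e ∧ FH r v (v + o)).card := by
    unfold Tp.hf
    refine Finset.card_bij' (fun z _ => z - v) (fun o _ => v + o) ?_ ?_ ?_ ?_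
    · intro z
      simp only [Finset.mem_filter, Finset.mem_Ioc, Finset.mem_Ioo]
      rintro ⟨⟨h1, h2⟩, h3, h4⟩
      rw [add_sub_cancel]
      have h5 : z < v + n := by
        by_contra hc
        exact h4 (rt_far hn (by omega))
      exact ⟨⟨by omega, by omega⟩, h3, by
        by_contra h6
        exact h4 ((rt_lt h1 h5).2 h6)⟩
    · intro o
      simp only [Finset.mem_filter, Finset.mem_Ioc, Finset.mem_Ioo]
      rintro ⟨⟨h1, h2⟩, h3, h4⟩
      have h5 := FH.near H.hz H.hJ (by omega) h4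
      exact ⟨⟨by omega, by omega⟩, h3, fun h6 => (rt_lt (by omega) (by omega)).1 h6 h4⟩
    · intro z _
      show v + (z - v) = z
      ring
    · intro o _
      show v + o - v = o
      ring
  have e2 : Tp.hb k (2 * h) (rt n r) v e = ((Finset.Ioo (0 : ℤ) n).filter fun o =>
      k ∣ v + o - e ∧ FH r (v + o) (v + n)).card := by
    unfold Tp.hb
    refine Finset.card_bij' (fun z _ => z - v + n) (fun o _ => v + o - n) ?_ ?_ ?_ ?_
    · intro z
      simp only [Finset.mem_filter, Finset.mem_Ico, Finset.mem_Ioo]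
      rintro ⟨⟨h1, h2⟩, h3, h4⟩
      have h5 : v - n < z := by
        by_contra hc
        exact h4 (rt_symm (rt_far hn (by omega)))
      have E1 : v + (z - v + n) = z + n := by ring
      rw [E1]
      refine ⟨⟨by omega, by omega⟩, ?_, ?_⟩
      · have e' : z + n - e = z - e + n := by ring
        rw [e']
        exact dvd_add h3 H.kn
      · rw [FH.shift H.hz]
        by_contra h6
        exact h4 (rt_symm ((rt_lt h2 (by omega)).2 h6))
    · intro o
      simp only [Finset.mem_filter, Finset.mem_Ico, Finset.mem_Ioo]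
      rintro ⟨⟨h1, h2⟩, h3, h4⟩
      have E1 : v + o = (v + o - n) + n := by ring
      rw [E1, FH.shift H.hz] at h4
      have h5 := FH.near H.hz H.hJ (by omega) h4
      refine ⟨⟨by omega, by omega⟩, ?_, fun h6 =>
        (rt_lt (by omega) (by omega)).1 (rt_symm h6) h4⟩
      have e' : v + o - n - e = v + o - e - n := by ring
      rw [e']
      exact dvd_sub h3 H.kn
    · intro z _
      show v + (z - v + n) - n = z
      ring
    · intro o _
      show v + o - n - v + n = o
      ring
  rw [e0, e1, e2, ← Finset.card_union_of_disjoint]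
  · congr 1
    ext o
    simp only [Finset.mem_filter, Finset.mem_union, Finset.mem_Ioo]
    tauto
  · rw [Finset.disjoint_left]
    intro o
    simp only [Finset.mem_filter, Finset.mem_Ioo]
    rintro ⟨⟨h1, h2⟩, h3, h4⟩ ⟨-, -, h5⟩
    exact hdis (v + o) (by omega) (by omega) h3 h4 h5

/-- The backward letters. -/
theorem N2.w4 (H : N2 n k h r) (hb : 2 * h + 3 < n) (hq : k ∣ h + 2) {x y : ℤ} (hx : k ∣ x)
    (hy : k ∣ y) (hyx : y < x) (hr : rt n r x (y - 1))
    (hno : ∀ m, k ∣ m → y ≤ m → m < x → ¬ rt n r x m) {x' : ℤ} (hx' : k ∣ x') :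
    ∃ y', k ∣ y' ∧ y' < x' ∧ rt n r x' (y' - 1) ∧ ¬ rt n r x' y' := by
  have hk := H.k2
  have hn : 0 < n := by have := H.n3; omega
  have hh := H.hh
  have a0 := hno y hy le_rfl hyx
  have a1 : x < y + n := by
    by_contra hc
    exact a0 (rt_symm (rt_far hn (by omega)))
  have a2 : FH r y x := by
    by_contra hc
    exact a0 (rt_symm ((rt_lt hyx a1).2 hc))
  have a3 := H.mate_near hy a1 a2
  have a4 : r (y - 1) x := by
    refine H.vis_of (by omega) (by omega) ((rt_lt (by omega) (by omega)).1 (rt_symm hr))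
      fun hf => ?_
    have := H.mate_near hx (by omega) hf
    omega
  have a5 : ∀ m, k ∣ m → y ≤ m → m < x → ¬ r x m := fun m m1 m2 m3 m4 =>
    hno m m1 m2 m3 (H.rt_of (by omega) m4)
  -- the words, read backward
  obtain ⟨φ, f1, f2, f3, f4⟩ := wd_mir H.hz H.hw (-x) (-x') (by
    have e : -x' - -x = x - x' := by ring
    rw [e]
    exact dvd_sub hx hx')
  have mem : ∀ v o, Fw n (mir r) (-v) o ↔ 0 < o ∧ o < n ∧ r v (v - o) := by
    intro v o
    have e : -(-v + o) = v - o := by ring
    show (0 < o ∧ o < n ∧ r (- -v) (-(-v + o))) ↔ _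
    rw [e, neg_neg]
  have one : ∀ v, Fw n (mir r) (-v) 1 := fun v => (mem v 1).2 ⟨by omega, by omega, by
    have := H.hz.succ (v - 1)
    rw [sub_add_cancel] at this
    exact H.hz.symm _ _ this⟩
  have φ1 : φ 1 = 1 := by
    obtain ⟨o, o1, o2⟩ := f4 1 (one x')
    have b1 := ((mem _ _).1 o1).1
    have b2 := ((mem _ _).1 (f1 1 (one x))).1
    rcases (show 1 ≤ o by omega).eq_or_lt with h | h
    · rw [← h] at o2
      exact o2
    · have := f3 1 o (one x) o1 h
      omega
  have ho : Fw n (mir r) (-x) (x - y + 1) := (mem _ _).2 ⟨by omega, by omega, by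
    have e : x - (x - y + 1) = y - 1 := by ring
    rw [e]
    exact H.hz.symm _ _ a4⟩
  have g1 := f3 1 (x - y + 1) (one x) ho (by omega)
  have g2 := f1 _ ho
  have g3 := f2 _ ho
  rw [φ1] at g1
  obtain ⟨p, hp⟩ : ∃ p, p = φ (x - y + 1) := ⟨_, rfl⟩
  rw [← hp] at g1 g2 g3
  rw [mem] at g2
  have hp1 : k ∣ p - 1 := by
    have e : p - 1 = p - (x - y + 1) + (x - y) := by ring
    rw [e]
    exact dvd_add g3 (dvd_sub hx hy)
  have hy' : k ∣ x' - p + 1 := by
    have e : x' - p + 1 = x' - (p - 1) := by ring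
    rw [e]
    exact dvd_sub hx' hp1
  have hvis : ∀ m, k ∣ m → x' - p + 1 ≤ m → m < x' → ¬ r x' m := by
    intro m m1 m2 m3 m4
    obtain ⟨o, o1, o2⟩ := f4 (x' - m) ((mem _ _).2 ⟨by omega, by omega, by
      rw [sub_sub_cancel]
      exact m4⟩)
    have o3 := (mem _ _).1 o1
    have o4 : k ∣ o := by
      have := f2 o o1
      rw [o2] at this
      have e : o = (x' - m) - (x' - m - o) := by ring
      rw [e]
      exact dvd_sub (dvd_sub hx' m1) this
    have o5 : o < x - y + 1 := by
      by_contra hc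
      rcases (show x - y + 1 ≤ o by omega).eq_or_lt with h | h
      · rw [← h, ← hp] at o2
        omega
      · have := f3 _ _ ho o1 h
        omega
    exact a5 (x - o) (dvd_sub hx o4) (by omega) (by omega) o3.2.2
  refine ⟨x' - p + 1, hy', by omega, ?_, ?_⟩
  · have e : x' - p + 1 - 1 = x' - p := by ring
    rw [e]
    exact H.rt_of (by omega) g2.2.2
  · intro hrt
    have b1 : ¬ r (x' - p + 1) x' := fun h1 => hvis _ hy' le_rfl (by omega) (H.hz.symm _ _ h1)
    rcases FH.of_hidden H.hz (by omega) (by omega) b1 with h1 | h1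
    · exact (rt_lt (by omega) (by omega)).1 (rt_symm hrt) h1
    · -- the second sight of `x'`
      obtain ⟨m, m1, m2, m3, m4⟩ := H.hJ.1 x'
      obtain ⟨F, F1, F2, F3, F4⟩ := exists_first (p := fun z => r x' z) (a := x' + 2) (b := m)
        (by omega) m4
      have c1 := H.second hx' (by omega) (by omega) F3 fun m m1 m2 => F4 m (by omega) m2
      have c2 : k ∣ F := by
        have e : F = (F - x' - (h + 2)) + x' + (h + 2) := by ring
        rw [e]
        exact dvd_add (dvd_add c1 hx') hq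
      have c3 : x' - p + 1 + n < F := by
        by_contra hc
        exact H.mono hx' (by omega : x' + 1 < F) (by omega : F ≤ x' - p + 1 + n) (by omega)
          (H.nf F3).1 h1
      refine hvis (F - n) (dvd_sub c2 H.kn) (by omega) (by omega) ?_
      rw [← H.perR, sub_add_cancel]
      exact F3

/-- The structure of the second step (helper96) for the relation `rt`. -/
theorem N2.toS2 (H : N2 n k h r) (hb : 2 * h + 3 < n) (hq : k ∣ h + 2) :
    Tp.S2 n k (2 * h) h (rt n r) where
  k2 := H.k2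
  kn := H.kn
  npos := by have := H.n3; have := H.k2; omega
  hB := by have := H.hh; omega
  symm a b hab := rt_symm hab
  shift a b := by
    unfold rt
    have e1 := FH.shift H.hz (v := a) (y := b)
    have e2 := FH.shift H.hz (v := b) (y := a)
    constructor
    · rintro ⟨h1, h2, h3⟩
      exact ⟨by omega, fun h4 h5 => by rw [← e1]; exact h2 (by omega) (by omega),
        fun h4 h5 => by rw [← e2]; exact h3 (by omega) (by omega)⟩
    · rintro ⟨h1, h2, h3⟩
      exact ⟨by omega, fun h4 h5 => by rw [e1]; exact h2 (by omega) (by omega),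
        fun h4 h5 => by rw [e2]; exact h3 (by omega) (by omega)⟩
  succ a := ⟨by omega, fun _ _ => FH.not_succ, fun h1 => by omega⟩
  far a b hab := by
    have := H.hh
    refine ⟨by omega, fun h1 h2 h3 => ?_, fun h1 => by omega⟩
    have := FH.near H.hz H.hJ h2 h3
    omega
  cn i s t h1 h2 hs ht hm := by
    have hn : 0 < n := by have := H.n3; have := H.k2; omega
    have hk := H.k2
    rcases lt_or_ge t (i + n) with h3 | h3
    · rw [rt_lt h1 (by omega)] at hs
      rw [rt_lt (by omega) h3] at ht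
      rw [rt_lt h2 (by omega)]
      refine FH.cn H.hz h1 h2 h3 hs ht fun m m1 m2 => ?_
      by_contra h4
      exact hm m m1 m2 ((rt_lt (by omega) (by omega)).2 h4)
    · have h4 : i + n - 1 ≤ s := by
        by_contra hc
        refine hm (i + n - 1) (by omega) (by omega) (H.rt_of (by omega) (Cut.last H.hz i))
      have h5 : t = s + 1 := by
        by_contra hc
        exact hm (s + 1) (by omega) (by omega) (rt_far hn (by omega))
      rw [h5]
      exact ⟨by omega, fun _ _ => FH.not_succ, fun h6 => by omega⟩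
  X a b c d h1 h2 h3 hac hbd := by
    refine ⟨by omega, fun h4 h5 h6 => ?_, fun h4 => by omega⟩
    rcases FH.cross h1 h2 h3 h6 with h7 | h7
    · exact hac.2.1 (by omega) (by omega) h7
    · exact hbd.2.1 (by omega) (by omega) h7
  fg v := by
    obtain ⟨m, m1, m2, m3, m4⟩ := H.hJ.1 v
    exact ⟨m, m1, by omega, H.rt_of (by omega) m4⟩
  wall m h1 h2 hr := by
    obtain ⟨w1, w2⟩ := H.wallvis
    have := H.gap_fh (by omega) (v := 0) (F := h + 2) (m := m) (by omega) (by omega) w1
      (fun m m1 m2 => H.wall m (by omega) m2) (by omega) h2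
    exact (rt_lt (by omega) (by omega)).1 hr this
  lap v hv y h1 hr := by
    have hn : 0 < n := by have := H.n3; have := H.k2; omega
    rcases lt_or_ge (y + 1) (v + n) with h2 | h2
    · rw [rt_lt (by omega) (by omega)] at hr ⊢
      exact H.lap v hv y h1 h2 hr
    · exact rt_far hn h2
  w1 v F hv h1 h2 h3 := by
    obtain ⟨a1, a2, a3, a4⟩ := H.next_r (by omega) h1 h2 h3
    exact H.second hv h1 a3 a1 a4
  w2 w p hw h1 h2 h3 _ := by
    have hk := H.k2
    have hn3 := H.n3
    obtain ⟨a1, a2, a3, a4⟩ := H.next_r (by omega) (v := w - 1) (F := p) (by omega) h2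
      (fun m m1 m2 => h3 m (by omega) m2)
    have h6 := second_dvd H.hw H.hz (v := -1) (v' := w - 1) (d := 2) (d' := p - w + 1)
      (by
        have e : w - 1 - -1 = w := by ring
        rwa [e]) (by omega) (by omega)
      (by
        have e : (-1 : ℤ) + 2 = 1 := by ring
        rw [e]
        exact H.ear0) (fun m m1 m2 => by omega)
      (by omega) (by omega)
      (by
        have e : w - 1 + (p - w + 1) = p := by ring
        rw [e]
        exact a1) (fun m m1 m2 => a4 _ (by omega) (by omega)) (by omega)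
    have e : p - w - 1 = p - w + 1 - 2 := by ring
    rwa [e]
  w3 w l hw hl hrow h1 h2 h3 h4 := by
    exfalso
    have hk := H.k2
    have h5 : k ∣ 1 := by
      have e : (1 : ℤ) = (h + 2) - (h + 1) := by ring
      rw [e]
      exact dvd_sub hq h3
    have := Int.le_of_dvd (by omega) h5
    omega
  w4 x y hx hy hyx hr hno x' hx' := H.w4 hb hq hx hy hyx hr hno hx'
  c00 v v' hv hv' := by
    have hn : 0 < n := by have := H.n3; have := H.k2; omega
    have key : ∀ u, k ∣ u → ∀ z, u < z → z < u + n → k ∣ z - 0 → FH r u z → ¬ FH r z (u + n) := by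
      intro u hu z z1 z2 z3 z4 z5
      rw [sub_zero] at z3
      have := H.mate_near hu z2 z4
      have := H.mate_near z3 (by omega) z5
      omega
    rw [H.Hc_split (key v hv), H.Hc_split (key v' hv')]
    exact Hc_class H.hz hn H.kn H.hw (dvd_sub hv' hv)
  cm0 v v' hv hv' := by
    have hn : 0 < n := by have := H.n3; have := H.k2; omega
    rw [H.Hc_split (v := v' - 1) (e := 0), H.Hc_split (v := v) (e := -1)]
    · rw [Hc_class H.hz hn H.kn H.hw (v := -1) (v' := v' - 1) (e := 0)
        (by have e : v' - 1 - -1 = v' := by ring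
            rwa [e]), Hc_symm H.hz hn H.kn H.hw (-1) 0,
        Hc_class H.hz hn H.kn H.hw (v := 0) (v' := v) (e := -1) (by rwa [sub_zero])]
    · intro z z1 z2 z3 z4 z5
      have z6 : k ∣ z + 1 := by
        have e : z - -1 = z + 1 := by ring
        rwa [e] at z3
      have := H.mate_near hv z2 z4
      have e : z + 1 - 1 = z := by ring
      have := H.pred_near z6 (z := v + n) (by omega) (by rw [e]; exact z5)
      omega
    · intro z z1 z2 z3 z4 z5
      rw [sub_zero] at z3
      have := H.pred_near hv' z2 z4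
      have := H.mate_near z3 (by omega) z5
      omega

/-- STEP II, if the second sights of the mates are mates. -/
theorem N2.main_two (H : N2 n k h r) (hq : k ∣ h + 2) {w : ℤ} (hw : k ∣ w) :
    r (w - 1) (w + 1) := by
  obtain ⟨w1, w2⟩ := H.wallvis
  have hb : 2 * h + 3 < n := by
    by_contra hc
    exact H.blind (by omega) (dvd_zero k) hq w1
  have h1 := (H.toS2 hb hq).main hw
  have hh := H.hh
  rw [rt_lt (by omega) (by omega)] at h1
  refine H.vis_of (by omega) (by omega) h1 fun hf => ?_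
  -- `w + 1` would hide `w - 1 + n`, impossible in this range
  have h2 := FH.near H.hz H.hJ (by omega) hf
  omega

/-- STEP II in the full `n`-gon: if the mates of a wall have no lap gaps, they are ears. -/
theorem N2.main (H : N2 n k h r) {w : ℤ} (hw : k ∣ w) : r (w - 1) (w + 1) := by
  by_cases hq : k ∣ h + 2
  · exact H.main_two hq hw
  · exact H.main_one hq hw

/-- STEP II in the full `n`-gon. -/
theorem step2n (hz : ZRel n r) (hk : 2 ≤ k) (hkn : k ∣ (n : ℤ)) (hn : 2 * k ≤ n) (hh : 1 ≤ h)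
    (hw : Wd n k r) (hJ : JB n 1 (h + 2) r) (wall : ∀ m, 1 < m → m < h + 2 → ¬ r 0 m)
    (lap : ∀ v, k ∣ v → ∀ y, v + 1 < y → y + 1 < v + n → ¬ FH r v y → ¬ FH r v (y + 1)) :
    ∀ w, k ∣ w → r (w - 1) (w + 1) := fun _ hw' =>
  (N2.mk hz hk hkn hn hh hw hJ wall lap).main hw'

end LemB

end VisMap
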