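import Pool.Agent.Lib.MP_9f3af0_lcB.LemB

/-!
# MP_9f3af0_lc: `T'`-structures (helper37)

A `T'`-structure is a relation on the integers (the vertices of a long polygon) in which all pairs at
a distance of more than `B` see each other: the forward and the backward views of a vertex are
separated.  `hf v e` and `hb v e` are the numbers of the vertices of the class of `e` that are
hidden from `v` ahead of `v` and behind `v`.
-/

namespace VisMap

namespace Tp

open Classical in
/-- The number of the vertices `z > v` of the class of `e` that are hidden from `v`. -/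
noncomputable def hf (k B : ℤ) (r : ℤ → ℤ → Prop) (v e : ℤ) : ℕ :=
  ((Finset.Ioc v (v + B)).filter fun z => k ∣ z - e ∧ ¬ r v z).card

open Classical in
/-- The number of the vertices `z < v` of the class of `e` that are hidden from `v`. -/
noncomputable def hb (k B : ℤ) (r : ℤ → ℤ → Prop) (v e : ℤ) : ℕ :=
  ((Finset.Ico (v - B) v).filter fun z => k ∣ z - e ∧ ¬ r v z).card

/-- The forward offsets of the vertices seen by `v`. -/
def NF (r : ℤ → ℤ → Prop) (v o : ℤ) : Prop := 0 < o ∧ r v (v + o)

/-- The backward offsets of the vertices seen by `v`. -/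
def NB (r : ℤ → ℤ → Prop) (v o : ℤ) : Prop := 0 < o ∧ r v (v - o)

/-- A `T'`-structure. -/
structure TZ (n : ℕ) (k B : ℤ) (r : ℤ → ℤ → Prop) : Prop where
  hk : 0 < k
  kn : k ∣ n
  hB : 0 ≤ B
  big : 2 * B + 2 < n
  symm : ∀ a b, r a b → r b a
  irrefl : ∀ a, ¬ r a a
  shift : ∀ a b, r (a + n) (b + n) ↔ r a b
  succ : ∀ a, r a (a + 1)
  far : ∀ a b, a + B < b → r a b
  cn : ∀ i s t : ℤ, i < s → s < t → r i s → r i t → (∀ m, s < m → m < t → ¬ r i m) → r s t
  cn' : ∀ i s t : ℤ, t < s → s < i → r i s → r i t → (∀ m, t < m → m < s → ¬ r i m) → r s t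
  X : ∀ a b c d : ℤ, a < b → b < c → c < d → r a c → r b d → r a d
  fw : ∀ v v', k ∣ v' - v → Match k (NF r v) (NF r v')
  bw : ∀ v v', k ∣ v' - v → Match k (NB r v) (NB r v')
  tot : ∀ v v' e, k ∣ v' - v → hf k B r v' e + hb k B r v' e = hf k B r v e + hb k B r v e

end Tp

end VisMap
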