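import Pool.Agent.Lib.MP_9f3af0_lcB.TZ

/-!
# MP_9f3af0_lc: basic facts on `T'`-structures (helper37)
-/

namespace VisMap

namespace Tp

variable {n : ℕ} {k B : ℤ} {r : ℤ → ℤ → Prop}

theorem TZ.npos (h : TZ n k B r) : (0 : ℤ) < n := by
  have := h.big
  have := h.hB
  omega

theorem TZ.comm (h : TZ n k B r) (a b : ℤ) : r a b ↔ r b a := ⟨h.symm _ _, h.symm _ _⟩

theorem TZ.pred (h : TZ n k B r) (a : ℤ) : r a (a - 1) := by
  have := h.succ (a - 1)
  rw [sub_add_cancel] at this
  exact h.symm _ _ this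

theorem TZ.far' (h : TZ n k B r) {a b : ℤ} (hab : b + B < a) : r a b := h.symm _ _ (h.far _ _ hab)

theorem TZ.near (h : TZ n k B r) {a b : ℤ} (hab : ¬ r a b) : b ≤ a + B ∧ a ≤ b + B := by
  refine ⟨?_, ?_⟩
  · by_contra hc
    exact hab (h.far _ _ (by omega))
  · by_contra hc
    exact hab (h.far' (by omega))

/-- If `v` sees `p` and not `y > p`, then all vertices in `[v, p)` hide `y`. -/
theorem TZ.hide (h : TZ n k B r) {v x p y : ℤ} (h1 : v ≤ x) (h2 : x < p) (h3 : p < y)
    (hp : r v p) (hy : ¬ r v y) : ¬ r x y := by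
  intro hxy
  rcases h1.lt_or_eq with hl | he
  · exact hy (h.X v x p y hl h2 h3 hp hxy)
  · rw [he] at hy
    exact hy hxy

/-- If `y` sees `p` and not `v < p`, then all vertices in `(p, y]` hide `v`. -/
theorem TZ.hide' (h : TZ n k B r) {v x p y : ℤ} (h1 : v < p) (h2 : p < x) (h3 : x ≤ y)
    (hp : r y p) (hy : ¬ r y v) : ¬ r x v := by
  intro hxy
  rcases h3.lt_or_eq with hl | he
  · exact hy (h.symm _ _ (h.X v p x y h1 h2 hl (h.symm _ _ hxy) (h.symm _ _ hp)))
  · rw [← he] at hy
    exact hy hxy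

/-- The next sight beyond `a`. -/
theorem TZ.next (h : TZ n k B r) {v a : ℤ} (hva : v ≤ a) :
    ∃ t, a < t ∧ r v t ∧ (∀ m, a < m → m < t → ¬ r v m) ∧ (t = a + 1 ∨ t ≤ v + B + 1) := by
  obtain ⟨t, t1, t2, t3, t4⟩ := exists_first (p := fun z => r v z) (a := a + 1)
    (b := max (a + 1) (v + B + 1)) (le_max_left _ _) (h.far _ _ (by
      have := le_max_right (a + 1) (v + B + 1)
      omega))
  refine ⟨t, by omega, t3, fun m m1 m2 => t4 m (by omega) m2, ?_⟩
  rcases le_or_gt (v + B + 1) (a + 1) with hl | hl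
  · rw [max_eq_left hl] at t2
    left; omega
  · rw [max_eq_right hl.le] at t2
    right; omega

/-- The last sight in `(v, a]`. -/
theorem TZ.last (h : TZ n k B r) {v a : ℤ} (hva : v < a) :
    ∃ s, v < s ∧ s ≤ a ∧ r v s ∧ ∀ m, s < m → m ≤ a → ¬ r v m := by
  obtain ⟨s, s1, s2, s3, s4⟩ := exists_last (p := fun z => r v z) (a := v + 1) (b := a)
    (by omega) (h.succ v)
  exact ⟨s, by omega, s2, s3, s4⟩

/-- The next sight behind `a`. -/
theorem TZ.next' (h : TZ n k B r) {v a : ℤ} (hva : a ≤ v) :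
    ∃ t, t < a ∧ r v t ∧ (∀ m, t < m → m < a → ¬ r v m) ∧ (t = a - 1 ∨ v - B - 1 ≤ t) := by
  obtain ⟨t, t1, t2, t3, t4⟩ := exists_last (p := fun z => r v z) (b := a - 1)
    (a := min (a - 1) (v - B - 1)) (min_le_left _ _) (h.far' (by
      have := min_le_right (a - 1) (v - B - 1)
      omega))
  refine ⟨t, by omega, t3, fun m m1 m2 => t4 m m1 (by omega), ?_⟩
  rcases le_or_gt (a - 1) (v - B - 1) with hl | hl
  · rw [min_eq_left hl] at t1
    left; omega
  · rw [min_eq_right hl.le] at t1
    right; omega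

/-- The first sight in `[a, v)`. -/
theorem TZ.last' (h : TZ n k B r) {v a : ℤ} (hva : a < v) :
    ∃ s, a ≤ s ∧ s < v ∧ r v s ∧ ∀ m, a ≤ m → m < s → ¬ r v m := by
  obtain ⟨s, s1, s2, s3, s4⟩ := exists_first (p := fun z => r v z) (b := v - 1) (a := a)
    (by omega) (h.pred v)
  exact ⟨s, s1, by omega, s3, s4⟩

theorem TZ.shiftj (h : TZ n k B r) (a b j : ℤ) : r (a + j * n) (b + j * n) ↔ r a b := by
  have h1 := per_mul (p := fun z => r (a + (z - a)) (b + (z - a))) (n := n) (fun z => by
    have e1 : a + (z + n - a) = a + (z - a) + n := by ring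
    have e2 : b + (z + n - a) = b + (z - a) + n := by ring
    rw [e1, e2]
    exact h.shift _ _) a j
  have e1 : a + (a + j * n - a) = a + j * n := by ring
  have e2 : b + (a + j * n - a) = b + j * n := by ring
  have e3 : a + (a - a) = a := by ring
  have e4 : b + (a - a) = b := by ring
  simp only [e1, e2, e3, e4] at h1
  exact h1

theorem hf_mirror (v e : ℤ) : hf k B (mirror r) v e = hb k B r (-v) (-e) := by
  classical
  unfold hf hb
  refine Finset.card_bij' (fun z _ => -z) (fun z _ => -z) ?_ ?_ ?_ ?_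
  · intro z hz
    rw [Finset.mem_filter, Finset.mem_Ioc] at hz
    rw [Finset.mem_filter, Finset.mem_Ico]
    refine ⟨⟨by omega, by omega⟩, ?_, hz.2.2⟩
    have e1 : -z - -e = -(z - e) := by ring
    rw [e1]
    exact (dvd_neg).2 hz.2.1
  · intro z hz
    rw [Finset.mem_filter, Finset.mem_Ico] at hz
    rw [Finset.mem_filter, Finset.mem_Ioc]
    refine ⟨⟨by omega, by omega⟩, ?_, ?_⟩
    · have e1 : -z - e = -(z - -e) := by ring
      rw [e1]
      exact (dvd_neg).2 hz.2.1
    · show ¬ r (-v) (- -z)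
      rw [neg_neg]
      exact hz.2.2
  · intro z _
    exact neg_neg z
  · intro z _
    exact neg_neg z

theorem hb_mirror (v e : ℤ) : hb k B (mirror r) v e = hf k B r (-v) (-e) := by
  classical
  unfold hf hb
  refine Finset.card_bij' (fun z _ => -z) (fun z _ => -z) ?_ ?_ ?_ ?_
  · intro z hz
    rw [Finset.mem_filter, Finset.mem_Ico] at hz
    rw [Finset.mem_filter, Finset.mem_Ioc]
    refine ⟨⟨by omega, by omega⟩, ?_, hz.2.2⟩
    have e1 : -z - -e = -(z - e) := by ring
    rw [e1]
    exact (dvd_neg).2 hz.2.1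
  · intro z hz
    rw [Finset.mem_filter, Finset.mem_Ioc] at hz
    rw [Finset.mem_filter, Finset.mem_Ico]
    refine ⟨⟨by omega, by omega⟩, ?_, ?_⟩
    · have e1 : -z - e = -(z - -e) := by ring
      rw [e1]
      exact (dvd_neg).2 hz.2.1
    · show ¬ r (-v) (- -z)
      rw [neg_neg]
      exact hz.2.2
  · intro z _
    exact neg_neg z
  · intro z _
    exact neg_neg z

theorem NF_mirror (v : ℤ) : NF (mirror r) v = NB r (-v) := by
  funext o
  unfold NF NB mirror
  have e : -(v + o) = -v - o := by ring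
  rw [e]

theorem NB_mirror (v : ℤ) : NB (mirror r) v = NF r (-v) := by
  funext o
  unfold NF NB mirror
  have e : -(v - o) = -v + o := by ring
  rw [e]

/-- The mirror image of a `T'`-structure. -/
theorem TZ.mirror (h : TZ n k B r) : TZ n k B (VisMap.mirror r) where
  hk := h.hk
  kn := h.kn
  hB := h.hB
  big := h.big
  symm a b hab := h.symm _ _ hab
  irrefl a := h.irrefl _
  shift a b := by
    show r (-(a + n)) (-(b + n)) ↔ r (-a) (-b)
    have e1 : -a = -(a + (n : ℤ)) + n := by ring
    have e2 : -b = -(b + (n : ℤ)) + n := by ring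
    rw [e1, e2]
    exact (h.shift _ _).symm
  succ a := by
    show r (-a) (-(a + 1))
    have e1 : -(a + 1) = -a - 1 := by ring
    rw [e1]
    exact h.pred _
  far a b hab := h.far' (by omega)
  cn i s t h1 h2 hs ht hm := h.cn' (-i) (-s) (-t) (by omega) (by omega) hs ht
    fun m m1 m2 m3 => hm (-m) (by omega) (by omega) (by
      show r (-i) (- -m)
      rw [neg_neg]
      exact m3)
  cn' i s t h1 h2 hs ht hm := h.cn (-i) (-s) (-t) (by omega) (by omega) hs ht
    fun m m1 m2 m3 => hm (-m) (by omega) (by omega) (by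
      show r (-i) (- -m)
      rw [neg_neg]
      exact m3)
  X a b c d h1 h2 h3 hac hbd := h.symm _ _ (h.X (-d) (-c) (-b) (-a) (by omega) (by omega) (by omega)
    (h.symm _ _ hbd) (h.symm _ _ hac))
  fw v v' hv := by
    rw [NF_mirror, NF_mirror]
    refine h.bw _ _ ?_
    have e1 : -v' - -v = -(v' - v) := by ring
    rw [e1]
    exact (dvd_neg).2 hv
  bw v v' hv := by
    rw [NB_mirror, NB_mirror]
    refine h.fw _ _ ?_
    have e1 : -v' - -v = -(v' - v) := by ring
    rw [e1]
    exact (dvd_neg).2 hv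
  tot v v' e hv := by
    rw [hf_mirror, hb_mirror, hf_mirror, hb_mirror]
    have h1 := h.tot (-v) (-v') (-e) (by
      have e1 : -v' - -v = -(v' - v) := by ring
      rw [e1]
      exact (dvd_neg).2 hv)
    omega

/-- The number of the elements of a class in `(a, b]`. -/
theorem card_cls (hk : 0 < k) (a b e : ℤ) (hab : a ≤ b) :
    (((Finset.Ioc a b).filter fun z => k ∣ z - e).card : ℤ) = (b - e) / k - (a - e) / k := by
  obtain ⟨j, rfl⟩ : ∃ j : ℕ, b = a + j := ⟨(b - a).toNat, by omega⟩
  clear hab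
  induction j with
  | zero => simp
  | succ j ih =>
    have e1 : Finset.Ioc a (a + (j + 1 : ℕ)) = insert (a + (j + 1 : ℕ)) (Finset.Ioc a (a + j)) := by
      ext z
      simp only [Finset.mem_Ioc, Finset.mem_insert]
      push_cast
      omega
    rw [e1, Finset.filter_insert]
    have e2 : (a + ((j + 1 : ℕ) : ℤ)) ∉ (Finset.Ioc a (a + j)).filter fun z => k ∣ z - e := by
      rw [Finset.mem_filter, Finset.mem_Ioc]
      push_cast
      omega
    have h1 := Int.emod_add_mul_ediv (a + j - e) k
    have h2 := Int.emod_nonneg (a + j - e) hk.ne'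
    have h3 := Int.emod_lt_of_pos (a + j - e) hk
    by_cases hd : k ∣ a + ((j + 1 : ℕ) : ℤ) - e
    · rw [if_pos hd, Finset.card_insert_of_notMem e2]
      push_cast at hd ⊢
      rw [ih]
      obtain ⟨c, hc⟩ := hd
      have h4 : (a + (j + 1) - e) / k = c := by
        rw [hc]; exact Int.mul_ediv_cancel_left _ hk.ne'
      have h5 : (a + j - e) / k = c - 1 := by
        have e3 : a + j - e = (k - 1) + k * (c - 1) := by linarith
        rw [e3, Int.add_mul_ediv_left _ _ hk.ne', Int.ediv_eq_zero_of_lt (by omega) (by omega),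
          zero_add]
      rw [h4, h5]
      ring
    · rw [if_neg hd, ih]
      push_cast at hd ⊢
      have h4 : (a + (j + 1) - e) / k = (a + j - e) / k := by
        have h5 : (a + j - e) % k ≠ k - 1 := by
          intro h6
          apply hd
          refine ⟨(a + j - e) / k + 1, ?_⟩
          linarith
        generalize hR : (a + j - e) % k = R at *
        generalize hQ : (a + j - e) / k = Q at *
        have e3 : a + (j + 1) - e = (R + 1) + k * Q := by linarith
        have h6 : R + 1 < k := by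
          have : R ≠ k - 1 := h5
          omega
        rw [e3, Int.add_mul_ediv_left _ _ hk.ne', Int.ediv_eq_zero_of_lt (by omega) h6, zero_add]
      rw [h4]

end Tp

end VisMap
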