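import Pool.Agent.Lib.MP_9f3af0_lcB.TZBase

/-!
# MP_9f3af0_lc: counting in `T'`-structures (helper37)

`TZ.hf_add`: for vertices of one class the difference of the numbers of the hidden vertices ahead is
the same for all classes.  `TZ.dc`: double counting over a period.
-/

namespace VisMap

namespace Tp

variable {n : ℕ} {k B : ℤ} {r : ℤ → ℤ → Prop}

open Classical in
/-- The number of the vertices of the class of `e` in `(v, v + L]` seen by `v`. -/
noncomputable def vf (k : ℤ) (r : ℤ → ℤ → Prop) (v L e : ℤ) : ℕ :=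
  ((Finset.Ioc v (v + L)).filter fun z => k ∣ z - e ∧ r v z).card

theorem TZ.hf_vf (h : TZ n k B r) {v L : ℤ} (hL : B ≤ L) (e : ℤ) :
    (hf k B r v e : ℤ) + vf k r v L e = (v + L - e) / k - (v - e) / k := by
  classical
  have hB := h.hB
  rw [← card_cls h.hk v (v + L) e (by omega)]
  have h1 := Finset.card_filter_add_card_filter_not
    (s := (Finset.Ioc v (v + L)).filter fun z => k ∣ z - e) (p := fun z => r v z)
  rw [Finset.filter_filter, Finset.filter_filter] at h1
  have h2 : hf k B r v e =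
      ((Finset.Ioc v (v + L)).filter fun z => k ∣ z - e ∧ ¬ r v z).card := by
    unfold hf
    congr 1
    ext z
    simp only [Finset.mem_filter, Finset.mem_Ioc]
    constructor
    · rintro ⟨⟨a1, a2⟩, a3, a4⟩
      exact ⟨⟨a1, by omega⟩, a3, a4⟩
    · rintro ⟨⟨a1, a2⟩, a3, a4⟩
      exact ⟨⟨a1, (h.near a4).1⟩, a3, a4⟩
  unfold vf
  rw [h2]
  push_cast [← h1]
  ring

theorem vf_match {v v' L e : ℤ} {φ : ℤ → ℤ} (hL : NF r v L)
    (f1 : ∀ o, NF r v o → NF r v' (φ o)) (f2 : ∀ o, NF r v o → k ∣ φ o - o)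
    (f3 : ∀ a b, NF r v a → NF r v b → a < b → φ a < φ b)
    (f4 : ∀ o', NF r v' o' → ∃ o, NF r v o ∧ φ o = o') (hv : k ∣ v' - v) :
    vf k r v L e = vf k r v' (φ L) e := by
  classical
  unfold vf
  have hmono : ∀ o, NF r v o → (o ≤ L ↔ φ o ≤ φ L) := by
    intro o ho
    constructor
    · intro h1
      rcases h1.lt_or_eq with h2 | h2
      · exact (f3 _ _ ho hL h2).le
      · rw [h2]
    · intro h1
      by_contra h2
      have := f3 _ _ hL ho (by omega)
      omega
  refine Finset.card_bij (fun z _ => v' + φ (z - v)) ?_ ?_ ?_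
  · intro z hz
    rw [Finset.mem_filter, Finset.mem_Ioc] at hz ⊢
    have hN : NF r v (z - v) := ⟨by omega, by rw [add_sub_cancel]; exact hz.2.2⟩
    have h1 := f1 _ hN
    refine ⟨⟨by have := h1.1; omega, by have := (hmono _ hN).1 (by omega); omega⟩, ?_, h1.2⟩
    have e1 : v' + φ (z - v) - e = (z - e) + (v' - v) + (φ (z - v) - (z - v)) := by ring
    rw [e1]
    exact dvd_add (dvd_add hz.2.1 hv) (f2 _ hN)
  · intro a ha b hb hab
    rw [Finset.mem_filter, Finset.mem_Ioc] at ha hb
    have hNa : NF r v (a - v) := ⟨by omega, by rw [add_sub_cancel]; exact ha.2.2⟩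
    have hNb : NF r v (b - v) := ⟨by omega, by rw [add_sub_cancel]; exact hb.2.2⟩
    have hab' : φ (a - v) = φ (b - v) := by linarith
    rcases lt_trichotomy (a - v) (b - v) with h1 | h1 | h1
    · have := f3 _ _ hNa hNb h1; omega
    · omega
    · have := f3 _ _ hNb hNa h1; omega
  · intro z hz
    rw [Finset.mem_filter, Finset.mem_Ioc] at hz
    obtain ⟨o, ho, ho'⟩ := f4 (z - v') ⟨by omega, by rw [add_sub_cancel]; exact hz.2.2⟩
    have h1 : o ≤ L := (hmono o ho).2 (by omega)
    refine ⟨v + o, ?_, ?_⟩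
    · rw [Finset.mem_filter, Finset.mem_Ioc]
      refine ⟨⟨by have := ho.1; omega, by omega⟩, ?_, ho.2⟩
      have e1 : v + o - e = (z - e) - (v' - v) - (φ o - o) := by rw [ho']; ring
      rw [e1]
      exact dvd_sub (dvd_sub hz.2.1 hv) (f2 _ ho)
    · have e1 : v + o - v = o := by ring
      show v' + φ (v + o - v) = z
      rw [e1, ho']
      ring

/-- The shift of the far views of two vertices of one class. -/
theorem TZ.hf_add (h : TZ n k B r) {v v' : ℤ} (hv : k ∣ v' - v) :
    ∃ E : ℤ, ∀ e, (hf k B r v' e : ℤ) = hf k B r v e + E := by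
  have hB := h.hB
  have hk := h.hk
  obtain ⟨φ, f1, f2, f3, f4⟩ := h.fw v v' hv
  have hfar : ∀ o, B < o → NF r v o := fun o ho => ⟨by omega, h.far _ _ (by omega)⟩
  have hgrow : ∀ j : ℕ, φ (B + 1) + j ≤ φ (B + 1 + j) := by
    intro j
    induction j with
    | zero => simp
    | succ j ih =>
      have := f3 (B + 1 + j) (B + 1 + (j + 1 : ℕ)) (hfar _ (by omega)) (hfar _ (by push_cast; omega))
        (by push_cast; omega)
      push_cast at this ih ⊢
      omega
  have hL : NF r v (2 * B + 1) := hfar _ (by omega)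
  have hφL : B ≤ φ (2 * B + 1) := by
    have h1 := hgrow B.toNat
    have h2 := (f1 _ (hfar (B + 1) (by omega))).1
    have e : B + 1 + (B.toNat : ℤ) = 2 * B + 1 := by omega
    rw [e] at h1
    omega
  obtain ⟨a, ha⟩ := hv
  obtain ⟨b, hb⟩ := f2 _ hL
  refine ⟨b, fun e => ?_⟩
  have h1 := h.hf_vf (v := v) (L := 2 * B + 1) (by omega) e
  have h2 := h.hf_vf (v := v') (L := φ (2 * B + 1)) hφL e
  have h3 := vf_match (e := e) hL f1 f2 f3 f4 (v' := v') ⟨a, ha⟩
  rw [← h3] at h2
  have e1 : v' + φ (2 * B + 1) - e = (v + (2 * B + 1) - e) + k * (a + b) := by linarith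
  have e2 : v' - e = (v - e) + k * a := by linarith
  rw [e1, e2, Int.add_mul_ediv_left _ _ hk.ne', Int.add_mul_ediv_left _ _ hk.ne'] at h2
  omega

/-- The same for the backward views. -/
theorem TZ.hb_add (h : TZ n k B r) {v v' : ℤ} (hv : k ∣ v' - v) :
    ∃ E : ℤ, ∀ e, (hb k B r v' e : ℤ) = hb k B r v e + E := by
  obtain ⟨E, hE⟩ := h.mirror.hf_add (v := -v) (v' := -v') (by
    have e1 : -v' - -v = -(v' - v) := by ring
    rw [e1]
    exact (dvd_neg).2 hv)
  refine ⟨E, fun e => ?_⟩
  have := hE (-e)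
  rw [hf_mirror, hf_mirror, neg_neg, neg_neg, neg_neg] at this
  exact this

/-- The shifts of the forward and the backward views cancel. -/
theorem TZ.shift_total (h : TZ n k B r) {v v' : ℤ} (hv : k ∣ v' - v) :
    ∃ E : ℤ, ∀ e, (hf k B r v' e : ℤ) = hf k B r v e + E ∧
      (hb k B r v' e : ℤ) = hb k B r v e - E := by
  obtain ⟨E, hE⟩ := h.hf_add hv
  refine ⟨E, fun e => ⟨hE e, ?_⟩⟩
  have h1 := h.tot v v' e hv
  have h2 := hE e
  omega

theorem TZ.hf_sum (h : TZ n k B r) (v e : ℤ) : hf k B r v e =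
    ∑ o ∈ Finset.Ioc 0 B, (open Classical in if k ∣ v + o - e ∧ ¬ r v (v + o) then 1 else 0) := by
  classical
  rw [← Finset.card_filter]
  unfold hf
  refine Finset.card_bij' (fun z _ => z - v) (fun o _ => v + o) ?_ ?_ ?_ ?_
  · intro z hz
    rw [Finset.mem_filter, Finset.mem_Ioc] at hz ⊢
    refine ⟨⟨by omega, by omega⟩, ?_⟩
    rw [add_sub_cancel]
    exact hz.2
  · intro o ho
    rw [Finset.mem_filter, Finset.mem_Ioc] at ho ⊢
    exact ⟨⟨by omega, by omega⟩, ho.2⟩
  · intro z _
    show v + (z - v) = z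
    ring
  · intro o _
    show v + o - v = o
    ring

theorem TZ.hb_sum (h : TZ n k B r) (v e : ℤ) : hb k B r v e =
    ∑ o ∈ Finset.Ioc 0 B, (open Classical in if k ∣ v - o - e ∧ ¬ r v (v - o) then 1 else 0) := by
  classical
  rw [← Finset.card_filter]
  unfold hb
  refine Finset.card_bij' (fun z _ => v - z) (fun o _ => v - o) ?_ ?_ ?_ ?_
  · intro z hz
    rw [Finset.mem_filter, Finset.mem_Ico] at hz
    rw [Finset.mem_filter, Finset.mem_Ioc]
    refine ⟨⟨by omega, by omega⟩, ?_⟩
    rw [sub_sub_cancel]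
    exact hz.2
  · intro o ho
    rw [Finset.mem_filter, Finset.mem_Ioc] at ho
    rw [Finset.mem_filter, Finset.mem_Ico]
    exact ⟨⟨by omega, by omega⟩, ho.2⟩
  · intro z _
    show v - (v - z) = z
    ring
  · intro o _
    show v - (v - o) = o
    ring

open Classical in
/-- Double counting of the hidden pairs of a `c`-vertex and an `e`-vertex ahead of it. -/
theorem TZ.dc (h : TZ n k B r) (c e : ℤ) :
    ∑ v ∈ (Finset.Ico (0 : ℤ) n).filter (fun z => k ∣ z - c), hf k B r v e =
      ∑ z ∈ (Finset.Ico (0 : ℤ) n).filter (fun z => k ∣ z - e), hb k B r z c := by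
  have hn0 : 0 < n := by have := h.npos; omega
  rw [Finset.sum_congr rfl fun v _ => h.hf_sum v e, Finset.sum_congr rfl fun v _ => h.hb_sum v c,
    Finset.sum_comm, Finset.sum_comm (s := (Finset.Ico (0 : ℤ) n).filter (fun z => k ∣ z - e))]
  refine Finset.sum_congr rfl fun o _ => ?_
  rw [← Finset.card_filter, ← Finset.card_filter, Finset.filter_filter, Finset.filter_filter]
  rw [← Cut.card_shift (P := fun z => k ∣ z - e ∧ k ∣ z - o - c ∧ ¬ r z (z - o)) hn0 (fun z => ?_) o]
  · congr 1
    ext z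
    simp only [Finset.mem_filter, Finset.mem_Ico]
    have e1 : o + z - o - c = z - c := by ring
    have e2 : o + z - e = z + o - e := by ring
    have e3 : o + z - o = z := by ring
    have e4 : o + z = z + o := by ring
    rw [e1, e2, e3, e4, h.comm (z + o) z]
    tauto
  · have e1 : z + (n : ℤ) - e = (z - e) + n := by ring
    have e2 : z + (n : ℤ) - o - c = (z - o - c) + n := by ring
    have e3 : z + (n : ℤ) - o = (z - o) + n := by ring
    rw [e1, e2, e3, dvd_add_left h.kn, dvd_add_left h.kn, h.shift]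

end Tp

end VisMap
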