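import Pool.Agent.Lib.MP_9f3af0_lcB.Clos
import Pool.Agent.Lib.MP_9f3af0_lcB.CutTZ

/-!
# MP_9f3af0_lc: the reduction to the longest terminal gap (helper83; Lean by helper70)
-/

namespace VisMap

namespace Tp

/-- If the frame of the longest terminal gap is impossible, then every `T'`-structure has a linked
class. -/
theorem linkTZ_of_term
    (H : ∀ (n : ℕ) (k B : ℤ) (r : ℤ → ℤ → Prop) (c : ℕ) (l v g t : ℤ), TZ n k B r → 2 ≤ k →
      NoWide k r → TermF k B r c l v g t → False) :
    LinkTZ :=
  linkTZ_of fun n k B _ h hk hc => by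
    obtain ⟨r', h', hc', c, l, v, g, t, F⟩ := h.exists_term hk hc
    exact H n k B r' c l v g t h' hk hc' F

end Tp

end VisMap
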