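import Pool.Agent.Lib.MP_9f3af0_lc.Cut

/-!
# MP_9f3af0_lc: every class has walls on both sides (helper37)

In a structure without chords `(u, u + d)`, `2 ≤ d ≤ k`, at all vertices `u` of one class, every
class contains a vertex whose first forward gap contains `k` vertices, and a vertex whose first
backward gap contains `k` vertices.  So it is enough to exclude structures with such walls in every
class.
-/

namespace VisMap

namespace Cut

variable {n : ℕ} {k : ℤ} {r : ℤ → ℤ → Prop}

/-- Without class-wide chords, every class contains a vertex `v` which sees nothing in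
`(v + 1, v + k + 1]`. -/
theorem alpha_two (h : ZRel n r) (hkn : k + 1 < n) (hk : 2 ≤ k) (hw : Wd n k r)
    (hc : ∀ c d, 2 ≤ d → d ≤ k → ¬ ∀ u, k ∣ u - c → r u (u + d)) (c : ℤ) :
    ∃ v, k ∣ v - c ∧ ∀ m, v + 1 < m → m ≤ v + k + 1 → ¬ r v m := by
  by_contra hcon
  have hex : ∀ v, k ∣ v - c → ∃ d, 1 < d ∧ d ≤ k + 1 ∧ r v (v + d) ∧
      ∀ m, 1 < m → m < d → ¬ r v (v + m) := by
    intro v hv
    by_contra hno
    refine hcon ⟨v, hv, fun m m1 m2 m3 => ?_⟩
    obtain ⟨d, ⟨d1, d2⟩, d3⟩ := Int.exists_least_of_bdd (P := fun d => 1 < d ∧ r v (v + d))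
      ⟨1, fun z hz => hz.1.le⟩ ⟨m - v, by omega, by
        have e : v + (m - v) = m := by ring
        rw [e]; exact m3⟩
    have d4 := d3 (m - v) ⟨by omega, by
      have e : v + (m - v) = m := by ring
      rw [e]; exact m3⟩
    refine hno ⟨d, d1, by omega, d2, fun z z1 z2 z3 => ?_⟩
    have := d3 z ⟨z1, z3⟩
    omega
  obtain ⟨d, d1, d2, d3, d4⟩ := hex c (by simp)
  have hall : ∀ u, k ∣ u - c → r u (u + d) ∧ ∀ m, 1 < m → m < d → ¬ r u (u + m) := by
    intro u hu
    obtain ⟨d', e1, e2, e3, e4⟩ := hex u hu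
    have : k ∣ d' - d := by
      rcases le_total d d' with hle | hle
      · exact second_dvd hw h hu d1 (by omega) d3 d4 e1 (by omega) e3 e4 hle
      · have hu' : k ∣ c - u := by
          have := (dvd_neg).2 hu
          rwa [neg_sub] at this
        have := second_dvd hw h hu' e1 (by omega) e3 e4 d1 (by omega) d3 d4 hle
        have := (dvd_neg).2 this
        rwa [neg_sub] at this
    have h0 : d' - d = 0 := Int.eq_zero_of_abs_lt_dvd this (by
      rw [abs_lt]; constructor <;> omega)
    have e : d = d' := by omega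
    rw [e]; exact ⟨e3, e4⟩
  rcases eq_or_lt_of_le d2 with hd | hd
  · -- the second sight is `v + k + 1`: the class of `v + 1` is linked
    refine hc (c + 1) k hk le_rfl fun u hu => ?_
    obtain ⟨h5, h6⟩ := hall (u - 1) (by
      have e : u - 1 - c = u - (c + 1) := by ring
      rw [e]; exact hu)
    have h7 := h.succ (u - 1)
    rw [sub_add_cancel] at h7
    rw [hd] at h5
    have e : u - 1 + (k + 1) = u + k := by ring
    rw [e] at h5
    exact h.cn (u - 1) u (u + k) (by omega) (by omega) (by omega) h7 h5 fun m m1 m2 m3 =>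
      h6 (m - (u - 1)) (by omega) (by omega) (by
        have e : u - 1 + (m - (u - 1)) = m := by ring
        rw [e]; exact m3)
  · exact hc c d (by omega) (by omega) fun u hu => (hall u hu).1

/-- The mirror image of `alpha_two`. -/
theorem alpha_two' (h : ZRel n r) (hkn : k + 1 < n) (hk : 2 ≤ k) (hw : Wd n k r)
    (hc : ∀ c d, 2 ≤ d → d ≤ k → ¬ ∀ u, k ∣ u - c → r u (u + d)) (c : ℤ) :
    ∃ v, k ∣ v - c ∧ ∀ m, v - k - 1 ≤ m → m < v - 1 → ¬ r v m := by
  obtain ⟨v, hv, hv2⟩ := alpha_two (zrel_mir h) hkn hk (wd_mir h hw)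
    (fun c' d d1 d2 hv => hc (-c' - d) d d1 d2 fun u hu => by
      have h1 := hv (-u - d) (by
        have e : -u - d - c' = -(u - (-c' - d)) := by ring
        rw [e]; exact (dvd_neg).2 hu)
      unfold mir at h1
      have e1 : -(-u - d) = u + d := by ring
      have e2 : -(-u - d + d) = u := by ring
      rw [e1, e2] at h1
      exact h.symm _ _ h1) (-c)
  refine ⟨-v, by
    have e : -v - c = -(v - -c) := by ring
    rw [e]; exact (dvd_neg).2 hv, fun m m1 m2 m3 => hv2 (-m) (by omega) (by omega) ?_⟩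
  show r (-v) (- -m)
  rwa [neg_neg]

/-- It is enough to exclude structures in which every class has a vertex with `k` hidden vertices in
its first forward gap and a vertex with `k` hidden vertices in its first backward gap. -/
theorem linked_of_walls
    (H : ∀ (n : ℕ) (k : ℤ) (r : ℤ → ℤ → Prop), ZRel n r → 2 ≤ k → k ∣ (n : ℤ) → 4 * k ≤ n →
      Wd n k r → (∀ c d, 2 ≤ d → d ≤ k → ¬ ∀ u, k ∣ u - c → r u (u + d)) →
      (∀ c, ∃ v, k ∣ v - c ∧ ∀ m, v + 1 < m → m ≤ v + k + 1 → ¬ r v m) →
      (∀ c, ∃ v, k ∣ v - c ∧ ∀ m, v - k - 1 ≤ m → m < v - 1 → ¬ r v m) → False) :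
    ∀ (n : ℕ) (k : ℤ) (r : ℤ → ℤ → Prop), ZRel n r → 0 < k → k ∣ (n : ℤ) → k < n → Wd n k r →
      Lkd k r :=
  linked_of fun n k r h hk hd h4 hw hc => H n k r h hk hd h4 hw hc
    (alpha_two h (by omega) hk hw hc) (alpha_two' h (by omega) hk hw hc)

end Cut

end VisMap
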